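import Pool.Agent.Helper13.AM.K1
import Pool.Agent.Helper29.AM.Lev
import Pool.Agent.Helper29.AM.LA1

/-!
AM-K2. Elementary facts on smooth psh functions (`lev`, `hess`, `SPsh`; the calculus is in
Helper29/AM/Lev.lean: `lev_congr`, `lev_add`, `lev_const_mul`, `lev_comp_real`, `lev_eq_lf`,
`hess_add`, `hess_normSq`, `hess_isHermitian`; matrices in Helper29/AM/LA1.lean:
`posSemidef_iff_lf`).

Regularised maximum `w = RM s u v = v + s m((u-v)/s)` (m = `mm`), `g = (u - v)/s`: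
`lev w ξ = (1 - m'(g)) lev v ξ + m'(g) lev u ξ + (s/4) m''(g) ((dg ξ)² + (dg (iξ))²) ≥ 0`.
A positive semidefinite matrix has determinant real and `≥ 0`.
-/

set_option autoImplicit false

namespace Pool.Agent.Helper13.AM

open MeasureTheory Set Filter Topology Metric
open Pool.Agent.Helper29.AM
open scoped ComplexOrder

variable {n : ℕ}

private theorem evEq77 {W : Set (V n)} (hW : IsOpen W) {u v : V n → ℝ} (h : ∀ z ∈ W, u z = v z)
    {z : V n} (hz : z ∈ W) : u =ᶠ[𝓝 z] v := by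
  filter_upwards [hW.mem_nhds hz] with y hy
  exact h y hy

private theorem cd77 {W : Set (V n)} (hW : IsOpen W) {u : V n → ℝ}
    (hu : ContDiffOn ℝ (⊤ : ℕ∞) u W) {z : V n} (hz : z ∈ W) : ContDiffAt ℝ 2 u z :=
  (hu.contDiffAt (hW.mem_nhds hz)).of_le (WithTop.coe_le_coe.2 (le_top : (2 : ℕ∞) ≤ ⊤))

private theorem D2c77 (c : ℝ) (z v w : V n) : D2 (fun _ : V n => c) z v w = 0 := by
  unfold D2
  simp

private theorem hessc77 (c : ℝ) (z : V n) : hess (fun _ : V n => c) z = 0 := by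
  ext j k
  unfold hess
  simp [D2c77]

theorem DD_congr {W : Set (V n)} (hW : IsOpen W) {u v : V n → ℝ} (h : ∀ z ∈ W, u z = v z) :
    ∀ z ∈ W, DD u z = DD v z := by
  intro z hz
  unfold DD
  rw [hess_congr (evEq77 hW h hz)]

theorem SPsh.congr {W : Set (V n)} (hW : IsOpen W) {u v : V n → ℝ} (hu : SPsh W u)
    (h : ∀ z ∈ W, u z = v z) : SPsh W v := by
  refine ⟨hu.smooth.congr fun z hz => (h z hz).symm, fun z hz w => ?_⟩
  rw [← lev_congr (evEq77 hW h hz) w]
  exact hu.psh z hz w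

theorem SPsh.mono {W W' : Set (V n)} {u : V n → ℝ} (hu : SPsh W u) (h : W' ⊆ W) : SPsh W' u :=
  ⟨hu.smooth.mono h, fun z hz w => hu.psh z (h hz) w⟩

theorem SPsh.add {W : Set (V n)} (hW : IsOpen W) {u v : V n → ℝ} (hu : SPsh W u)
    (hv : SPsh W v) : SPsh W (fun z => u z + v z) := by
  refine ⟨hu.smooth.add hv.smooth, fun z hz w => ?_⟩
  rw [lev_add (cd77 hW hu.smooth hz) (cd77 hW hv.smooth hz)]
  exact add_nonneg (hu.psh z hz w) (hv.psh z hz w)

theorem SPsh.smul {W : Set (V n)} (hW : IsOpen W) {u : V n → ℝ} (hu : SPsh W u) {c : ℝ}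
    (hc : 0 ≤ c) : SPsh W (fun z => c * u z) := by
  refine ⟨contDiffOn_const.mul hu.smooth, fun z hz w => ?_⟩
  rw [lev_const_mul c (cd77 hW hu.smooth hz)]
  exact mul_nonneg hc (hu.psh z hz w)

theorem SPsh.const (W : Set (V n)) (c : ℝ) : SPsh W (fun _ => c) :=
  ⟨contDiffOn_const, fun _ _ w => (lev_const c w).ge⟩

theorem SPsh.RM {W : Set (V n)} (hW : IsOpen W) {u v : V n → ℝ} (hu : SPsh W u)
    (hv : SPsh W v) {s : ℝ} (hs : 0 < s) : SPsh W (fun z => RM s (u z) (v z)) := by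
  refine ⟨(RM_contDiff s).comp_contDiffOn (hu.smooth.prodMk hv.smooth), fun z hz w => ?_⟩
  have cu := cd77 hW hu.smooth hz
  have cv := cd77 hW hv.smooth hz
  have cn : ContDiffAt ℝ 2 (fun y => (-1) * v y) z := contDiffAt_const.mul cv
  have cd : ContDiffAt ℝ 2 (fun y => u y + (-1) * v y) z := cu.add cn
  have cg : ContDiffAt ℝ 2 (fun y => s⁻¹ * (u y + (-1) * v y)) z := contDiffAt_const.mul cd
  have cm : ContDiffAt ℝ 2 mm (s⁻¹ * (u z + (-1) * v z)) :=
    (mm_contDiff.of_le (WithTop.coe_le_coe.2 (le_top : (2 : ℕ∞) ≤ ⊤))).contDiffAt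
  have cmg : ContDiffAt ℝ 2 (fun y => mm (s⁻¹ * (u y + (-1) * v y))) z :=
    ContDiffAt.comp (g := mm) (f := fun y => s⁻¹ * (u y + (-1) * v y)) z cm cg
  have csm : ContDiffAt ℝ 2 (fun y => s * mm (s⁻¹ * (u y + (-1) * v y))) z := contDiffAt_const.mul cmg
  have e : (fun y => AM.RM s (u y) (v y)) = fun y => v y + s * mm (s⁻¹ * (u y + (-1) * v y)) := by
    funext y
    unfold AM.RM
    congr 3
    rw [div_eq_inv_mul]
    ring
  rw [e, lev_add cv csm, lev_const_mul s cmg, lev_comp_real (u := fun y => s⁻¹ * (u y + (-1) * v y)) cm cg,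
    lev_const_mul s⁻¹ cd, lev_add cu cn, lev_const_mul (-1) cv]
  obtain ⟨m0, m1⟩ := mm_deriv_mem (s⁻¹ * (u z + (-1) * v z))
  have m2 := mm_deriv2_nonneg (s⁻¹ * (u z + (-1) * v z))
  set a := deriv mm (s⁻¹ * (u z + (-1) * v z)) with ha
  set b := deriv (deriv mm) (s⁻¹ * (u z + (-1) * v z)) with hb
  have hU := hu.psh z hz w
  have hV := hv.psh z hz w
  set X := (fderiv ℝ (fun y => s⁻¹ * (u y + (-1) * v y)) z w) ^ 2 +
    (fderiv ℝ (fun y => s⁻¹ * (u y + (-1) * v y)) z (Complex.I • w)) ^ 2 with hX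
  have hX0 : 0 ≤ X := by positivity
  have e2 : lev v z w + s * (a * (s⁻¹ * (lev u z w + (-1) * lev v z w)) + b * X / 4) =
      (1 - a) * lev v z w + a * lev u z w + s * (b * X) / 4 := by
    field_simp
    ring
  rw [e2]
  have h1 : 0 ≤ (1 - a) * lev v z w := mul_nonneg (by linarith) hV
  have h2 : 0 ≤ a * lev u z w := mul_nonneg m0 hU
  have h3 : 0 ≤ s * (b * X) / 4 := by
    have := mul_nonneg hs.le (mul_nonneg m2 hX0)
    linarith
  linarith

/-- smooth psh from one-sided information: `w` is psh on `W` if near every point of `W` it is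
equal to a smooth psh function -/
theorem SPsh.of_local {W : Set (V n)} {u : V n → ℝ}
    (h : ∀ z ∈ W, ∃ U : Set (V n), IsOpen U ∧ z ∈ U ∧ SPsh U u) : SPsh W u := by
  constructor
  · intro z hz
    obtain ⟨U, hU, hzU, hu⟩ := h z hz
    exact (hu.smooth.contDiffAt (hU.mem_nhds hzU)).contDiffWithinAt
  · intro z hz w
    obtain ⟨U, -, hzU, hu⟩ := h z hz
    exact hu.psh z hzU w

theorem quad_facts (z0 : V n) (A c k : ℝ) :
    ContDiff ℝ (⊤ : ℕ∞) (fun z : V n => A * (‖z - z0‖ ^ 2 - c) + k) ∧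
    ∀ z v : V n, lev (fun z : V n => A * (‖z - z0‖ ^ 2 - c) + k) z v = A * ‖v‖ ^ 2 ∧
      hess (fun z : V n => A * (‖z - z0‖ ^ 2 - c) + k) z = (A : ℂ) • (1 : Mat n) ∧
      DD (fun z : V n => A * (‖z - z0‖ ^ 2 - c) + k) z = A ^ n := by
  have cN : ContDiff ℝ (⊤ : ℕ∞) (fun z : V n => ‖z - z0‖ ^ 2) :=
    (contDiff_norm_sq ℂ).comp (contDiff_id.sub contDiff_const)
  have e : (fun z : V n => A * (‖z - z0‖ ^ 2 - c) + k) =
      fun z : V n => A * ‖z - z0‖ ^ 2 + (k - A * c) := by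
    funext z
    ring
  have c2 : ∀ z : V n, ContDiffAt ℝ 2 (fun z : V n => ‖z - z0‖ ^ 2) z := fun z =>
    (cN.of_le (WithTop.coe_le_coe.2 (le_top : (2 : ℕ∞) ≤ ⊤))).contDiffAt
  have c3 : ∀ z : V n, ContDiffAt ℝ 2 (fun z : V n => A * ‖z - z0‖ ^ 2) z := fun z =>
    contDiffAt_const.mul (c2 z)
  have hh : ∀ z : V n, hess (fun z : V n => A * (‖z - z0‖ ^ 2 - c) + k) z = (A : ℂ) • (1 : Mat n) := by
    intro z
    rw [e, hess_add (c3 z) contDiffAt_const, hess_const_mul A (c2 z), hess_normSq, hessc77, add_zero]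
  refine ⟨(contDiff_const.mul (cN.sub contDiff_const)).add contDiff_const, fun z w => ⟨?_, hh z, ?_⟩⟩
  · rw [e, lev_add (c3 z) contDiffAt_const, lev_const_mul A (c2 z), lev_normSq, lev_const, add_zero]
  · unfold DD
    rw [hh z, Matrix.det_smul, Matrix.det_one, mul_one, Fintype.card_fin, ← Complex.ofReal_pow,
      Complex.ofReal_re]

theorem SPsh.posSemidef {W : Set (V n)} (hW : IsOpen W) {u : V n → ℝ} (hu : SPsh W u)
    {z : V n} (hz : z ∈ W) :
    (hess u z).PosSemidef ∧ 0 ≤ DD u z ∧ ((DD u z : ℝ) : ℂ) = (hess u z).det := by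
  have c2 := cd77 hW hu.smooth hz
  have h1 : (hess u z).PosSemidef := by
    rw [posSemidef_iff_lf (hess_isHermitian c2)]
    intro w
    rw [← lev_eq_lf c2]
    exact hu.psh z hz w
  have h2 : 0 ≤ (hess u z).det := h1.det_nonneg
  rw [Complex.le_def] at h2
  refine ⟨h1, h2.1, ?_⟩
  apply Complex.ext
  · rfl
  · exact h2.2

theorem contDiffOn_DD {W : Set (V n)} (hW : IsOpen W) {u : V n → ℝ}
    (hu : ContDiffOn ℝ (⊤ : ℕ∞) u W) : ContDiffOn ℝ (⊤ : ℕ∞) (DD u) W := by
  have h1 : ContDiffOn ℝ (⊤ : ℕ∞) (fun z => (hess u z).det) W := by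
    simp only [Matrix.det_apply]
    refine ContDiffOn.sum fun σ _ => ?_
    have h2 : ContDiffOn ℝ (⊤ : ℕ∞) (fun z => ∏ i, hess u z (σ i) i) W :=
      contDiffOn_prod fun i _ => contDiffOn_hess hW hu (σ i) i
    rcases Int.units_eq_one_or (Equiv.Perm.sign σ) with hs | hs
    · simp only [hs, one_smul]
      exact h2
    · simp only [hs, Units.neg_smul, one_smul]
      exact h2.neg
  exact Complex.reCLM.contDiff.comp_contDiffOn h1

/-- `χ D(u)` is integrable -/
theorem integrable_mul_DD {W : Set (V n)} (hW : IsOpen W) {u : V n → ℝ}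
    (hu : ContDiffOn ℝ (⊤ : ℕ∞) u W) {χ : V n → ℝ} (hχ : CC W χ) :
    Integrable (fun z => χ z * DD u z) := by
  have hc : Continuous (fun z => χ z * DD u z) := by
    rw [continuous_iff_continuousAt]
    intro z
    by_cases hz : z ∈ tsupport χ
    · exact hχ.cont.continuousAt.mul
        ((contDiffOn_DD hW hu).continuousOn.continuousAt (hW.mem_nhds (hχ.sub hz)))
    · have h1 : (fun z => χ z * DD u z) =ᶠ[𝓝 z] fun _ => (0 : ℝ) := by
        have h2 := notMem_tsupport_iff_eventuallyEq.1 hz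
        filter_upwards [h2] with y hy
        rw [hy]
        simp
      exact continuousAt_const.congr h1.symm
  exact hc.integrable_of_hasCompactSupport hχ.cpt.mul_right

theorem CC.mono {W W' : Set (V n)} {χ : V n → ℝ} (hχ : CC W χ) (h : W ⊆ W') : CC W' χ :=
  ⟨hχ.cont, hχ.cpt, hχ.sub.trans h⟩

theorem CS.cc {W : Set (V n)} {χ : V n → ℝ} (hχ : CS W χ) : CC W χ :=
  ⟨hχ.smooth.continuous, hχ.cpt, hχ.sub⟩

theorem Dec.mono {W W' : Set (V n)} {v : ℕ → V n → ℝ} {u : V n → EReal} (h : Dec W v u)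
    (hW : W' ⊆ W) : Dec W' v u :=
  ⟨fun k => SPsh.mono (h.psh k) hW, fun k z hz => h.anti k z (hW hz), fun z hz => h.lim z (hW hz)⟩

theorem Dec.shift {W : Set (V n)} {v : ℕ → V n → ℝ} {u : V n → EReal} (h : Dec W v u) (N : ℕ) :
    Dec W (fun k => v (k + N)) u := by
  refine ⟨fun k => h.psh _, fun k z hz => ?_, fun z hz => ?_⟩
  · have h1 := h.anti (k + N) z hz
    have e : k + 1 + N = k + N + 1 := by omega
    rw [e]
    exact h1
  · exact (h.lim z hz).comp (tendsto_add_atTop_nat N)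

theorem Dec.le {W : Set (V n)} {v : ℕ → V n → ℝ} {u : V n → EReal} (h : Dec W v u) (k : ℕ)
    {z : V n} (hz : z ∈ W) : u z ≤ (v k z : EReal) := by
  have h1 : Antitone (fun k => (v k z : EReal)) :=
    antitone_nat_of_succ_le fun k => by exact_mod_cast h.anti k z hz
  exact h1.le_of_tendsto (h.lim z hz) k

/-- Dini: a decreasing sequence of continuous functions with limit `< q` on a compact set is
eventually `< q` (uniformly), `q` continuous -/
theorem Dec.dini {W : Set (V n)} {v : ℕ → V n → ℝ} {u : V n → EReal} (h : Dec W v u)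
    {K : Set (V n)} (hK : IsCompact K) (hKW : K ⊆ W) {q : V n → ℝ} (hq : ContinuousOn q K)
    (hlt : ∀ z ∈ K, u z < (q z : EReal)) :
    ∃ (N : ℕ) (δ : ℝ), 0 < δ ∧ ∀ k, N ≤ k → ∀ z ∈ K, v k z ≤ q z - δ := by
  have hanti : ∀ z ∈ W, Antitone (fun k => v k z) := fun z hz =>
    antitone_nat_of_succ_le fun k => h.anti k z hz
  have hcont : ∀ k, ContinuousOn (v k) K := fun k => (h.psh k).smooth.continuousOn.mono hKW
  obtain ⟨N, hN⟩ : ∃ N, ∀ z ∈ K, v N z < q z := by
    by_contra hcon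
    push Not at hcon
    choose x hx hxq using hcon
    obtain ⟨a, ha, φ, hφ, hlim⟩ := hK.tendsto_subseq hx
    have hlimK : Tendsto (x ∘ φ) atTop (𝓝[K] a) :=
      tendsto_nhdsWithin_iff.2 ⟨hlim, Eventually.of_forall fun k => hx _⟩
    have hm : ∀ m, q a ≤ v m a := by
      intro m
      have h1 : Tendsto (fun k => v m (x (φ k))) atTop (𝓝 (v m a)) := (hcont m a ha).tendsto.comp hlimK
      have h2 : Tendsto (fun k => q (x (φ k))) atTop (𝓝 (q a)) := (hq a ha).tendsto.comp hlimK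
      refine le_of_tendsto_of_tendsto h2 h1 ?_
      filter_upwards [eventually_ge_atTop m] with k hk
      exact (hxq (φ k)).trans (hanti _ (hKW (hx _)) (hk.trans (hφ.id_le k)))
    have h3 : ((q a : ℝ) : EReal) ≤ u a :=
      ge_of_tendsto (h.lim a (hKW ha)) (Eventually.of_forall fun m => by exact_mod_cast hm m)
    exact absurd (hlt a ha) (not_lt.2 h3)
  rcases K.eq_empty_or_nonempty with hKe | hKne
  · refine ⟨0, 1, one_pos, fun k _ z hz => ?_⟩
    rw [hKe] at hz
    exact absurd hz (notMem_empty z)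
  · obtain ⟨a, ha, hmin⟩ := hK.exists_isMinOn hKne (hq.sub (hcont N))
    refine ⟨N, q a - v N a, by have := hN a ha; linarith, fun k hk z hz => ?_⟩
    have h1 := hanti z (hKW hz) hk
    have h2 := isMinOn_iff.1 hmin z hz
    simp only [Pi.sub_apply] at h1 h2
    linarith

end Pool.Agent.Helper13.AM
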