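import Pool.Agent.Helper13.AM.E0
import Pool.Agent.Helper13.AM.K2

/-!
AM-B1. (11.6), local form: reduction of general decreasing sequences of smooth psh functions near a
closed ball to functions equal to `ρ₀` near the sphere.

Proof. Let `C ≥ |u|, |f|` on the compact `closedBall z0 R` (`LB`), and let `v`, `g` be given. They are
only bounded above for a FIXED index: choose `N` such that `v k, g k ≤ C + 1` on `closedBall z0 R` for
`k ≥ N` (`Dec.dini` with the constant `C + 1`) and shift the sequences (`Dec.shift`,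
`tendsto_add_atTop_iff_nat`); so `A`, `κ` depend on `C` only. Choose `κ = C + 10`,
`A = 4 (2C + 20)/R²·...` such that `ρ₀(z) = A (‖z - z0‖² - R²) + κ` satisfies `ρ₀ ≤ -C - 2` for
`‖z - z0‖ ≤ R/2`·(a little more, say `≤ 0.6 R`) and `ρ₀ ≥ C + 3` for `‖z - z0‖ ≥ r`, some `r < R`.
`ṽ k = RM 1 (v k) ρ₀` on `closedBall z0 r'` (`r < r' < R`), `= ρ₀` outside (`RM_eq_right`: the two
definitions agree for `r ≤ ‖z - z0‖ ≤ R`), smooth psh on `V n` (`SPsh.RM`, `SPsh.of_local`), equal to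
`v k` on `ball z0 (0.6 R)` (`RM_eq_left`), so `DD (ṽ k) = DD (v k)` there; decreasing (`RM_mono`), with limit
`RM 1 u.toReal ρ₀` on the ball (continuity of `RM`), which depends on `u` only. The same for `g`, `f`.
Apply `energy_limit`; on `tsupport χ ⊆ ball z0 (R/2)`: `g̃ k = g k`, and `f̃ = f.toReal`.
(`m` must not depend on `f`: the weights are multiplied by a small constant, so that `|f| ≤ C` too.)
-/

set_option autoImplicit false

namespace Pool.Agent.Helper13.AM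

open MeasureTheory Set Filter Topology Metric
open Pool.Agent.Helper29.AM
open scoped ComplexOrder

variable {n : ℕ} {Ω : Set (V n)} {u : V n → EReal}

/-- the quadratic function -/
private noncomputable def qr02 (z0 : V n) (R A κ : ℝ) (z : V n) : ℝ := A * (‖z - z0‖ ^ 2 - R ^ 2) + κ

open Classical in
/-- the glued function -/
private noncomputable def gl02 (z0 : V n) (R A κ : ℝ) (w : V n → ℝ) (z : V n) : ℝ :=
  if ‖z - z0‖ < R then RM 1 (w z) (qr02 z0 R A κ z) else qr02 z0 R A κ z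

private theorem qr_psh02 (z0 : V n) (R : ℝ) {A : ℝ} (hA : 0 ≤ A) (κ : ℝ) : SPsh univ (qr02 z0 R A κ) := by
  obtain ⟨h1, h2⟩ := quad_facts z0 A (R ^ 2) κ
  refine ⟨h1.contDiffOn, fun z _ v => ?_⟩
  have h3 := (h2 z v).1
  change 0 ≤ lev (fun z : V n => A * (‖z - z0‖ ^ 2 - R ^ 2) + κ) z v
  rw [h3]
  positivity

private theorem qr_low02 (z0 : V n) {R C : ℝ} (hR : 0 < R) (hC : 1 ≤ C) {z : V n} (hz : ‖z - z0‖ < R / 2) :
    qr02 z0 R ((4 * C + 40) / R ^ 2) (C + 10) z ≤ -C - 2 := by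
  unfold qr02
  have h1 : ‖z - z0‖ ^ 2 ≤ R ^ 2 / 4 := by nlinarith [norm_nonneg (z - z0)]
  have h2 : (4 * C + 40) / R ^ 2 * (‖z - z0‖ ^ 2 - R ^ 2) ≤ (4 * C + 40) / R ^ 2 * (-(3 / 4) * R ^ 2) :=
    mul_le_mul_of_nonneg_left (by linarith) (by positivity)
  have h3 : (4 * C + 40) / R ^ 2 * (-(3 / 4) * R ^ 2) = -(3 / 4) * (4 * C + 40) := by
    field_simp
  rw [h3] at h2
  linarith

private theorem qr_high02 (z0 : V n) {R C : ℝ} (hR : 0 < R) (hC : 1 ≤ C) {z : V n}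
    (hz : R * (1 - 3 / (4 * C + 40)) ≤ ‖z - z0‖) :
    C + 3 ≤ qr02 z0 R ((4 * C + 40) / R ^ 2) (C + 10) z := by
  unfold qr02
  have hD : 0 < 4 * C + 40 := by linarith
  have hd : 3 / (4 * C + 40) ≤ 1 := by rw [div_le_one hD]; linarith
  have hd0 : 0 < 3 / (4 * C + 40) := by positivity
  have h0 : 0 ≤ R * (1 - 3 / (4 * C + 40)) := mul_nonneg hR.le (by linarith)
  have h1 : (R * (1 - 3 / (4 * C + 40))) ^ 2 ≤ ‖z - z0‖ ^ 2 := pow_le_pow_left₀ h0 hz 2
  have h2 : R ^ 2 * (1 - 2 * (3 / (4 * C + 40))) ≤ (R * (1 - 3 / (4 * C + 40))) ^ 2 := by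
    have h3 : (R * (1 - 3 / (4 * C + 40))) ^ 2 =
        R ^ 2 * (1 - 2 * (3 / (4 * C + 40))) + R ^ 2 * (3 / (4 * C + 40)) ^ 2 := by ring
    rw [h3]
    have : 0 ≤ R ^ 2 * (3 / (4 * C + 40)) ^ 2 := by positivity
    linarith
  have h4 : (4 * C + 40) / R ^ 2 * (-(R ^ 2 * (2 * (3 / (4 * C + 40))))) ≤
      (4 * C + 40) / R ^ 2 * (‖z - z0‖ ^ 2 - R ^ 2) :=
    mul_le_mul_of_nonneg_left (by nlinarith) (by positivity)
  have h5 : (4 * C + 40) / R ^ 2 * (-(R ^ 2 * (2 * (3 / (4 * C + 40))))) = -6 := by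
    field_simp
    ring
  rw [h5] at h4
  linarith

/-- decreasing sequences with bounds -/
private structure Dd02 (W : Set (V n)) (z0 : V n) (R C : ℝ) (v : ℕ → V n → ℝ) (u : V n → ℝ) : Prop where
  psh : ∀ k, SPsh W (v k)
  anti : ∀ k, ∀ z ∈ W, v (k + 1) z ≤ v k z
  lim : ∀ z ∈ closedBall z0 R, Tendsto (fun k => v k z) atTop (𝓝 (u z))
  low : ∀ z ∈ closedBall z0 R, -C ≤ u z
  up : ∀ k, ∀ z ∈ closedBall z0 R, v k z ≤ C + 1

section Gl

variable {W : Set (V n)} {z0 : V n} {R C : ℝ}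

private theorem gl_far02 (hR : 0 < R) (hC : 1 ≤ C) {w : V n → ℝ} (hup : ∀ z ∈ closedBall z0 R, w z ≤ C + 1)
    {z : V n} (hz : R * (1 - 3 / (4 * C + 40)) ≤ ‖z - z0‖) :
    gl02 z0 R ((4 * C + 40) / R ^ 2) (C + 10) w z = qr02 z0 R ((4 * C + 40) / R ^ 2) (C + 10) z := by
  unfold gl02
  split_ifs with h
  · refine RM_eq_right one_pos ?_
    have h1 := hup z (by rw [mem_closedBall, dist_eq_norm]; exact h.le)
    have h2 := qr_high02 z0 hR hC hz
    linarith
  · rfl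

private theorem gl_near02 (hR : 0 < R) (hC : 1 ≤ C) {w : V n → ℝ} {z : V n} (hz : ‖z - z0‖ < R / 2)
    (hw : -C ≤ w z) : gl02 z0 R ((4 * C + 40) / R ^ 2) (C + 10) w z = w z := by
  unfold gl02
  rw [if_pos (by linarith)]
  refine RM_eq_left one_pos ?_
  have h2 := qr_low02 z0 hR hC hz
  linarith

private theorem gl_pp02 (hR : 0 < R) (hC : 1 ≤ C) (hW : closedBall z0 R ⊆ W) {w : V n → ℝ}
    (hw : SPsh W w) (hup : ∀ z ∈ closedBall z0 R, w z ≤ C + 1) :
    PP z0 R ((4 * C + 40) / R ^ 2) (C + 10) (gl02 z0 R ((4 * C + 40) / R ^ 2) (C + 10) w) := by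
  have hD : 0 < 4 * C + 40 := by linarith
  have hd0 : 0 < 3 / (4 * C + 40) := by positivity
  have hrR : R * (1 - 3 / (4 * C + 40)) < R := by nlinarith
  have hq := qr_psh02 z0 R (A := (4 * C + 40) / R ^ 2) (by positivity) (C + 10)
  refine ⟨SPsh.of_local fun z _ => ?_, R * (1 - 3 / (4 * C + 40)), hrR, fun z hz => gl_far02 hR hC hup hz⟩
  by_cases h : ‖z - z0‖ < R
  · refine ⟨ball z0 R, isOpen_ball, by rwa [mem_ball, dist_eq_norm], ?_⟩
    refine SPsh.congr isOpen_ball (SPsh.RM isOpen_ball (SPsh.mono hw (ball_subset_closedBall.trans hW))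
      (SPsh.mono hq (subset_univ _)) one_pos) fun y hy => ?_
    unfold gl02
    rw [if_pos (by rwa [mem_ball, dist_eq_norm] at hy)]
  · refine ⟨{y | R * (1 - 3 / (4 * C + 40)) < ‖y - z0‖}, ?_, ?_, ?_⟩
    · exact isOpen_lt continuous_const (continuous_id.sub continuous_const).norm
    · show R * (1 - 3 / (4 * C + 40)) < ‖z - z0‖
      rw [not_lt] at h
      linarith
    · refine SPsh.congr (isOpen_lt continuous_const (continuous_id.sub continuous_const).norm)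
        (SPsh.mono hq (subset_univ _)) fun y hy => ?_
      exact (gl_far02 hR hC hup (le_of_lt hy)).symm

private theorem gl_anti02 (hW : closedBall z0 R ⊆ W) {A κ : ℝ} {w w' : V n → ℝ} (h : ∀ z ∈ W, w z ≤ w' z) (z : V n) :
    gl02 z0 R A κ w z ≤ gl02 z0 R A κ w' z := by
  unfold gl02
  split_ifs with h1
  · exact RM_mono one_pos le_rfl (h z (hW (by rw [mem_closedBall, dist_eq_norm]; exact h1.le))) le_rfl
  · exact le_rfl

private theorem gl_lim02 {A κ : ℝ} {v : ℕ → V n → ℝ} {u : V n → ℝ}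
    (h : ∀ z ∈ closedBall z0 R, Tendsto (fun k => v k z) atTop (𝓝 (u z))) (z : V n) :
    Tendsto (fun k => gl02 z0 R A κ (v k) z) atTop (𝓝 (gl02 z0 R A κ u z)) := by
  unfold gl02
  split_ifs with h1
  · have h2 := h z (by rw [mem_closedBall, dist_eq_norm]; exact h1.le)
    have h3 : Continuous fun x : ℝ => RM 1 x (qr02 z0 R A κ z) :=
      (RM_contDiff 1).continuous.comp (continuous_id.prodMk continuous_const)
    exact (h3.tendsto _).comp h2
  · exact tendsto_const_nhds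

private theorem gl_low02 {A κ : ℝ} {u : V n → ℝ} (h : ∀ z ∈ closedBall z0 R, -C ≤ u z) :
    ∃ C' : ℝ, ∀ z ∈ ball z0 R, -C' ≤ gl02 z0 R A κ u z := by
  refine ⟨C, fun z hz => ?_⟩
  have h1 := h z (ball_subset_closedBall hz)
  unfold gl02
  rw [if_pos (by rwa [mem_ball, dist_eq_norm] at hz)]
  exact h1.trans ((le_max_left _ _).trans (max_le_RM one_pos _ _))

end Gl

private theorem core02 {z0 : V n} {R C : ℝ} (hR : 0 < R) (hC : 1 ≤ C) (u : V n → ℝ) :
    ∃ m : Measure (V n), IsFiniteMeasure m ∧ ∀ W : Set (V n), closedBall z0 R ⊆ W →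
      ∀ v : ℕ → V n → ℝ, Dd02 W z0 R C v u →
      (∀ χ : V n → ℝ, CC (ball z0 (R / 2)) χ →
        Tendsto (fun k => ∫ z, χ z * DD (v k) z) atTop (𝓝 (∫ z, χ z ∂m))) ∧
      ∀ (f : V n → ℝ) (g : ℕ → V n → ℝ), Dd02 W z0 R C g f →
        ∀ χ : V n → ℝ, CC (ball z0 (R / 2)) χ →
          Tendsto (fun k => ∫ z, χ z * g k z * DD (v k) z) atTop (𝓝 (∫ z, χ z * f z ∂m)) := by
  obtain ⟨m, hm, -, h⟩ := energy_limit (z0 := z0) (R := R) (A := (4 * C + 40) / R ^ 2) (κ := C + 10) hR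
    (by positivity) (gl02 z0 R ((4 * C + 40) / R ^ 2) (C + 10) u)
  refine ⟨m, hm, fun W hW v hv => ?_⟩
  -- the glued sequences
  have hmono : ∀ {g : ℕ → V n → ℝ} {f : V n → ℝ}, Dd02 W z0 R C g f → ∀ k, ∀ z ∈ closedBall z0 R, -C ≤ g k z := by
    intro g f hg k z hz
    have h1 : Antitone fun k => g k z := antitone_nat_of_succ_le fun k => hg.anti k z (hW hz)
    exact (hg.low z hz).trans (h1.le_of_tendsto (hg.lim z hz) k)
  obtain ⟨h1, h2⟩ := h (fun k => gl02 z0 R ((4 * C + 40) / R ^ 2) (C + 10) (v k))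
    (fun k => gl_pp02 hR hC hW (hv.psh k) (hv.up k)) (fun k z => gl_anti02 hW (hv.anti k) z)
    (gl_lim02 hv.lim) (gl_low02 hv.low)
  have hsub : ball z0 (R / 2) ⊆ ball z0 R := ball_subset_ball (by linarith)
  have hin : ∀ z ∈ ball z0 (R / 2), ‖z - z0‖ < R / 2 := fun z hz => by rwa [mem_ball, dist_eq_norm] at hz
  have hnear : ∀ {g : ℕ → V n → ℝ} {f : V n → ℝ}, Dd02 W z0 R C g f → ∀ k, ∀ z ∈ ball z0 (R / 2),
      gl02 z0 R ((4 * C + 40) / R ^ 2) (C + 10) (g k) z = g k z := fun hg k z hz =>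
    gl_near02 hR hC (hin z hz) (hmono hg k z (ball_subset_closedBall (hsub hz)))
  have hDD : ∀ k, ∀ z ∈ ball z0 (R / 2), DD (gl02 z0 R ((4 * C + 40) / R ^ 2) (C + 10) (v k)) z = DD (v k) z :=
    fun k => DD_congr isOpen_ball (hnear hv k)
  have hout : ∀ {χ : V n → ℝ}, CC (ball z0 (R / 2)) χ → ∀ z, z ∉ ball z0 (R / 2) → χ z = 0 := fun hχ z hz =>
    image_eq_zero_of_notMem_tsupport fun h => hz (hχ.sub h)
  constructor
  · intro χ hχ
    refine (h1 χ (hχ.mono hsub)).congr fun k => ?_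
    refine integral_congr_ae (Eventually.of_forall fun z => ?_)
    show χ z * DD (gl02 z0 R ((4 * C + 40) / R ^ 2) (C + 10) (v k)) z = χ z * DD (v k) z
    by_cases hz : z ∈ ball z0 (R / 2)
    · rw [hDD k z hz]
    · rw [hout hχ z hz, zero_mul, zero_mul]
  · intro f g hg χ hχ
    have h3 := h2 (gl02 z0 R ((4 * C + 40) / R ^ 2) (C + 10) f)
      (fun k => gl02 z0 R ((4 * C + 40) / R ^ 2) (C + 10) (g k))
      (fun k => gl_pp02 hR hC hW (hg.psh k) (hg.up k)) (fun k z => gl_anti02 hW (hg.anti k) z)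
      (gl_lim02 hg.lim) (gl_low02 hg.low) χ (hχ.mono hsub)
    have h4 : ∫ z, χ z * gl02 z0 R ((4 * C + 40) / R ^ 2) (C + 10) f z ∂m = ∫ z, χ z * f z ∂m := by
      refine integral_congr_ae (Eventually.of_forall fun z => ?_)
      show χ z * gl02 z0 R ((4 * C + 40) / R ^ 2) (C + 10) f z = χ z * f z
      by_cases hz : z ∈ ball z0 (R / 2)
      · rw [gl_near02 hR hC (hin z hz) (hg.low z (ball_subset_closedBall (hsub hz)))]
      · rw [hout hχ z hz, zero_mul, zero_mul]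
    rw [h4] at h3
    refine h3.congr fun k => ?_
    refine integral_congr_ae (Eventually.of_forall fun z => ?_)
    show χ z * gl02 z0 R ((4 * C + 40) / R ^ 2) (C + 10) (g k) z *
      DD (gl02 z0 R ((4 * C + 40) / R ^ 2) (C + 10) (v k)) z = χ z * g k z * DD (v k) z
    by_cases hz : z ∈ ball z0 (R / 2)
    · rw [hDD k z hz, hnear hg k z hz]
    · rw [hout hχ z hz, zero_mul, zero_mul, zero_mul, zero_mul]

/-- from `Dec` to the bounded sequences -/
private theorem dd_of_dec02 {W : Set (V n)} (hWo : IsOpen W) {z0 : V n} {R C Cf ε : ℝ} (hW : closedBall z0 R ⊆ W)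
    (hε : 0 < ε) (hε1 : ε ≤ 1) (hεC : ε * Cf ≤ C) {f : V n → EReal}
    {g : ℕ → V n → ℝ} (hf : ∀ z ∈ closedBall z0 R, ((-Cf : ℝ) : EReal) ≤ f z ∧ f z ≤ (Cf : EReal))
    (hg : Dec W g f) : ∃ N, ∀ M, N ≤ M → Dd02 W z0 R C (fun k z => ε * g (k + M) z) (fun z => ε * (f z).toReal) := by
  obtain ⟨N, δ, hδ, hN⟩ := hg.dini (isCompact_closedBall z0 R) hW (q := fun _ => Cf + 1) continuousOn_const
    (fun z hz => (hf z hz).2.trans_lt (by exact_mod_cast lt_add_one Cf))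
  have hr : ∀ z ∈ closedBall z0 R, ((f z).toReal : EReal) = f z := fun z hz =>
    EReal.coe_toReal (ne_top_of_le_ne_top (EReal.coe_ne_top Cf) (hf z hz).2)
      (ne_bot_of_le_ne_bot (EReal.coe_ne_bot (-Cf)) (hf z hz).1)
  refine ⟨N, fun M hM => ⟨fun k => SPsh.smul hWo (hg.psh _) hε.le, fun k z hz => ?_, fun z hz => ?_,
    fun z hz => ?_, fun k z hz => ?_⟩⟩
  · have h1 := (hg.shift M).anti k z hz
    exact mul_le_mul_of_nonneg_left h1 hε.le
  · have h1 := (hg.shift M).lim z (hW hz)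
    rw [← hr z hz] at h1
    have h2 : Tendsto (fun k => g (k + M) z) atTop (𝓝 (f z).toReal) := EReal.tendsto_coe.1 h1
    exact h2.const_mul ε
  · have h1 := (hf z hz).1
    rw [← hr z hz, EReal.coe_le_coe_iff] at h1
    have h2 := mul_le_mul_of_nonneg_left h1 hε.le
    linarith
  · have h1 := hN (k + M) (by omega) z hz
    have h2 : ε * g (k + M) z ≤ ε * (Cf + 1) := mul_le_mul_of_nonneg_left (by linarith) hε.le
    linarith

theorem local_MA {z0 : V n} {R : ℝ} (hR : 0 < R) (hb : LB (closedBall z0 R) u) :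
    ∃ m : Measure (V n), IsFiniteMeasure m ∧ ∀ W : Set (V n), IsOpen W → closedBall z0 R ⊆ W →
      ∀ v : ℕ → V n → ℝ, Dec W v u →
      (∀ χ : V n → ℝ, CC (ball z0 (R / 2)) χ →
        Tendsto (fun k => ∫ z, χ z * DD (v k) z) atTop (𝓝 (∫ z, χ z ∂m))) ∧
      ∀ (f : V n → EReal) (g : ℕ → V n → ℝ), LB (closedBall z0 R) f → Dec W g f →
        ∀ χ : V n → ℝ, CC (ball z0 (R / 2)) χ →
          Tendsto (fun k => ∫ z, χ z * g k z * DD (v k) z) atTop
            (𝓝 (∫ z, χ z * (f z).toReal ∂m)) := by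
  obtain ⟨C0, hC0⟩ := hb _ Subset.rfl (isCompact_closedBall z0 R)
  set C := max C0 1 with hCdef
  have hC : 1 ≤ C := le_max_right _ _
  have hu : ∀ z ∈ closedBall z0 R, ((-C : ℝ) : EReal) ≤ u z ∧ u z ≤ (C : EReal) := fun z hz =>
    ⟨le_trans (by rw [EReal.coe_le_coe_iff]; linarith [le_max_left C0 1]) (hC0 z hz).1,
      (hC0 z hz).2.trans (by rw [EReal.coe_le_coe_iff]; exact le_max_left _ _)⟩
  obtain ⟨m, hm, h⟩ := core02 (z0 := z0) hR hC fun z => (u z).toReal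
  refine ⟨m, hm, fun W hWo hW v hv => ?_⟩
  obtain ⟨N, hN⟩ := dd_of_dec02 hWo hW one_pos le_rfl (by rw [one_mul]) hu hv
  simp only [one_mul] at hN
  constructor
  · intro χ hχ
    exact (tendsto_add_atTop_iff_nat N).1 ((h W hW _ (hN N le_rfl)).1 χ hχ)
  · intro f g hf hg χ hχ
    obtain ⟨Cf0, hCf0⟩ := hf _ Subset.rfl (isCompact_closedBall z0 R)
    set Cf := max Cf0 1 with hCfdef
    have hCf1 : 1 ≤ Cf := le_max_right _ _
    have hf' : ∀ z ∈ closedBall z0 R, ((-Cf : ℝ) : EReal) ≤ f z ∧ f z ≤ (Cf : EReal) := fun z hz =>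
      ⟨le_trans (by rw [EReal.coe_le_coe_iff]; linarith [le_max_left Cf0 1]) (hCf0 z hz).1,
        (hCf0 z hz).2.trans (by rw [EReal.coe_le_coe_iff]; exact le_max_left _ _)⟩
    have hε : 0 < Cf⁻¹ := by positivity
    obtain ⟨N', hN'⟩ := dd_of_dec02 (C := C) hWo hW hε (inv_le_one_of_one_le₀ hCf1)
      (by rw [inv_mul_cancel₀ (by positivity)]; exact hC) hf' hg
    have h1 := (h W hW _ (hN (max N N') (le_max_left _ _))).2 _ _ (hN' (max N N') (le_max_right _ _)) χ hχ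
    have h2 := (h1.const_mul Cf)
    refine (tendsto_add_atTop_iff_nat (max N N')).1 ?_
    have e1 : Cf * ∫ z, χ z * (Cf⁻¹ * (f z).toReal) ∂m = ∫ z, χ z * (f z).toReal ∂m := by
      rw [← integral_const_mul]
      congr 1
      funext z
      field_simp
    rw [e1] at h2
    refine h2.congr fun k => ?_
    rw [← integral_const_mul]
    congr 1
    funext z
    field_simp

end Pool.Agent.Helper13.AM
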