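import Pool.Agent.Helper13.AM.M0

/-!
AM-M2. A sequence of densities `g k ≥ 0` (eventually, on every compact set) on the open set `Ω`
such that `∫ χ g_k` converges for every `χ ∈ C_c(Ω)` converges weakly to a measure.

Proof. `Λ χ = lim ∫ χ g_k` is a positive linear functional on `C_c(Ω, ℝ)` (functions on the
subtype `Ω`, locally compact Hausdorff; extend by zero to `V n`: `CC Ω`). Riesz-Markov
(`RealRMK.rieszMeasure`, `RealRMK.integral_rieszMeasure`) gives a measure on `Ω`; `m` is its image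
under `Subtype.val`. Finiteness on compact `K ⊆ Ω`: choose `χ ∈ C_c(Ω)` with `χ ≥ 1_K`
(the Riesz measure is finite on compacts).
-/

set_option autoImplicit false

namespace Pool.Agent.Helper13.AM

open MeasureTheory Set Filter Topology Metric
open Pool.Agent.Helper29.AM

variable {n : ℕ}

open scoped CompactlySupported

private theorem int_h17 {Ω : Set (V n)} (g : ℕ → V n → ℝ)
    (hg : ∀ K ⊆ Ω, IsCompact K → ∀ᶠ k in atTop, (∀ z ∈ K, 0 ≤ g k z) ∧ IntegrableOn (g k) K volume)
    {χ : V n → ℝ} (h : CC Ω χ) :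
    ∀ᶠ k in atTop, (∀ z ∈ tsupport χ, 0 ≤ g k z) ∧ Integrable (fun z => χ z * g k z) volume := by
  filter_upwards [hg _ h.sub h.cpt] with k hk
  refine ⟨hk.1, ?_⟩
  have h1 : IntegrableOn (fun z => χ z * g k z) (tsupport χ) volume :=
    hk.2.continuousOn_mul h.cont.continuousOn h.cpt
  refine (integrableOn_iff_integrable_of_support_subset ?_).1 h1
  intro z hz
  rw [Function.mem_support] at hz
  exact subset_tsupport _ (left_ne_zero_of_mul hz)

private noncomputable def ex_h17 {Ω : Set (V n)} (f : C_c(Ω, ℝ)) : V n → ℝ :=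
  Function.extend Subtype.val f 0

private theorem ex_of_mem_h17 {Ω : Set (V n)} (f : C_c(Ω, ℝ)) {z : V n} (hz : z ∈ Ω) :
    ex_h17 f z = f ⟨z, hz⟩ := by
  have h := Function.Injective.extend_apply (Subtype.val_injective (p := fun x => x ∈ Ω)) (f : Ω → ℝ) 0 ⟨z, hz⟩
  exact h

private theorem ex_of_not_h17 {Ω : Set (V n)} (f : C_c(Ω, ℝ)) {z : V n} (hz : z ∉ Ω) :
    ex_h17 f z = 0 := by
  unfold ex_h17
  rw [Function.extend_apply']
  · rfl
  · rintro ⟨⟨a, ha⟩, rfl⟩
    exact hz ha

private theorem ex_cc_h17 {Ω : Set (V n)} (hΩ : IsOpen Ω) (f : C_c(Ω, ℝ)) : CC Ω (ex_h17 f) := by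
  refine ⟨?_, ?_, ?_⟩
  · exact HasCompactSupport.continuous_extend_zero hΩ f.continuous f.hasCompactSupport
  · exact HasCompactSupport.extend_zero f.hasCompactSupport continuous_subtype_val
  · refine (HasCompactSupport.tsupport_extend_zero_subset f.hasCompactSupport continuous_subtype_val).trans ?_
    exact Subtype.coe_image_subset _ _

theorem exists_measure_of_tendsto {Ω : Set (V n)} (hΩ : IsOpen Ω) (g : ℕ → V n → ℝ)
    (hg : ∀ K ⊆ Ω, IsCompact K → ∀ᶠ k in atTop, (∀ z ∈ K, 0 ≤ g k z) ∧ IntegrableOn (g k) K volume)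
    (hlim : ∀ χ : V n → ℝ, CC Ω χ → ∃ l : ℝ, Tendsto (fun k => ∫ z, χ z * g k z) atTop (𝓝 l)) :
    ∃ m : Measure (V n), m Ωᶜ = 0 ∧ (∀ K ⊆ Ω, IsCompact K → m K < ⊤) ∧
      ∀ χ : V n → ℝ, CC Ω χ → Tendsto (fun k => ∫ z, χ z * g k z) atTop (𝓝 (∫ z, χ z ∂m)) := by
  have hint := fun (χ : V n → ℝ) (h : CC Ω χ) => int_h17 g hg h
  choose l hl using hlim
  have : LocallyCompactSpace Ω := hΩ.locallyCompactSpace
  -- the linear functional
  let L : C_c(Ω, ℝ) →ₗ[ℝ] ℝ :=
    { toFun := fun f => l (ex_h17 f) (ex_cc_h17 hΩ f)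
      map_add' := by
        intro f f'
        refine tendsto_nhds_unique (hl _ (ex_cc_h17 hΩ (f + f'))) ?_
        refine ((hl _ (ex_cc_h17 hΩ f)).add (hl _ (ex_cc_h17 hΩ f'))).congr' ?_
        filter_upwards [hint _ (ex_cc_h17 hΩ f), hint _ (ex_cc_h17 hΩ f')] with k h1 h2
        rw [← integral_add h1.2 h2.2]
        congr 1
        funext z
        by_cases hz : z ∈ Ω
        · simp only [ex_of_mem_h17 _ hz, CompactlySupportedContinuousMap.coe_add, Pi.add_apply]
          ring
        · simp only [ex_of_not_h17 _ hz]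
          ring
      map_smul' := by
        intro c f
        refine tendsto_nhds_unique (hl _ (ex_cc_h17 hΩ (c • f))) ?_
        refine ((hl _ (ex_cc_h17 hΩ f)).const_mul c).congr' ?_
        filter_upwards with k
        rw [← integral_const_mul]
        congr 1
        funext z
        by_cases hz : z ∈ Ω
        · simp only [ex_of_mem_h17 _ hz, CompactlySupportedContinuousMap.coe_smul, Pi.smul_apply, smul_eq_mul]
          ring
        · simp only [ex_of_not_h17 _ hz]
          ring }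
  have hLpos : ∀ f : C_c(Ω, ℝ), 0 ≤ f → 0 ≤ L f := by
    intro f hf
    refine ge_of_tendsto (hl _ (ex_cc_h17 hΩ f)) ?_
    filter_upwards [hint _ (ex_cc_h17 hΩ f)] with k hk
    refine integral_nonneg fun z => ?_
    by_cases hz : z ∈ tsupport (ex_h17 f)
    · refine mul_nonneg ?_ (hk.1 z hz)
      have hz' : z ∈ Ω := (ex_cc_h17 hΩ f).sub hz
      rw [ex_of_mem_h17 _ hz']
      exact hf ⟨z, hz'⟩
    · have : ex_h17 f z = 0 := image_eq_zero_of_notMem_tsupport hz
      simp [this]
  let Λ : C_c(Ω, ℝ) →ₚ[ℝ] ℝ := PositiveLinearMap.mk₀ L hLpos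
  let ν : Measure Ω := RealRMK.rieszMeasure Λ
  have hme : MeasurableEmbedding (Subtype.val : Ω → V n) := MeasurableEmbedding.subtype_coe hΩ.measurableSet
  refine ⟨ν.map Subtype.val, ?_, ?_, ?_⟩
  · rw [hme.map_apply]
    have : (Subtype.val : Ω → V n) ⁻¹' Ωᶜ = ∅ := by
      ext z
      simp
    rw [this, measure_empty]
  · intro K hKΩ hK
    rw [hme.map_apply]
    have : IsCompact ((Subtype.val : Ω → V n) ⁻¹' K) := by
      rw [Subtype.isCompact_iff, Subtype.image_preimage_coe, Set.inter_eq_self_of_subset_right hKΩ]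
      exact hK
    exact this.measure_lt_top
  · intro χ hχ
    rw [hme.integral_map]
    -- the restriction of `χ`
    have hcs : HasCompactSupport (fun z : Ω => χ z) := by
      have h1 : IsCompact ((Subtype.val : Ω → V n) ⁻¹' (tsupport χ)) := by
        rw [Subtype.isCompact_iff, Subtype.image_preimage_coe, Set.inter_eq_self_of_subset_right hχ.sub]
        exact hχ.cpt
      refine HasCompactSupport.intro h1 ?_
      intro z hz
      exact image_eq_zero_of_notMem_tsupport hz
    let f : C_c(Ω, ℝ) := ⟨⟨fun z : Ω => χ z, hχ.cont.comp continuous_subtype_val⟩, hcs⟩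
    have hf : ex_h17 f = χ := by
      funext z
      by_cases hz : z ∈ Ω
      · rw [ex_of_mem_h17 _ hz]
        rfl
      · rw [ex_of_not_h17 _ hz]
        exact (image_eq_zero_of_notMem_tsupport fun h => hz (hχ.sub h)).symm
    have h1 : ∫ x, f x ∂ν = Λ f := RealRMK.integral_rieszMeasure Λ f
    have h2 : ∫ x : Ω, χ x ∂ν = l (ex_h17 f) (ex_cc_h17 hΩ f) := h1
    rw [h2]
    have h3 := hl _ (ex_cc_h17 hΩ f)
    simpa only [hf] using h3

end Pool.Agent.Helper13.AM
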