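import Pool.Agent.Helper13.AM.M1

/-!
AM-M3. If `g k ≥ 0` (eventually, on compacts) and `∫ η g_k` converges for all smooth test functions
then it converges for all continuous ones.

Proof. Let `χ ∈ CC Ω`, `K` a compact neighbourhood of `tsupport χ` in `Ω`, `θ` a smooth cut-off
(`exists_cutoff`) with `θ = 1` on `K`: `∫_K g_k ≤ ∫ θ g_k` is bounded by `C` for large `k`. For
`ε > 0` there is a smooth `η` with `tsupport η ⊆ K` and `|χ - η| ≤ ε` everywhere (mollify `χ` with a
`ContDiffBump`, uniform continuity). So `|∫ χ g_k - ∫ η g_k| ≤ ε C`, and `k ↦ ∫ χ g_k` is a Cauchy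
sequence.
-/

set_option autoImplicit false

namespace Pool.Agent.Helper13.AM

open MeasureTheory Set Filter Topology Metric
open Pool.Agent.Helper29.AM

variable {n : ℕ}

/-- uniform approximation by smooth functions with support close to the support -/
theorem CC.exists_smooth {Ω : Set (V n)} (hΩ : IsOpen Ω) {χ : V n → ℝ} (h : CC Ω χ) {ε : ℝ}
    (hε : 0 < ε) {U : Set (V n)} (hU : IsOpen U) (hsub : tsupport χ ⊆ U) :
    ∃ η : V n → ℝ, CS (U ∩ Ω) η ∧ (∀ z, |χ z - η z| ≤ ε) ∧ ((∀ z, 0 ≤ χ z) → ∀ z, 0 ≤ η z) := by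
  have key : ∀ η : V n → ℝ, ContDiff ℝ (⊤ : ℕ∞) η → Function.support η ⊆ Function.support χ → CS (U ∩ Ω) η := by
    intro η h1 h2
    have h3 : tsupport η ⊆ tsupport χ := closure_mono h2
    exact ⟨h1, h.cpt.mono h2, fun z hz => ⟨hsub (h3 hz), h.sub (h3 hz)⟩⟩
  by_cases hχ : ∀ z, 0 ≤ χ z
  · have hs : Continuous fun z => √(χ z) := h.cont.sqrt
    have hpos : ∀ z, 0 < 2 * √(χ z) + 1 := fun z => by
      have := Real.sqrt_nonneg (χ z)
      linarith
    have hm : 0 < min 1 ε := lt_min one_pos hε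
    obtain ⟨g, hg, hga, hgs⟩ := hs.exists_contDiff_approx (⊤ : ℕ∞) (ε := fun z => min 1 ε / (2 * √(χ z) + 1))
      (continuous_const.div ((continuous_const.mul hs).add continuous_const) fun z => (hpos z).ne')
      (fun z => div_pos hm (hpos z))
    refine ⟨fun z => g z ^ 2, key _ (hg.pow 2) ?_, fun z => ?_, fun _ z => sq_nonneg _⟩
    · intro z hz hz'
      have h1 : g z ≠ 0 := fun h0 => hz (by simp [h0])
      exact hgs h1 (by simp [hz'])
    · have h1 := hga z
      rw [Real.dist_eq] at h1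
      have h2 := Real.sq_sqrt (hχ z)
      have h3 := Real.sqrt_nonneg (χ z)
      set s := √(χ z) with hsd
      rw [← h2]
      have h4 : min 1 ε / (2 * s + 1) ≤ 1 := by
        rw [div_le_one (hpos z)]
        have := min_le_left 1 ε
        linarith
      have h5 : s ^ 2 - g z ^ 2 = -((g z - s) * (g z + s)) := by ring
      rw [h5, abs_neg, abs_mul]
      have h6 : |g z + s| ≤ 2 * s + 1 := by
        have : g z + s = (g z - s) + 2 * s := by ring
        rw [this]
        refine (abs_add_le _ _).trans ?_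
        rw [abs_of_nonneg (by linarith : 0 ≤ 2 * s)]
        linarith
      calc |g z - s| * |g z + s| ≤ (min 1 ε / (2 * s + 1)) * (2 * s + 1) :=
            mul_le_mul h1.le h6 (abs_nonneg _) (div_pos hm (hpos z)).le
        _ = min 1 ε := div_mul_cancel₀ _ (hpos z).ne'
        _ ≤ ε := min_le_right _ _
  · obtain ⟨g, hg, hga, hgs⟩ := h.cont.exists_contDiff_approx (⊤ : ℕ∞) (ε := fun _ => ε) continuous_const (fun _ => hε)
    refine ⟨g, key _ hg hgs, fun z => ?_, fun h0 => absurd h0 hχ⟩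
    have h1 := hga z
    rw [dist_comm, Real.dist_eq] at h1
    exact h1.le

private theorem integ63 {K : Set (V n)} (hK : IsCompact K) {g f : V n → ℝ} (hg : IntegrableOn g K volume)
    (hf : Continuous f) (hs : Function.support f ⊆ K) : Integrable (fun z => f z * g z) volume := by
  rw [← integrableOn_iff_integrable_of_support_subset (s := K)
    (fun z hz => hs fun h0 => hz (by show f z * g z = 0; rw [h0, zero_mul]))]
  exact hg.continuousOn_mul hf.continuousOn hK

private theorem diff63 {K : Set (V n)} (hK : IsCompact K) {g f f' θ : V n → ℝ} (hg : IntegrableOn g K volume)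
    (hg0 : ∀ z ∈ K, 0 ≤ g z) (hf : Continuous f) (hf' : Continuous f') (hθ : Continuous θ)
    (hs : Function.support f ⊆ K) (hs' : Function.support f' ⊆ K) (hsθ : Function.support θ ⊆ K) {δ : ℝ}
    (hd : ∀ z, |f z - f' z| ≤ δ * θ z) :
    |(∫ z, f z * g z) - ∫ z, f' z * g z| ≤ δ * ∫ z, θ z * g z := by
  rw [← integral_sub (integ63 hK hg hf hs) (integ63 hK hg hf' hs'), ← integral_const_mul]
  refine (abs_integral_le_integral_abs).trans (integral_mono
    ((integ63 hK hg hf hs).sub (integ63 hK hg hf' hs')).abs ((integ63 hK hg hθ hsθ).const_mul δ) fun z => ?_)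
  show |f z * g z - f' z * g z| ≤ δ * (θ z * g z)
  by_cases hz : z ∈ K
  · rw [← sub_mul, abs_mul, abs_of_nonneg (hg0 z hz), ← mul_assoc]
    exact mul_le_mul_of_nonneg_right (hd z) (hg0 z hz)
  · have h1 : f z = 0 := by
      by_contra h0
      exact hz (hs h0)
    have h2 : f' z = 0 := by
      by_contra h0
      exact hz (hs' h0)
    have h3 : θ z = 0 := by
      by_contra h0
      exact hz (hsθ h0)
    rw [h1, h2, h3]
    simp

theorem tendsto_CC_of_CS {Ω : Set (V n)} (hΩ : IsOpen Ω) (g : ℕ → V n → ℝ)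
    (hg : ∀ K ⊆ Ω, IsCompact K → ∀ᶠ k in atTop, (∀ z ∈ K, 0 ≤ g k z) ∧ IntegrableOn (g k) K volume)
    (hlim : ∀ η : V n → ℝ, CS Ω η → ∃ l : ℝ, Tendsto (fun k => ∫ z, η z * g k z) atTop (𝓝 l)) :
    ∀ χ : V n → ℝ, CC Ω χ → ∃ l : ℝ, Tendsto (fun k => ∫ z, χ z * g k z) atTop (𝓝 l) := by
  intro χ h
  obtain ⟨θ, hθ, hθ01, U, hU, hKU, hU1⟩ := exists_cutoff hΩ h.cpt h.sub
  obtain ⟨l, hl⟩ := hlim θ hθ
  have hC : ∀ᶠ k in atTop, (∫ z, θ z * g k z) ≤ |l| + 1 := by
    have h1 : l < |l| + 1 := lt_of_le_of_lt (le_abs_self l) (lt_add_one _)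
    exact (hl.eventually (gt_mem_nhds h1)).mono fun k hk => hk.le
  have hC0 : 0 < |l| + 1 := by positivity
  refine cauchySeq_tendsto_of_complete (Metric.cauchySeq_iff.2 fun ε hε => ?_)
  have hδ : 0 < ε / (4 * (|l| + 1)) := by positivity
  obtain ⟨η, hη, hηd, -⟩ := CC.exists_smooth hΩ h hδ hU hKU
  have hηΩ : CS Ω η := ⟨hη.smooth, hη.cpt, hη.sub.trans inter_subset_right⟩
  obtain ⟨l', hl'⟩ := hlim η hηΩ
  have hUθ : ∀ z, z ∈ U → z ∈ tsupport θ := fun z hz => by
    refine subset_tsupport _ ?_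
    rw [Function.mem_support, hU1 z hz]
    exact one_ne_zero
  have hd : ∀ z, |χ z - η z| ≤ ε / (4 * (|l| + 1)) * θ z := by
    intro z
    by_cases hz : z ∈ U
    · rw [hU1 z hz, mul_one]
      exact hηd z
    · have h1 : χ z = 0 := image_eq_zero_of_notMem_tsupport fun h0 => hz (hKU h0)
      have h2 : η z = 0 := image_eq_zero_of_notMem_tsupport fun h0 => hz (hη.sub h0).1
      rw [h1, h2, sub_zero, abs_zero]
      exact mul_nonneg hδ.le (hθ01 z).1
  have hev : ∀ᶠ k in atTop, |(∫ z, χ z * g k z) - ∫ z, η z * g k z| ≤ ε / 4 := by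
    filter_upwards [hC, hg (tsupport θ) hθ.sub hθ.cpt] with k hk1 hk2
    refine (diff63 hθ.cpt hk2.2 hk2.1 h.cont hη.smooth.continuous hθ.smooth.continuous
      (fun z hz => hUθ z (hKU (subset_tsupport _ hz))) (fun z hz => hUθ z (hη.sub (subset_tsupport _ hz)).1)
      (subset_tsupport _) hd).trans ?_
    refine (mul_le_mul_of_nonneg_left hk1 hδ.le).trans (le_of_eq ?_)
    field_simp
  obtain ⟨N, hN⟩ := eventually_atTop.1 hev
  obtain ⟨N', hN'⟩ := Metric.cauchySeq_iff.1 hl'.cauchySeq (ε / 4) (by positivity)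
  refine ⟨max N N', fun m hm k hk => ?_⟩
  have h1 := hN m ((le_max_left _ _).trans hm)
  have h2 := hN k ((le_max_left _ _).trans hk)
  have h3 := hN' m ((le_max_right _ _).trans hm) k ((le_max_right _ _).trans hk)
  rw [Real.dist_eq] at h3 ⊢
  rw [abs_le] at h1 h2
  rw [abs_lt] at h3 ⊢
  constructor <;> linarith [h1.1, h1.2, h2.1, h2.2, h3.1, h3.2]

end Pool.Agent.Helper13.AM
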