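import Pool.Agent.Helper13.AM.Defs

/-!
AM-M1. Splitting of compactly supported functions by a partition of unity.

Proof. `K = tsupport χ` is compact; take finitely many `B i`, `i ∈ s`, covering `K`; for `CC` use
`exists_continuous_sum_one_of_isOpen_isCompact` (sets `B i ∩ Ω`; index `s` by `Fin`), for `CS` use
`SmoothPartitionOfUnity` (or `SmoothPartitionOfUnity.exists_isSubordinate` on the closed set `K`),
`c i = φ_i * χ`, `0 ≤ φ_i ≤ 1`.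
-/

set_option autoImplicit false

namespace Pool.Agent.Helper13.AM

open MeasureTheory Set Filter Topology Metric
open Pool.Agent.Helper29.AM

variable {n : ℕ}

open scoped Manifold ContDiff in
private theorem pou81 {ι : Type} [Fintype ι] {K : Set (V n)} (hK : IsClosed K) (B : ι → Set (V n)) (hB : ∀ i, IsOpen (B i))
    (hcov : K ⊆ ⋃ i, B i) : ∃ f : ι → V n → ℝ, (∀ i, ContDiff ℝ (⊤ : ℕ∞) (f i)) ∧ (∀ i z, 0 ≤ f i z ∧ f i z ≤ 1) ∧
      (∀ z ∈ K, ∑ i, f i z = 1) ∧ ∀ i, tsupport (f i) ⊆ B i := by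
  obtain ⟨f, hf⟩ := SmoothPartitionOfUnity.exists_isSubordinate 𝓘(ℝ, V n) hK B hB hcov
  refine ⟨fun i => f i, fun i => ?_, fun i z => ⟨f.nonneg i z, f.le_one i z⟩, fun z hz => ?_, fun i => hf i⟩
  · have h1 := (f i).contMDiff
    exact contMDiff_iff_contDiff.1 h1
  · have h1 := f.sum_eq_one hz
    rwa [finsum_eq_sum_of_fintype] at h1

/-- the weights -/
private theorem weights81 {K : Set (V n)} (hK : IsCompact K) {ι : Type*}
    (B : ι → Set (V n)) (hB : ∀ i, IsOpen (B i)) (hcov : K ⊆ ⋃ i, B i) :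
    ∃ (s : Finset ι) (f : ι → V n → ℝ), (∀ i ∈ s, ContDiff ℝ (⊤ : ℕ∞) (f i)) ∧ (∀ i ∈ s, ∀ z, 0 ≤ f i z ∧ f i z ≤ 1) ∧
      (∀ z ∈ K, ∑ i ∈ s, f i z = 1) ∧ ∀ i ∈ s, tsupport (f i) ⊆ B i := by
  classical
  obtain ⟨s, hs⟩ := hK.elim_finite_subcover B hB hcov
  obtain ⟨f, h1, h2, h3, h4⟩ := pou81 hK.isClosed (fun j : Fin s.card => B (s.equivFin.symm j)) (fun j => hB _) (by
    intro z hz
    obtain ⟨i, hi, hz'⟩ := mem_iUnion₂.1 (hs hz)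
    refine mem_iUnion.2 ⟨s.equivFin ⟨i, hi⟩, ?_⟩
    rw [Equiv.symm_apply_apply]
    exact hz')
  have e1 : ∃ w : ι → V n → ℝ, ∀ i (hi : i ∈ s), w i = f (s.equivFin ⟨i, hi⟩) :=
    ⟨fun i z => if h : i ∈ s then f (s.equivFin ⟨i, h⟩) z else 0, fun i hi => by
      funext z
      exact dif_pos hi⟩
  obtain ⟨w, hw⟩ := e1
  refine ⟨s, w, fun i hi => ?_, fun i hi z => ?_, fun z hz => ?_, fun i hi => ?_⟩
  · rw [hw i hi]
    exact h1 _
  · rw [hw i hi]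
    exact h2 _ z
  · rw [← Finset.sum_attach, ← h3 z hz]
    rw [← Equiv.sum_comp s.equivFin]
    refine Finset.sum_congr rfl fun i _ => ?_
    rw [hw i.1 i.2]
  · rw [hw i hi]
    refine (h4 _).trans ?_
    rw [Equiv.symm_apply_apply]

private theorem sum81 {χ : V n → ℝ} {ι : Type*} {s : Finset ι} {f : ι → V n → ℝ}
    (h : ∀ z ∈ tsupport χ, ∑ i ∈ s, f i z = 1) (z : V n) : χ z = ∑ i ∈ s, f i z * χ z := by
  by_cases hz : z ∈ tsupport χ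
  · rw [← Finset.sum_mul, h z hz, one_mul]
  · rw [image_eq_zero_of_notMem_tsupport hz]
    simp

private theorem abs81 {a b : ℝ} (h : 0 ≤ a ∧ a ≤ 1) : |a * b| ≤ |b| ∧ (0 ≤ b → 0 ≤ a * b) := by
  refine ⟨?_, fun hb => mul_nonneg h.1 hb⟩
  rw [abs_mul, abs_of_nonneg h.1]
  exact mul_le_of_le_one_left (abs_nonneg _) h.2

theorem CC.split {Ω : Set (V n)} (hΩ : IsOpen Ω) {χ : V n → ℝ} (h : CC Ω χ) {ι : Type*}
    (B : ι → Set (V n)) (hB : ∀ i, IsOpen (B i)) (hcov : tsupport χ ⊆ ⋃ i, B i) :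
    ∃ (s : Finset ι) (c : ι → V n → ℝ), (∀ i ∈ s, CC (B i ∩ Ω) (c i)) ∧
      (∀ z, χ z = ∑ i ∈ s, c i z) ∧
      (∀ i ∈ s, ∀ z, |c i z| ≤ |χ z| ∧ (0 ≤ χ z → 0 ≤ c i z)) := by
  obtain ⟨s, f, h1, h2, h3, h4⟩ := weights81 h.cpt B hB hcov
  refine ⟨s, fun i z => f i z * χ z, fun i hi => ⟨(h1 i hi).continuous.mul h.cont, h.cpt.mul_left, ?_⟩, sum81 h3,
    fun i hi z => abs81 (h2 i hi z)⟩
  exact subset_inter ((tsupport_mul_subset_left (f := f i) (g := χ)).trans (h4 i hi))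
    ((tsupport_mul_subset_right (f := f i) (g := χ)).trans h.sub)

theorem CS.split {Ω : Set (V n)} (hΩ : IsOpen Ω) {χ : V n → ℝ} (h : CS Ω χ) {ι : Type*}
    (B : ι → Set (V n)) (hB : ∀ i, IsOpen (B i)) (hcov : tsupport χ ⊆ ⋃ i, B i) :
    ∃ (s : Finset ι) (c : ι → V n → ℝ), (∀ i ∈ s, CS (B i ∩ Ω) (c i)) ∧
      (∀ z, χ z = ∑ i ∈ s, c i z) ∧
      (∀ i ∈ s, ∀ z, |c i z| ≤ |χ z| ∧ (0 ≤ χ z → 0 ≤ c i z)) := by
  obtain ⟨s, f, h1, h2, h3, h4⟩ := weights81 h.cpt B hB hcov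
  refine ⟨s, fun i z => f i z * χ z, fun i hi => ⟨(h1 i hi).mul h.smooth, h.cpt.mul_left, ?_⟩, sum81 h3,
    fun i hi z => abs81 (h2 i hi z)⟩
  exact subset_inter ((tsupport_mul_subset_left (f := f i) (g := χ)).trans (h4 i hi))
    ((tsupport_mul_subset_right (f := f i) (g := χ)).trans h.sub)

/-- a smooth cut-off function -/
theorem exists_cutoff {Ω K : Set (V n)} (hΩ : IsOpen Ω) (hK : IsCompact K) (hKΩ : K ⊆ Ω) :
    ∃ θ : V n → ℝ, CS Ω θ ∧ (∀ z, 0 ≤ θ z ∧ θ z ≤ 1) ∧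
      ∃ U : Set (V n), IsOpen U ∧ K ⊆ U ∧ ∀ z ∈ U, θ z = 1 := by
  obtain ⟨L, hL, hKL, hLΩ⟩ := exists_compact_between hK hΩ hKΩ
  obtain ⟨M, hM, hLM, hMΩ⟩ := exists_compact_between hL hΩ hLΩ
  obtain ⟨f, h1, h2, h3, h4⟩ := pou81 hL.isClosed (fun _ : Unit => interior M) (fun _ => isOpen_interior)
    (fun z hz => mem_iUnion.2 ⟨(), hLM hz⟩)
  have h5 : tsupport (f ()) ⊆ M := (h4 ()).trans interior_subset
  refine ⟨f (), ⟨h1 (), hM.of_isClosed_subset (isClosed_tsupport _) h5, h5.trans hMΩ⟩, h2 (), interior L, isOpen_interior, hKL,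
    fun z hz => ?_⟩
  have h6 := h3 z (interior_subset hz)
  simpa using h6

end Pool.Agent.Helper13.AM
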