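import Pool.Agent.Helper13.AM.P1
import Pool.Agent.Helper13.AM.M1
import Pool.Agent.Helper29.AM.Lev

/-!
AM-P3. (14.1) A psh function (mean value inequality on discs) is psh in the sense of distributions.

Proof. Local integrability: `PSH.locInt`. Let `v : V n` and `η` a test function in `Ω`; show
`0 ≤ ∫ u lev η · v` (then sum over `v = A (e l)`). Let `K = tsupport η`, `0 < t ≤ t₀` with the closed
`t₀‖v‖`-neighbourhood `K'` of `K` in `Ω`. For a.e. `z ∈ K`, `u z` is real and (mean inequality for the
disc `z + ζ t v`, with `C` an upper bound of `u` on `K'`)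
`2π u(z) ≤ ∫_θ u(z + t e^{iθ} v) dθ`. Multiply by `η ≥ 0` and integrate; Fubini and translation:
`0 ≤ ∫ u(z) [∫_θ η(z - t e^{iθ} v) dθ - 2π η(z)] dz`. The bracket divided by `2π t²` converges uniformly to
`lev η z v` as `t → 0` (Taylor formula of order 2: the average over `θ` of `½ D²η(e^{iθ}v, e^{iθ}v)` is
`¼ (D²η(v,v) + D²η(iv,iv))`, first order terms cancel), and is supported in `K'`; `u` is integrable on `K'`.
-/

set_option autoImplicit false

namespace Pool.Agent.Helper13.AM

open MeasureTheory Set Filter Topology Metric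
open Pool.Agent.Helper29.AM
open scoped ComplexOrder

variable {n : ℕ} {Ω : Set (V n)} {u : V n → EReal}

private theorem real_smul_h17 (r : ℝ) (w : V n) : ((r : ℂ) • w) = r • w := by
  ext i
  simp

private theorem taylor_h17 {η : V n → ℝ} (hη : CS univ η) {ε : ℝ} (hε : 0 < ε) :
    ∃ δ : ℝ, 0 < δ ∧ ∀ z w : V n, ‖w‖ < δ →
      |η (z + w) - η z - fderiv ℝ η z w - 1 / 2 * D2 η z w w| ≤ ε * ‖w‖ ^ 2 := by
  have hs := hη.smooth
  have hs2 : ContDiff ℝ 2 η := contDiff_infty.1 hs 2
  have hd1 : ContDiff ℝ 1 (fderiv ℝ η) := hs2.fderiv_right (by norm_num)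
  have hd2 : Continuous (fderiv ℝ (fderiv ℝ η)) := hd1.continuous_fderiv (by simp)
  have hc2 : HasCompactSupport (fderiv ℝ (fderiv ℝ η)) := (hη.cpt.fderiv ℝ).fderiv ℝ
  have huc : UniformContinuous (fderiv ℝ (fderiv ℝ η)) := hc2.uniformContinuous_of_continuous hd2
  obtain ⟨δ, hδ, huc⟩ := (Metric.uniformContinuous_iff (f := fderiv ℝ (fderiv ℝ η))).1 huc ε hε
  refine ⟨δ, hδ, fun z w hw => ?_⟩
  have hdiff : Differentiable ℝ η := hs.differentiable (by simp)
  have hdiff1 : Differentiable ℝ (fderiv ℝ η) := hd1.differentiable (by simp)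
  -- first order expansion of the derivative
  have h1 : ∀ y : V n, ‖y‖ < δ → ‖fderiv ℝ η (z + y) - fderiv ℝ η z - fderiv ℝ (fderiv ℝ η) z y‖ ≤ ε * ‖y‖ := by
    intro y hy
    have h2 := (convex_ball z δ).norm_image_sub_le_of_norm_fderiv_le' (f := fderiv ℝ η) (𝕜 := ℝ)
      (φ := fderiv ℝ (fderiv ℝ η) z) (C := ε) (x := z) (y := z + y) (fun x _ => hdiff1 x)
      (fun x hx => by
        have h3 := huc (a := x) (b := z) (by simpa using hx)
        have h4 := dist_eq_norm (fderiv ℝ (fderiv ℝ η) x) (fderiv ℝ (fderiv ℝ η) z)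
        exact h4.symm.le.trans h3.le) (by simpa using hδ) (by simpa using hy)
    simpa using h2
  -- one variable
  let g : ℝ → ℝ := fun s => η (z + s • w) - s * fderiv ℝ η z w - s ^ 2 / 2 * D2 η z w w
  have hg : ∀ s : ℝ, HasDerivAt g (fderiv ℝ η (z + s • w) w - fderiv ℝ η z w - s * D2 η z w w) s := by
    intro s
    have h3 : HasDerivAt (fun s : ℝ => z + s • w) w s := by
      simpa using ((hasDerivAt_id s).smul_const w).const_add z
    have h4 : HasDerivAt (fun s : ℝ => η (z + s • w)) (fderiv ℝ η (z + s • w) w) s :=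
      (hdiff (z + s • w)).hasFDerivAt.comp_hasDerivAt s h3
    have h5 : HasDerivAt (fun s : ℝ => s * fderiv ℝ η z w) (fderiv ℝ η z w) s := by
      simpa using (hasDerivAt_id s).mul_const (fderiv ℝ η z w)
    have h6 : HasDerivAt (fun s : ℝ => s ^ 2 / 2 * D2 η z w w) (s * D2 η z w w) s := by
      have h := ((hasDerivAt_pow 2 s).div_const 2).mul_const (D2 η z w w)
      have e : (((2 : ℕ) : ℝ) * s ^ (2 - 1)) / 2 * D2 η z w w = s * D2 η z w w := by
        norm_num
      rw [e] at h
      exact h
    exact (h4.sub h5).sub h6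
  have h7 : ‖g 1 - g 0‖ ≤ ε * ‖w‖ ^ 2 := by
    refine norm_image_sub_le_of_norm_deriv_le_segment_01' (fun x _ => (hg x).hasDerivWithinAt) ?_
    intro s hs1
    have h8 : fderiv ℝ η (z + s • w) w - fderiv ℝ η z w - s * D2 η z w w =
        (fderiv ℝ η (z + s • w) - fderiv ℝ η z - fderiv ℝ (fderiv ℝ η) z (s • w)) w := by
      simp [D2]
    rw [h8]
    have h9 : ‖s • w‖ ≤ ‖w‖ := by
      rw [norm_smul, Real.norm_eq_abs, abs_of_nonneg hs1.1]
      nlinarith [norm_nonneg w, hs1.2]
    calc _ ≤ ‖fderiv ℝ η (z + s • w) - fderiv ℝ η z - fderiv ℝ (fderiv ℝ η) z (s • w)‖ * ‖w‖ :=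
          ContinuousLinearMap.le_opNorm _ _
      _ ≤ (ε * ‖s • w‖) * ‖w‖ := by
          gcongr
          exact h1 _ (lt_of_le_of_lt h9 hw)
      _ ≤ (ε * ‖w‖) * ‖w‖ := by gcongr
      _ = ε * ‖w‖ ^ 2 := by ring
  rw [Real.norm_eq_abs] at h7
  have h10 : g 1 - g 0 = η (z + w) - η z - fderiv ℝ η z w - 1 / 2 * D2 η z w w := by
    simp [g]
    ring
  rwa [h10] at h7

/-- Taylor formula for circular means -/
theorem circle_taylor {η : V n → ℝ} (hη : CS univ η) (v : V n) {ε : ℝ} (hε : 0 < ε) :
    ∃ t₀ : ℝ, 0 < t₀ ∧ ∀ t : ℝ, 0 < t → t < t₀ → ∀ z : V n,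
      |(∫ θ in (0 : ℝ)..(2 * Real.pi), η (z - ((t : ℂ) * Complex.exp (θ * Complex.I)) • v)) -
        2 * Real.pi * η z - 2 * Real.pi * t ^ 2 * lev η z v| ≤ ε * t ^ 2 := by
  have hpi := Real.pi_pos
  set ε' : ℝ := ε / (2 * Real.pi * (‖v‖ ^ 2 + 1)) with hε'
  have hε'0 : 0 < ε' := by positivity
  obtain ⟨δ, hδ, hT⟩ := taylor_h17 hη hε'0
  refine ⟨δ / (‖v‖ + 1), by positivity, fun t ht0 ht z => ?_⟩
  have hs := hη.smooth
  have hcont : Continuous η := hη.smooth.continuous
  -- the points of the circle
  have hw : ∀ θ : ℝ, -(((t : ℂ) * Complex.exp (θ * Complex.I)) • v) =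
      (-(t * Real.cos θ)) • v + (-(t * Real.sin θ)) • (Complex.I • v) := by
    intro θ
    rw [← real_smul_h17, ← real_smul_h17, smul_smul, ← neg_smul, ← add_smul]
    congr 1
    rw [Complex.exp_mul_I]
    push_cast
    ring
  have hn : ∀ θ : ℝ, ‖-(((t : ℂ) * Complex.exp (θ * Complex.I)) • v)‖ = t * ‖v‖ := by
    intro θ
    rw [norm_neg, norm_smul, norm_mul, Complex.norm_exp_ofReal_mul_I, Complex.norm_real, Real.norm_eq_abs,
      abs_of_pos ht0, mul_one]
  have hlt : t * ‖v‖ < δ := by
    rw [lt_div_iff₀ (by positivity)] at ht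
    nlinarith
  set a := fderiv ℝ η z v with ha
  set b := fderiv ℝ η z (Complex.I • v) with hb
  set A := D2 η z v v with hA
  set B := D2 η z v (Complex.I • v) with hB
  set B' := D2 η z (Complex.I • v) v with hB'
  set C := D2 η z (Complex.I • v) (Complex.I • v) with hC
  have hlin : ∀ θ : ℝ, fderiv ℝ η z (-(((t : ℂ) * Complex.exp (θ * Complex.I)) • v)) =
      -(t * a) * Real.cos θ - (t * b) * Real.sin θ := by
    intro θ
    rw [hw, map_add, map_smul, map_smul, smul_eq_mul, smul_eq_mul]
    ring
  have hquad : ∀ θ : ℝ, D2 η z (-(((t : ℂ) * Complex.exp (θ * Complex.I)) • v))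
      (-(((t : ℂ) * Complex.exp (θ * Complex.I)) • v)) =
      (t ^ 2 * A) * Real.cos θ ^ 2 + (t ^ 2 * (B + B')) * (Real.sin θ * Real.cos θ) + (t ^ 2 * C) * Real.sin θ ^ 2 := by
    intro θ
    rw [hw]
    unfold D2
    simp only [map_add, map_smul, add_apply, smul_apply, smul_eq_mul]
    simp only [hA, hB, hB', hC, D2]
    ring
  have hcw : Continuous fun θ : ℝ => -(((t : ℂ) * Complex.exp (θ * Complex.I)) • v) := by fun_prop
  have hc1 : Continuous fun θ : ℝ => η (z - ((t : ℂ) * Complex.exp (θ * Complex.I)) • v) := by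
    refine hcont.comp ?_
    fun_prop
  -- the integral of the remainder
  have hR : |∫ θ in (0 : ℝ)..(2 * Real.pi), (η (z - ((t : ℂ) * Complex.exp (θ * Complex.I)) • v) - η z -
      (-(t * a) * Real.cos θ - (t * b) * Real.sin θ) - 1 / 2 * ((t ^ 2 * A) * Real.cos θ ^ 2 +
        (t ^ 2 * (B + B')) * (Real.sin θ * Real.cos θ) + (t ^ 2 * C) * Real.sin θ ^ 2))| ≤
      (ε' * (t * ‖v‖) ^ 2) * |2 * Real.pi - 0| := by
    rw [← Real.norm_eq_abs]
    refine intervalIntegral.norm_integral_le_of_norm_le_const fun θ _ => ?_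
    have h1 := hT z (-(((t : ℂ) * Complex.exp (θ * Complex.I)) • v)) (by rw [hn]; exact hlt)
    rw [hn, hlin, hquad, ← sub_eq_add_neg] at h1
    rw [Real.norm_eq_abs]
    exact h1
  have hI : (∫ θ in (0 : ℝ)..(2 * Real.pi), (η (z - ((t : ℂ) * Complex.exp (θ * Complex.I)) • v) - η z -
      (-(t * a) * Real.cos θ - (t * b) * Real.sin θ) - 1 / 2 * ((t ^ 2 * A) * Real.cos θ ^ 2 +
        (t ^ 2 * (B + B')) * (Real.sin θ * Real.cos θ) + (t ^ 2 * C) * Real.sin θ ^ 2))) =
      (∫ θ in (0 : ℝ)..(2 * Real.pi), η (z - ((t : ℂ) * Complex.exp (θ * Complex.I)) • v)) -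
        2 * Real.pi * η z - 2 * Real.pi * t ^ 2 * lev η z v := by
    have e1 : ∀ θ : ℝ, (η (z - ((t : ℂ) * Complex.exp (θ * Complex.I)) • v) - η z -
      (-(t * a) * Real.cos θ - (t * b) * Real.sin θ) - 1 / 2 * ((t ^ 2 * A) * Real.cos θ ^ 2 +
        (t ^ 2 * (B + B')) * (Real.sin θ * Real.cos θ) + (t ^ 2 * C) * Real.sin θ ^ 2)) =
      η (z - ((t : ℂ) * Complex.exp (θ * Complex.I)) • v) + (-η z + ((t * a) * Real.cos θ + ((t * b) * Real.sin θ +
        ((-(t ^ 2 * A) / 2) * Real.cos θ ^ 2 + ((-(t ^ 2 * (B + B')) / 2) * (Real.sin θ * Real.cos θ) +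
          (-(t ^ 2 * C) / 2) * Real.sin θ ^ 2))))) := by
      intro θ
      ring
    simp_rw [e1]
    have i1 : ∀ f : ℝ → ℝ, Continuous f → IntervalIntegrable f volume 0 (2 * Real.pi) :=
      fun f hf => hf.intervalIntegrable _ _
    rw [intervalIntegral.integral_add (i1 _ hc1) (i1 _ (by fun_prop)),
      intervalIntegral.integral_add (i1 _ (by fun_prop)) (i1 _ (by fun_prop)),
      intervalIntegral.integral_add (i1 _ (by fun_prop)) (i1 _ (by fun_prop)),
      intervalIntegral.integral_add (i1 _ (by fun_prop)) (i1 _ (by fun_prop)),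
      intervalIntegral.integral_add (i1 _ (by fun_prop)) (i1 _ (by fun_prop)),
      intervalIntegral.integral_add (i1 _ (by fun_prop)) (i1 _ (by fun_prop)),
      intervalIntegral.integral_const_mul, intervalIntegral.integral_const_mul, intervalIntegral.integral_const_mul,
      intervalIntegral.integral_const_mul, intervalIntegral.integral_const_mul, intervalIntegral.integral_const,
      integral_cos, integral_sin, integral_cos_sq, integral_sin_sq, integral_sin_mul_cos₁]
    simp only [Real.sin_two_pi, Real.cos_two_pi, Real.sin_zero, Real.cos_zero, smul_eq_mul]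
    unfold lev
    rw [← hA, ← hC]
    ring
  rw [hI] at hR
  refine hR.trans ?_
  rw [sub_zero, abs_of_pos (by positivity), hε']
  have h2 : ε / (2 * Real.pi * (‖v‖ ^ 2 + 1)) * (t * ‖v‖) ^ 2 * (2 * Real.pi) =
      ε * t ^ 2 * (‖v‖ ^ 2 / (‖v‖ ^ 2 + 1)) := by
    field_simp
  rw [h2]
  have h3 : ‖v‖ ^ 2 / (‖v‖ ^ 2 + 1) ≤ 1 := by
    rw [div_le_one (by positivity)]
    linarith
  have h4 : 0 ≤ ε * t ^ 2 := by positivity
  nlinarith

private theorem tonelli_h17 (W : V n → ENNReal) (hW : Measurable W) {η : V n → ℝ} (hη : Continuous η) {p : ℝ → V n}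
    (hp : Continuous p) :
    ∫⁻ z, W z * ∫⁻ θ in Ioc (0 : ℝ) (2 * Real.pi), ENNReal.ofReal (η (z - p θ)) =
      ∫⁻ z, ENNReal.ofReal (η z) * ∫⁻ θ in Ioc (0 : ℝ) (2 * Real.pi), W (z + p θ) := by
  have m1 : Measurable (Function.uncurry fun (z : V n) (θ : ℝ) => W z * ENNReal.ofReal (η (z - p θ))) := by
    refine (hW.comp measurable_fst).mul (ENNReal.measurable_ofReal.comp ?_)
    exact (hη.comp (by fun_prop : Continuous fun x : V n × ℝ => x.1 - p x.2)).measurable
  have m2 : Measurable (Function.uncurry fun (z : V n) (θ : ℝ) => ENNReal.ofReal (η z) * W (z + p θ)) := by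
    refine (ENNReal.measurable_ofReal.comp (hη.measurable.comp measurable_fst)).mul (hW.comp ?_)
    exact (by fun_prop : Continuous fun x : V n × ℝ => x.1 + p x.2).measurable
  have h1 : ∀ z, W z * ∫⁻ θ in Ioc (0 : ℝ) (2 * Real.pi), ENNReal.ofReal (η (z - p θ)) =
      ∫⁻ θ in Ioc (0 : ℝ) (2 * Real.pi), W z * ENNReal.ofReal (η (z - p θ)) := by
    intro z
    rw [lintegral_const_mul]
    exact ENNReal.measurable_ofReal.comp (hη.comp (by fun_prop : Continuous fun x : ℝ => z - p x)).measurable
  have h2 : ∀ z, ENNReal.ofReal (η z) * ∫⁻ θ in Ioc (0 : ℝ) (2 * Real.pi), W (z + p θ) =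
      ∫⁻ θ in Ioc (0 : ℝ) (2 * Real.pi), ENNReal.ofReal (η z) * W (z + p θ) := by
    intro z
    rw [lintegral_const_mul]
    exact hW.comp (by fun_prop : Continuous fun x : ℝ => z + p x).measurable
  simp_rw [h1, h2]
  rw [lintegral_lintegral_swap m1.aemeasurable, lintegral_lintegral_swap m2.aemeasurable]
  refine lintegral_congr fun θ => ?_
  have h3 := lintegral_add_right_eq_self (μ := (volume : Measure (V n)))
    (fun z => W z * ENNReal.ofReal (η (z - p θ))) (p θ)
  rw [← h3]
  refine lintegral_congr fun z => ?_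
  rw [add_sub_cancel_right, mul_comm]

private theorem key_h17 (hΩ : IsOpen Ω) (hu : PSH Ω u) {η : V n → ℝ} (hη : Tst Ω η) (v : V n) :
    0 ≤ ∫ z, (u z).toReal * lev η z v := by
  have hpi := Real.pi_pos
  set K := tsupport η with hK
  have hKc : IsCompact K := hη.cpt
  obtain ⟨r, hr, hrΩ⟩ := hKc.exists_cthickening_subset_open hΩ hη.sub
  set K' := cthickening r K with hK'
  have hKK' : K ⊆ K' := self_subset_cthickening K
  have hK'c : IsCompact K' := hKc.cthickening
  have hK'm : MeasurableSet K' := hK'c.measurableSet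
  obtain ⟨C, hC⟩ := hu.exists_le hK'c hrΩ
  have hηc : Continuous η := hη.smooth.continuous
  have hηCS : CS univ η := ⟨hη.smooth, hη.cpt, subset_univ _⟩
  set U : V n → ℝ := fun z => (u z).toReal with hU
  have hUint : IntegrableOn U K' volume := (hu.locInt hΩ).integrableOn_compact_subset hrΩ hK'c
  -- the weight
  set W : V n → ENNReal := K'.indicator (fun z => ((C : EReal) - Ω.indicator u z).toENNReal) with hW
  have hWm : Measurable W := by
    refine Measurable.indicator ?_ hK'm
    have h1 : Antitone fun x : EReal => ((C : EReal) - x).toENNReal := fun x y hxy =>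
      EReal.toENNReal_le_toENNReal (EReal.sub_le_sub le_rfl hxy)
    exact h1.measurable.comp (hu.measurable hΩ)
  have hWof : ∀ z ∈ K', W z = ((C : EReal) - u z).toENNReal := by
    intro z hz
    rw [hW, indicator_of_mem hz, indicator_of_mem (hrΩ hz)]
  set Wr : V n → ℝ := K'.indicator (fun z => C - U z) with hWr
  have hWrint : Integrable Wr volume := by
    rw [hWr, integrable_indicator_iff hK'm]
    exact (integrableOn_const hK'c.measure_lt_top.ne).sub hUint
  have hWae : ∀ᵐ z, W z = ENNReal.ofReal (Wr z) ∧ 0 ≤ Wr z := by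
    filter_upwards [hu.ae_bot] with z hz
    by_cases hzK : z ∈ K'
    · have h1 := hz (hrΩ hzK)
      have h2 : u z ≠ ⊤ := (hu.lt_top z (hrΩ hzK)).ne
      have h3 : ((U z : ℝ) : EReal) = u z := EReal.coe_toReal h2 h1
      have h4 : U z ≤ C := by
        have := hC z hzK
        rw [← h3] at this
        exact EReal.coe_le_coe_iff.1 this
      rw [hWof z hzK, hWr, indicator_of_mem hzK, ← h3, ← EReal.coe_sub, EReal.toENNReal_of_ne_top (EReal.coe_ne_top _),
        EReal.toReal_coe]
      exact ⟨rfl, by linarith⟩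
    · rw [hW, hWr, indicator_of_notMem hzK, indicator_of_notMem hzK]
      simp
  -- the lower bound for small circles
  have main : ∀ t : ℝ, 0 < t → t * ‖v‖ ≤ r →
      0 ≤ (∫ z, U z * ((∫ θ in (0 : ℝ)..(2 * Real.pi), η (z - ((t : ℂ) * Complex.exp (θ * Complex.I)) • v)) -
        2 * Real.pi * η z)) ∧
      (∀ z ∉ K', (∫ θ in (0 : ℝ)..(2 * Real.pi), η (z - ((t : ℂ) * Complex.exp (θ * Complex.I)) • v)) = 0) ∧
      Continuous fun z => (∫ θ in (0 : ℝ)..(2 * Real.pi), η (z - ((t : ℂ) * Complex.exp (θ * Complex.I)) • v)) := by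
    intro t ht0 ht
    set p : ℝ → V n := fun θ => ((t : ℂ) * Complex.exp (θ * Complex.I)) • v with hp
    have hpc : Continuous p := by
      rw [hp]
      fun_prop
    have hpn : ∀ θ, ‖p θ‖ ≤ r := by
      intro θ
      rw [hp]
      simp only
      rw [norm_smul, norm_mul, Complex.norm_exp_ofReal_mul_I, Complex.norm_real, Real.norm_eq_abs,
        abs_of_pos ht0, mul_one]
      exact ht
    set A : V n → ℝ := fun z => ∫ θ in (0 : ℝ)..(2 * Real.pi), η (z - p θ) with hA
    have hAc : Continuous A := by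
      rw [hA]
      refine intervalIntegral.continuous_parametric_intervalIntegral_of_continuous' ?_ _ _
      exact hηc.comp (by fun_prop : Continuous fun x : V n × ℝ => x.1 - p x.2)
    have hAof : ∀ z, ∫⁻ θ in Ioc (0 : ℝ) (2 * Real.pi), ENNReal.ofReal (η (z - p θ)) = ENNReal.ofReal (A z) := by
      intro z
      rw [hA]
      simp only
      rw [intervalIntegral.integral_of_le (by positivity), ofReal_integral_eq_lintegral_ofReal]
      · have : Continuous fun θ => η (z - p θ) := hηc.comp (by fun_prop)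
        exact (this.integrableOn_Icc).mono_set Ioc_subset_Icc_self
      · exact Eventually.of_forall fun θ => hη.nonneg _
    have hA0 : ∀ z, 0 ≤ A z := fun z =>
      intervalIntegral.integral_nonneg (by positivity) fun θ _ => hη.nonneg _
    have hAoff : ∀ z ∉ K', A z = 0 := by
      intro z hz
      rw [hA]
      simp only
      have : ∀ θ, η (z - p θ) = 0 := by
        intro θ
        refine image_eq_zero_of_notMem_tsupport fun h => hz ?_
        refine mem_cthickening_of_dist_le z (z - p θ) r K h ?_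
        rw [dist_eq_norm, sub_sub_cancel]
        exact hpn θ
      simp_rw [this]
      simp
    have hηoff : ∀ z ∉ K', η z = 0 := fun z hz => image_eq_zero_of_notMem_tsupport fun h => hz (hKK' h)
    -- integrability of products with continuous functions vanishing outside `K'`
    have hprod : ∀ (f : V n → ℝ) (a : V n → ℝ), IntegrableOn f K' volume → Continuous a → (∀ z ∉ K', a z = 0) →
        Integrable (fun z => f z * a z) volume := by
      intro f a hf ha ha0
      have h1 : IntegrableOn (fun z => f z * a z) K' volume := hf.mul_continuousOn ha.continuousOn hK'c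
      refine (integrableOn_iff_integrable_of_support_subset ?_).1 h1
      intro z hz
      by_contra hzK
      exact hz (by simp [ha0 z hzK])
    have hone : IntegrableOn (fun _ : V n => (1 : ℝ)) K' volume := integrableOn_const hK'c.measure_lt_top.ne
    have iA : Integrable A volume := by
      have := hprod _ A hone hAc hAoff
      simpa using this
    have iη : Integrable η volume := by
      have := hprod _ η hone hηc hηoff
      simpa using this
    have iWA : Integrable (fun z => Wr z * A z) volume := hprod _ A hWrint.integrableOn hAc hAoff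
    have iWη : Integrable (fun z => Wr z * η z) volume := hprod _ η hWrint.integrableOn hηc hηoff
    -- first inequality
    have hmean : ∀ z ∈ K, ∫⁻ θ in Ioc (0 : ℝ) (2 * Real.pi), W (z + p θ) ≤ ENNReal.ofReal (2 * Real.pi) * W z := by
      intro z hz
      have hin : ∀ ζ : ℂ, ‖ζ‖ ≤ 1 → z + ζ • ((t : ℂ) • v) ∈ K' := by
        intro ζ hζ
        refine mem_cthickening_of_dist_le _ z r K hz ?_
        rw [dist_eq_norm, add_sub_cancel_left, norm_smul, norm_smul, Complex.norm_real, Real.norm_eq_abs, abs_of_pos ht0]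
        have : 0 ≤ t * ‖v‖ := by positivity
        nlinarith
      have h1 := hu.mean z ((t : ℂ) • v) C (fun ζ hζ => ⟨hrΩ (hin ζ hζ), hC _ (hin ζ hζ)⟩)
      rw [hWof z (hKK' hz)]
      refine le_trans (le_of_eq ?_) h1
      refine lintegral_congr fun θ => ?_
      have h2 : Complex.exp (θ * Complex.I) • ((t : ℂ) • v) = p θ := by
        rw [hp, smul_smul, mul_comm]
      rw [h2, hWof]
      have h3 := hin (Complex.exp (θ * Complex.I)) (by rw [Complex.norm_exp_ofReal_mul_I])
      rw [h2] at h3
      exact h3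
    have I1 : ∫ z, Wr z * A z ≤ 2 * Real.pi * ∫ z, Wr z * η z := by
      have h1 := tonelli_h17 W hWm hηc hpc
      simp_rw [hAof] at h1
      have h2 : ∫⁻ z, W z * ENNReal.ofReal (A z) ≤ ∫⁻ z, ENNReal.ofReal (η z) * (ENNReal.ofReal (2 * Real.pi) * W z) := by
        rw [h1]
        refine lintegral_mono fun z => ?_
        by_cases hz : z ∈ K
        · exact mul_le_mul_right (hmean z hz) _
        · have : η z = 0 := image_eq_zero_of_notMem_tsupport hz
          simp [this]
      have h3 : ∫⁻ z, W z * ENNReal.ofReal (A z) = ENNReal.ofReal (∫ z, Wr z * A z) := by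
        rw [ofReal_integral_eq_lintegral_ofReal iWA]
        · refine lintegral_congr_ae ?_
          filter_upwards [hWae] with z hz
          rw [hz.1, ENNReal.ofReal_mul hz.2]
        · filter_upwards [hWae] with z hz
          exact mul_nonneg hz.2 (hA0 z)
      have h4 : ∫⁻ z, ENNReal.ofReal (η z) * (ENNReal.ofReal (2 * Real.pi) * W z) =
          ENNReal.ofReal (2 * Real.pi * ∫ z, Wr z * η z) := by
        rw [← integral_const_mul, ofReal_integral_eq_lintegral_ofReal (iWη.const_mul _)]
        · refine lintegral_congr_ae ?_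
          filter_upwards [hWae] with z hz
          rw [hz.1, ENNReal.ofReal_mul (show (0 : ℝ) ≤ 2 * Real.pi by positivity), ENNReal.ofReal_mul hz.2]
          ring
        · filter_upwards [hWae] with z hz
          exact mul_nonneg (by positivity) (mul_nonneg hz.2 (hη.nonneg z))
      rw [h3, h4] at h2
      refine (ENNReal.ofReal_le_ofReal_iff ?_).1 h2
      refine mul_nonneg (by positivity) (integral_nonneg_of_ae ?_)
      filter_upwards [hWae] with z hz
      exact mul_nonneg hz.2 (hη.nonneg z)
    have I2 : ∫ z, A z = 2 * Real.pi * ∫ z, η z := by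
      have h1 := tonelli_h17 (fun _ : V n => 1) measurable_const hηc hpc
      simp_rw [hAof] at h1
      have h3 : ∫⁻ z, (1 : ENNReal) * ENNReal.ofReal (A z) = ENNReal.ofReal (∫ z, A z) := by
        rw [ofReal_integral_eq_lintegral_ofReal iA (Eventually.of_forall hA0)]
        simp
      have h4 : ∫⁻ z, ENNReal.ofReal (η z) * ∫⁻ _ in Ioc (0 : ℝ) (2 * Real.pi), (1 : ENNReal) =
          ENNReal.ofReal (2 * Real.pi * ∫ z, η z) := by
        rw [← integral_const_mul, ofReal_integral_eq_lintegral_ofReal (iη.const_mul _)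
          (Eventually.of_forall fun z => mul_nonneg (by positivity) (hη.nonneg z))]
        refine lintegral_congr fun z => ?_
        rw [ENNReal.ofReal_mul (show (0 : ℝ) ≤ 2 * Real.pi by positivity), lintegral_const, Measure.restrict_apply MeasurableSet.univ, univ_inter,
          Real.volume_Ioc, sub_zero, one_mul]
        ring
      rw [h3, h4] at h1
      refine (ENNReal.ofReal_eq_ofReal_iff (integral_nonneg hA0) ?_).1 h1
      exact mul_nonneg (by positivity) (integral_nonneg hη.nonneg)
    refine ⟨?_, hAoff, hAc⟩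
    have e1 : ∀ z, U z * (A z - 2 * Real.pi * η z) =
        (C * A z - C * (2 * Real.pi) * η z) - (Wr z * A z - 2 * Real.pi * (Wr z * η z)) := by
      intro z
      by_cases hz : z ∈ K'
      · rw [hWr, indicator_of_mem hz]
        ring
      · rw [hAoff z hz, hηoff z hz]
        ring
    have e2 : ∫ z, U z * (A z - 2 * Real.pi * η z) =
        (C * ∫ z, A z) - (C * (2 * Real.pi) * ∫ z, η z) - ((∫ z, Wr z * A z) - 2 * Real.pi * ∫ z, Wr z * η z) := by
      simp_rw [e1]
      rw [integral_sub, integral_sub, integral_sub, integral_const_mul, integral_const_mul, integral_const_mul]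
      · exact iWA
      · exact iWη.const_mul _
      · exact iA.const_mul _
      · exact iη.const_mul _
      · exact (iA.const_mul _).sub (iη.const_mul _)
      · exact iWA.sub (iWη.const_mul _)
    rw [e2, I2]
    have : C * (2 * Real.pi * ∫ z, η z) - C * (2 * Real.pi) * ∫ z, η z = 0 := by ring
    linarith
  -- conclusion
  have hfin : ∀ ε : ℝ, 0 < ε → -(ε * ∫ z in K', |U z|) ≤ 2 * Real.pi * ∫ z, U z * lev η z v := by
    intro ε hε
    obtain ⟨t₀, ht₀, hT⟩ := circle_taylor hηCS v hε
    obtain ⟨t, ht, htt, htr⟩ : ∃ t : ℝ, 0 < t ∧ t < t₀ ∧ t * ‖v‖ ≤ r := by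
      refine ⟨min (t₀ / 2) (r / (‖v‖ + 1)), lt_min (by positivity) (by positivity), ?_, ?_⟩
      · exact lt_of_le_of_lt (min_le_left _ _) (by linarith)
      · have h1 : min (t₀ / 2) (r / (‖v‖ + 1)) * ‖v‖ ≤ r / (‖v‖ + 1) * (‖v‖ + 1) := by
          gcongr
          · exact min_le_right _ _
          · linarith
        refine h1.trans (le_of_eq ?_)
        field_simp
    obtain ⟨m1, m2, m3⟩ := main t ht htr
    set A : V n → ℝ := fun z => ∫ θ in (0 : ℝ)..(2 * Real.pi), η (z - ((t : ℂ) * Complex.exp (θ * Complex.I)) • v) with hA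
    have m2' : ∀ z ∉ K', A z = 0 := m2
    have hlevoff : ∀ z ∉ K, lev η z v = 0 := by
      intro z hz
      have h1 : η =ᶠ[𝓝 z] fun _ => (0 : ℝ) := notMem_tsupport_iff_eventuallyEq.1 hz
      rw [lev_congr h1]
      exact lev_const 0 v
    have hlevc : Continuous fun z => lev η z v := by
      have h1 : ContDiff ℝ (⊤ : ℕ∞) η := hη.smooth
      have h2 := continuousOn_lev (u := η) isOpen_univ ((contDiff_infty.1 h1 2).contDiffOn) v
      exact continuousOn_univ.1 h2
    have hprod : ∀ (a : V n → ℝ), Continuous a → (∀ z ∉ K', a z = 0) →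
        Integrable (fun z => U z * a z) volume := by
      intro a ha ha0
      have h1 : IntegrableOn (fun z => U z * a z) K' volume := hUint.mul_continuousOn ha.continuousOn hK'c
      refine (integrableOn_iff_integrable_of_support_subset ?_).1 h1
      intro z hz
      by_contra hzK
      exact hz (by simp [ha0 z hzK])
    have hηoff : ∀ z ∉ K', η z = 0 := fun z hz => image_eq_zero_of_notMem_tsupport fun h => hz (hKK' h)
    have i1 : Integrable (fun z => U z * (A z - 2 * Real.pi * η z)) volume := by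
      refine hprod _ (m3.sub (continuous_const.mul hηc)) ?_
      intro z hz
      rw [m2' z hz, hηoff z hz]
      ring
    have i2 : Integrable (fun z => U z * lev η z v) volume :=
      hprod _ hlevc fun z hz => hlevoff z fun h => hz (hKK' h)
    have i3 : Integrable (K'.indicator fun z => |U z|) volume := by
      rw [integrable_indicator_iff hK'm]
      exact hUint.abs
    have h1 : ∀ z, U z * (A z - 2 * Real.pi * η z) - ε * t ^ 2 * K'.indicator (fun z => |U z|) z ≤
        2 * Real.pi * t ^ 2 * (U z * lev η z v) := by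
      intro z
      by_cases hz : z ∈ K'
      · rw [indicator_of_mem hz]
        have h2 := hT t ht htt z
        have h3 : U z * (A z - 2 * Real.pi * η z - 2 * Real.pi * t ^ 2 * lev η z v) ≤ |U z| * (ε * t ^ 2) := by
          refine (le_abs_self _).trans ?_
          rw [abs_mul]
          exact mul_le_mul_of_nonneg_left h2 (abs_nonneg _)
        linarith
      · rw [indicator_of_notMem hz, m2' z hz, hηoff z hz, hlevoff z fun h => hz (hKK' h)]
        simp
    have h2 := integral_mono (i1.sub (i3.const_mul (ε * t ^ 2))) (i2.const_mul (2 * Real.pi * t ^ 2)) h1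
    rw [integral_sub' i1 (i3.const_mul _), integral_const_mul, integral_const_mul, integral_indicator hK'm] at h2
    have h3 : t ^ 2 * (-(ε * ∫ z in K', |U z|)) ≤ t ^ 2 * (2 * Real.pi * ∫ z, U z * lev η z v) := by
      have : 0 ≤ ∫ z, U z * (A z - 2 * Real.pi * η z) := m1
      linarith
    exact le_of_mul_le_mul_left h3 (by positivity)
  by_contra hneg
  push Not at hneg
  set I := ∫ z in K', |U z| with hI
  have hI0 : 0 ≤ I := integral_nonneg fun z => abs_nonneg _
  have h1 := hfin (-(∫ z, U z * lev η z v) / (I + 1)) (div_pos (by linarith) (by linarith))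
  have h2 : -(-(∫ z, U z * lev η z v) / (I + 1) * I) = (∫ z, U z * lev η z v) * (I / (I + 1)) := by ring
  rw [h2] at h1
  have h3 : I / (I + 1) ≤ 1 := by
    rw [div_le_one (by linarith)]
    linarith
  have h4 : (∫ z, U z * lev η z v) ≤ (∫ z, U z * lev η z v) * (I / (I + 1)) := by
    have : (∫ z, U z * lev η z v) * (1 - I / (I + 1)) ≤ 0 :=
      mul_nonpos_of_nonpos_of_nonneg hneg.le (by linarith)
    linarith
  have h5 := Real.pi_gt_three
  nlinarith

theorem PSH.pshd (hΩ : IsOpen Ω) (hu : PSH Ω u) : PSHd Ω (fun z => (u z).toReal) := by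
  refine ⟨hu.locInt hΩ, ?_, fun _ _ => le_rfl, ?_⟩
  · exact (locallyIntegrable_const (0 : ℝ)).locallyIntegrableOn _
  · intro A η hη
    have h1 : ∀ l : Fin n, 0 ≤ ∫ z, (u z).toReal * lev η z (A (e l)) := fun l => key_h17 hΩ hu hη _
    simp only [zero_mul, integral_zero, mul_zero]
    by_cases hint : ∀ l : Fin n, Integrable (fun z => (u z).toReal * lev η z (A (e l))) volume
    · unfold DA
      simp_rw [Finset.mul_sum]
      rw [integral_finsetSum _ fun l _ => hint l]
      exact Finset.sum_nonneg fun l _ => h1 l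
    · exfalso
      apply hint
      intro l
      have hUint : IntegrableOn (fun z => (u z).toReal) (tsupport η) volume :=
        (hu.locInt hΩ).integrableOn_compact_subset hη.sub hη.cpt
      have hlevoff : ∀ z ∉ tsupport η, lev η z (A (e l)) = 0 := by
        intro z hz
        have h1 : η =ᶠ[𝓝 z] fun _ => (0 : ℝ) := notMem_tsupport_iff_eventuallyEq.1 hz
        rw [lev_congr h1]
        exact lev_const 0 _
      have hlevc : Continuous fun z => lev η z (A (e l)) := by
        have h1 : ContDiff ℝ (⊤ : ℕ∞) η := hη.smooth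
        have h2 := continuousOn_lev (u := η) isOpen_univ ((contDiff_infty.1 h1 2).contDiffOn) (A (e l))
        exact continuousOn_univ.1 h2
      have h2 : IntegrableOn (fun z => (u z).toReal * lev η z (A (e l))) (tsupport η) volume :=
        hUint.mul_continuousOn hlevc.continuousOn hη.cpt
      refine (integrableOn_iff_integrable_of_support_subset ?_).1 h2
      intro z hz
      by_contra hzK
      exact hz (by simp [hlevoff z hzK])

end Pool.Agent.Helper13.AM
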