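import Pool.Agent.Helper13.AM.P2
import Pool.Agent.Helper13.AM.P3
import Pool.Agent.Helper13.AM.K2
import Pool.Agent.Helper29.AM.GS2

/-!
AM-P4. Values of psh functions as limits of means; smooth approximation from above.

`tendsto_Phi`: lower bound `u a ≤ Phi` (`PSH.le_Phi`); upper bound: for real `c > u a`, `u < c` on a
small ball, so `u.toReal ≤ c` a.e. there and `Phi ≤ c` (`Phi_mono`, `Phi_const`).
`le_of_ae_le`: compare the means. `Dec_Phi`: `PSHd.mollify`, `Phi_mono_radius`, `tendsto_Phi`.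
`exists_Dec`: a compact subset of `Ω` is contained in `shr Ω t` for some `t > 0`.
-/

set_option autoImplicit false

namespace Pool.Agent.Helper13.AM

open MeasureTheory Set Filter Topology Metric
open Pool.Agent.Helper29.AM
open scoped ComplexOrder

variable {n : ℕ} {Ω : Set (V n)} {u v : V n → EReal}

private theorem shr_mono31 {s t : ℝ} (h : s ≤ t) : shr Ω t ⊆ shr Ω s := fun _ hz =>
  Subset.trans (closedBall_subset_closedBall h) hz

private theorem mem_shr31 (hΩ : IsOpen Ω) {a : V n} (ha : a ∈ Ω) :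
    ∃ r : ℝ, 0 < r ∧ ∀ t : ℝ, t < r → a ∈ shr Ω t := by
  obtain ⟨r, hr, h⟩ := Metric.isOpen_iff.1 hΩ a ha
  exact ⟨r, hr, fun t ht => (closedBall_subset_ball ht).trans h⟩

theorem PSH.tendsto_Phi (hΩ : IsOpen Ω) (hu : PSH Ω u) {a : V n} (ha : a ∈ Ω) :
    Tendsto (fun t => ((Phi (fun z => (u z).toReal) a t : ℝ) : EReal)) (𝓝[>] 0) (𝓝 (u a)) := by
  rw [tendsto_order]
  constructor
  · intro b hb
    obtain ⟨r, hr, h⟩ := mem_shr31 hΩ ha
    filter_upwards [Ioo_mem_nhdsGT hr] with t ht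
    exact hb.trans_le (hu.le_Phi hΩ ht.1 (h t ht.2))
  · intro b hb
    obtain ⟨c, hc1, hc2⟩ := EReal.lt_iff_exists_real_btwn.1 hb
    have h1 : ∀ᶠ z in 𝓝 a, u z < (c : EReal) := by
      have h := hu.usc a ha (c : EReal) hc1
      rwa [hΩ.nhdsWithin_eq ha] at h
    obtain ⟨r, hr, h⟩ := Metric.eventually_nhds_iff_ball.1 (h1.and (hΩ.eventually_mem ha))
    have hsub : ball a r ⊆ Ω := fun z hz => (h z hz).2
    filter_upwards [Ioo_mem_nhdsGT hr] with t ht
    refine lt_of_le_of_lt ?_ hc2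
    rw [EReal.coe_le_coe_iff]
    have h2 : Phi (fun z => (u z).toReal) a t ≤ Phi (fun _ => c) a t := by
      refine Phi_mono (Ω := ball a r) isOpen_ball ((hu.locInt hΩ).mono_set hsub)
        (locallyIntegrableOn_const c) ?_ ht.1 (closedBall_subset_ball ht.2)
      filter_upwards [hu.ae_bot] with z hz hzr
      have h3 := hz (hsub hzr)
      have h4 := (h z hzr).1
      have h5 : u z ≠ ⊤ := (h4.trans_le le_top).ne
      rw [← EReal.coe_toReal h5 h3, EReal.coe_lt_coe_iff] at h4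
      exact h4.le
    rwa [Phi_const] at h2

theorem PSH.le_of_ae_le (hΩ : IsOpen Ω) (hu : PSH Ω u) (hv : PSH Ω v)
    (h : ∀ᵐ z, z ∈ Ω → u z ≤ v z) : ∀ z ∈ Ω, u z ≤ v z := by
  intro a ha
  refine le_of_tendsto_of_tendsto (hu.tendsto_Phi hΩ ha) (hv.tendsto_Phi hΩ ha) ?_
  obtain ⟨r, hr, hr'⟩ := mem_shr31 hΩ ha
  filter_upwards [Ioo_mem_nhdsGT hr] with t ht
  rw [EReal.coe_le_coe_iff]
  refine Phi_mono hΩ (hu.locInt hΩ) (hv.locInt hΩ) ?_ ht.1 (hr' t ht.2)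
  filter_upwards [h, hu.ae_bot] with z h1 h2 hz
  exact EReal.toReal_le_toReal (h1 hz) (h2 hz) (hv.lt_top z hz).ne

theorem PSH.eq_of_ae_eq (hΩ : IsOpen Ω) (hu : PSH Ω u) (hv : PSH Ω v)
    (h : ∀ᵐ z, z ∈ Ω → u z = v z) : ∀ z ∈ Ω, u z = v z := by
  intro z hz
  refine le_antisymm (hu.le_of_ae_le hΩ hv ?_ z hz) (hv.le_of_ae_le hΩ hu ?_ z hz)
  · filter_upwards [h] with y hy hyΩ
    exact (hy hyΩ).le
  · filter_upwards [h] with y hy hyΩ
    exact (hy hyΩ).ge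

theorem exists_subset_shr (hΩ : IsOpen Ω) {K : Set (V n)} (hK : IsCompact K) (hKΩ : K ⊆ Ω) :
    ∃ t : ℝ, 0 < t ∧ K ⊆ shr Ω t := by
  obtain ⟨δ, hδ, h⟩ := hK.exists_cthickening_subset_open hΩ hKΩ
  exact ⟨δ, hδ, fun z hz => (closedBall_subset_cthickening hz δ).trans h⟩

theorem PSH.Dec_Phi (hΩ : IsOpen Ω) (hu : PSH Ω u) {W : Set (V n)} {t : ℝ} (ht : 0 < t)
    (hW : W ⊆ shr Ω t) :
    Dec W (fun k z => Phi (fun z => (u z).toReal) z (t / (k + 1))) u := by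
  have hpos : ∀ k : ℕ, 0 < t / ((k : ℝ) + 1) := fun k => div_pos ht (by positivity)
  have hle : ∀ k : ℕ, t / ((k : ℝ) + 1) ≤ t := fun k => div_le_self ht.le (by
    have : (0 : ℝ) ≤ k := Nat.cast_nonneg k
    linarith)
  refine ⟨fun k => ?_, fun k z hz => ?_, fun z hz => ?_⟩
  · exact SPsh.mono (PSHd.mollify hΩ (hu.pshd hΩ) (hpos k)) (hW.trans (shr_mono31 (hle k)))
  · refine Phi_mono_radius hΩ (hu.pshd hΩ) (hpos (k + 1)) ?_ (shr_mono31 (hle k) (hW hz))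
    push_cast
    refine div_le_div_of_nonneg_left ht.le (by positivity) ?_
    linarith
  · have hzΩ : z ∈ Ω := hW hz (mem_closedBall_self ht.le)
    refine (hu.tendsto_Phi hΩ hzΩ).comp ?_
    refine tendsto_nhdsWithin_iff.2 ⟨?_, Eventually.of_forall fun k => hpos k⟩
    have h1 := (tendsto_one_div_add_atTop_nhds_zero_nat (𝕜 := ℝ)).const_mul t
    rw [mul_zero] at h1
    refine h1.congr fun k => ?_
    rw [mul_one_div]

theorem PSH.exists_Dec (hΩ : IsOpen Ω) (hu : PSH Ω u) {W : Set (V n)}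
    (hc : IsCompact (closure W)) (hs : closure W ⊆ Ω) : ∃ v : ℕ → V n → ℝ, Dec W v u := by
  obtain ⟨t, ht, h⟩ := exists_subset_shr hΩ hc hs
  exact ⟨_, hu.Dec_Phi hΩ ht (subset_closure.trans h)⟩

end Pool.Agent.Helper13.AM
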