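import Pool.Agent.Helper13.AM.B1
import Pool.Agent.Helper13.AM.P4
import Pool.Agent.Helper13.AM.M2
import Pool.Agent.Helper13.AM.M3

/-!
AM-B2. (11.6): existence, uniqueness, restriction of the Monge-Ampère measure; convergence with weights.

`exists_MA`: for every `z ∈ Ω` choose `R z > 0` with `closedBall z (R z) ⊆ Ω`, and let `m z` be the measure of
`local_MA`. Claim: for `χ ∈ CC Ω` there is `Λ χ` such that `∫ χ DD(v k) → Λ χ` for every open `W ⊆ Ω` with
`tsupport χ ⊆ W` and every `Dec W v u` for which ... : split `χ = ∑ c_i` (`CC.split`) with `c_i` supported in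
balls `ball z_i (r_i/2)` with `closedBall z_i r_i ⊆ W`. For one ball, two sequences `v`, `v'` on
neighbourhoods `W, W'` of the closed ball have the same limit by `local_MA` (restrict both to `W ∩ W'`).
For two different `W` compare on `W ∩ W'`. So the limit exists and depends on `χ` only. To get a measure apply
`exists_measure_of_tendsto` to `g k = DD (Phi u.toReal · (1/(k+1)))`: on a compact set `K ⊆ Ω` it is eventually the
density of a smooth psh function near `K` (`exists_subset_shr`, `Dec_Phi` after a shift;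
`SPsh.posSemidef` for `≥ 0`, continuity for integrability). Then for any `W`, `v`: the limit of
`∫ χ DD(v k)` is `Λ χ = ∫ χ dm`.
`unique`: for `χ ∈ CC Ω` take `W` open, relatively compact in `Ω` with `tsupport χ ⊆ W`, and a sequence
(`PSH.exists_Dec`): `∫ χ dm = ∫ χ dm'`; `measure_eq_of_CC`, and both vanish outside `Ω`.
`weights`: split `χ` into functions supported in balls `ball z_i (r_i/2)`, `closedBall z_i r_i ⊆ W`. The measure `m_i` of
`local_MA` satisfies `∫ c dm_i = ∫ c dm` for `c ∈ CC (ball z_i (r_i/2))`, so `m_i = m` on Borel subsets of that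
ball (`measure_eq_of_CC`), hence `∫ c f dm_i = ∫ c f dm`.
-/

set_option autoImplicit false

namespace Pool.Agent.Helper13.AM

open MeasureTheory Set Filter Topology Metric
open Pool.Agent.Helper29.AM
open scoped ComplexOrder

variable {n : ℕ} {Ω G : Set (V n)} {u u' : V n → EReal} {m m' : Measure (V n)}

private theorem shr_mono67 {s t : ℝ} (h : s ≤ t) : shr Ω t ⊆ shr Ω s := fun _ hz =>
  Subset.trans (closedBall_subset_closedBall h) hz

private theorem dec67 (hΩ : IsOpen Ω) (hu : PSH Ω u) {W : Set (V n)} {t : ℝ} (ht : 0 < t)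
    (hW : W ⊆ shr Ω t) : ∃ N : ℕ,
    Dec W (fun k z => Phi (fun z => (u z).toReal) z (1 / (((k + N : ℕ) : ℝ) + 1))) u := by
  obtain ⟨N, hN⟩ := exists_nat_one_div_lt ht
  have hpos : ∀ k : ℕ, 0 < 1 / (((k + N : ℕ) : ℝ) + 1) := fun k => by positivity
  have hle : ∀ k : ℕ, 1 / (((k + N : ℕ) : ℝ) + 1) ≤ t := fun k => by
    refine le_trans ?_ hN.le
    refine one_div_le_one_div_of_le (by positivity) ?_
    push_cast
    have : (0 : ℝ) ≤ k := Nat.cast_nonneg k
    linarith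
  refine ⟨N, fun k => ?_, fun k z hz => ?_, fun z hz => ?_⟩
  · exact SPsh.mono (PSHd.mollify hΩ (hu.pshd hΩ) (hpos k)) (hW.trans (shr_mono67 (hle k)))
  · refine Phi_mono_radius hΩ (hu.pshd hΩ) (hpos (k + 1)) ?_ (shr_mono67 (hle k) (hW hz))
    refine one_div_le_one_div_of_le (by positivity) ?_
    push_cast
    linarith
  · have hzΩ : z ∈ Ω := hW hz (mem_closedBall_self ht.le)
    refine (hu.tendsto_Phi hΩ hzΩ).comp ?_
    refine tendsto_nhdsWithin_iff.2 ⟨?_, Eventually.of_forall fun k => hpos k⟩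
    exact (tendsto_add_atTop_iff_nat N).2 (tendsto_one_div_add_atTop_nhds_zero_nat (𝕜 := ℝ))

private theorem split67 {W : Set (V n)} (hW : IsOpen W) {χ : V n → ℝ} (hχ : CC W χ) :
    ∃ (r : W → ℝ) (s : Finset W) (c : W → V n → ℝ),
      (∀ i, 0 < r i ∧ closedBall (i : V n) (r i) ⊆ W) ∧
      (∀ i ∈ s, CC (ball (i : V n) (r i / 2)) (c i)) ∧ ∀ z, χ z = ∑ i ∈ s, c i z := by
  have h1 : ∀ i : W, ∃ r : ℝ, 0 < r ∧ closedBall (i : V n) r ⊆ W := fun i =>
    Metric.nhds_basis_closedBall.mem_iff.1 (hW.mem_nhds i.2)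
  choose r hr using h1
  obtain ⟨s, c, h2, h3, -⟩ := hχ.split hW (fun i : W => ball (i : V n) (r i / 2))
    (fun i => isOpen_ball) (fun z hz => mem_iUnion.2 ⟨⟨z, hχ.sub hz⟩,
      mem_ball_self (half_pos (hr ⟨z, hχ.sub hz⟩).1)⟩)
  exact ⟨r, s, c, hr, fun i hi => (h2 i hi).mono inter_subset_left, h3⟩

private theorem ballsub67 {W : Set (V n)} {z : V n} {r : ℝ} (hr : 0 < r)
    (h : closedBall z r ⊆ W) : ball z (r / 2) ⊆ W :=
  (ball_subset_closedBall.trans (closedBall_subset_closedBall (by linarith))).trans h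

private theorem lim67 (hb : LB Ω u) {W : Set (V n)} (hW : IsOpen W) (hWΩ : W ⊆ Ω)
    {χ : V n → ℝ} (hχ : CC W χ) :
    ∃ l : ℝ, ∀ v : ℕ → V n → ℝ, Dec W v u →
      Tendsto (fun k => ∫ z, χ z * DD (v k) z) atTop (𝓝 l) := by
  obtain ⟨r, s, c, hr, hc, hs⟩ := split67 hW hχ
  have hloc := fun i : W => local_MA (hr i).1 (hb.mono ((hr i).2.trans hWΩ))
  choose m hm using hloc
  refine ⟨∑ i ∈ s, ∫ z, c i z ∂(m i), fun v hv => ?_⟩
  have h1 : ∀ k, ∫ z, χ z * DD (v k) z = ∑ i ∈ s, ∫ z, c i z * DD (v k) z := by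
    intro k
    rw [← integral_finsetSum]
    · refine integral_congr_ae (Eventually.of_forall fun z => ?_)
      simp only [hs z, Finset.sum_mul]
    · intro i hi
      exact integrable_mul_DD hW (hv.psh k).smooth ((hc i hi).mono (ballsub67 (hr i).1 (hr i).2))
  simp only [h1]
  refine tendsto_finsetSum _ fun i hi => ?_
  exact ((hm i).2 W hW (hr i).2 v hv).1 (c i) (hc i hi)

private theorem nest67 {W K : Set (V n)} (hW : IsOpen W) (hK : IsCompact K) (h : K ⊆ W) :
    ∃ W₀ : Set (V n), IsOpen W₀ ∧ K ⊆ W₀ ∧ closure W₀ ⊆ W ∧ IsCompact (closure W₀) :=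
  exists_open_between_and_isCompact_closure hK hW h

private theorem nest2_67 (hΩ : IsOpen Ω) (hu : PSH Ω u) {W K : Set (V n)} (hW : IsOpen W)
    (hWΩ : W ⊆ Ω) (hK : IsCompact K) (h : K ⊆ W) :
    ∃ W₀ : Set (V n), IsOpen W₀ ∧ K ⊆ W₀ ∧ W₀ ⊆ W ∧ ∃ N : ℕ,
    Dec W₀ (fun k z => Phi (fun z => (u z).toReal) z (1 / (((k + N : ℕ) : ℝ) + 1))) u := by
  obtain ⟨W₀, h1, h2, h3, h4⟩ := nest67 hW hK h
  obtain ⟨t, ht, h5⟩ := exists_subset_shr hΩ h4 (h3.trans hWΩ)
  exact ⟨W₀, h1, h2, subset_closure.trans h3, dec67 hΩ hu ht (subset_closure.trans h5)⟩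

theorem exists_MA (hΩ : IsOpen Ω) (hu : PSH Ω u) (hb : LB Ω u) : ∃ m : Measure (V n), IsMA Ω u m := by
  have hA : ∀ K ⊆ Ω, IsCompact K → ∀ᶠ k : ℕ in atTop,
      (∀ z ∈ K, 0 ≤ DD (fun z => Phi (fun z => (u z).toReal) z (1 / ((k : ℝ) + 1))) z) ∧
        IntegrableOn (DD (fun z => Phi (fun z => (u z).toReal) z (1 / ((k : ℝ) + 1)))) K volume := by
    intro K hK hKc
    obtain ⟨W₀, h1, h2, h3, N, h4⟩ := nest2_67 hΩ hu hΩ Subset.rfl hKc hK
    filter_upwards [eventually_ge_atTop N] with k hk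
    have h5 := h4.psh (k - N)
    rw [Nat.sub_add_cancel hk] at h5
    refine ⟨fun z hz => (SPsh.posSemidef h1 h5 (h2 hz)).2.1, ?_⟩
    exact ((contDiffOn_DD h1 h5.smooth).continuousOn.mono h2).integrableOn_compact hKc
  have hB : ∀ χ : V n → ℝ, CC Ω χ → ∃ l : ℝ, Tendsto (fun k : ℕ =>
      ∫ z, χ z * DD (fun z => Phi (fun z => (u z).toReal) z (1 / ((k : ℝ) + 1))) z)
        atTop (𝓝 l) := by
    intro χ hχ
    obtain ⟨W₀, h1, h2, h3, N, h4⟩ := nest2_67 hΩ hu hΩ Subset.rfl hχ.cpt hχ.sub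
    have hχ0 : CC W₀ χ := ⟨hχ.cont, hχ.cpt, h2⟩
    obtain ⟨l, hl⟩ := lim67 hb h1 h3 hχ0
    exact ⟨l, (tendsto_add_atTop_iff_nat N).1 (hl _ h4)⟩
  obtain ⟨m, hm1, hm2, hm3⟩ := exists_measure_of_tendsto hΩ
    (fun (k : ℕ) => DD (fun z => Phi (fun z => (u z).toReal) z (1 / ((k : ℝ) + 1)))) hA hB
  refine ⟨m, hm1, hm2, ?_⟩
  intro W hW hWΩ v hv χ hχ
  obtain ⟨W₀, h1, h2, h3, N, h4⟩ := nest2_67 hΩ hu hW hWΩ hχ.cpt hχ.sub
  have hχ0 : CC W₀ χ := ⟨hχ.cont, hχ.cpt, h2⟩
  obtain ⟨l, hl⟩ := lim67 hb h1 (h3.trans hWΩ) hχ0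
  have h5 := hl v (hv.mono h3)
  have h6 := hl _ h4
  have h7 := (tendsto_add_atTop_iff_nat N).2 (hm3 χ (hχ.mono hWΩ))
  rw [tendsto_nhds_unique h7 h6]
  exact h5

theorem IsMA.unique (hΩ : IsOpen Ω) (hu : PSH Ω u) (h : IsMA Ω u m) (h' : IsMA Ω u m') :
    m = m' := by
  have key : ∀ E ⊆ Ω, MeasurableSet E → m E = m' E := by
    refine measure_eq_of_CC hΩ h.fin h'.fin fun χ hχ => ?_
    obtain ⟨W₀, h1, h2, h3, N, h4⟩ := nest2_67 hΩ hu hΩ Subset.rfl hχ.cpt hχ.sub
    have hχ0 : CC W₀ χ := ⟨hχ.cont, hχ.cpt, h2⟩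
    exact tendsto_nhds_unique (h.lim W₀ h1 h3 _ h4 χ hχ0) (h'.lim W₀ h1 h3 _ h4 χ hχ0)
  have e1 : ∀ E : Set (V n), m (E \ Ω) = 0 := fun E => measure_mono_null (fun z hz => hz.2) h.out
  have e2 : ∀ E : Set (V n), m' (E \ Ω) = 0 := fun E =>
    measure_mono_null (fun z hz => hz.2) h'.out
  ext E hE
  rw [← measure_inter_add_sdiff (μ := m) E hΩ.measurableSet,
    ← measure_inter_add_sdiff (μ := m') E hΩ.measurableSet,
    key _ inter_subset_right (hE.inter hΩ.measurableSet), e1, e2]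

private theorem zero_out67 {W : Set (V n)} {χ : V n → ℝ} (hχ : CC W χ) {z : V n} (hz : z ∉ W) :
    χ z = 0 := by
  by_contra h0
  exact hz (hχ.sub (subset_tsupport _ h0))

theorem IsMA.mono (hΩ : IsOpen Ω) (h : IsMA Ω u m) (hG : IsOpen G) (hs : G ⊆ Ω) :
    IsMA G u (m.restrict G) := by
  refine ⟨?_, fun K hK hKc => ?_, fun W hW hWG v hv χ hχ => ?_⟩
  · rw [Measure.restrict_apply hG.measurableSet.compl, compl_inter_self, measure_empty]
  · exact (Measure.restrict_le_self K).trans_lt (h.fin K (hK.trans hs) hKc)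
  · rw [setIntegral_eq_integral_of_forall_compl_eq_zero fun z hz =>
      zero_out67 (hχ.mono hWG) hz]
    exact h.lim W hW (hWG.trans hs) v hv χ hχ

theorem IsMA.congr (h : IsMA Ω u m) (hu : ∀ z ∈ Ω, u z = u' z) : IsMA Ω u' m := by
  refine ⟨h.out, h.fin, fun W hW hWΩ v hv χ hχ => h.lim W hW hWΩ v ⟨hv.psh, hv.anti, ?_⟩ χ hχ⟩
  intro z hz
  rw [hu z (hWΩ hz)]
  exact hv.lim z hz

private theorem cmul67 {W : Set (V n)} (hW : IsOpen W) {c g : V n → ℝ} (hc : CC W c)
    (hg : ContinuousOn g W) : Continuous fun z => c z * g z := by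
  rw [continuous_iff_continuousAt]
  intro z
  by_cases hz : z ∈ W
  · exact hc.cont.continuousAt.mul (hg.continuousAt (hW.mem_nhds hz))
  · have h1 : z ∉ tsupport c := fun h => hz (hc.sub h)
    have h2 : (fun z => c z * g z) =ᶠ[𝓝 z] fun _ => 0 := by
      filter_upwards [notMem_tsupport_iff_eventuallyEq.1 h1] with y hy
      rw [hy]
      simp
    exact (continuousAt_const (y := (0 : ℝ))).congr h2.symm

private theorem int67 {f : V n → EReal} (hf : LB Ω f) {W : Set (V n)} (hW : IsOpen W)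
    (hWΩ : W ⊆ Ω) {g : ℕ → V n → ℝ} (hg : Dec W g f) (hm : ∀ K ⊆ Ω, IsCompact K → m K < ⊤)
    {c : V n → ℝ} (hc : CC W c) : Integrable (fun z => c z * (f z).toReal) m := by
  have hlim : ∀ z, Tendsto (fun k => c z * g k z) atTop (𝓝 (c z * (f z).toReal)) := by
    intro z
    by_cases hz : z ∈ W
    · obtain ⟨C, hC⟩ := hf {z} (singleton_subset_iff.2 (hWΩ hz)) isCompact_singleton
      have h1 : f z ≠ ⊤ := ne_top_of_le_ne_top (EReal.coe_ne_top C) (hC z rfl).2
      have h2 : f z ≠ ⊥ := ne_bot_of_le_ne_bot (EReal.coe_ne_bot (-C)) (hC z rfl).1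
      have h3 := (EReal.tendsto_toReal h1 h2).comp (hg.lim z hz)
      exact h3.const_mul (c z)
    · rw [zero_out67 hc hz]
      simp
  have hmeas : StronglyMeasurable fun z => c z * (f z).toReal :=
    stronglyMeasurable_of_tendsto atTop
      (fun k => (cmul67 hW hc (hg.psh k).smooth.continuousOn).stronglyMeasurable)
      (tendsto_pi_nhds.2 hlim)
  obtain ⟨C, hC⟩ := hf (tsupport c) (hc.sub.trans hWΩ) hc.cpt
  obtain ⟨B, hB⟩ := hc.cpt.exists_bound_of_continuous hc.cont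
  have h1 : IntegrableOn (fun z => c z * (f z).toReal) (tsupport c) m := by
    refine Measure.integrableOn_of_bounded (M := B * |C|)
      (hm _ (hc.sub.trans hWΩ) hc.cpt).ne hmeas.aestronglyMeasurable ?_
    refine (ae_restrict_iff' (isClosed_tsupport c).measurableSet).2
      (Eventually.of_forall fun z hz => ?_)
    rw [norm_mul]
    have hB0 : 0 ≤ B := (norm_nonneg _).trans (hB z)
    refine mul_le_mul (hB z) ?_ (norm_nonneg _) hB0
    obtain ⟨h3, h4⟩ := hC z hz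
    have h5 : f z ≠ ⊤ := ne_top_of_le_ne_top (EReal.coe_ne_top C) h4
    have h6 : f z ≠ ⊥ := ne_bot_of_le_ne_bot (EReal.coe_ne_bot (-C)) h3
    rw [← EReal.coe_toReal h5 h6, EReal.coe_le_coe_iff] at h3 h4
    rw [Real.norm_eq_abs]
    exact (abs_le.2 ⟨h3, h4⟩).trans (le_abs_self C)
  refine (integrableOn_iff_integrable_of_support_subset ?_).1 h1
  intro z hz
  rw [Function.mem_support] at hz
  exact subset_tsupport _ (left_ne_zero_of_mul hz)

theorem IsMA.weights (hΩ : IsOpen Ω) (hu : PSH Ω u) (hb : LB Ω u) (h : IsMA Ω u m)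
    {f : V n → EReal} (hf : LB Ω f) {W : Set (V n)} (hW : IsOpen W) (hWΩ : W ⊆ Ω)
    {v g : ℕ → V n → ℝ} (hv : Dec W v u) (hg : Dec W g f) {χ : V n → ℝ} (hχ : CC W χ) :
    Tendsto (fun k => ∫ z, χ z * g k z * DD (v k) z) atTop (𝓝 (∫ z, χ z * (f z).toReal ∂m)) := by
  obtain ⟨r, s, c, hr, hc, hs⟩ := split67 hW hχ
  have hloc := fun i : W => local_MA (hr i).1 (hb.mono ((hr i).2.trans hWΩ))
  choose m' hfin hm' using hloc
  have hcW : ∀ i ∈ s, CC W (c i) := fun i hi => (hc i hi).mono (ballsub67 (hr i).1 (hr i).2)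
  have h1 : ∀ k, ∫ z, χ z * g k z * DD (v k) z =
      ∑ i ∈ s, ∫ z, c i z * g k z * DD (v k) z := by
    intro k
    rw [← integral_finsetSum]
    · refine integral_congr_ae (Eventually.of_forall fun z => ?_)
      simp only [hs z, Finset.sum_mul]
    · intro i hi
      have h2 : CC W fun z => c i z * g k z :=
        ⟨cmul67 hW (hcW i hi) (hg.psh k).smooth.continuousOn, (hcW i hi).cpt.mul_right,
          (closure_mono (Function.support_mul_subset_left _ _)).trans (hcW i hi).sub⟩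
      exact integrable_mul_DD hW (hv.psh k).smooth h2
  have h2 : ∫ z, χ z * (f z).toReal ∂m = ∑ i ∈ s, ∫ z, c i z * (f z).toReal ∂m := by
    rw [← integral_finsetSum]
    · refine integral_congr_ae (Eventually.of_forall fun z => ?_)
      simp only [hs z, Finset.sum_mul]
    · intro i hi
      exact int67 hf hW hWΩ hg h.fin (hcW i hi)
  rw [h2]
  simp only [h1]
  refine tendsto_finsetSum _ fun i hi => ?_
  have h3 := hm' i W hW (hr i).2 v hv
  have h4 := h3.2 f g (hf.mono ((hr i).2.trans hWΩ)) (hg) (c i) (hc i hi)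
  have hbW : ball (i : V n) (r i / 2) ⊆ W := ballsub67 (hr i).1 (hr i).2
  have h5 : ∀ E ⊆ ball (i : V n) (r i / 2), MeasurableSet E → m' i E = m E := by
    refine measure_eq_of_CC isOpen_ball (fun K _ _ => ?_)
      (fun K hK hKc => h.fin K (hK.trans (hbW.trans hWΩ)) hKc) fun η hη => ?_
    · have := hfin i
      exact measure_lt_top _ _
    · exact tendsto_nhds_unique (h3.1 η hη) (h.lim W hW hWΩ v hv η (hη.mono hbW))
  have h6 : (m' i).restrict (ball (i : V n) (r i / 2)) = m.restrict (ball (i : V n) (r i / 2)) := by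
    ext E hE
    rw [Measure.restrict_apply hE, Measure.restrict_apply hE,
      h5 _ inter_subset_right (hE.inter measurableSet_ball)]
  have h7 : ∀ μ : Measure (V n), ∫ z in ball (i : V n) (r i / 2), c i z * (f z).toReal ∂μ =
      ∫ z, c i z * (f z).toReal ∂μ := fun μ => by
    refine setIntegral_eq_integral_of_forall_compl_eq_zero fun z hz => ?_
    rw [zero_out67 (hc i hi) hz, zero_mul]
  rw [← h7 m, ← h6, h7]
  exact h4

end Pool.Agent.Helper13.AM
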