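import Pool.Agent.Helper13.AM.K2

/-!
AM-K3. Smooth psh functions satisfy the mean value inequality on discs.

Proof. Let `g(ζ) = v(a + ζ b)`, smooth on a neighbourhood `{|ζ| < R₀}`, `R₀ > 1`, of the closed
disc (compactness), and `A(x) = ∫_0^{2π} g(e^x e^{iθ}) dθ` for `x ≤ 0` (or `x < log R₀`).
Differentiate twice under the integral sign: `A''(x) = ∫ ∂_x² g(e^{x+iθ}) dθ =
∫ (∂_x² + ∂_θ²) g(e^{x+iθ}) dθ` (periodicity in `θ`) `= ∫ 4 lev v (a + ζ b) (ζ b) dθ ≥ 0`,
`ζ = e^{x+iθ}`, since `∂_x g(e^{x+iθ}) = Dv(ζ b)`, `∂_x² g = D²v(ζb,ζb) + Dv(ζ b)`,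
`∂_θ² g = D²v(iζb, iζb) - Dv(ζ b)`. And `A'(x) = ∫ Dv(ζ b) dθ → 0` as `x → -∞` (`|ζ| → 0`,
`Dv` bounded). So `A' ≥ 0`, and `A(x) → 2π v(a)` as `x → -∞`; hence `A(0) ≥ 2π v(a)`.
(Equivalent in the variable `r = e^x`: `r A'(r)` is nondecreasing and tends to 0 at 0. One can
also use the composition `x + iθ ↦ a + e^{x+iθ} b`, holomorphic, and `lev_comp_holo`.)

The `PSH` statement: the lintegral is the integral of the continuous nonnegative function
`C - v` on the circle.

(In the Lean proof: the variable `r = e^x` in `[0, 1]`; `v` is first replaced by a globally smooth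
function equal to `v` near the closed disc.)
-/

set_option autoImplicit false

namespace Pool.Agent.Helper13.AM

open MeasureTheory Set Filter Topology Metric
open Pool.Agent.Helper29.AM
open scoped ComplexOrder

variable {n : ℕ}

open scoped Manifold ContDiff in
private theorem ext19 {W : Set (V n)} (hW : IsOpen W) {v : V n → ℝ}
    (hv : ContDiffOn ℝ (⊤ : ℕ∞) v W) {K : Set (V n)} (hK : IsCompact K) (hKW : K ⊆ W) :
    ∃ w : V n → ℝ, ContDiff ℝ (⊤ : ℕ∞) w ∧ ∀ z ∈ K, w =ᶠ[𝓝 z] v := by
  obtain ⟨δ, hδ, hsub⟩ := hK.exists_cthickening_subset_open hW hKW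
  have hd : K ⊆ interior (Metric.cthickening δ K) :=
    (Metric.self_subset_thickening hδ K).trans
      (interior_maximal (Metric.thickening_subset_cthickening δ K) Metric.isOpen_thickening)
  obtain ⟨f, h1, h0, -⟩ := exists_contMDiffMap_one_nhds_of_subset_interior (n := (⊤ : ℕ∞))
    𝓘(ℝ, V n) hK.isClosed hd
  refine ⟨fun z => f z * v z, ?_, ?_⟩
  · rw [contDiff_iff_contDiffAt]
    intro z
    by_cases hz : z ∈ W
    · exact (f.contMDiff.contDiff.contDiffAt).mul (hv.contDiffAt (hW.mem_nhds hz))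
    · have hz' : z ∈ (Metric.cthickening δ K)ᶜ := fun h => hz (hsub h)
      have hev : (fun z => f z * v z) =ᶠ[𝓝 z] fun _ => 0 := by
        filter_upwards [Metric.isClosed_cthickening.isOpen_compl.mem_nhds hz'] with y hy
        rw [h0 y hy, zero_mul]
      exact contDiffAt_const.congr_of_eventuallyEq hev
  · intro z hz
    filter_upwards [h1.filter_mono (nhds_le_nhdsSet hz)] with y hy
    rw [hy, one_mul]

private theorem par19 {F F' : ℝ → ℝ → ℝ} (hF : Continuous fun p : ℝ × ℝ => F p.1 p.2)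
    (hF' : Continuous fun p : ℝ × ℝ => F' p.1 p.2)
    (hd : ∀ x t, HasDerivAt (fun x => F x t) (F' x t) x) (α β x : ℝ) :
    HasDerivAt (fun x => ∫ t in α..β, F x t) (∫ t in α..β, F' x t) x := by
  have hc : IsCompact (Metric.closedBall x 1 ×ˢ Set.uIcc α β) :=
    (isCompact_closedBall x 1).prod isCompact_uIcc
  obtain ⟨C, hC⟩ := hc.exists_bound_of_continuousOn hF'.continuousOn
  refine (intervalIntegral.hasDerivAt_integral_of_dominated_loc_of_deriv_le (bound := fun _ => C)
    (s := Metric.closedBall x 1) (Metric.closedBall_mem_nhds x one_pos) ?_ ?_ ?_ ?_ ?_ ?_).2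
  · refine Eventually.of_forall fun y => ?_
    have : Continuous fun t => F y t := hF.comp (Continuous.prodMk_right y)
    exact this.aestronglyMeasurable
  · have : Continuous fun t => F x t := hF.comp (Continuous.prodMk_right x)
    exact this.intervalIntegrable _ _
  · have : Continuous fun t => F' x t := hF'.comp (Continuous.prodMk_right x)
    exact this.aestronglyMeasurable
  · refine Eventually.of_forall fun t ht y hy => ?_
    exact hC (y, t) ⟨hy, Set.uIoc_subset_uIcc ht⟩
  · exact intervalIntegrable_const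
  · exact Eventually.of_forall fun t _ y _ => hd y t

/-- the mean value inequality for a globally smooth function -/
private theorem circ19 {w : V n → ℝ} (hw : ContDiff ℝ (⊤ : ℕ∞) w) {a b : V n}
    (h : ∀ ζ : ℂ, ‖ζ‖ ≤ 1 → 0 ≤ lev w (a + ζ • b) (ζ • b)) :
    2 * Real.pi * w a ≤
      ∫ θ in (0 : ℝ)..(2 * Real.pi), w (a + Complex.exp (θ * Complex.I) • b) := by
  have hw1 : ContDiff ℝ (⊤ : ℕ∞) (fderiv ℝ w) := hw.fderiv_right (by simp)
  have hw2 : ContDiff ℝ (⊤ : ℕ∞) (fderiv ℝ (fderiv ℝ w)) := hw1.fderiv_right (by simp)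
  have hD0 : ∀ z, HasFDerivAt w (fderiv ℝ w z) z := fun z =>
    (hw.differentiable (by simp) z).hasFDerivAt
  have hD1 : ∀ z, HasFDerivAt (fderiv ℝ w) (fderiv ℝ (fderiv ℝ w) z) z := fun z =>
    (hw1.differentiable (by simp) z).hasFDerivAt
  set κ : ℝ → ℝ → V n := fun r θ => a + ((r : ℂ) * Complex.exp (θ * Complex.I)) • b with hκ
  have hκc : Continuous fun p : ℝ × ℝ => κ p.1 p.2 := by
    simp only [hκ]
    fun_prop
  have hκr : ∀ θ r : ℝ, HasDerivAt (fun r => κ r θ) (Complex.exp (θ * Complex.I) • b) r := by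
    intro θ r
    have h1 : HasDerivAt (fun r : ℝ => (r : ℂ) * Complex.exp (θ * Complex.I))
        (1 * Complex.exp (θ * Complex.I)) r := (Complex.ofRealCLM.hasDerivAt).mul_const _
    have h2 := (h1.smul_const b).const_add a
    rwa [one_mul] at h2
  have hκθ : ∀ r θ : ℝ, HasDerivAt (fun θ => κ r θ)
      (Complex.I • (((r : ℂ) * Complex.exp (θ * Complex.I)) • b)) θ := by
    intro r θ
    have h0 : HasDerivAt (fun θ : ℝ => (θ : ℂ) * Complex.I) (1 * Complex.I) θ :=
      (Complex.ofRealCLM.hasDerivAt).mul_const _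
    have h1 : HasDerivAt (fun θ : ℝ => (r : ℂ) * Complex.exp (θ * Complex.I))
        ((r : ℂ) * (Complex.exp (θ * Complex.I) * (1 * Complex.I))) θ := (h0.cexp).const_mul _
    have h2 := (h1.smul_const b).const_add a
    refine h2.congr_deriv ?_
    rw [smul_smul]
    congr 1
    ring
  -- the functions
  have hA : ∀ r : ℝ, HasDerivAt (fun r => ∫ θ in (0 : ℝ)..(2 * Real.pi), w (κ r θ))
      (∫ θ in (0 : ℝ)..(2 * Real.pi), fderiv ℝ w (κ r θ) (Complex.exp (θ * Complex.I) • b)) r := by
    intro r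
    refine par19 (F := fun r θ => w (κ r θ))
      (F' := fun r θ => fderiv ℝ w (κ r θ) (Complex.exp (θ * Complex.I) • b)) ?_ ?_ ?_ _ _ _
    · exact hw.continuous.comp hκc
    · exact (hw1.continuous.comp hκc).clm_apply (by fun_prop)
    · intro r θ
      exact (hD0 (κ r θ)).comp_hasDerivAt r (hκr θ r)
  have hB : ∀ r : ℝ, HasDerivAt (fun r => ∫ θ in (0 : ℝ)..(2 * Real.pi),
        fderiv ℝ w (κ r θ) (((r : ℂ) * Complex.exp (θ * Complex.I)) • b))
      (∫ θ in (0 : ℝ)..(2 * Real.pi), (fderiv ℝ (fderiv ℝ w) (κ r θ)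
          (Complex.exp (θ * Complex.I) • b) (((r : ℂ) * Complex.exp (θ * Complex.I)) • b) +
        fderiv ℝ w (κ r θ) (Complex.exp (θ * Complex.I) • b))) r := by
    intro r
    refine par19 (F := fun r θ => fderiv ℝ w (κ r θ) (((r : ℂ) * Complex.exp (θ * Complex.I)) • b))
      (F' := fun r θ => fderiv ℝ (fderiv ℝ w) (κ r θ)
          (Complex.exp (θ * Complex.I) • b) (((r : ℂ) * Complex.exp (θ * Complex.I)) • b) +
        fderiv ℝ w (κ r θ) (Complex.exp (θ * Complex.I) • b)) ?_ ?_ ?_ _ _ _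
    · exact (hw1.continuous.comp hκc).clm_apply (by fun_prop)
    · exact (((hw2.continuous.comp hκc).clm_apply (by fun_prop)).clm_apply (by fun_prop)).add
        ((hw1.continuous.comp hκc).clm_apply (by fun_prop))
    · intro r θ
      have h1 : HasDerivAt (fun r => fderiv ℝ w (κ r θ))
          (fderiv ℝ (fderiv ℝ w) (κ r θ) (Complex.exp (θ * Complex.I) • b)) r :=
        (hD1 (κ r θ)).comp_hasDerivAt r (hκr θ r)
      have h2 : HasDerivAt (fun r : ℝ => ((r : ℂ) * Complex.exp (θ * Complex.I)) • b)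
          (Complex.exp (θ * Complex.I) • b) r := by
        have h3 : HasDerivAt (fun r : ℝ => (r : ℂ) * Complex.exp (θ * Complex.I))
          (1 * Complex.exp (θ * Complex.I)) r := (Complex.ofRealCLM.hasDerivAt).mul_const _
        have h4 := h3.smul_const b
        rwa [one_mul] at h4
      exact h1.clm_apply h2
  -- `∂_θ²` has mean zero
  have hθ : ∀ r : ℝ, ∫ θ in (0 : ℝ)..(2 * Real.pi), (fderiv ℝ (fderiv ℝ w) (κ r θ)
        (Complex.I • (((r : ℂ) * Complex.exp (θ * Complex.I)) • b))
        (Complex.I • (((r : ℂ) * Complex.exp (θ * Complex.I)) • b)) -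
      fderiv ℝ w (κ r θ) (((r : ℂ) * Complex.exp (θ * Complex.I)) • b)) = 0 := by
    intro r
    have h1 : ∀ θ : ℝ, HasDerivAt (fun θ : ℝ => fderiv ℝ w (κ r θ)
        (Complex.I • (((r : ℂ) * Complex.exp (θ * Complex.I)) • b)))
        (fderiv ℝ (fderiv ℝ w) (κ r θ)
        (Complex.I • (((r : ℂ) * Complex.exp (θ * Complex.I)) • b))
        (Complex.I • (((r : ℂ) * Complex.exp (θ * Complex.I)) • b)) -
      fderiv ℝ w (κ r θ) (((r : ℂ) * Complex.exp (θ * Complex.I)) • b)) θ := by
      intro θ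
      have h2 : HasDerivAt (fun θ => fderiv ℝ w (κ r θ))
          (fderiv ℝ (fderiv ℝ w) (κ r θ)
            (Complex.I • (((r : ℂ) * Complex.exp (θ * Complex.I)) • b))) θ :=
        (hD1 (κ r θ)).comp_hasDerivAt θ (hκθ r θ)
      have h3 : HasDerivAt (fun θ : ℝ => Complex.I • (((r : ℂ) * Complex.exp (θ * Complex.I)) • b))
          (-(((r : ℂ) * Complex.exp (θ * Complex.I)) • b)) θ := by
        have h0 : HasDerivAt (fun θ : ℝ => (θ : ℂ) * Complex.I) (1 * Complex.I) θ :=
          (Complex.ofRealCLM.hasDerivAt).mul_const _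
        have h4 : HasDerivAt (fun θ : ℝ => (r : ℂ) * Complex.exp (θ * Complex.I))
          ((r : ℂ) * (Complex.exp (θ * Complex.I) * (1 * Complex.I))) θ := (h0.cexp).const_mul _
        have h5 := (h4.smul_const b).const_smul Complex.I
        refine h5.congr_deriv ?_
        rw [smul_smul, ← neg_smul]
        congr 1
        linear_combination ((r : ℂ) * Complex.exp (θ * Complex.I)) * Complex.I_mul_I
      refine (h2.clm_apply h3).congr_deriv ?_
      rw [map_neg]
      ring
    rw [intervalIntegral.integral_eq_sub_of_hasDerivAt (fun θ _ => h1 θ)]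
    · have he : Complex.exp (((2 * Real.pi : ℝ) : ℂ) * Complex.I) =
          Complex.exp (((0 : ℝ) : ℂ) * Complex.I) := by
        push_cast
        rw [Complex.exp_two_pi_mul_I]
        simp
      simp only [hκ]
      rw [he, sub_self]
    · refine Continuous.intervalIntegrable ?_ _ _
      have hκ' : Continuous fun θ => κ r θ := hκc.comp (Continuous.prodMk_right r)
      exact (((hw2.continuous.comp hκ').clm_apply (by fun_prop)).clm_apply (by fun_prop)).sub
        ((hw1.continuous.comp hκ').clm_apply (by fun_prop))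
  -- the derivative of `B` is nonnegative
  have hB' : ∀ r ∈ Ioo (0 : ℝ) 1, 0 ≤ ∫ θ in (0 : ℝ)..(2 * Real.pi), (fderiv ℝ (fderiv ℝ w) (κ r θ)
          (Complex.exp (θ * Complex.I) • b) (((r : ℂ) * Complex.exp (θ * Complex.I)) • b) +
        fderiv ℝ w (κ r θ) (Complex.exp (θ * Complex.I) • b)) := by
    intro r hr
    have hκ' : Continuous fun θ => κ r θ := hκc.comp (Continuous.prodMk_right r)
    have hsm : ∀ θ : ℝ, (((r : ℂ) * Complex.exp (θ * Complex.I)) • b : V n) =
        r • (Complex.exp (θ * Complex.I) • b) := by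
      intro θ
      rw [mul_smul]
      rfl
    have hi1 : IntervalIntegrable (fun θ : ℝ => fderiv ℝ (fderiv ℝ w) (κ r θ)
          (((r : ℂ) * Complex.exp (θ * Complex.I)) • b)
          (((r : ℂ) * Complex.exp (θ * Complex.I)) • b) +
        fderiv ℝ w (κ r θ) (((r : ℂ) * Complex.exp (θ * Complex.I)) • b)) volume 0
        (2 * Real.pi) := by
      refine Continuous.intervalIntegrable ?_ _ _
      exact (((hw2.continuous.comp hκ').clm_apply (by fun_prop)).clm_apply (by fun_prop)).add
        ((hw1.continuous.comp hκ').clm_apply (by fun_prop))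
    have hi2 : IntervalIntegrable (fun θ : ℝ => fderiv ℝ (fderiv ℝ w) (κ r θ)
        (Complex.I • (((r : ℂ) * Complex.exp (θ * Complex.I)) • b))
        (Complex.I • (((r : ℂ) * Complex.exp (θ * Complex.I)) • b)) -
      fderiv ℝ w (κ r θ) (((r : ℂ) * Complex.exp (θ * Complex.I)) • b)) volume 0
        (2 * Real.pi) := by
      refine Continuous.intervalIntegrable ?_ _ _
      exact (((hw2.continuous.comp hκ').clm_apply (by fun_prop)).clm_apply (by fun_prop)).sub
        ((hw1.continuous.comp hκ').clm_apply (by fun_prop))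
    have hmul : r * ∫ θ in (0 : ℝ)..(2 * Real.pi), (fderiv ℝ (fderiv ℝ w) (κ r θ)
          (Complex.exp (θ * Complex.I) • b) (((r : ℂ) * Complex.exp (θ * Complex.I)) • b) +
        fderiv ℝ w (κ r θ) (Complex.exp (θ * Complex.I) • b)) =
        ∫ θ in (0 : ℝ)..(2 * Real.pi), 4 * lev w (κ r θ)
          (((r : ℂ) * Complex.exp (θ * Complex.I)) • b) := by
      have hi1' : IntervalIntegrable (fun θ : ℝ => r * (fderiv ℝ (fderiv ℝ w) (κ r θ)
          (Complex.exp (θ * Complex.I) • b) (((r : ℂ) * Complex.exp (θ * Complex.I)) • b) +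
        fderiv ℝ w (κ r θ) (Complex.exp (θ * Complex.I) • b))) volume 0 (2 * Real.pi) := by
        refine Continuous.intervalIntegrable ?_ _ _
        exact continuous_const.mul
          ((((hw2.continuous.comp hκ').clm_apply (by fun_prop)).clm_apply (by fun_prop)).add
          ((hw1.continuous.comp hκ').clm_apply (by fun_prop)))
      have h5 := intervalIntegral.integral_add hi1' hi2
      rw [hθ r, add_zero, intervalIntegral.integral_const_mul] at h5
      rw [← h5]
      refine intervalIntegral.integral_congr fun θ _ => ?_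
      simp only [lev, D2]
      have e1 : fderiv ℝ (fderiv ℝ w) (κ r θ) (((r : ℂ) * Complex.exp (θ * Complex.I)) • b) =
          r • fderiv ℝ (fderiv ℝ w) (κ r θ) (Complex.exp (θ * Complex.I) • b) := by
        rw [hsm θ, map_smul]
      have e2 : fderiv ℝ w (κ r θ) (((r : ℂ) * Complex.exp (θ * Complex.I)) • b) =
          r * fderiv ℝ w (κ r θ) (Complex.exp (θ * Complex.I) • b) := by
        rw [hsm θ, map_smul, smul_eq_mul]
      rw [e1, e2]
      simp only [smul_apply, smul_eq_mul]
      ring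
    have hnn : 0 ≤ ∫ θ in (0 : ℝ)..(2 * Real.pi), 4 * lev w (κ r θ)
          (((r : ℂ) * Complex.exp (θ * Complex.I)) • b) := by
      refine intervalIntegral.integral_nonneg (by positivity) fun θ _ => ?_
      have hn : ‖((r : ℂ) * Complex.exp (θ * Complex.I))‖ ≤ 1 := by
        rw [norm_mul, Complex.norm_exp_ofReal_mul_I, mul_one, Complex.norm_real, Real.norm_eq_abs,
          abs_of_pos hr.1]
        exact hr.2.le
      exact mul_nonneg (by norm_num) (h _ hn)
    rw [← hmul] at hnn
    exact nonneg_of_mul_nonneg_right hnn hr.1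
  -- `B ≥ 0`
  have hBmono : MonotoneOn (fun r : ℝ => ∫ θ in (0 : ℝ)..(2 * Real.pi),
        fderiv ℝ w (κ r θ) (((r : ℂ) * Complex.exp (θ * Complex.I)) • b)) (Icc 0 1) := by
    refine monotoneOn_of_deriv_nonneg (convex_Icc 0 1)
      (fun r _ => (hB r).continuousAt.continuousWithinAt)
      (fun r _ => (hB r).differentiableAt.differentiableWithinAt) fun r hr => ?_
    rw [interior_Icc] at hr
    rw [(hB r).deriv]
    exact hB' r hr
  have hB0 : ∀ r ∈ Icc (0 : ℝ) 1, 0 ≤ ∫ θ in (0 : ℝ)..(2 * Real.pi),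
        fderiv ℝ w (κ r θ) (((r : ℂ) * Complex.exp (θ * Complex.I)) • b) := by
    intro r hr
    have := hBmono (left_mem_Icc.2 zero_le_one) hr hr.1
    refine le_trans (le_of_eq ?_) this
    simp
  have hAmono : MonotoneOn (fun r => ∫ θ in (0 : ℝ)..(2 * Real.pi), w (κ r θ)) (Icc 0 1) := by
    refine monotoneOn_of_deriv_nonneg (convex_Icc 0 1)
      (fun r _ => (hA r).continuousAt.continuousWithinAt)
      (fun r _ => (hA r).differentiableAt.differentiableWithinAt) fun r hr => ?_
    rw [interior_Icc] at hr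
    rw [(hA r).deriv]
    have h1 : r * ∫ θ in (0 : ℝ)..(2 * Real.pi),
        fderiv ℝ w (κ r θ) (Complex.exp (θ * Complex.I) • b) =
        ∫ θ in (0 : ℝ)..(2 * Real.pi),
        fderiv ℝ w (κ r θ) (((r : ℂ) * Complex.exp (θ * Complex.I)) • b) := by
      rw [← intervalIntegral.integral_const_mul]
      refine intervalIntegral.integral_congr fun θ _ => ?_
      have hsm : (((r : ℂ) * Complex.exp (θ * Complex.I)) • b : V n) =
        r • (Complex.exp (θ * Complex.I) • b) := by
        rw [mul_smul]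
        rfl
      have h6 := (fderiv ℝ w (κ r θ)).map_smul r (Complex.exp (θ * Complex.I) • b)
      rw [smul_eq_mul] at h6
      rw [hsm]
      exact h6.symm
    have h2 := hB0 r (Ioo_subset_Icc_self hr)
    rw [← h1] at h2
    exact nonneg_of_mul_nonneg_right h2 hr.1
  have hfin := hAmono (left_mem_Icc.2 zero_le_one) (right_mem_Icc.2 zero_le_one) zero_le_one
  simp only [hκ, Complex.ofReal_zero, zero_mul, zero_smul, add_zero, Complex.ofReal_one,
    one_mul, intervalIntegral.integral_const, sub_zero, smul_eq_mul] at hfin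
  exact hfin

theorem SPsh.circle {W : Set (V n)} (hW : IsOpen W) {v : V n → ℝ} (hv : SPsh W v) {a b : V n}
    (h : ∀ ζ : ℂ, ‖ζ‖ ≤ 1 → a + ζ • b ∈ W) :
    2 * Real.pi * v a ≤
      ∫ θ in (0 : ℝ)..(2 * Real.pi), v (a + Complex.exp (θ * Complex.I) • b) := by
  have hK : IsCompact ((fun ζ : ℂ => a + ζ • b) '' Metric.closedBall 0 1) :=
    (isCompact_closedBall 0 1).image (by fun_prop)
  have hKW : (fun ζ : ℂ => a + ζ • b) '' Metric.closedBall 0 1 ⊆ W := by
    rintro _ ⟨ζ, hζ, rfl⟩
    exact h ζ (by simpa using hζ)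
  obtain ⟨w, hw, hwv⟩ := ext19 hW hv.smooth hK hKW
  have hmem : ∀ ζ : ℂ, ‖ζ‖ ≤ 1 → a + ζ • b ∈ (fun ζ : ℂ => a + ζ • b) '' Metric.closedBall 0 1 :=
    fun ζ hζ => ⟨ζ, by simpa using hζ, rfl⟩
  have h1 := circ19 hw (a := a) (b := b) fun ζ hζ => by
    rw [lev_congr (hwv _ (hmem ζ hζ))]
    exact hv.psh _ (h ζ hζ) _
  have h2 : w a = v a := by
    have := (hwv _ (hmem 0 (by simp))).self_of_nhds
    simpa using this
  rw [h2] at h1
  refine h1.trans (le_of_eq ?_)
  refine intervalIntegral.integral_congr fun θ _ => ?_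
  exact (hwv _ (hmem _ (by rw [Complex.norm_exp_ofReal_mul_I]))).self_of_nhds

theorem SPsh.psh' {W : Set (V n)} (hW : IsOpen W) {v : V n → ℝ} (hv : SPsh W v) :
    PSH W (fun z => (v z : EReal)) := by
  refine ⟨?_, fun z _ => EReal.coe_lt_top _, Eventually.of_forall fun z _ => EReal.coe_ne_bot _, ?_⟩
  · exact (continuous_coe_real_ereal.comp_continuousOn hv.smooth.continuousOn).upperSemicontinuousOn
  · intro a b C h
    have hin : ∀ θ : ℝ, a + Complex.exp (θ * Complex.I) • b ∈ W ∧
        v (a + Complex.exp (θ * Complex.I) • b) ≤ C := fun θ => by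
      have := h (Complex.exp (θ * Complex.I)) (by rw [Complex.norm_exp_ofReal_mul_I])
      exact ⟨this.1, EReal.coe_le_coe_iff.1 this.2⟩
    have hcont : Continuous fun θ : ℝ => v (a + Complex.exp (θ * Complex.I) • b) :=
      hv.smooth.continuousOn.comp_continuous (by fun_prop) fun θ => (hin θ).1
    have hcirc := SPsh.circle hW hv (a := a) (b := b) fun ζ hζ => (h ζ hζ).1
    have hco : ∀ x : ℝ, ((C : EReal) - (x : EReal)).toENNReal = ENNReal.ofReal (C - x) := by
      intro x
      rw [← EReal.coe_sub, EReal.toENNReal_of_ne_top (EReal.coe_ne_top _), EReal.toReal_coe]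
    simp only [hco]
    have hint : IntegrableOn (fun θ : ℝ => C - v (a + Complex.exp (θ * Complex.I) • b))
        (Ioc 0 (2 * Real.pi)) :=
      ((continuous_const.sub hcont).integrableOn_Icc).mono_set Ioc_subset_Icc_self
    rw [← ofReal_integral_eq_lintegral_ofReal hint
      (Eventually.of_forall fun θ => sub_nonneg.2 (hin θ).2), ← ENNReal.ofReal_mul (by positivity)]
    refine ENNReal.ofReal_le_ofReal ?_
    rw [← intervalIntegral.integral_of_le (by positivity),
      intervalIntegral.integral_sub intervalIntegrable_const (hcont.intervalIntegrable _ _)]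
    simp only [intervalIntegral.integral_const, sub_zero, smul_eq_mul]
    nlinarith [hcirc]

end Pool.Agent.Helper13.AM
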