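import Pool.Agent.Helper13.AM.P1

/-!
AM-P5. Operations on psh functions.

`max`: `C - max u v = min (C - u) (C - v)`, and the lintegral of a minimum is at most the minimum.
`add`: usc of the sum: `UpperSemicontinuousOn.add'` and `EReal.continuousAt_add` (values `< ⊤`). Mean
inequality: given `u + v ≤ C` on the closed disc; choose real `C₁ ≥ u`, `C₂ ≥ v` on the (compact) closed
disc; if `u a = ⊥` or `v a = ⊥` the right hand side is `∞`. Otherwise `∫ (C₁ - u) ≤ 2π (C₁ - u a) < ∞` and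
the same for `v`, so `u`, `v` are real a.e. on the circle and the sum of the real inequalities gives
`∫ (C₁ + C₂ - u - v) ≤ 2π (C₁ + C₂ - u a - v a)`; now `C - u - v` differs from it by a constant
(`≤ 2π (C₁ + C₂ - C)` may be negative or positive: work with real integrals).
`of_antitone`: `C - v k` increases to `C - u`: monotone convergence (start at `k₀` with `v k₀ ≤ C'`; if `C` is
only a bound for `u`, use first `C' ≥ C` a bound for `v 0` on the disc and then subtract the constant: again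
if `u a = ⊥` nothing to prove, otherwise all integrals are finite).
Useful general lemma: for `u` usc `< ⊤` on the closed disc the inequality for ONE bound `C` implies it for all
real bounds `C'` (prove it first: `PSH.mk_of_exists`).
-/

set_option autoImplicit false

namespace Pool.Agent.Helper13.AM

open MeasureTheory Set Filter Topology Metric
open Pool.Agent.Helper29.AM
open scoped ComplexOrder

variable {n : ℕ} {Ω : Set (V n)} {u v : V n → EReal}

private theorem norm_exp93 (θ : ℝ) : ‖Complex.exp (θ * Complex.I)‖ ≤ 1 :=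
  (Complex.norm_exp_ofReal_mul_I θ).le

private theorem usc_path93 (h1 : UpperSemicontinuousOn u Ω) {a b : V n} (hab : ∀ ζ : ℂ, ‖ζ‖ ≤ 1 → a + ζ • b ∈ Ω) :
    UpperSemicontinuous fun θ : ℝ => u (a + Complex.exp (θ * Complex.I) • b) := by
  have hc : Continuous fun θ : ℝ => a + Complex.exp (θ * Complex.I) • b := by fun_prop
  have h2 := UpperSemicontinuousOn.comp (t := (Set.univ : Set ℝ)) h1 hc.continuousOn
    (fun θ _ => hab _ (norm_exp93 θ))
  exact upperSemicontinuousOn_univ_iff.mp h2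

private theorem meas_path93 (h1 : UpperSemicontinuousOn u Ω) {a b : V n} (hab : ∀ ζ : ℂ, ‖ζ‖ ≤ 1 → a + ζ • b ∈ Ω) :
    Measurable fun θ : ℝ => u (a + Complex.exp (θ * Complex.I) • b) :=
  (usc_path93 h1 hab).measurable

private theorem sub_real93 {C : ℝ} {x : EReal} (hx : x ≠ ⊥) (hx' : x ≠ ⊤) :
    ((C : EReal) - x).toENNReal = ENNReal.ofReal (C - x.toReal) := by
  lift x to ℝ using ⟨hx', hx⟩
  rw [← EReal.coe_sub, EReal.real_coe_toENNReal, EReal.toReal_coe]

private theorem ne_top93 {C : ℝ} {x : EReal} (h : x ≤ (C : EReal)) : x ≠ ⊤ :=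
  (lt_of_le_of_lt h (EReal.coe_lt_top C)).ne

private theorem toReal_le93 {C : ℝ} {x : EReal} (h : x ≤ (C : EReal)) (hx : x ≠ ⊥) : x.toReal ≤ C := by
  have hx' := ne_top93 h
  lift x to ℝ using ⟨hx', hx⟩
  rw [EReal.toReal_coe]
  exact EReal.coe_le_coe_iff.mp h

private theorem int_const93 (C : ℝ) : ∫ _θ in Ioc (0 : ℝ) (2 * Real.pi), C = 2 * Real.pi * C := by
  rw [setIntegral_const, Measure.real, Real.volume_Ioc, sub_zero, ENNReal.toReal_ofReal (by positivity), smul_eq_mul]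

private theorem lint93 {f : ℝ → EReal} {C : ℝ} (hC : ∀ θ, f θ ≤ (C : EReal))
    (hne : ∀ᵐ θ ∂(volume.restrict (Ioc (0 : ℝ) (2 * Real.pi))), f θ ≠ ⊥)
    (hint : Integrable (fun θ => (f θ).toReal) (volume.restrict (Ioc (0 : ℝ) (2 * Real.pi)))) :
    ∫⁻ θ in Ioc (0 : ℝ) (2 * Real.pi), ((C : EReal) - f θ).toENNReal =
      ENNReal.ofReal (2 * Real.pi * C - ∫ θ in Ioc (0 : ℝ) (2 * Real.pi), (f θ).toReal) := by
  have h1 : ∫⁻ θ in Ioc (0 : ℝ) (2 * Real.pi), ((C : EReal) - f θ).toENNReal =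
      ∫⁻ θ in Ioc (0 : ℝ) (2 * Real.pi), ENNReal.ofReal (C - (f θ).toReal) := by
    refine lintegral_congr_ae ?_
    filter_upwards [hne] with θ hθ
    exact sub_real93 hθ (ne_top93 (hC θ))
  have hci : Integrable (fun _ : ℝ => C) (volume.restrict (Ioc (0 : ℝ) (2 * Real.pi))) := by
    have : IsFiniteMeasure (volume.restrict (Ioc (0 : ℝ) (2 * Real.pi))) :=
      ⟨by rw [Measure.restrict_apply_univ, Real.volume_Ioc]; exact ENNReal.ofReal_lt_top⟩
    exact integrable_const C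
  have hsub : Integrable (fun θ => C - (f θ).toReal) (volume.restrict (Ioc (0 : ℝ) (2 * Real.pi))) := hci.sub hint
  have hnn : 0 ≤ᵐ[volume.restrict (Ioc (0 : ℝ) (2 * Real.pi))] fun θ => C - (f θ).toReal := by
    filter_upwards [hne] with θ hθ
    exact sub_nonneg.mpr (toReal_le93 (hC θ) hθ)
  rw [h1, ← ofReal_integral_eq_lintegral_ofReal hsub hnn, integral_sub hci hint, int_const93]

/-- the mean inequality in real terms -/
private theorem mean_iff93 {f : ℝ → EReal} (hf : Measurable f) {C r : ℝ} (hC : ∀ θ, f θ ≤ (C : EReal)) (hr : r ≤ C) :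
    (∫⁻ θ in Ioc (0 : ℝ) (2 * Real.pi), ((C : EReal) - f θ).toENNReal ≤
      ENNReal.ofReal (2 * Real.pi) * ((C : EReal) - (r : EReal)).toENNReal) ↔
    ((∀ᵐ θ ∂(volume.restrict (Ioc (0 : ℝ) (2 * Real.pi))), f θ ≠ ⊥) ∧
      Integrable (fun θ => (f θ).toReal) (volume.restrict (Ioc (0 : ℝ) (2 * Real.pi))) ∧
      2 * Real.pi * r ≤ ∫ θ in Ioc (0 : ℝ) (2 * Real.pi), (f θ).toReal) := by
  have hpi : (0 : ℝ) ≤ 2 * Real.pi := by positivity
  have hR : ENNReal.ofReal (2 * Real.pi) * ((C : EReal) - (r : EReal)).toENNReal =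
      ENNReal.ofReal (2 * Real.pi * (C - r)) := by
    rw [← EReal.coe_sub, EReal.real_coe_toENNReal, ← ENNReal.ofReal_mul hpi]
  rw [hR]
  constructor
  · intro h
    have hm : Measurable fun θ => ((C : EReal) - f θ).toENNReal := (measurable_const.sub hf).ereal_toENNReal
    have hfin : ∫⁻ θ in Ioc (0 : ℝ) (2 * Real.pi), ((C : EReal) - f θ).toENNReal ≠ ⊤ :=
      (lt_of_le_of_lt h ENNReal.ofReal_lt_top).ne
    have hne : ∀ᵐ θ ∂(volume.restrict (Ioc (0 : ℝ) (2 * Real.pi))), f θ ≠ ⊥ := by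
      filter_upwards [ae_lt_top hm hfin] with θ hθ hcon
      rw [hcon, EReal.coe_sub_bot, EReal.toENNReal_top] at hθ
      exact lt_irrefl _ hθ
    have hint : Integrable (fun θ => (f θ).toReal) (volume.restrict (Ioc (0 : ℝ) (2 * Real.pi))) := by
      have h2 : Integrable (fun θ => C - (f θ).toReal) (volume.restrict (Ioc (0 : ℝ) (2 * Real.pi))) := by
        refine ⟨(measurable_const.sub hf.ereal_toReal).aestronglyMeasurable, ?_⟩
        rw [hasFiniteIntegral_iff_ofReal]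
        · refine lt_of_le_of_lt (le_of_eq ?_) (lt_top_iff_ne_top.mpr hfin)
          refine lintegral_congr_ae ?_
          filter_upwards [hne] with θ hθ
          exact (sub_real93 hθ (ne_top93 (hC θ))).symm
        · filter_upwards [hne] with θ hθ
          exact sub_nonneg.mpr (toReal_le93 (hC θ) hθ)
      have hci : Integrable (fun _ : ℝ => C) (volume.restrict (Ioc (0 : ℝ) (2 * Real.pi))) := by
        have : IsFiniteMeasure (volume.restrict (Ioc (0 : ℝ) (2 * Real.pi))) :=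
          ⟨by rw [Measure.restrict_apply_univ, Real.volume_Ioc]; exact ENNReal.ofReal_lt_top⟩
        exact integrable_const C
      have h3 := hci.sub h2
      refine h3.congr (Filter.Eventually.of_forall fun θ => ?_)
      simp
    refine ⟨hne, hint, ?_⟩
    rw [lint93 hC hne hint, ENNReal.ofReal_le_ofReal_iff (mul_nonneg hpi (sub_nonneg.mpr hr))] at h
    linarith
  · rintro ⟨hne, hint, h⟩
    rw [lint93 hC hne hint]
    refine ENNReal.ofReal_le_ofReal ?_
    linarith

private theorem rhs_bot93 (C : ℝ) : ENNReal.ofReal (2 * Real.pi) * ((C : EReal) - ⊥).toENNReal = ⊤ := by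
  rw [EReal.coe_sub_bot, EReal.toENNReal_top, ENNReal.mul_top]
  exact (ENNReal.ofReal_pos.mpr (by positivity)).ne'

private theorem at_zero93 {P : V n → Prop} {a b : V n} (h : ∀ ζ : ℂ, ‖ζ‖ ≤ 1 → P (a + ζ • b)) : P a := by
  have := h 0 (by simp)
  simpa using this

/-- it is enough to check the mean inequality for one bound `C` on every closed disc -/
theorem PSH.mk_of_exists (hΩ : IsOpen Ω) (h1 : UpperSemicontinuousOn u Ω)
    (h2 : ∀ z ∈ Ω, u z < ⊤) (h3 : ∀ᵐ z, z ∈ Ω → u z ≠ ⊥)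
    (h4 : ∀ a b : V n, (∀ ζ : ℂ, ‖ζ‖ ≤ 1 → a + ζ • b ∈ Ω) → ∃ C : ℝ,
      (∀ ζ : ℂ, ‖ζ‖ ≤ 1 → u (a + ζ • b) ≤ C) ∧
      ∫⁻ θ in Ioc (0 : ℝ) (2 * Real.pi),
        ((C : EReal) - u (a + Complex.exp (θ * Complex.I) • b)).toENNReal ≤
      ENNReal.ofReal (2 * Real.pi) * ((C : EReal) - u a).toENNReal) : PSH Ω u := by
  refine ⟨h1, h2, h3, fun a b C' hC' => ?_⟩
  have hab : ∀ ζ : ℂ, ‖ζ‖ ≤ 1 → a + ζ • b ∈ Ω := fun ζ hζ => (hC' ζ hζ).1
  obtain ⟨C, hC, hmean⟩ := h4 a b hab
  rcases eq_or_ne (u a) ⊥ with hbot | hbot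
  · rw [hbot, rhs_bot93]
    exact le_top
  · have haC : u a ≤ (C : EReal) := at_zero93 (P := fun z => u z ≤ (C : EReal)) hC
    have haC' : u a ≤ (C' : EReal) := at_zero93 (P := fun z => u z ≤ (C' : EReal)) fun ζ hζ => (hC' ζ hζ).2
    obtain ⟨r, hr⟩ : ∃ r : ℝ, u a = (r : EReal) := ⟨(u a).toReal, (EReal.coe_toReal (ne_top93 haC) hbot).symm⟩
    rw [hr] at hmean haC haC' ⊢
    have hm := meas_path93 h1 hab
    rw [mean_iff93 hm (fun θ => hC _ (norm_exp93 θ)) (EReal.coe_le_coe_iff.mp haC)] at hmean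
    rw [mean_iff93 hm (fun θ => (hC' _ (norm_exp93 θ)).2) (EReal.coe_le_coe_iff.mp haC')]
    exact hmean

theorem PSH.const (Ω : Set (V n)) (c : ℝ) : PSH Ω (fun _ => (c : EReal)) := by
  refine ⟨upperSemicontinuousOn_const, fun _ _ => EReal.coe_lt_top c,
    Filter.Eventually.of_forall fun _ _ => EReal.coe_ne_bot c, fun a b C hC => ?_⟩
  rw [lintegral_const, Measure.restrict_apply_univ, Real.volume_Ioc, sub_zero, mul_comm]

theorem PSH.max (hΩ : IsOpen Ω) (hu : PSH Ω u) (hv : PSH Ω v) :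
    PSH Ω (fun z => Max.max (u z) (v z)) := by
  refine ⟨?_, fun z hz => max_lt (hu.lt_top z hz) (hv.lt_top z hz), ?_, fun a b C hC => ?_⟩
  · intro x hx y hy
    filter_upwards [hu.usc x hx y (lt_of_le_of_lt (le_max_left _ _) hy),
      hv.usc x hx y (lt_of_le_of_lt (le_max_right _ _) hy)] with z h3 h4 using max_lt h3 h4
  · filter_upwards [hu.ae_bot] with z hz hzΩ hcon
    exact hz hzΩ (le_bot_iff.mp (le_of_le_of_eq (le_max_left _ _) hcon))
  · have h1 := hu.mean a b C fun ζ hζ => ⟨(hC ζ hζ).1, (le_max_left _ _).trans (hC ζ hζ).2⟩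
    have h2 := hv.mean a b C fun ζ hζ => ⟨(hC ζ hζ).1, (le_max_right _ _).trans (hC ζ hζ).2⟩
    have h3 : ∀ w : V n, ((C : EReal) - Max.max (u w) (v w)).toENNReal ≤ ((C : EReal) - u w).toENNReal := fun w =>
      EReal.toENNReal_le_toENNReal (EReal.sub_le_sub le_rfl (le_max_left _ _))
    have h4 : ∀ w : V n, ((C : EReal) - Max.max (u w) (v w)).toENNReal ≤ ((C : EReal) - v w).toENNReal := fun w =>
      EReal.toENNReal_le_toENNReal (EReal.sub_le_sub le_rfl (le_max_right _ _))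
    rcases max_choice (u a) (v a) with h | h
    · show _ ≤ ENNReal.ofReal (2 * Real.pi) * ((C : EReal) - Max.max (u a) (v a)).toENNReal
      rw [h]
      exact (lintegral_mono fun θ => h3 _).trans h1
    · show _ ≤ ENNReal.ofReal (2 * Real.pi) * ((C : EReal) - Max.max (u a) (v a)).toENNReal
      rw [h]
      exact (lintegral_mono fun θ => h4 _).trans h2

private theorem disc_compact93 (a b : V n) : IsCompact ((fun ζ : ℂ => a + ζ • b) '' closedBall 0 1) :=
  (isCompact_closedBall (0 : ℂ) 1).image (by fun_prop)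

private theorem exists_bound93 (hu : PSH Ω u) {a b : V n} (hab : ∀ ζ : ℂ, ‖ζ‖ ≤ 1 → a + ζ • b ∈ Ω) :
    ∃ C : ℝ, ∀ ζ : ℂ, ‖ζ‖ ≤ 1 → u (a + ζ • b) ≤ (C : EReal) := by
  obtain ⟨C, hC⟩ := hu.exists_le (disc_compact93 a b) (by
    rintro _ ⟨ζ, hζ, rfl⟩
    exact hab ζ (by simpa using hζ))
  exact ⟨C, fun ζ hζ => hC _ ⟨ζ, by simpa using hζ, rfl⟩⟩

theorem PSH.add (hΩ : IsOpen Ω) (hu : PSH Ω u) (hv : PSH Ω v) :
    PSH Ω (fun z => u z + v z) := by
  have husc : UpperSemicontinuousOn (fun z => u z + v z) Ω := by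
    refine hu.usc.add' hv.usc fun x hx => ?_
    exact EReal.continuousAt_add (Or.inl (hu.lt_top x hx).ne) (Or.inr (hv.lt_top x hx).ne)
  refine PSH.mk_of_exists hΩ husc (fun z hz => EReal.add_lt_top (hu.lt_top z hz).ne (hv.lt_top z hz).ne) ?_ ?_
  · filter_upwards [hu.ae_bot, hv.ae_bot] with z h1 h2 hz hcon
    rcases EReal.add_eq_bot_iff.mp hcon with h | h
    · exact h1 hz h
    · exact h2 hz h
  · intro a b hab
    obtain ⟨C1, hC1⟩ := exists_bound93 hu hab
    obtain ⟨C2, hC2⟩ := exists_bound93 hv hab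
    have hC : ∀ ζ : ℂ, ‖ζ‖ ≤ 1 → u (a + ζ • b) + v (a + ζ • b) ≤ ((C1 + C2 : ℝ) : EReal) := fun ζ hζ => by
      rw [EReal.coe_add]
      exact add_le_add (hC1 ζ hζ) (hC2 ζ hζ)
    refine ⟨C1 + C2, hC, ?_⟩
    rcases eq_or_ne (u a) ⊥ with hbu | hbu
    · show _ ≤ ENNReal.ofReal (2 * Real.pi) * (((C1 + C2 : ℝ) : EReal) - (u a + v a)).toENNReal
      rw [hbu, EReal.bot_add, rhs_bot93]
      exact le_top
    rcases eq_or_ne (v a) ⊥ with hbv | hbv
    · show _ ≤ ENNReal.ofReal (2 * Real.pi) * (((C1 + C2 : ℝ) : EReal) - (u a + v a)).toENNReal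
      rw [hbv, EReal.add_bot, rhs_bot93]
      exact le_top
    have hau : u a ≤ (C1 : EReal) := at_zero93 (P := fun z => u z ≤ (C1 : EReal)) hC1
    have hav : v a ≤ (C2 : EReal) := at_zero93 (P := fun z => v z ≤ (C2 : EReal)) hC2
    obtain ⟨r, hr⟩ : ∃ r : ℝ, u a = (r : EReal) := ⟨(u a).toReal, (EReal.coe_toReal (ne_top93 hau) hbu).symm⟩
    obtain ⟨t, ht⟩ : ∃ t : ℝ, v a = (t : EReal) := ⟨(v a).toReal, (EReal.coe_toReal (ne_top93 hav) hbv).symm⟩
    have hmu := hu.mean a b C1 fun ζ hζ => ⟨hab ζ hζ, hC1 ζ hζ⟩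
    have hmv := hv.mean a b C2 fun ζ hζ => ⟨hab ζ hζ, hC2 ζ hζ⟩
    rw [hr] at hmu hau
    rw [ht] at hmv hav
    have hr1 : r ≤ C1 := EReal.coe_le_coe_iff.mp hau
    have ht2 : t ≤ C2 := EReal.coe_le_coe_iff.mp hav
    rw [mean_iff93 (meas_path93 hu.usc hab) (fun θ => hC1 _ (norm_exp93 θ)) hr1] at hmu
    rw [mean_iff93 (meas_path93 hv.usc hab) (fun θ => hC2 _ (norm_exp93 θ)) ht2] at hmv
    obtain ⟨u1, u2, u3⟩ := hmu
    obtain ⟨v1, v2, v3⟩ := hmv
    show _ ≤ ENNReal.ofReal (2 * Real.pi) * (((C1 + C2 : ℝ) : EReal) - (u a + v a)).toENNReal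
    rw [hr, ht, ← EReal.coe_add]
    rw [mean_iff93 (f := fun θ : ℝ => u (a + Complex.exp (θ * Complex.I) • b) + v (a + Complex.exp (θ * Complex.I) • b))
      (meas_path93 husc hab) (fun θ => hC _ (norm_exp93 θ)) (add_le_add hr1 ht2)]
    have hae : (fun θ : ℝ => (u (a + Complex.exp (θ * Complex.I) • b) + v (a + Complex.exp (θ * Complex.I) • b)).toReal)
        =ᵐ[volume.restrict (Ioc (0 : ℝ) (2 * Real.pi))]
        fun θ : ℝ => (u (a + Complex.exp (θ * Complex.I) • b)).toReal + (v (a + Complex.exp (θ * Complex.I) • b)).toReal := by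
      filter_upwards [u1, v1] with θ h1 h2
      exact EReal.toReal_add (ne_top93 (hC1 _ (norm_exp93 θ))) h1 (ne_top93 (hC2 _ (norm_exp93 θ))) h2
    refine ⟨?_, ?_, ?_⟩
    · filter_upwards [u1, v1] with θ h1 h2 hcon
      rcases EReal.add_eq_bot_iff.mp hcon with h | h
      · exact h1 h
      · exact h2 h
    · exact (u2.add v2).congr hae.symm
    · rw [integral_congr_ae hae, integral_add u2 v2]
      linarith

theorem PSH.smul (hΩ : IsOpen Ω) (hu : PSH Ω u) {c : ℝ} (hc : 0 < c) :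
    PSH Ω (fun z => (c : EReal) * u z) := by
  have hc' : (0 : EReal) < (c : EReal) := EReal.coe_pos.mpr hc
  have hcont : Continuous fun x : EReal => (c : EReal) * x := by
    rw [continuous_iff_continuousAt]
    intro x
    have h1 : ContinuousAt (fun p : EReal × EReal => p.1 * p.2) ((c : EReal), x) :=
      EReal.continuousAt_mul (Or.inl hc'.ne') (Or.inl hc'.ne') (Or.inl (EReal.coe_ne_bot c)) (Or.inl (EReal.coe_ne_top c))
    exact h1.comp (f := fun x : EReal => ((c : EReal), x)) (by fun_prop)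
  have hmono : Monotone fun x : EReal => (c : EReal) * x := fun x y hxy => mul_le_mul_of_nonneg_left hxy hc'.le
  have hbot : ∀ x : EReal, (c : EReal) * x = ⊥ → x = ⊥ := by
    intro x hx
    induction x with
    | bot => rfl
    | coe x => rw [← EReal.coe_mul] at hx; exact absurd hx (EReal.coe_ne_bot _)
    | top => rw [EReal.coe_mul_top_of_pos hc] at hx; exact absurd hx (by decide)
  refine PSH.mk_of_exists hΩ (hcont.comp_upperSemicontinuousOn hu.usc hmono) (fun z hz => ?_) ?_ ?_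
  · obtain h := (hu.lt_top z hz)
    induction hx : u z with
    | bot => rw [EReal.coe_mul_bot_of_pos hc]; exact bot_lt_top
    | coe x => rw [← EReal.coe_mul]; exact EReal.coe_lt_top _
    | top => rw [hx] at h; exact absurd h (lt_irrefl _)
  · filter_upwards [hu.ae_bot] with z h1 hz hcon
    exact h1 hz (hbot _ hcon)
  · intro a b hab
    obtain ⟨C, hC⟩ := exists_bound93 hu hab
    have hC' : ∀ ζ : ℂ, ‖ζ‖ ≤ 1 → (c : EReal) * u (a + ζ • b) ≤ ((c * C : ℝ) : EReal) := fun ζ hζ => by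
      rw [EReal.coe_mul]
      exact hmono (hC ζ hζ)
    refine ⟨c * C, hC', ?_⟩
    have hm := hu.mean a b C fun ζ hζ => ⟨hab ζ hζ, hC ζ hζ⟩
    have key : ∀ x : EReal, ((c * C : ℝ) - (c : EReal) * x).toENNReal = ENNReal.ofReal c * ((C : EReal) - x).toENNReal := by
      intro x
      rw [← EReal.real_coe_toENNReal c, ← EReal.toENNReal_mul hc'.le]
      congr 1
      induction x with
      | bot => rw [EReal.coe_mul_bot_of_pos hc, EReal.coe_sub_bot, EReal.coe_sub_bot, EReal.coe_mul_top_of_pos hc]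
      | coe x =>
        rw [← EReal.coe_mul, ← EReal.coe_sub, ← EReal.coe_sub, ← EReal.coe_mul, mul_sub]
      | top =>
        have e : ∀ y : EReal, y - ⊤ = ⊥ := fun y => by rw [sub_eq_add_neg, EReal.neg_top, EReal.add_bot]
        rw [EReal.coe_mul_top_of_pos hc, e, e, EReal.coe_mul_bot_of_pos hc]
    show _ ≤ ENNReal.ofReal (2 * Real.pi) * (((c * C : ℝ) : EReal) - (c : EReal) * u a).toENNReal
    rw [key]
    calc ∫⁻ θ in Ioc (0 : ℝ) (2 * Real.pi), (((c * C : ℝ) : EReal) - (c : EReal) * u (a + Complex.exp (θ * Complex.I) • b)).toENNReal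
        = ∫⁻ θ in Ioc (0 : ℝ) (2 * Real.pi), ENNReal.ofReal c * ((C : EReal) - u (a + Complex.exp (θ * Complex.I) • b)).toENNReal :=
          lintegral_congr fun θ => key _
      _ = ENNReal.ofReal c * ∫⁻ θ in Ioc (0 : ℝ) (2 * Real.pi), ((C : EReal) - u (a + Complex.exp (θ * Complex.I) • b)).toENNReal :=
          lintegral_const_mul' _ _ ENNReal.ofReal_ne_top
      _ ≤ ENNReal.ofReal c * (ENNReal.ofReal (2 * Real.pi) * ((C : EReal) - u a).toENNReal) := by gcongr
      _ = _ := by ring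

theorem PSH.of_antitone (hΩ : IsOpen Ω) {w : ℕ → V n → EReal} (hw : ∀ k, PSH Ω (w k))
    (hanti : ∀ k, ∀ z ∈ Ω, w (k + 1) z ≤ w k z)
    (hlim : ∀ z ∈ Ω, Tendsto (fun k => w k z) atTop (𝓝 (u z)))
    (hbot : ∀ᵐ z, z ∈ Ω → u z ≠ ⊥) : PSH Ω u := by
  have hAnti : ∀ z ∈ Ω, Antitone fun k => w k z := fun z hz => antitone_nat_of_succ_le fun k => hanti k z hz
  have hle : ∀ k, ∀ z ∈ Ω, u z ≤ w k z := fun k z hz => (hAnti z hz).le_of_tendsto (hlim z hz) k
  have hinf : ∀ z ∈ Ω, (⨅ k, w k z) = u z := fun z hz => tendsto_nhds_unique (tendsto_atTop_iInf (hAnti z hz)) (hlim z hz)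
  refine PSH.mk_of_exists hΩ ?_ (fun z hz => lt_of_le_of_lt (hle 0 z hz) ((hw 0).lt_top z hz)) hbot ?_
  · intro x hx y hy
    rw [← hinf x hx] at hy
    have h1 := upperSemicontinuousOn_iInf (fun k => (hw k).usc) x hx y hy
    filter_upwards [h1, self_mem_nhdsWithin] with z h2 h3
    rw [← hinf z h3]
    exact h2
  · intro a b hab
    obtain ⟨C, hC⟩ := exists_bound93 (hw 0) hab
    have haΩ : a ∈ Ω := at_zero93 (P := fun z => z ∈ Ω) hab
    have hCk : ∀ k, ∀ ζ : ℂ, ‖ζ‖ ≤ 1 → w k (a + ζ • b) ≤ (C : EReal) := fun k ζ hζ =>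
      (hAnti _ (hab ζ hζ) (Nat.zero_le k)).trans (hC ζ hζ)
    refine ⟨C, fun ζ hζ => (hle 0 _ (hab ζ hζ)).trans (hC ζ hζ), ?_⟩
    have hcont : ∀ x : EReal, ContinuousAt (fun x : EReal => ((C : EReal) - x).toENNReal) x := by
      intro x
      have h1 : ContinuousAt (fun p : EReal × EReal => p.1 + p.2) ((C : EReal), -x) :=
        EReal.continuousAt_add (Or.inl (EReal.coe_ne_top C)) (Or.inl (EReal.coe_ne_bot C))
      have h2 : ContinuousAt (fun x : EReal => ((C : EReal), -x)) x := by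
        have : Continuous fun x : EReal => ((C : EReal), -x) := by fun_prop
        exact this.continuousAt
      have h3 : ContinuousAt (fun x : EReal => (C : EReal) + -x) x := ContinuousAt.comp (f := fun x : EReal => ((C : EReal), -x)) h1 h2
      exact EReal.continuous_toENNReal.continuousAt.comp h3
    have hmon : ∀ θ : ℝ, Monotone fun k => ((C : EReal) - w k (a + Complex.exp (θ * Complex.I) • b)).toENNReal :=
      fun θ k l hkl => EReal.toENNReal_le_toENNReal (EReal.sub_le_sub le_rfl (hAnti _ (hab _ (norm_exp93 θ)) hkl))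
    have hT := lintegral_tendsto_of_tendsto_of_monotone (μ := volume.restrict (Ioc (0 : ℝ) (2 * Real.pi)))
      (f := fun k θ => ((C : EReal) - w k (a + Complex.exp (θ * Complex.I) • b)).toENNReal)
      (F := fun θ => ((C : EReal) - u (a + Complex.exp (θ * Complex.I) • b)).toENNReal)
      (fun k => ((measurable_const.sub (meas_path93 (hw k).usc hab)).ereal_toENNReal).aemeasurable)
      (Filter.Eventually.of_forall hmon)
      (Filter.Eventually.of_forall fun θ => (hcont _).tendsto.comp (hlim _ (hab _ (norm_exp93 θ))))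
    refine le_of_tendsto' hT fun k => ?_
    refine ((hw k).mean a b C fun ζ hζ => ⟨hab ζ hζ, hCk k ζ hζ⟩).trans ?_
    refine mul_le_mul_right ?_ _
    exact EReal.toENNReal_le_toENNReal (EReal.sub_le_sub le_rfl (hle k a haΩ))

end Pool.Agent.Helper13.AM
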