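import Pool.Agent.Helper13.AM.P4
import Pool.Agent.Helper13.AM.P5
import Pool.Agent.Helper13.AM.K3
import Pool.Agent.Helper29.AM.GS4

/-!
AM-P6. (14.2) Canonical representatives; psh is a local property; composition with biholomorphic maps.

`exists_psh`: `u' z = ⨅_{t > 0, z ∈ shr Ω t} Phi u z t` (EReal), `Phi u z t` is nondecreasing in `t`
(`Phi_mono_radius`), so it is the limit as `t → 0+`. On the open set `shr Ω t` the functions
`Phi u · (t/(k+1))` are smooth psh, decrease to `u'`; they are PSH (`SPsh.psh'`), so `u'` is PSH on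
`shr Ω t` (`PSH.of_antitone`; a.e. `u' = u` by `ae_tendsto_Phi`), and every closed disc in `Ω` is in some
`shr Ω t` (compactness), every point of `Ω` too: PSH on `Ω`.
`of_local`: `u.toReal` is `PSHd` on small balls (`PSH.pshd`), hence on `Ω` (`GS.of_local`); the canonical
representative `u'` is PSH on `Ω`, equal to `u.toReal` a.e., hence `= u` a.e., hence everywhere on small
balls (`eq_of_ae_eq`); `PSH.congr`.
`Dec.comp`: `SPsh` under holomorphic maps (`lev_comp_holo`). `PSH.comp`: on small balls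
(relatively compact in `Ω`) `u` is a decreasing limit of smooth psh functions; compose; `of_antitone`,
null sets: `Bih.ae`; then `of_local`.
(If `Bih` in Helper29/AM/GS4.lean is stated with `DifferentiableOn`, smoothness of the map is needed: ask
helper29; it will be changed to `ContDiffOn ℂ`.)
-/

set_option autoImplicit false

namespace Pool.Agent.Helper13.AM

open MeasureTheory Set Filter Topology Metric
open Pool.Agent.Helper29.AM
open scoped ComplexOrder

variable {n : ℕ} {Ω Ω' : Set (V n)}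

/-! ### holomorphic maps in several variables are smooth (copy of the private lemmas of GS4) -/

private theorem scv_bd36 {E F : Type*} [NormedAddCommGroup E] [NormedSpace ℂ E]
    [NormedAddCommGroup F] [NormedSpace ℂ F] {f : E → F} {z : E} {r C : ℝ} (hr : 0 < r)
    (hf : ∀ w ∈ closedBall z r, DifferentiableAt ℂ f w) (hC : ∀ w ∈ closedBall z r, ‖f w‖ ≤ C) :
    ‖fderiv ℂ f z‖ ≤ C / r := by
  have hC0 : 0 ≤ C := le_trans (norm_nonneg _) (hC z (mem_closedBall_self hr.le))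
  refine ContinuousLinearMap.opNorm_le_bound _ (by positivity) fun v => ?_
  by_cases hv : v = 0
  · simp [hv]
  have hv0 : 0 < ‖v‖ := norm_pos_iff.2 hv
  have hR : 0 < r / ‖v‖ := by positivity
  have hmem : ∀ ζ : ℂ, ‖ζ‖ ≤ r / ‖v‖ → z + ζ • v ∈ closedBall z r := by
    intro ζ hζ
    rw [mem_closedBall, dist_eq_norm, add_sub_cancel_left, norm_smul]
    calc ‖ζ‖ * ‖v‖ ≤ r / ‖v‖ * ‖v‖ := by gcongr
      _ = r := by field_simp
  have hd : ∀ ζ : ℂ, ‖ζ‖ ≤ r / ‖v‖ →
      HasDerivAt (fun ζ : ℂ => f (z + ζ • v)) (fderiv ℂ f (z + ζ • v) v) ζ := by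
    intro ζ hζ
    have h1 : HasDerivAt (fun ζ : ℂ => z + ζ • v) v ζ := by
      simpa using ((hasDerivAt_id ζ).smul_const v).const_add z
    exact ((hf _ (hmem ζ hζ)).hasFDerivAt).comp_hasDerivAt ζ h1
  have h2 : ‖deriv (fun ζ : ℂ => f (z + ζ • v)) 0‖ ≤ C / (r / ‖v‖) := by
    apply Complex.norm_deriv_le_of_forall_mem_sphere_norm_le hR
    · apply DifferentiableOn.diffContOnCl
      rw [closure_ball _ hR.ne']
      intro ζ hζ
      rw [mem_closedBall_zero_iff] at hζ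
      exact (hd ζ hζ).differentiableAt.differentiableWithinAt
    · intro ζ hζ
      rw [mem_sphere_zero_iff_norm] at hζ
      exact hC _ (hmem ζ hζ.le)
  rw [(hd 0 (by simpa using hR.le)).deriv, zero_smul, add_zero] at h2
  refine h2.trans (le_of_eq ?_)
  field_simp

private theorem scv_fd36 {E F : Type*} [NormedAddCommGroup E] [NormedSpace ℂ E]
    [FiniteDimensional ℂ E]
    [NormedAddCommGroup F] [NormedSpace ℂ F] [FiniteDimensional ℂ F] {f : E → F} {Ω : Set E}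
    (hΩ : IsOpen Ω) (hf : DifferentiableOn ℂ f Ω) (v : E) :
    DifferentiableOn ℂ (fun z => fderiv ℂ f z v) Ω := by
  intro z₀ hz₀
  apply DifferentiableAt.differentiableWithinAt
  have : ProperSpace E := FiniteDimensional.proper ℂ E
  have : ProperSpace F := FiniteDimensional.proper ℂ F
  have : CompleteSpace F := FiniteDimensional.complete ℂ F
  have : ProperSpace (E →L[ℂ] F) := FiniteDimensional.proper ℂ (E →L[ℂ] F)
  let _i : MeasurableSpace E := borel E
  have : BorelSpace E := ⟨rfl⟩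
  let _i : MeasurableSpace F := borel F
  have : BorelSpace F := ⟨rfl⟩
  obtain ⟨R, hR, hRΩ⟩ := Metric.nhds_basis_closedBall.mem_iff.1 (hΩ.mem_nhds hz₀)
  have hcont : ContinuousOn f (closedBall z₀ R) := hf.continuousOn.mono hRΩ
  obtain ⟨C, hC⟩ := (isCompact_closedBall z₀ R).exists_bound_of_continuousOn hcont
  have hda : ∀ w ∈ closedBall z₀ R, DifferentiableAt ℂ f w := fun w hw =>
    (hf w (hRΩ hw)).differentiableAt (hΩ.mem_nhds (hRΩ hw))
  -- the radius of the circle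
  set ρ : ℝ := R / 3 / (‖v‖ + 1) with hρ
  have hρ0 : 0 < ρ := by positivity
  have hρv : ρ * ‖v‖ ≤ R / 3 := by
    rw [hρ, div_mul_eq_mul_div, div_le_iff₀ (by positivity)]
    nlinarith [norm_nonneg v]
  have hmem : ∀ z ∈ ball z₀ (R / 3), ∀ ζ : ℂ, ‖ζ‖ ≤ ρ → ∀ w ∈ closedBall (z + ζ • v) (R / 3),
      w ∈ closedBall z₀ R := by
    intro z hz ζ hζ w hw
    rw [mem_ball] at hz
    rw [mem_closedBall] at hw ⊢
    have h1 : dist (z + ζ • v) z ≤ R / 3 := by
      rw [dist_eq_norm, add_sub_cancel_left, norm_smul]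
      calc ‖ζ‖ * ‖v‖ ≤ ρ * ‖v‖ := by gcongr
        _ ≤ R / 3 := hρv
    have h2 := dist_triangle w (z + ζ • v) z₀
    have h3 := dist_triangle (z + ζ • v) z z₀
    linarith
  have hmem0 : ∀ z ∈ ball z₀ (R / 3), ∀ ζ : ℂ, ‖ζ‖ ≤ ρ → z + ζ • v ∈ closedBall z₀ R :=
    fun z hz ζ hζ => hmem z hz ζ hζ _ (mem_closedBall_self (by positivity))
  have hd : ∀ z ∈ ball z₀ (R / 3), ∀ ζ : ℂ, ‖ζ‖ ≤ ρ →
      HasDerivAt (fun ζ : ℂ => f (z + ζ • v)) (fderiv ℂ f (z + ζ • v) v) ζ := by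
    intro z hz ζ hζ
    have h1 : HasDerivAt (fun ζ : ℂ => z + ζ • v) v ζ := by
      simpa using ((hasDerivAt_id ζ).smul_const v).const_add z
    exact ((hda _ (hmem0 z hz ζ hζ)).hasFDerivAt).comp_hasDerivAt ζ h1
  have h2pi : (2 * Real.pi * Complex.I : ℂ) ≠ 0 := by
    simp [Real.pi_ne_zero]
  have hformula : ∀ z ∈ ball z₀ (R / 3), fderiv ℂ f z v =
      (2 * Real.pi * Complex.I : ℂ)⁻¹ • ∮ ζ in C(0, ρ), (1 / (ζ - 0) ^ 2) • f (z + ζ • v) := by
    intro z hz
    have h1 := DifferentiableOn.deriv_eq_smul_circleIntegral (c := (0 : ℂ))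
      (f := fun ζ : ℂ => f (z + ζ • v)) hρ0 (by
        intro ζ hζ
        rw [mem_closedBall_zero_iff] at hζ
        exact (hd z hz ζ hζ).differentiableAt.differentiableWithinAt)
    rw [(hd z hz 0 (by simpa using hρ0.le)).deriv, zero_smul, add_zero] at h1
    rw [h1, smul_smul, inv_mul_cancel₀ h2pi, one_smul]
  have heq : (fun z => fderiv ℂ f z v) =ᶠ[𝓝 z₀] fun z => (2 * Real.pi * Complex.I : ℂ)⁻¹ •
      ∮ ζ in C(0, ρ), (1 / (ζ - 0) ^ 2) • f (z + ζ • v) := by
    filter_upwards [ball_mem_nhds z₀ (by positivity : 0 < R / 3)] with z hz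
    exact hformula z hz
  rw [heq.differentiableAt_iff]
  apply DifferentiableAt.const_smul
  unfold circleIntegral
  have hcm : ∀ θ : ℝ, ‖circleMap (0 : ℂ) ρ θ‖ = ρ := fun θ => by
    rw [norm_circleMap_zero, abs_of_pos hρ0]
  have hcm0 : ∀ θ : ℝ, circleMap (0 : ℂ) ρ θ ≠ 0 := fun θ h => by
    have := hcm θ
    rw [h, norm_zero] at this
    exact hρ0.ne this
  have hcc : Continuous fun θ : ℝ => circleMap (0 : ℂ) ρ θ := continuous_circleMap 0 ρ
  have hk1 : Continuous fun θ : ℝ => deriv (circleMap (0 : ℂ) ρ) θ := by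
    have : (fun θ : ℝ => deriv (circleMap (0 : ℂ) ρ) θ) = fun θ => circleMap 0 ρ θ * Complex.I := by
      funext θ
      rw [deriv_circleMap]
    rw [this]
    exact hcc.mul continuous_const
  have hk2 : Continuous fun θ : ℝ => (1 / (circleMap (0 : ℂ) ρ θ - 0) ^ 2 : ℂ) := by
    simp only [sub_zero]
    exact continuous_const.div (hcc.pow 2) fun θ => pow_ne_zero _ (hcm0 θ)
  have hk1n : ∀ θ : ℝ, ‖deriv (circleMap (0 : ℂ) ρ) θ‖ = ρ := fun θ => by
    rw [deriv_circleMap, norm_mul, hcm, Complex.norm_I, mul_one]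
  have hk2n : ∀ θ : ℝ, ‖(1 / (circleMap (0 : ℂ) ρ θ - 0) ^ 2 : ℂ)‖ = 1 / ρ ^ 2 := fun θ => by
    rw [sub_zero, norm_div, norm_one, norm_pow, hcm]
  have hpt : ∀ z : E, Continuous fun θ : ℝ => z + circleMap (0 : ℂ) ρ θ • v := fun z =>
    continuous_const.add (hcc.smul continuous_const)
  have hfc : ∀ z ∈ ball z₀ (R / 3), Continuous fun θ : ℝ => f (z + circleMap (0 : ℂ) ρ θ • v) :=
    fun z hz => hcont.comp_continuous (hpt z) fun θ => hmem0 z hz _ (hcm θ).le
  have hFc : ∀ z ∈ ball z₀ (R / 3), Continuous fun θ : ℝ => deriv (circleMap (0 : ℂ) ρ) θ •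
      ((1 / (circleMap (0 : ℂ) ρ θ - 0) ^ 2 : ℂ) • f (z + circleMap 0 ρ θ • v)) :=
    fun z hz => hk1.smul (hk2.smul (hfc z hz))
  have hz00 : z₀ ∈ ball z₀ (R / 3) := mem_ball_self (by positivity)
  have key := intervalIntegral.hasFDerivAt_integral_of_dominated_of_fderiv_le (𝕜 := ℂ)
    (μ := volume) (a := 0) (b := 2 * Real.pi)
    (F := fun (z : E) (θ : ℝ) => deriv (circleMap 0 ρ) θ • ((1 / (circleMap 0 ρ θ - 0) ^ 2 : ℂ) •
      f (z + circleMap 0 ρ θ • v)))
    (F' := fun (z : E) (θ : ℝ) => deriv (circleMap 0 ρ) θ • ((1 / (circleMap 0 ρ θ - 0) ^ 2 : ℂ) •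
      fderiv ℂ f (z + circleMap 0 ρ θ • v)))
    (x₀ := z₀) (s := ball z₀ (R / 3)) (bound := fun _ => ρ * (1 / ρ ^ 2 * (C / (R / 3))))
    (ball_mem_nhds z₀ (by positivity)) ?_ ?_ ?_ ?_ ?_ ?_
  · exact key.differentiableAt
  · filter_upwards [ball_mem_nhds z₀ (by positivity : 0 < R / 3)] with z hz
    exact (hFc z hz).aestronglyMeasurable
  · exact (hFc z₀ hz00).intervalIntegrable _ _
  · have hm : Measurable fun θ : ℝ => fderiv ℂ f (z₀ + circleMap 0 ρ θ • v) :=
      (measurable_fderiv ℂ f).comp (hpt z₀).measurable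
    exact (hk1.aestronglyMeasurable.smul (hk2.aestronglyMeasurable.smul
      hm.aestronglyMeasurable))
  · refine Eventually.of_forall fun θ _ z hz => ?_
    rw [norm_smul, norm_smul, hk1n, hk2n]
    gcongr
    apply scv_bd36 (by positivity : 0 < R / 3)
    · intro w hw
      exact hda w (hmem z hz _ (hcm θ).le w hw)
    · intro w hw
      exact hC w (hmem z hz _ (hcm θ).le w hw)
  · exact intervalIntegrable_const
  · refine Eventually.of_forall fun θ _ z hz => ?_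
    have h1 : HasFDerivAt (fun z : E => z + circleMap 0 ρ θ • v) (ContinuousLinearMap.id ℂ E) z :=
      (hasFDerivAt_id z).add_const _
    have h2 := ((hda _ (hmem0 z hz _ (hcm θ).le)).hasFDerivAt).comp z h1
    rw [ContinuousLinearMap.comp_id] at h2
    exact (h2.const_smul _).const_smul _

private theorem scv_cd36 {E F : Type*} [NormedAddCommGroup E] [NormedSpace ℂ E]
    [FiniteDimensional ℂ E]
    [NormedAddCommGroup F] [NormedSpace ℂ F] [FiniteDimensional ℂ F] {Ω : Set E}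
    (hΩ : IsOpen Ω) (m : ℕ) : ∀ {f : E → F}, DifferentiableOn ℂ f Ω → ContDiffOn ℂ m f Ω := by
  induction m with
  | zero =>
    intro f hf
    rw [Nat.cast_zero, contDiffOn_zero]
    exact hf.continuousOn
  | succ m ih =>
    intro f hf
    have h1 : ((m + 1 : ℕ) : WithTop ℕ∞) = (m : WithTop ℕ∞) + 1 := by push_cast; rfl
    rw [h1, contDiffOn_succ_iff_fderiv_of_isOpen hΩ]
    refine ⟨hf, fun h => absurd h (by simp), ?_⟩
    rw [contDiffOn_clm_apply]
    intro v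
    exact ih (scv_fd36 hΩ hf v)

private theorem cdo36 {κ κi : V n → V n} (h : Bih Ω' Ω κ κi) (m : ℕ) :
    ContDiffOn ℂ m κ Ω' := scv_cd36 h.open1 m h.hol

/-! ### exhaustion -/

private theorem shr_sub36 {t : ℝ} (ht : 0 < t) : shr Ω t ⊆ Ω := fun z hz => hz (mem_closedBall_self ht.le)

private theorem shr_mono36 {s t : ℝ} (hst : s ≤ t) : shr Ω t ⊆ shr Ω s := fun _ hz =>
  (closedBall_subset_closedBall hst).trans hz

private theorem exists_shr36 (hΩ : IsOpen Ω) {z : V n} (hz : z ∈ Ω) : ∃ t : ℝ, 0 < t ∧ z ∈ shr Ω t := by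
  obtain ⟨t, ht, h⟩ := Metric.nhds_basis_closedBall.mem_iff.1 (hΩ.mem_nhds hz)
  exact ⟨t, ht, h⟩

private theorem psh_of_exhaust36 {u : V n → EReal}
    (h : ∀ K ⊆ Ω, IsCompact K → ∃ W : Set (V n), IsOpen W ∧ K ⊆ W ∧ PSH W u)
    (hbot : ∀ᵐ z, z ∈ Ω → u z ≠ ⊥) : PSH Ω u where
  usc := by
    intro x hx y hy
    obtain ⟨W, hW, hK, hP⟩ := h {x} (singleton_subset_iff.2 hx) isCompact_singleton
    have hxW : x ∈ W := hK (mem_singleton x)
    have h2 := hP.usc x hxW y hy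
    rw [hW.nhdsWithin_eq hxW] at h2
    exact mem_nhdsWithin_of_mem_nhds h2
  lt_top z hz := by
    obtain ⟨W, hW, hK, hP⟩ := h {z} (singleton_subset_iff.2 hz) isCompact_singleton
    exact hP.lt_top z (hK (mem_singleton z))
  ae_bot := hbot
  mean a b C hC := by
    obtain ⟨W, hW, hK, hP⟩ := h ((fun ζ : ℂ => a + ζ • b) '' closedBall 0 1)
      (by
        rintro _ ⟨ζ, hζ, rfl⟩
        exact (hC ζ (by simpa using hζ)).1)
      ((isCompact_closedBall _ _).image (by fun_prop))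
    exact hP.mean a b C fun ζ hζ => ⟨hK ⟨ζ, by simpa using hζ, rfl⟩, (hC ζ hζ).2⟩

private theorem tendsto_div36 {t : ℝ} (ht : 0 < t) :
    Tendsto (fun k : ℕ => t / ((k : ℝ) + 1)) atTop (𝓝[>] 0) := by
  rw [tendsto_nhdsWithin_iff]
  constructor
  · have h1 := (tendsto_one_div_add_atTop_nhds_zero_nat (𝕜 := ℝ)).const_mul t
    rw [mul_zero] at h1
    refine h1.congr fun k => ?_
    ring
  · exact Eventually.of_forall fun k => by
      show (0 : ℝ) < t / ((k : ℝ) + 1)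
      positivity


theorem exists_psh_of_pshd (hΩ : IsOpen Ω) {u : V n → ℝ} (hu : PSHd Ω u) :
    ∃ u' : V n → EReal, PSH Ω u' ∧ (∀ᵐ z, z ∈ Ω → u' z = (u z : EReal)) ∧
      ∀ z ∈ Ω, Tendsto (fun t => ((Phi u z t : ℝ) : EReal)) (𝓝[>] 0) (𝓝 (u' z)) := by
  obtain ⟨u', hu'⟩ : ∃ u' : V n → EReal, u' = fun z => ⨅ t : {t : ℝ // 0 < t ∧ z ∈ shr Ω t},
    ((Phi u z t : ℝ) : EReal) := ⟨_, rfl⟩
  have hle : ∀ z t, 0 < t → z ∈ shr Ω t → u' z ≤ ((Phi u z t : ℝ) : EReal) := fun z t ht hz => by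
    rw [hu']
    exact iInf_le (fun t : {t : ℝ // 0 < t ∧ z ∈ shr Ω t} => ((Phi u z t : ℝ) : EReal)) ⟨t, ht, hz⟩
  have hlim : ∀ z ∈ Ω, Tendsto (fun t => ((Phi u z t : ℝ) : EReal)) (𝓝[>] 0) (𝓝 (u' z)) := by
    intro z hz
    obtain ⟨t0, ht0, hz0⟩ := exists_shr36 hΩ hz
    rw [tendsto_order]
    constructor
    · intro b hb
      filter_upwards [Ioo_mem_nhdsGT ht0] with t ht
      exact lt_of_lt_of_le hb (hle z t ht.1 (shr_mono36 ht.2.le hz0))
    · intro b hb
      rw [hu'] at hb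
      obtain ⟨⟨t1, ht1, hz1⟩, h1⟩ := iInf_lt_iff.1 hb
      filter_upwards [Ioo_mem_nhdsGT ht1] with t ht
      refine lt_of_le_of_lt ?_ h1
      exact EReal.coe_le_coe_iff.2 (Phi_mono_radius hΩ hu ht.1 ht.2.le hz1)
  have hae : ∀ᵐ z, z ∈ Ω → u' z = (u z : EReal) := by
    filter_upwards [ae_tendsto_Phi hΩ hu.int] with z hz hzΩ
    have h1 := (continuous_coe_real_ereal.tendsto (u z)).comp (hz hzΩ)
    exact tendsto_nhds_unique (hlim z hzΩ) h1
  have hbot : ∀ᵐ z, z ∈ Ω → u' z ≠ ⊥ := hae.mono fun z hz hzΩ => by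
    rw [hz hzΩ]
    exact EReal.coe_ne_bot _
  have hP : ∀ t : ℝ, 0 < t → PSH (shr Ω t) u' := by
    intro t ht
    have hs : ∀ k : ℕ, 0 < t / ((k : ℝ) + 1) := fun k => by positivity
    have hsub : ∀ k : ℕ, shr Ω t ⊆ shr Ω (t / ((k : ℝ) + 1)) := fun k =>
      shr_mono36 (div_le_self ht.le (by linarith [Nat.cast_nonneg (α := ℝ) k]))
    refine PSH.of_antitone (isOpen_shr hΩ t) (w := fun k z => ((Phi u z (t / ((k : ℝ) + 1)) : ℝ) : EReal))
      ?_ ?_ ?_ ?_
    · intro k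
      exact (SPsh.psh' (isOpen_shr hΩ _) (PSHd.mollify hΩ hu (hs k))).mono (hsub k)
    · intro k z hz
      refine EReal.coe_le_coe_iff.2 (Phi_mono_radius hΩ hu (hs (k + 1)) ?_ (hsub k hz))
      push_cast
      apply div_le_div_of_nonneg_left ht.le (by positivity) (by linarith)
    · intro z hz
      exact (hlim z (shr_sub36 ht hz)).comp (tendsto_div36 ht)
    · exact hbot.mono fun z hz hz' => hz (shr_sub36 ht hz')
  refine ⟨u', psh_of_exhaust36 (fun K hK hKc => ?_) hbot, hae, hlim⟩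
  obtain ⟨t, ht, hKt⟩ := exists_subset_shr hΩ hKc hK
  exact ⟨shr Ω t, isOpen_shr hΩ t, hKt, hP t ht⟩

theorem PSH.of_local (hΩ : IsOpen Ω) {u : V n → EReal}
    (h : ∀ z ∈ Ω, ∃ U : Set (V n), IsOpen U ∧ z ∈ U ∧ PSH U u) : PSH Ω u := by
  have hd : PSHd Ω (fun z => (u z).toReal) := by
    refine GS.of_local hΩ fun z hz => ?_
    obtain ⟨U, hU, hzU, hP⟩ := h z hz
    exact ⟨U ∩ Ω, hU.inter hΩ, ⟨hzU, hz⟩, inter_subset_right,
      PSH.pshd (hU.inter hΩ) (hP.mono inter_subset_left)⟩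
  obtain ⟨u', hP', hae, -⟩ := exists_psh_of_pshd hΩ hd
  refine hP'.congr fun z hz => ?_
  obtain ⟨U, hU, hzU, hP⟩ := h z hz
  have hPi : PSH (U ∩ Ω) u := hP.mono inter_subset_left
  refine PSH.eq_of_ae_eq (hU.inter hΩ) (hP'.mono inter_subset_right) hPi ?_ z ⟨hzU, hz⟩
  filter_upwards [hae, hPi.ae_bot] with y hy hy2 hyU
  rw [hy hyU.2]
  exact EReal.coe_toReal (hPi.lt_top y hyU).ne (hy2 hyU)

theorem SPsh.comp {κ κi : V n → V n} (h : Bih Ω' Ω κ κi) {v : V n → ℝ} (hv : SPsh Ω v) :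
    SPsh Ω' (fun z => v (κ z)) := by
  refine ⟨?_, fun z hz w => ?_⟩
  · have h1 : ContDiffOn ℝ (⊤ : ℕ∞) κ Ω' := by
      refine contDiffOn_infty.2 fun m => ?_
      exact (cdo36 h m).restrict_scalars ℝ
    exact hv.smooth.comp h1 h.maps
  · have h1 : ContDiffAt ℂ 2 κ z := (cdo36 h 2).contDiffAt (h.open1.mem_nhds hz)
    have h2 : ContDiffAt ℝ 2 v (κ z) :=
      (hv.smooth.contDiffAt (h.open2.mem_nhds (h.maps hz))).of_le
        (WithTop.coe_le_coe.2 (le_top (a := (2 : ℕ∞))))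
    rw [lev_comp_holo h1 h2]
    exact hv.psh _ (h.maps hz) _

theorem Dec.comp {κ κi : V n → V n} (h : Bih Ω' Ω κ κi) {v : ℕ → V n → ℝ} {u : V n → EReal}
    (hv : Dec Ω v u) : Dec Ω' (fun k z => v k (κ z)) (fun z => u (κ z)) :=
  ⟨fun k => SPsh.comp h (hv.psh k), fun k z hz => hv.anti k (κ z) (h.maps hz),
    fun z hz => hv.lim (κ z) (h.maps hz)⟩

private theorem bih36 {κ κi : V n → V n} (h : Bih Ω' Ω κ κi) {z : V n} {r : ℝ}
    (hWΩ : ball (κ z) r ⊆ Ω) (hUo : IsOpen (Ω' ∩ κ ⁻¹' ball (κ z) r)) :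
    Bih (Ω' ∩ κ ⁻¹' ball (κ z) r) (ball (κ z) r) κ κi where
  open1 := hUo
  open2 := isOpen_ball
  hol := h.hol.mono inter_subset_left
  hol' := h.hol'.mono hWΩ
  maps := fun y hy => hy.2
  maps' := fun y hy => by
    refine ⟨h.maps' (hWΩ hy), ?_⟩
    show κ (κi y) ∈ ball (κ z) r
    rw [h.right y (hWΩ hy)]
    exact hy
  left := fun y hy => h.left y hy.1
  right := fun y hy => h.right y (hWΩ hy)

private theorem comp36 {κ κi : V n → V n} {W U : Set (V n)} {u : V n → EReal} (hUo : IsOpen U)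
    (hb : Bih U W κ κi) (hae : ∀ᵐ y, y ∈ W → u y ≠ ⊥) {v : ℕ → V n → ℝ} (hv : Dec W v u) :
    PSH U (fun z => u (κ z)) := by
  have hD := Dec.comp hb hv
  refine PSH.of_antitone hUo (w := fun k y => ((v k (κ y) : ℝ) : EReal)) (fun k => SPsh.psh' hUo (hD.psh k))
    (fun k y hy => EReal.coe_le_coe_iff.2 (hD.anti k y hy)) (fun y hy => hD.lim y hy) ?_
  exact Bih.ae hb (p := fun y => u y ≠ ⊥) hae

theorem PSH.comp {κ κi : V n → V n} (h : Bih Ω' Ω κ κi) {u : V n → EReal} (hu : PSH Ω u) :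
    PSH Ω' (fun z => u (κ z)) := by
  refine PSH.of_local h.open1 fun z hz => ?_
  obtain ⟨r, hr, hball⟩ := Metric.nhds_basis_closedBall.mem_iff.1 (h.open2.mem_nhds (h.maps hz))
  have hWcl : closure (ball (κ z) r) ⊆ closedBall (κ z) r := closure_ball_subset_closedBall
  have hWΩ : ball (κ z) r ⊆ Ω := ball_subset_closedBall.trans hball
  obtain ⟨v, hv⟩ := PSH.exists_Dec h.open2 hu (W := ball (κ z) r)
    ((isCompact_closedBall (κ z) r).of_isClosed_subset isClosed_closure hWcl) (hWcl.trans hball)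
  have hUo : IsOpen (Ω' ∩ κ ⁻¹' ball (κ z) r) :=
    h.hol.continuousOn.isOpen_inter_preimage h.open1 isOpen_ball
  have hzU : z ∈ Ω' ∩ κ ⁻¹' ball (κ z) r := by
    refine ⟨hz, ?_⟩
    rw [mem_preimage]
    exact mem_ball_self hr
  have hae : ∀ᵐ y, y ∈ ball (κ z) r → u y ≠ ⊥ := hu.ae_bot.mono fun y hy hy' => hy (hWΩ hy')
  exact ⟨_, hUo, hzU, comp36 hUo (bih36 h hWΩ hUo) hae hv⟩

/-- a continuous function that is psh in the sense of distributions is psh -/
theorem psh_of_continuousOn (hΩ : IsOpen Ω) {u : V n → ℝ} (hu : PSHd Ω u)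
    (hc : ContinuousOn u Ω) : PSH Ω (fun z => (u z : EReal)) := by
  obtain ⟨u', hP', -, hlim⟩ := exists_psh_of_pshd hΩ hu
  refine hP'.congr fun z hz => ?_
  refine tendsto_nhds_unique (hlim z hz) ?_
  refine (continuous_coe_real_ereal.tendsto (u z)).comp ?_
  rw [Metric.tendsto_nhds]
  intro ε hε
  have hcz : ContinuousAt u z := hc.continuousAt (hΩ.mem_nhds hz)
  have h1 : ∀ᶠ y in 𝓝 z, y ∈ Ω ∧ dist (u y) (u z) < ε / 2 := by
    filter_upwards [hΩ.mem_nhds hz, Metric.tendsto_nhds.1 hcz (ε / 2) (half_pos hε)] with y h1 h2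
    exact ⟨h1, h2⟩
  obtain ⟨δ, hδ, hball⟩ := Metric.eventually_nhds_iff_ball.1 h1
  filter_upwards [Ioo_mem_nhdsGT hδ] with t ht
  have hzs : z ∈ shr (ball z δ) t := fun y hy =>
    mem_ball.2 (lt_of_le_of_lt (mem_closedBall.1 hy) ht.2)
  have hui : LocallyIntegrableOn u (ball z δ) volume := hu.int.mono_set fun y hy => (hball y hy).1
  have hci : ∀ c : ℝ, LocallyIntegrableOn (fun _ : V n => c) (ball z δ) volume := fun c =>
    (locallyIntegrable_const c).locallyIntegrableOn _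
  have hup := Phi_mono isOpen_ball hui (hci (u z + ε / 2)) (Eventually.of_forall fun y hy => by
    have h2 := (abs_lt.1 (hball y hy).2).2
    linarith) ht.1 hzs
  have hlo := Phi_mono isOpen_ball (hci (u z - ε / 2)) hui (Eventually.of_forall fun y hy => by
    have h2 := (abs_lt.1 (hball y hy).2).1
    linarith) ht.1 hzs
  rw [Phi_const] at hup hlo
  rw [Real.dist_eq, abs_lt]
  constructor <;> linarith

end Pool.Agent.Helper13.AM
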