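import Pool.Agent.Helper13.AM.B2
import Pool.Agent.Helper13.AM.P6

/-!
AM-B3. (11.7) Locality of the Monge-Ampère measure.

Proof. Both measures vanish outside `Ω` and `Ω` is a countable union of open sets `W` relatively compact
in `Ω`; it is enough to treat `E ⊆ W`. Let `w` be `Dec W w u` (`PSH.exists_Dec`), `s k = 1/(k+1)`,
`vi k z = RM (s k) (w k z) (pi z)`: smooth psh (`SPsh.RM`), decreasing in `k` (`RM_mono`) with limit
`ui = max u pi` (`max_le_RM`, `RM_le`): `Dec W vi ui`. `ui` is PSH (`PSH.max`, `SPsh.psh'`) and `LB`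
(`PSH.LB_of_le`). By `IsMA.weights` with `f = u2`, `g = v2`, and by `IsMA.lim` with the continuous function
`χ p2`: `∫ χ (v2 k - p2) DD(vi k) → ∫ χ (u2.toReal - p2) dmi` for `χ ∈ CC W`, `i = 1, 2`. On the open set
`{w k > p2 + s k}` both `v1 k`, `v2 k` are equal to `w k` (`RM_eq_left`, `p1 ≤ p2`), so `DD` agree; elsewhere
`0 ≤ v2 k - p2 ≤ s k` (`RM_le`). So `|∫ χ (v2 k - p2)(DD(v1 k) - DD(v2 k))| ≤ s k ∫ |χ| (DD(v1 k) + DD(v2 k)) → 0`
(bounded: `IsMA.lim` for `|χ|`). Hence `∫ χ (u - p2)⁺ dm1 = ∫ χ (u - p2)⁺ dm2` for all `χ ∈ CC W`, so the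
measures `mi.withDensity (u - p2)⁺` agree on Borel subsets of `W` (`measure_eq_of_CC`; `(u-p2)⁺` is bounded on
compacts), and on `{u > p2}` the density is `> 0`: `m1 E = m2 E`.
-/

set_option autoImplicit false

namespace Pool.Agent.Helper13.AM

open MeasureTheory Set Filter Topology Metric
open Pool.Agent.Helper29.AM
open scoped ComplexOrder

variable {n : ℕ} {Ω : Set (V n)} {u : V n → EReal} {m1 m2 : Measure (V n)}

/-- the regularised maxima decrease to the maximum -/
theorem Dec.RM {W : Set (V n)} (hW : IsOpen W) {w : ℕ → V n → ℝ} (hw : Dec W w u) {p : V n → ℝ}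
    (hp : SPsh W p) :
    Dec W (fun k z => RM (1 / ((k : ℝ) + 1)) (w k z) (p z)) (fun z => max (u z) (p z : EReal)) := by
  have hs : ∀ k : ℕ, 0 < 1 / ((k : ℝ) + 1) := fun k => by positivity
  refine ⟨fun k => SPsh.RM hW (hw.psh k) hp (hs k), fun k z hz => ?_, fun z hz => ?_⟩
  · refine RM_mono (hs (k + 1)) ?_ (hw.anti k z hz) le_rfl
    push_cast
    exact one_div_le_one_div_of_le (by positivity) (by linarith)
  · have h1 : Tendsto (fun k => max (w k z : EReal) (p z : EReal)) atTop (𝓝 (max (u z) (p z : EReal))) :=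
      (hw.lim z hz).max tendsto_const_nhds
    have h2 : Tendsto (fun k : ℕ => ((1 / ((k : ℝ) + 1) : ℝ) : EReal)) atTop (𝓝 ((0 : ℝ) : EReal)) :=
      (continuous_coe_real_ereal.tendsto 0).comp tendsto_one_div_add_atTop_nhds_zero_nat
    have h3 : Tendsto (fun k : ℕ => max (w k z : EReal) (p z : EReal) + ((1 / ((k : ℝ) + 1) : ℝ) : EReal)) atTop
        (𝓝 (max (u z) (p z : EReal) + ((0 : ℝ) : EReal))) := by
      have h4 := EReal.continuousAt_add (p := (max (u z) (p z : EReal), ((0 : ℝ) : EReal)))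
        (Or.inr (EReal.coe_ne_bot 0)) (Or.inr (EReal.coe_ne_top 0))
      have h5 := h4.tendsto.comp (h1.prodMk_nhds h2)
      exact h5
    rw [EReal.coe_zero, add_zero] at h3
    refine tendsto_of_tendsto_of_tendsto_of_le_of_le h1 h3 (fun k => ?_) (fun k => ?_)
    · have h4 := max_le_RM (hs k) (w k z) (p z)
      rw [← EReal.coe_le_coe_iff] at h4
      refine le_trans (le_of_eq ?_) h4
      exact (EReal.coe_strictMono.monotone.map_max).symm
    · have h4 := RM_le (hs k) (w k z) (p z)
      rw [← EReal.coe_le_coe_iff, EReal.coe_add] at h4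
      refine h4.trans (le_of_eq ?_)
      congr 1

private theorem cc_mul52 {W : Set (V n)} (hW : IsOpen W) {χ : V n → ℝ} (hχ : CC W χ) {p : V n → ℝ}
    (hp : ContinuousOn p W) : CC W (fun z => χ z * p z) := by
  refine ⟨?_, hχ.cpt.mul_right, (tsupport_mul_subset_left (f := χ) (g := p)).trans hχ.sub⟩
  rw [continuous_iff_continuousAt]
  intro z
  by_cases hz : z ∈ tsupport χ
  · exact hχ.cont.continuousAt.mul (hp.continuousAt (hW.mem_nhds (hχ.sub hz)))
  · have h1 : (fun z => χ z * p z) =ᶠ[𝓝 z] fun _ => 0 := by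
      filter_upwards [(isClosed_tsupport χ).isOpen_compl.mem_nhds hz] with y hy
      rw [image_eq_zero_of_notMem_tsupport hy, zero_mul]
    exact continuousAt_const.congr h1.symm

private theorem cc_abs52 {W : Set (V n)} {χ : V n → ℝ} (hχ : CC W χ) : CC W (fun z => |χ z|) := by
  have h1 : tsupport (fun z => |χ z|) ⊆ tsupport χ := closure_mono fun z hz h0 => hz (by simp [h0])
  exact ⟨hχ.cont.abs, hχ.cpt.of_isClosed_subset (isClosed_tsupport _) h1, h1.trans hχ.sub⟩

private theorem int52 {m : Measure (V n)} {χ G : V n → ℝ} (hχ : CC Ω χ) (hm : ∀ K ⊆ Ω, IsCompact K → m K < ⊤)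
    (hG : Measurable G) {C : ℝ} (hC : ∀ z ∈ tsupport χ, |G z| ≤ C) : Integrable (fun z => χ z * G z) m := by
  obtain ⟨B, hB⟩ := hχ.cpt.exists_bound_of_continuousOn (s := tsupport χ) hχ.cont.continuousOn
  have h1 : IntegrableOn (fun z => χ z * G z) (tsupport χ) m := by
    refine Measure.integrableOn_of_bounded (M := B * C) (hm _ hχ.sub hχ.cpt).ne
      (hχ.cont.measurable.mul hG).aestronglyMeasurable ?_
    rw [ae_restrict_iff' (isClosed_tsupport χ).measurableSet]
    refine Eventually.of_forall fun z hz => ?_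
    have h2 := hB z hz
    have h3 := hC z hz
    rw [norm_mul, Real.norm_eq_abs, Real.norm_eq_abs]
    rw [Real.norm_eq_abs] at h2
    exact mul_le_mul h2 h3 (abs_nonneg _) ((abs_nonneg _).trans h2)
  refine (integrableOn_iff_integrable_of_support_subset fun z hz => ?_).1 h1
  by_contra hcon
  refine hz ?_
  change χ z * G z = 0
  rw [image_eq_zero_of_notMem_tsupport hcon, zero_mul]

theorem locality (hΩ : IsOpen Ω) (hu : PSH Ω u) {p1 p2 : V n → ℝ} (h1 : SPsh Ω p1)
    (h2 : SPsh Ω p2) (h12 : ∀ z ∈ Ω, p1 z ≤ p2 z)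
    (hm1 : IsMA Ω (fun z => max (u z) (p1 z : EReal)) m1)
    (hm2 : IsMA Ω (fun z => max (u z) (p2 z : EReal)) m2) :
    ∀ E ⊆ {z | z ∈ Ω ∧ (p2 z : EReal) < u z}, MeasurableSet E → m1 E = m2 E := by
  classical
  have hP1 : PSH Ω (fun z => max (u z) (p1 z : EReal)) := hu.max hΩ (SPsh.psh' hΩ h1)
  have hP2 : PSH Ω (fun z => max (u z) (p2 z : EReal)) := hu.max hΩ (SPsh.psh' hΩ h2)
  have hc1 : ContinuousOn p1 Ω := h1.smooth.continuousOn
  have hc2 : ContinuousOn p2 Ω := h2.smooth.continuousOn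
  have hL1 : LB Ω (fun z => max (u z) (p1 z : EReal)) := hP1.LB_of_le hc1 fun z _ => le_max_right _ _
  have hL2 : LB Ω (fun z => max (u z) (p2 z : EReal)) := hP2.LB_of_le hc2 fun z _ => le_max_right _ _
  set u2 : V n → EReal := fun z => max (u z) (p2 z : EReal) with hu2
  -- the key identity
  have key : ∀ χ : V n → ℝ, CC Ω χ →
      (∫ z, χ z * (u2 z).toReal ∂m1) - (∫ z, χ z * p2 z ∂m1) =
        (∫ z, χ z * (u2 z).toReal ∂m2) - (∫ z, χ z * p2 z ∂m2) := by
    intro χ hχ
    obtain ⟨L, hL, hKL, hLΩ⟩ := exists_compact_between hχ.cpt hΩ hχ.sub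
    set W : Set (V n) := interior L with hWdef
    have hW : IsOpen W := isOpen_interior
    have hWΩ : W ⊆ Ω := interior_subset.trans hLΩ
    have hcl : closure W ⊆ L := hL.isClosed.closure_subset_iff.2 interior_subset
    have hχW : CC W χ := ⟨hχ.cont, hχ.cpt, hKL⟩
    obtain ⟨w, hw⟩ := hu.exists_Dec hΩ (hL.of_isClosed_subset isClosed_closure hcl) (hcl.trans hLΩ)
    have hd1 := Dec.RM hW hw (SPsh.mono h1 hWΩ)
    have hd2 := Dec.RM hW hw (SPsh.mono h2 hWΩ)
    set v1 : ℕ → V n → ℝ := fun k z => RM (1 / ((k : ℝ) + 1)) (w k z) (p1 z) with hv1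
    set v2 : ℕ → V n → ℝ := fun k z => RM (1 / ((k : ℝ) + 1)) (w k z) (p2 z) with hv2
    have hχp : CC W (fun z => χ z * p2 z) := cc_mul52 hW hχW (hc2.mono hWΩ)
    have hχv : ∀ k, CC W (fun z => χ z * v2 k z) := fun k => cc_mul52 hW hχW (hd2.psh k).smooth.continuousOn
    have hχa := cc_abs52 hχW
    have t1 := (IsMA.weights hΩ hP1 hL1 hm1 hL2 hW hWΩ hd1 hd2 hχW).sub (hm1.lim W hW hWΩ v1 hd1 _ hχp)
    have t2 := (IsMA.weights hΩ hP2 hL2 hm2 hL2 hW hWΩ hd2 hd2 hχW).sub (hm2.lim W hW hWΩ v2 hd2 _ hχp)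
    have b1 := hm1.lim W hW hWΩ v1 hd1 _ hχa
    have b2 := hm2.lim W hW hWΩ v2 hd2 _ hχa
    have hdiff := t1.sub t2
    have hzero : Tendsto (fun k : ℕ => 2 * (1 / ((k : ℝ) + 1)) *
        ((∫ z, |χ z| * DD (v1 k) z) + ∫ z, |χ z| * DD (v2 k) z)) atTop (𝓝 0) := by
      have h5 := ((tendsto_one_div_add_atTop_nhds_zero_nat (𝕜 := ℝ)).const_mul 2).mul (b1.add b2)
      rwa [mul_zero, zero_mul] at h5
    have hlim0 : Tendsto (fun k : ℕ => ((∫ z, χ z * v2 k z * DD (v1 k) z) - ∫ z, χ z * p2 z * DD (v1 k) z) -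
        ((∫ z, χ z * v2 k z * DD (v2 k) z) - ∫ z, χ z * p2 z * DD (v2 k) z)) atTop (𝓝 0) := by
      refine squeeze_zero_norm (fun k => ?_) hzero
      have i1 := integrable_mul_DD hW (hd1.psh k).smooth (hχv k)
      have i2 := integrable_mul_DD hW (hd1.psh k).smooth hχp
      have i3 := integrable_mul_DD hW (hd2.psh k).smooth (hχv k)
      have i4 := integrable_mul_DD hW (hd2.psh k).smooth hχp
      have i5 := integrable_mul_DD hW (hd1.psh k).smooth hχa
      have i6 := integrable_mul_DD hW (hd2.psh k).smooth hχa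
      have i12 : Integrable (fun z => χ z * v2 k z * DD (v1 k) z - χ z * p2 z * DD (v1 k) z) := i1.sub i2
      have i34 : Integrable (fun z => χ z * v2 k z * DD (v2 k) z - χ z * p2 z * DD (v2 k) z) := i3.sub i4
      have i56 : Integrable (fun z => 2 * (1 / ((k : ℝ) + 1)) * (|χ z| * DD (v1 k) z + |χ z| * DD (v2 k) z)) :=
        (i5.add i6).const_mul _
      rw [← integral_sub i1 i2, ← integral_sub i3 i4, ← integral_sub i12 i34,
        ← integral_add i5 i6, ← integral_const_mul]
      refine norm_integral_le_of_norm_le i56 (Eventually.of_forall fun z => ?_)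
      have hs : (0 : ℝ) < 1 / ((k : ℝ) + 1) := by positivity
      have e : χ z * v2 k z * DD (v1 k) z - χ z * p2 z * DD (v1 k) z -
          (χ z * v2 k z * DD (v2 k) z - χ z * p2 z * DD (v2 k) z) =
          χ z * ((v2 k z - p2 z) * (DD (v1 k) z - DD (v2 k) z)) := by ring
      rw [e, norm_mul, Real.norm_eq_abs, Real.norm_eq_abs]
      by_cases hz : z ∈ W
      · have d1 := (SPsh.posSemidef hW (hd1.psh k) hz).2.1
        have d2 := (SPsh.posSemidef hW (hd2.psh k) hz).2.1
        have hbound : |(v2 k z - p2 z) * (DD (v1 k) z - DD (v2 k) z)| ≤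
            2 * (1 / ((k : ℝ) + 1)) * (DD (v1 k) z + DD (v2 k) z) := by
          by_cases hlt : p2 z + 1 / ((k : ℝ) + 1) < w k z
          · -- both functions are `w k` near `z`
            set G : Set (V n) := W ∩ {y | p2 y + 1 / ((k : ℝ) + 1) < w k y} with hG
            have hGo : IsOpen G := by
              have hcw : ContinuousOn (w k) W := (hw.psh k).smooth.continuousOn
              have hcd : ContinuousOn (fun y => w k y - (p2 y + 1 / ((k : ℝ) + 1))) W :=
                hcw.sub ((hc2.mono hWΩ).add continuousOn_const)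
              have h6 := hcd.isOpen_inter_preimage hW (isOpen_Ioi (a := (0 : ℝ)))
              have h7 : G = W ∩ (fun y => w k y - (p2 y + 1 / ((k : ℝ) + 1))) ⁻¹' Ioi 0 := by
                rw [hG]
                ext y
                simp only [mem_inter_iff, mem_preimage, mem_Ioi, sub_pos]
                exact Iff.rfl
              rw [h7]
              exact h6
            have e1 : ∀ y ∈ G, v1 k y = v2 k y := by
              intro y hy
              have h6 : p2 y + 1 / ((k : ℝ) + 1) < w k y := hy.2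
              have h7 := h12 y (hWΩ hy.1)
              simp only [hv1, hv2]
              rw [RM_eq_left hs (by linarith), RM_eq_left hs (by linarith)]
            have e2 := DD_congr hGo e1 z ⟨hz, hlt⟩
            rw [e2, sub_self, mul_zero, abs_zero]
            positivity
          · rw [not_lt] at hlt
            have h6 : v2 k z ≤ max (w k z) (p2 z) + 1 / ((k : ℝ) + 1) := RM_le hs _ _
            have h7 : max (w k z) (p2 z) ≤ p2 z + 1 / ((k : ℝ) + 1) := max_le hlt (by linarith)
            have h8 : p2 z ≤ v2 k z := (le_max_right _ _).trans (max_le_RM hs (w k z) (p2 z))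
            rw [abs_mul]
            refine mul_le_mul ?_ ?_ (abs_nonneg _) (by positivity)
            · rw [abs_of_nonneg (by linarith)]
              linarith
            · exact abs_le.2 ⟨by linarith, by linarith⟩
        calc |χ z| * |(v2 k z - p2 z) * (DD (v1 k) z - DD (v2 k) z)|
            ≤ |χ z| * (2 * (1 / ((k : ℝ) + 1)) * (DD (v1 k) z + DD (v2 k) z)) :=
              mul_le_mul_of_nonneg_left hbound (abs_nonneg _)
          _ = 2 * (1 / ((k : ℝ) + 1)) * (|χ z| * DD (v1 k) z + |χ z| * DD (v2 k) z) := by ring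
      · have h0 : χ z = 0 := image_eq_zero_of_notMem_tsupport fun h => hz (hχW.sub h)
        rw [h0, abs_zero, zero_mul, zero_mul, zero_mul, add_zero, mul_zero]
    have h9 := tendsto_nhds_unique hdiff hlim0
    exact sub_eq_zero.1 h9
  -- the density
  set F : V n → ℝ := fun z => (Ω.indicator u2 z).toReal - Ω.indicator p2 z with hF
  have hmi : Measurable (Ω.indicator u2) := hP2.measurable hΩ
  have hpm : Measurable (Ω.indicator p2) := by
    rw [← Set.piecewise_eq_indicator]
    exact ContinuousOn.measurable_piecewise hc2 continuousOn_const hΩ.measurableSet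
  have hFm : Measurable F := hmi.ereal_toReal.sub hpm
  have hFΩ : ∀ z ∈ Ω, F z = (u2 z).toReal - p2 z := fun z hz => by
    simp only [hF, indicator_of_mem hz]
  have hFc : ∀ z, z ∉ Ω → F z = 0 := fun z hz => by
    simp only [hF, indicator_of_notMem hz, EReal.toReal_zero, sub_zero]
  have hu2r : ∀ z ∈ Ω, ((u2 z).toReal : EReal) = u2 z := fun z hz =>
    EReal.coe_toReal (hP2.lt_top z hz).ne (ne_bot_of_le_ne_bot (EReal.coe_ne_bot (p2 z)) (le_max_right _ _))
  have hF0 : ∀ z, 0 ≤ F z := by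
    intro z
    by_cases hz : z ∈ Ω
    · have h5 : (p2 z : EReal) ≤ ((u2 z).toReal : EReal) := by
        rw [hu2r z hz]
        exact le_max_right _ _
      rw [EReal.coe_le_coe_iff] at h5
      rw [hFΩ z hz]
      linarith
    · exact (hFc z hz).ge
  have hDm : Measurable fun z => ENNReal.ofReal (F z) := hFm.ennreal_ofReal
  have hbd : ∀ K ⊆ Ω, IsCompact K → ∃ C : ℝ, ∀ z ∈ K, |(Ω.indicator u2 z).toReal| ≤ C ∧ |Ω.indicator p2 z| ≤ C := by
    intro K hK hKc
    obtain ⟨C1, hC1⟩ := hL2 K hK hKc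
    obtain ⟨C2, hC2⟩ := hKc.exists_bound_of_continuousOn (hc2.mono hK)
    refine ⟨max C1 C2, fun z hz => ?_⟩
    rw [indicator_of_mem (hK hz), indicator_of_mem (hK hz)]
    have h5 := hC1 z hz
    rw [← hu2r z (hK hz), EReal.coe_le_coe_iff, EReal.coe_le_coe_iff] at h5
    exact ⟨(abs_le.2 h5).trans (le_max_left _ _), (hC2 z hz).trans (le_max_right _ _)⟩
  have hν : ∀ m : Measure (V n), (∀ K ⊆ Ω, IsCompact K → m K < ⊤) →
      (∀ K ⊆ Ω, IsCompact K → (m.withDensity fun z => ENNReal.ofReal (F z)) K < ⊤) ∧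
      ∀ χ : V n → ℝ, CC Ω χ → ∫ z, χ z ∂(m.withDensity fun z => ENNReal.ofReal (F z)) =
        (∫ z, χ z * (u2 z).toReal ∂m) - ∫ z, χ z * p2 z ∂m := by
    intro m hm
    refine ⟨fun K hK hKc => ?_, fun χ hχ => ?_⟩
    · obtain ⟨C, hC⟩ := hbd K hK hKc
      rw [withDensity_apply _ hKc.measurableSet]
      calc ∫⁻ z in K, ENNReal.ofReal (F z) ∂m ≤ ∫⁻ z in K, ENNReal.ofReal (2 * C) ∂m := by
            refine setLIntegral_mono measurable_const fun z hz => ENNReal.ofReal_le_ofReal ?_
            have h5 := hC z hz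
            have h6 := (abs_le.1 h5.1).2
            have h7 := (abs_le.1 h5.2).1
            simp only [hF]
            linarith
        _ = ENNReal.ofReal (2 * C) * m K := by rw [setLIntegral_const]
        _ < ⊤ := ENNReal.mul_lt_top ENNReal.ofReal_lt_top (hm K hK hKc)
    · obtain ⟨C, hC⟩ := hbd _ hχ.sub hχ.cpt
      have j1 : Integrable (fun z => χ z * (Ω.indicator u2 z).toReal) m := int52 hχ hm hmi.ereal_toReal fun z hz => (hC z hz).1
      have j2 : Integrable (fun z => χ z * Ω.indicator p2 z) m := int52 hχ hm hpm fun z hz => (hC z hz).2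
      rw [integral_withDensity_eq_integral_toReal_smul hDm (Eventually.of_forall fun z => ENNReal.ofReal_lt_top)]
      have e1 : ∀ z, (ENNReal.ofReal (F z)).toReal • χ z = χ z * (Ω.indicator u2 z).toReal - χ z * Ω.indicator p2 z := by
        intro z
        rw [ENNReal.toReal_ofReal (hF0 z), smul_eq_mul]
        simp only [hF]
        ring
      have e2 : ∀ z, χ z * (Ω.indicator u2 z).toReal = χ z * (u2 z).toReal := by
        intro z
        by_cases hz : z ∈ Ω
        · rw [indicator_of_mem hz]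
        · rw [image_eq_zero_of_notMem_tsupport fun h => hz (hχ.sub h), zero_mul, zero_mul]
      have e3 : ∀ z, χ z * Ω.indicator p2 z = χ z * p2 z := by
        intro z
        by_cases hz : z ∈ Ω
        · rw [indicator_of_mem hz]
        · rw [image_eq_zero_of_notMem_tsupport fun h => hz (hχ.sub h), zero_mul, zero_mul]
      simp only [e1]
      rw [integral_sub j1 j2]
      simp only [e2, e3]
  obtain ⟨n1, n2⟩ := hν m1 hm1.fin
  obtain ⟨n3, n4⟩ := hν m2 hm2.fin
  have heq := measure_eq_of_CC hΩ n1 n3 fun χ hχ => by rw [n2 χ hχ, n4 χ hχ, key χ hχ]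
  intro E hE hEm
  have hEΩ : E ⊆ Ω := fun z hz => (hE hz).1
  have hpos : ∀ z ∈ E, ENNReal.ofReal (F z) ≠ 0 := by
    intro z hz
    have h5 : (p2 z : EReal) < ((u2 z).toReal : EReal) := by
      rw [hu2r z (hEΩ hz)]
      exact lt_max_of_lt_left (hE hz).2
    rw [EReal.coe_lt_coe_iff] at h5
    have h6 : 0 < F z := by
      rw [hFΩ z (hEΩ hz)]
      linarith
    exact (ENNReal.ofReal_pos.2 h6).ne'
  have hDi : Measurable fun z => (ENNReal.ofReal (F z))⁻¹ := hDm.inv
  have hrepr : ∀ m : Measure (V n), m E =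
      ∫⁻ z in E, (ENNReal.ofReal (F z))⁻¹ ∂(m.withDensity fun z => ENNReal.ofReal (F z)) := by
    intro m
    rw [setLIntegral_withDensity_eq_setLIntegral_mul m hDm hDi hEm, ← setLIntegral_one]
    refine setLIntegral_congr_fun hEm fun z hz => ?_
    simp only [Pi.mul_apply]
    exact (ENNReal.mul_inv_cancel (hpos z hz) ENNReal.ofReal_ne_top).symm
  have hres : (m1.withDensity fun z => ENNReal.ofReal (F z)).restrict E =
      (m2.withDensity fun z => ENNReal.ofReal (F z)).restrict E := by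
    ext S hS
    rw [Measure.restrict_apply hS, Measure.restrict_apply hS]
    exact heq _ (inter_subset_right.trans hEΩ) (hS.inter hEm)
  rw [hrepr m1, hrepr m2, hres]

end Pool.Agent.Helper13.AM
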