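import Pool.Agent.Helper13.AM.B3

/-!
AM-B4. (11.8) The non-pluripolar product on an open set of `ℂ^n`.

`exists_NP`: `uj = max u (-j)` is PSH and LB (`PSH.max`, `PSH.const`, `PSH.LB_of_le`), `m j` from
`exists_MA`. By `locality` (p1 = -j', p2 = -j, j ≤ j'): `m j' = m j` on Borel subsets of `{u > -j}`. So
`j ↦ m j (E ∩ {u > -j})` is nondecreasing and `ν E = sup_j m j (E ∩ Ω ∩ {u > -j})` is a measure
(`Measure` supremum of the increasing sequence `(m j).restrict {u > -j}`; e.g.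
`ν = ∑_j (m (j+1)).restrict ({u > -(j+1)} \ {u > -j}) + (m 0).restrict {u > 0}`), and `ν = m j` on `{u > -j}`.
`gt`: for a smooth psh `p` and `E ⊆ {u > p}`: on a compact subset `K` of `Ω`, `p ≥ -j`; localise: `Ω` is a
countable union of relatively compact open `W`; on `W` use `locality` with `p1 = -j`, `p2 = p` and
`IsMA.mono` (uniqueness of the measures `m j`: `IsMA.unique`); so `ν (E ∩ K ∩ {u > p}) = m (E ∩ K ∩ {u > p})`
(for `E ⊆ {u > p} ⊆ {u > -j}` on `W`).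
`bot`: `ν {u = ⊥} = lim m j (∅) = 0`. `unique`: the `m j` are unique, so `ν E` is determined for `E ⊆ Ω`.
`of_LB`: on a relatively compact `W`, `u > -j` for large `j`, so `max u (-j) = u` there.
`mono`: `IsMA.mono`. `isNP_of_gt`: the `m j` of `exists_NP` satisfy `ν = m j` on `{u > -j}`, so
`m j (E ∩ {u > -j}) = ν (E ∩ {u > -j}) → ν (E ∩ {u > ⊥}) = ν E`.
-/

set_option autoImplicit false

namespace Pool.Agent.Helper13.AM

open MeasureTheory Set Filter Topology Metric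
open Pool.Agent.Helper29.AM
open scoped ComplexOrder

variable {n : ℕ} {Ω G : Set (V n)} {u : V n → EReal} {m ν ν' : Measure (V n)}

theorem PSH.max_smooth (hΩ : IsOpen Ω) (hu : PSH Ω u) {p : V n → ℝ} (hp : SPsh Ω p) :
    PSH Ω (fun z => Max.max (u z) (p z : EReal)) ∧ LB Ω (fun z => Max.max (u z) (p z : EReal)) := by
  have h1 : PSH Ω (fun z => (p z : EReal)) := SPsh.psh' hΩ hp
  have h2 := PSH.max hΩ hu h1
  exact ⟨h2, PSH.LB_of_le h2 hp.smooth.continuousOn fun z _ => le_max_right _ _⟩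

private theorem measS26 (hΩ : IsOpen Ω) (hu : PSH Ω u) (j : ℕ) :
    MeasurableSet {z | z ∈ Ω ∧ ((-(j : ℝ) : ℝ) : EReal) < u z} :=
  (PSH.measurableSet_gt hΩ hu (p := fun _ => -(j : ℝ)) continuousOn_const).1

private theorem setS26 {E : Set (V n)} (hE : E ⊆ Ω) (k : ℕ) :
    E ∩ {z | ((-(k : ℝ) : ℝ) : EReal) < u z} = E ∩ {z | z ∈ Ω ∧ ((-(k : ℝ) : ℝ) : EReal) < u z} := by
  ext z
  constructor
  · rintro ⟨h1, h2⟩
    exact ⟨h1, hE h1, h2⟩
  · rintro ⟨h1, h2⟩
    exact ⟨h1, h2.2⟩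

/-- measures which agree on the subsets of small balls agree -/
private theorem meas_eq26 (hΩ : IsOpen Ω) {T : Set (V n)} (hT : T ⊆ Ω) {μ μ' : Measure (V n)}
    (h : ∀ (z : V n) (R : ℝ), 0 < R → closedBall z R ⊆ Ω → ∀ E ⊆ T ∩ ball z R, MeasurableSet E →
      μ E = μ' E) : ∀ E ⊆ T, MeasurableSet E → μ E = μ' E := by
  intro E hE hEm
  have h1 : ∀ z ∈ Ω, ∃ R : ℝ, 0 < R ∧ closedBall z R ⊆ Ω := by
    intro z hz
    obtain ⟨R, hR, h2⟩ := Metric.nhds_basis_closedBall.mem_iff.1 (hΩ.mem_nhds hz)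
    exact ⟨R, hR, h2⟩
  choose! R hR hRΩ using h1
  obtain ⟨T', hT', hTc, hTu⟩ := TopologicalSpace.isOpen_biUnion_countable Ω
    (fun z => ball z (R z)) fun z _ => isOpen_ball
  have hcov : E = ⋃ z ∈ T', (E ∩ ball z (R z)) := by
    ext y
    simp only [mem_iUnion, mem_inter_iff, exists_prop]
    constructor
    · intro hy
      have h2 : y ∈ ⋃ z ∈ Ω, ball z (R z) := by
        simp only [mem_iUnion, exists_prop]
        exact ⟨y, hT (hE hy), mem_ball_self (hR y (hT (hE hy)))⟩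
      rw [← hTu] at h2
      simp only [mem_iUnion, exists_prop] at h2
      obtain ⟨z, hz, hyz⟩ := h2
      exact ⟨z, hz, hy, hyz⟩
    · rintro ⟨z, -, hy, -⟩
      exact hy
  have h3 : μ.restrict (⋃ z ∈ T', (E ∩ ball z (R z))) = μ'.restrict (⋃ z ∈ T', (E ∩ ball z (R z))) := by
    rw [Measure.restrict_biUnion_congr hTc]
    intro z hz
    ext s hs
    rw [Measure.restrict_apply hs, Measure.restrict_apply hs]
    exact h z (R z) (hR z (hT' hz)) (hRΩ z (hT' hz)) _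
      (fun y hy => ⟨hE hy.2.1, hy.2.2⟩) (hs.inter (hEm.inter isOpen_ball.measurableSet))
  rw [← hcov] at h3
  rw [← Measure.restrict_apply_self μ, ← Measure.restrict_apply_self μ', h3]

/-- measures which vanish outside `Ω` and agree on its subsets are equal -/
private theorem ext26 (hΩ : IsOpen Ω) {μ μ' : Measure (V n)} (h : μ Ωᶜ = 0) (h' : μ' Ωᶜ = 0)
    (he : ∀ E ⊆ Ω, MeasurableSet E → μ E = μ' E) : μ = μ' := by
  ext E hE
  rw [← measure_inter_add_sdiff E hΩ.measurableSet, ← measure_inter_add_sdiff (μ := μ') E hΩ.measurableSet,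
    he _ inter_subset_right (hE.inter hΩ.measurableSet)]
  have h1 : E \ Ω ⊆ Ωᶜ := fun z hz => hz.2
  rw [measure_mono_null h1 h, measure_mono_null h1 h']

theorem exists_NP (hΩ : IsOpen Ω) (hu : PSH Ω u) : ∃ ν : Measure (V n), IsNP Ω u ν := by
  classical
  have hP : ∀ j : ℕ, PSH Ω (fun z => Max.max (u z) ((-(j : ℝ) : ℝ) : EReal)) ∧
      LB Ω (fun z => Max.max (u z) ((-(j : ℝ) : ℝ) : EReal)) := fun j =>
    PSH.max_smooth hΩ hu (SPsh.const Ω (-(j : ℝ)))
  choose m hm using fun j : ℕ => exists_MA hΩ (hP j).1 (hP j).2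
  have hS := fun j : ℕ => measS26 hΩ hu j
  set S : ℕ → Set (V n) := fun j => {z | z ∈ Ω ∧ ((-(j : ℝ) : ℝ) : EReal) < u z} with hSdef
  have hSm : ∀ j, S j ⊆ S (j + 1) := by
    intro j z hz
    refine ⟨hz.1, lt_of_le_of_lt ?_ hz.2⟩
    rw [EReal.coe_le_coe_iff]
    push_cast
    linarith
  have hloc : ∀ j, ∀ E ⊆ S j, MeasurableSet E → m (j + 1) E = m j E := by
    intro j E hE hEm
    refine locality hΩ hu (SPsh.const Ω (-((j + 1 : ℕ) : ℝ))) (SPsh.const Ω (-(j : ℝ))) ?_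
      (hm (j + 1)) (hm j) E hE hEm
    intro z _
    push_cast
    linarith
  let D : ℕ → Set (V n) := fun j => S j \ (if j = 0 then ∅ else S (j - 1))
  have hD0 : D 0 = S 0 := by simp [D]
  have hDs : ∀ j, D (j + 1) = S (j + 1) \ S j := by
    intro j
    simp [D]
  have hDm : ∀ j, MeasurableSet (D j) := by
    intro j
    cases j with
    | zero => rw [hD0]; exact hS 0
    | succ j => rw [hDs]; exact (hS (j + 1)).diff (hS j)
  have hpart : ∀ E : Set (V n), MeasurableSet E → ∀ k : ℕ,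
      ∑ j ∈ Finset.range (k + 1), m j (E ∩ D j) = m k (E ∩ S k) := by
    intro E hE k
    induction k with
    | zero => rw [zero_add, Finset.sum_range_one, hD0]
    | succ k ih =>
      rw [Finset.sum_range_succ, ih, hDs, ← hloc k _ inter_subset_right (hE.inter (hS k))]
      have h1 : E ∩ S (k + 1) = (E ∩ S k) ∪ (E ∩ (S (k + 1) \ S k)) := by
        rw [← inter_union_distrib_left, union_sdiff_cancel (hSm k)]
      rw [h1, measure_union _ (hE.inter ((hS (k + 1)).diff (hS k)))]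
      exact (disjoint_sdiff_right (s := S k) (t := S (k + 1))).mono inter_subset_right inter_subset_right
  refine ⟨Measure.sum fun j => (m j).restrict (D j), ?_, m, hm, ?_⟩
  · rw [Measure.sum_apply _ hΩ.measurableSet.compl]
    refine ENNReal.tsum_eq_zero.2 fun j => ?_
    rw [Measure.restrict_apply hΩ.measurableSet.compl]
    exact measure_mono_null inter_subset_left (hm j).out
  · intro E hE hEΩ
    rw [Measure.sum_apply _ hE]
    have h1 := (ENNReal.tendsto_nat_tsum fun j => (m j).restrict (D j) E).comp (tendsto_add_atTop_nat 1)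
    refine h1.congr fun k => ?_
    simp only [Function.comp]
    have h2 : E ∩ {z | ((-(k : ℝ) : ℝ) : EReal) < u z} = E ∩ S k := setS26 hEΩ k
    rw [h2, ← hpart E hE k]
    exact Finset.sum_congr rfl fun j _ => Measure.restrict_apply hE

theorem IsNP.unique (hΩ : IsOpen Ω) (hu : PSH Ω u) (h : IsNP Ω u ν) (h' : IsNP Ω u ν') :
    ν = ν' := by
  obtain ⟨m, hm, hl⟩ := h.lim
  obtain ⟨m', hm', hl'⟩ := h'.lim
  refine ext26 hΩ h.out h'.out fun E hE hEm => ?_
  have h1 : ∀ j, m j = m' j := fun j =>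
    IsMA.unique hΩ (PSH.max_smooth hΩ hu (SPsh.const Ω (-(j : ℝ)))).1 (hm j) (hm' j)
  refine tendsto_nhds_unique (hl E hEm hE) ?_
  simp only [h1]
  exact hl' E hEm hE

theorem IsNP.gt (hΩ : IsOpen Ω) (hu : PSH Ω u) (h : IsNP Ω u ν) {p : V n → ℝ} (hp : SPsh Ω p)
    (hm : IsMA Ω (fun z => max (u z) (p z : EReal)) m) :
    ∀ E ⊆ {z | z ∈ Ω ∧ (p z : EReal) < u z}, MeasurableSet E → ν E = m E := by
  obtain ⟨mj, hmj, hl⟩ := h.lim
  refine meas_eq26 hΩ (fun z hz => hz.1) fun z₀ R hR hball E hE hEm => ?_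
  have hW : ball z₀ R ⊆ Ω := ball_subset_closedBall.trans hball
  obtain ⟨B, hB⟩ := (isCompact_closedBall z₀ R).exists_bound_of_continuousOn
    (hp.smooth.continuousOn.mono hball)
  obtain ⟨N, hN⟩ := exists_nat_ge B
  have hpN : ∀ z ∈ ball z₀ R, -(N : ℝ) ≤ p z := by
    intro z hz
    have h1 := hB z (ball_subset_closedBall hz)
    rw [Real.norm_eq_abs] at h1
    linarith [(abs_le.1 h1).1]
  have hEΩ : E ⊆ Ω := fun z hz => (hE hz).1.1
  have key : ∀ j ≥ N, mj j (E ∩ {z | ((-(j : ℝ) : ℝ) : EReal) < u z}) = m E := by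
    intro j hj
    have hjN : -(j : ℝ) ≤ -(N : ℝ) := by
      have : (N : ℝ) ≤ j := by exact_mod_cast hj
      linarith
    have h1 : E ∩ {z | ((-(j : ℝ) : ℝ) : EReal) < u z} = E := by
      rw [inter_eq_left]
      intro z hz
      refine lt_of_le_of_lt ?_ (hE hz).1.2
      rw [EReal.coe_le_coe_iff]
      exact hjN.trans (hpN z (hE hz).2)
    rw [h1]
    have h2 := locality isOpen_ball (PSH.mono hu hW) (SPsh.const (ball z₀ R) (-(j : ℝ)))
      (SPsh.mono hp hW) (fun z hz => hjN.trans (hpN z hz)) (IsMA.mono hΩ (hmj j) isOpen_ball hW)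
      (IsMA.mono hΩ hm isOpen_ball hW) E (fun z hz => ⟨(hE hz).2, (hE hz).1.2⟩) hEm
    rw [Measure.restrict_apply hEm, Measure.restrict_apply hEm] at h2
    have h3 : E ∩ ball z₀ R = E := inter_eq_left.2 fun z hz => (hE hz).2
    rwa [h3] at h2
  refine tendsto_nhds_unique (hl E hEm hEΩ) (tendsto_const_nhds.congr' ?_)
  filter_upwards [eventually_ge_atTop N] with j hj
  exact (key j hj).symm

theorem IsNP.bot (hΩ : IsOpen Ω) (hu : PSH Ω u) (h : IsNP Ω u ν) :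
    ν {z | z ∈ Ω ∧ u z = ⊥} = 0 := by
  obtain ⟨mj, hmj, hl⟩ := h.lim
  have h1 := (PSH.measurableSet_gt hΩ hu (p := fun _ => (0 : ℝ)) continuousOn_const).2
  refine tendsto_nhds_unique (hl _ h1 fun z hz => hz.1) (tendsto_const_nhds.congr fun j => ?_)
  have h2 : {z | z ∈ Ω ∧ u z = ⊥} ∩ {z | ((-(j : ℝ) : ℝ) : EReal) < u z} = ∅ := by
    ext z
    simp only [mem_inter_iff, mem_ofPred_eq, mem_empty_iff_false, iff_false]
    rintro ⟨⟨-, h3⟩, h4⟩
    rw [h3] at h4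
    exact not_lt_bot h4
  rw [h2, measure_empty]

/-- a criterion -/
theorem isNP_of_gt (hΩ : IsOpen Ω) (hu : PSH Ω u) (h0 : ν Ωᶜ = 0)
    (hbot : ν {z | z ∈ Ω ∧ u z = ⊥} = 0)
    (h : ∀ (j : ℕ) (m : Measure (V n)), IsMA Ω (fun z => max (u z) ((-(j : ℝ) : ℝ) : EReal)) m →
      ∀ E ⊆ {z | z ∈ Ω ∧ ((-(j : ℝ) : ℝ) : EReal) < u z}, MeasurableSet E → ν E = m E) :
    IsNP Ω u ν := by
  have hP : ∀ j : ℕ, PSH Ω (fun z => Max.max (u z) ((-(j : ℝ) : ℝ) : EReal)) ∧
      LB Ω (fun z => Max.max (u z) ((-(j : ℝ) : ℝ) : EReal)) := fun j =>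
    PSH.max_smooth hΩ hu (SPsh.const Ω (-(j : ℝ)))
  choose m hm using fun j : ℕ => exists_MA hΩ (hP j).1 (hP j).2
  refine ⟨h0, m, hm, fun E hE hEΩ => ?_⟩
  have h1 : ∀ j : ℕ, m j (E ∩ {z | ((-(j : ℝ) : ℝ) : EReal) < u z}) =
      ν (E ∩ {z | z ∈ Ω ∧ ((-(j : ℝ) : ℝ) : EReal) < u z}) := by
    intro j
    rw [setS26 hEΩ]
    exact (h j (m j) (hm j) _ inter_subset_right (hE.inter (measS26 hΩ hu j))).symm
  simp only [h1]
  have hmono : Monotone fun j : ℕ => E ∩ {z | z ∈ Ω ∧ ((-(j : ℝ) : ℝ) : EReal) < u z} := by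
    intro i j hij z hz
    refine ⟨hz.1, hz.2.1, lt_of_le_of_lt ?_ hz.2.2⟩
    rw [EReal.coe_le_coe_iff]
    have : (i : ℝ) ≤ j := by exact_mod_cast hij
    linarith
  have h2 := tendsto_measure_iUnion_atTop (μ := ν) hmono
  have h3 : ν (⋃ j : ℕ, E ∩ {z | z ∈ Ω ∧ ((-(j : ℝ) : ℝ) : EReal) < u z}) = ν E := by
    refine le_antisymm (measure_mono (iUnion_subset fun j => inter_subset_left)) ?_
    have h4 : E ⊆ (⋃ j : ℕ, E ∩ {z | z ∈ Ω ∧ ((-(j : ℝ) : ℝ) : EReal) < u z}) ∪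
        {z | z ∈ Ω ∧ u z = ⊥} := by
      intro z hz
      by_cases hb : u z = ⊥
      · exact Or.inr ⟨hEΩ hz, hb⟩
      · left
        rw [mem_iUnion]
        obtain ⟨r, hr, hr'⟩ := EReal.lt_iff_exists_real_btwn.1 (bot_lt_iff_ne_bot.2 hb)
        obtain ⟨N, hN⟩ := exists_nat_ge (-r)
        refine ⟨N, hz, hEΩ hz, lt_of_le_of_lt ?_ hr'⟩
        rw [EReal.coe_le_coe_iff]
        linarith
    calc ν E ≤ _ := measure_mono h4
      _ ≤ _ := measure_union_le _ _
      _ = _ := by rw [hbot, add_zero]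
  rw [h3] at h2
  exact h2

theorem IsNP.mono (hΩ : IsOpen Ω) (h : IsNP Ω u ν) (hG : IsOpen G) (hs : G ⊆ Ω) :
    IsNP G u (ν.restrict G) := by
  obtain ⟨mj, hmj, hl⟩ := h.lim
  refine ⟨?_, fun j => (mj j).restrict G, fun j => IsMA.mono hΩ (hmj j) hG hs, fun E hE hEG => ?_⟩
  · rw [Measure.restrict_apply hG.measurableSet.compl, compl_inter_self, measure_empty]
  · have h1 : ∀ j : ℕ, (mj j).restrict G (E ∩ {z | ((-(j : ℝ) : ℝ) : EReal) < u z}) =
        mj j (E ∩ {z | ((-(j : ℝ) : ℝ) : EReal) < u z}) := by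
      intro j
      rw [Measure.restrict_apply' hG.measurableSet]
      congr 1
      exact inter_eq_left.2 fun z hz => hEG hz.1
    simp only [h1]
    rw [Measure.restrict_apply hE, inter_eq_left.2 hEG]
    exact hl E hE (hEG.trans hs)

theorem IsNP.congr {u' : V n → EReal} (h : IsNP Ω u ν) (hu : ∀ z ∈ Ω, u z = u' z) :
    IsNP Ω u' ν := by
  obtain ⟨mj, hmj, hl⟩ := h.lim
  refine ⟨h.out, mj, fun j => IsMA.congr (hmj j) fun z hz => by rw [hu z hz], fun E hE hEΩ => ?_⟩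
  refine (hl E hE hEΩ).congr fun j => ?_
  congr 1
  ext z
  constructor
  · rintro ⟨h1, h2⟩
    exact ⟨h1, by rw [mem_ofPred_eq, ← hu z (hEΩ h1)]; exact h2⟩
  · rintro ⟨h1, h2⟩
    exact ⟨h1, by rw [mem_ofPred_eq, hu z (hEΩ h1)]; exact h2⟩

theorem IsNP.isMA (hΩ : IsOpen Ω) (hu : PSH Ω u) (hb : LB Ω u) (h : IsNP Ω u ν) : IsMA Ω u ν := by
  obtain ⟨m, hm⟩ := exists_MA hΩ hu hb
  obtain ⟨mj, hmj, hl⟩ := h.lim
  have key : ν = m := by
    refine ext26 hΩ h.out hm.out (meas_eq26 hΩ subset_rfl fun z₀ R hR hball E hE hEm => ?_)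
    have hW : ball z₀ R ⊆ Ω := ball_subset_closedBall.trans hball
    obtain ⟨B, hB⟩ := hb _ hball (isCompact_closedBall z₀ R)
    obtain ⟨N, hN⟩ := exists_nat_gt B
    have hEΩ : E ⊆ Ω := fun z hz => (hE hz).1
    refine tendsto_nhds_unique (hl E hEm hEΩ) (tendsto_const_nhds.congr' ?_)
    filter_upwards [eventually_ge_atTop N] with j hj
    have hlt : ∀ z ∈ ball z₀ R, ((-(j : ℝ) : ℝ) : EReal) < u z := by
      intro z hz
      refine lt_of_lt_of_le ?_ (hB z (ball_subset_closedBall hz)).1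
      rw [EReal.coe_lt_coe_iff]
      have : (N : ℝ) ≤ j := by exact_mod_cast hj
      linarith
    have h1 : E ∩ {z | ((-(j : ℝ) : ℝ) : EReal) < u z} = E :=
      inter_eq_left.2 fun z hz => hlt z (hE hz).2
    have h2 : IsMA (ball z₀ R) u ((mj j).restrict (ball z₀ R)) :=
      IsMA.congr (IsMA.mono hΩ (hmj j) isOpen_ball hW) fun z hz => max_eq_left (hlt z hz).le
    have h3 := IsMA.unique isOpen_ball (PSH.mono hu hW) h2 (IsMA.mono hΩ hm isOpen_ball hW)
    have h4 : E ∩ ball z₀ R = E := inter_eq_left.2 fun z hz => (hE hz).2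
    have h5 := congrArg (fun μ : Measure (V n) => μ E) h3
    simp only [Measure.restrict_apply hEm, h4] at h5
    rw [h1, h5]
  rw [key]
  exact hm

theorem IsMA.isNP (hΩ : IsOpen Ω) (hu : PSH Ω u) (hb : LB Ω u) (h : IsMA Ω u ν) : IsNP Ω u ν := by
  obtain ⟨ν', hν'⟩ := exists_NP hΩ hu
  have h1 := IsMA.unique hΩ hu h (IsNP.isMA hΩ hu hb hν')
  rw [h1]
  exact hν'

end Pool.Agent.Helper13.AM
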