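import Pool.Agent.Helper13.AM.B4
import Pool.Agent.Helper32.Hol

/-!
AM-B5. Invariance: biholomorphic maps, adding pluriharmonic functions.

`DD (v ∘ κ) = |det κ'|² (DD v ∘ κ)`: `lev_comp_holo` and `lev_eq_lf`, polarisation: `hess (v∘κ) z =
A^T (hess v (κ z)) A̅` with `A` the matrix of `κ'(z)` (`eq_of_lf` in LA1, both sides hermitian).
Change of variables: `lintegral_image_eq_lintegral_abs_det_fderiv_mul` /
`integral_image_eq_integral_abs_det_fderiv_smul`, the real determinant of a complex linear map is `|det|²`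
(`LinearMap.det_restrictScalars` or Helper29's GS4). So `∫ (χ∘κ) DD(v∘κ) = ∫ χ DD v` for `χ ∈ CC Ω`.
`IsMA.comp`: for `Dec W w (u∘κ)` with `W ⊆ Ω'`: `w∘κi` is `Dec (κ '' W) _ u`.
`IsMA.add_ph`: `Dec W w (u + q)` iff `Dec W (w - q) u`, `DD (w - q) = DD w` (`hess q = 0` by
`eq_of_lf`/polarisation from `lev q = 0`).
`IsNP.comp`: `isNP_of_gt` or directly from `IsMA.comp` for the truncations.
`IsNP.add_ph`: `isNP_of_gt`: `max (u + q) (-j) = max u (-j - q) + q`, so its MA measure is the one of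
`max u (-j - q)` (`IsMA.add_ph` with `-q`, uniqueness), and `IsNP.gt` with `p = -j - q`.
-/

set_option autoImplicit false

namespace Pool.Agent.Helper13.AM

open MeasureTheory Set Filter Topology Metric
open Pool.Agent.Helper29.AM
open scoped ComplexOrder

variable {n : ℕ} {Ω Ω' : Set (V n)} {u : V n → EReal} {m ν : Measure (V n)}

open scoped Matrix

/-- the matrix of a linear map -/
private noncomputable def mt32 (A : Lin n) : Mat n := fun j l => A (e l) j

private theorem det_mt32 (A : Lin n) : A.det = (mt32 A).det := by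
  have h1 := LinearMap.det_toMatrix (EuclideanSpace.basisFun (Fin n) ℂ).toBasis (A : V n →ₗ[ℂ] V n)
  have h2 : LinearMap.toMatrix (EuclideanSpace.basisFun (Fin n) ℂ).toBasis
      (EuclideanSpace.basisFun (Fin n) ℂ).toBasis (A : V n →ₗ[ℂ] V n) = mt32 A := by
    ext j l
    rw [LinearMap.toMatrix_apply]
    simp [mt32, e]
  rw [h2] at h1
  exact h1.symm

private theorem apply32 (A : Lin n) (w : V n) (j : Fin n) : A w j = ∑ l, mt32 A j l * w l := by
  have h1 : w = ∑ l, w l • (e l : V n) := by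
    have h := (EuclideanSpace.basisFun (Fin n) ℂ).sum_repr w
    simp only [EuclideanSpace.basisFun_repr, EuclideanSpace.basisFun_apply] at h
    exact h.symm
  conv_lhs => rw [h1, map_sum]
  rw [WithLp.ofLp_sum, Finset.sum_apply]
  refine Finset.sum_congr rfl fun l _ => ?_
  rw [map_smul, PiLp.smul_apply, smul_eq_mul, mul_comm]
  rfl

private theorem lf_comp32 (A : Lin n) (H : Mat n) (w : V n) :
    lf ((mt32 A)ᵀ * H * (mt32 A).map star) w = lf H (A w) := by
  unfold lf
  congr 1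
  have h1 : ∀ j k, H j k * (A w) j * (starRingEnd ℂ) ((A w) k) =
      ∑ l, ∑ m, mt32 A j l * H j k * star (mt32 A k m) * w l * (starRingEnd ℂ) (w m) := by
    intro j k
    rw [apply32 A w j, apply32 A w k, map_sum, mul_assoc, Finset.sum_mul_sum, Finset.mul_sum]
    refine Finset.sum_congr rfl fun l _ => ?_
    rw [Finset.mul_sum]
    refine Finset.sum_congr rfl fun m _ => ?_
    rw [map_mul, starRingEnd_apply, starRingEnd_apply]
    ring
  simp only [h1]
  have h2 : ∀ l m, ((mt32 A)ᵀ * H * (mt32 A).map star) l m * w l * (starRingEnd ℂ) (w m) =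
      ∑ j, ∑ k, mt32 A j l * H j k * star (mt32 A k m) * w l * (starRingEnd ℂ) (w m) := by
    intro l m
    rw [Matrix.mul_apply, Finset.sum_mul, Finset.sum_mul, Finset.sum_comm]
    refine Finset.sum_congr rfl fun k _ => ?_
    rw [Matrix.mul_apply, Finset.sum_mul, Finset.sum_mul, Finset.sum_mul]
    refine Finset.sum_congr rfl fun j _ => ?_
    rw [Matrix.transpose_apply, Matrix.map_apply]
  simp only [h2]
  calc ∑ l, ∑ m, ∑ j, ∑ k, mt32 A j l * H j k * star (mt32 A k m) * w l * (starRingEnd ℂ) (w m)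
      = ∑ l, ∑ j, ∑ m, ∑ k, mt32 A j l * H j k * star (mt32 A k m) * w l * (starRingEnd ℂ) (w m) :=
        Finset.sum_congr rfl fun l _ => Finset.sum_comm
    _ = ∑ j, ∑ l, ∑ m, ∑ k, mt32 A j l * H j k * star (mt32 A k m) * w l * (starRingEnd ℂ) (w m) :=
        Finset.sum_comm
    _ = ∑ j, ∑ l, ∑ k, ∑ m, mt32 A j l * H j k * star (mt32 A k m) * w l * (starRingEnd ℂ) (w m) :=
        Finset.sum_congr rfl fun j _ => Finset.sum_congr rfl fun l _ => Finset.sum_comm
    _ = ∑ j, ∑ k, ∑ l, ∑ m, mt32 A j l * H j k * star (mt32 A k m) * w l * (starRingEnd ℂ) (w m) :=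
        Finset.sum_congr rfl fun j _ => Finset.sum_comm

private theorem two32 : (2 : WithTop ℕ∞) ≤ ((⊤ : ℕ∞) : WithTop ℕ∞) :=
  WithTop.coe_le_coe.2 (le_top (a := (2 : ℕ∞)))

private theorem hess_comp32 {κ κi : V n → V n} (h : Bih Ω' Ω κ κi) {v : V n → ℝ}
    (hv : ContDiffOn ℝ (⊤ : ℕ∞) v Ω) {z : V n} (hz : z ∈ Ω') :
    hess (fun x => v (κ x)) z =
      (mt32 (fderiv ℂ κ z))ᵀ * hess v (κ z) * (mt32 (fderiv ℂ κ z)).map star := by
  have c1 : ContDiffAt ℂ 2 κ z := Helper32.contDiffAt_hol (n := 2) h.open1 h.hol hz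
  have c2 : ContDiffAt ℝ 2 v (κ z) := (hv.contDiffAt (h.open2.mem_nhds (h.maps hz))).of_le two32
  have c3 : ContDiffAt ℝ 2 (fun x => v (κ x)) z := c2.comp z (c1.restrict_scalars ℝ)
  have hH := hess_isHermitian c2
  refine eq_of_lf (hess_isHermitian c3) ?_ fun w => ?_
  · unfold Matrix.IsHermitian
    rw [Matrix.conjTranspose_mul, Matrix.conjTranspose_mul, hH.eq, Matrix.mul_assoc]
    have e1 : ((mt32 (fderiv ℂ κ z)).map star)ᴴ = (mt32 (fderiv ℂ κ z))ᵀ := by
      ext i j
      rw [Matrix.conjTranspose_apply, Matrix.map_apply, star_star, Matrix.transpose_apply]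
    have e2 : ((mt32 (fderiv ℂ κ z))ᵀ)ᴴ = (mt32 (fderiv ℂ κ z)).map star := by
      ext i j
      rw [Matrix.conjTranspose_apply, Matrix.transpose_apply, Matrix.map_apply]
    rw [e1, e2]
  · rw [lf_comp32, ← lev_eq_lf c3, ← lev_eq_lf c2, lev_comp_holo c1 c2]

theorem DD_comp {κ κi : V n → V n} (h : Bih Ω' Ω κ κi) {v : V n → ℝ}
    (hv : ContDiffOn ℝ (⊤ : ℕ∞) v Ω) {z : V n} (hz : z ∈ Ω') :
    DD (fun x => v (κ x)) z = ‖(fderiv ℂ κ z).det‖ ^ 2 * DD v (κ z) := by
  unfold DD
  rw [hess_comp32 h hv hz, Matrix.det_mul, Matrix.det_mul, Matrix.det_transpose]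
  have e1 : ((mt32 (fderiv ℂ κ z)).map star).det = star (mt32 (fderiv ℂ κ z)).det := by
    have h1 : (mt32 (fderiv ℂ κ z)).map star = ((mt32 (fderiv ℂ κ z))ᵀ)ᴴ := by
      ext i j
      rw [Matrix.conjTranspose_apply, Matrix.transpose_apply, Matrix.map_apply]
    rw [h1, Matrix.det_conjTranspose, Matrix.det_transpose]
  rw [e1, ← det_mt32]
  have e2 : (fderiv ℂ κ z).det * (hess v (κ z)).det * star (fderiv ℂ κ z).det =
      ((‖(fderiv ℂ κ z).det‖ ^ 2 : ℝ) : ℂ) * (hess v (κ z)).det := by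
    have h1 := Complex.mul_conj (fderiv ℂ κ z).det
    rw [Complex.normSq_eq_norm_sq] at h1
    rw [← h1, starRingEnd_apply]
    ring
  rw [e2, Complex.re_ofReal_mul]

private theorem image32 {κ κi : V n → V n} (h : Bih Ω' Ω κ κi) {W : Set (V n)} (hW : W ⊆ Ω') :
    κ '' W = Ω ∩ κi ⁻¹' W := by
  ext y
  constructor
  · rintro ⟨x, hx, rfl⟩
    exact ⟨h.maps (hW hx), by rw [mem_preimage, h.left x (hW hx)]; exact hx⟩
  · rintro ⟨hy, hy2⟩
    exact ⟨κi y, hy2, h.right y hy⟩

private theorem symm32 {κ κi : V n → V n} (h : Bih Ω' Ω κ κi) : Bih Ω Ω' κi κ :=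
  ⟨h.open2, h.open1, h.hol', h.hol, h.maps', h.maps, h.right, h.left⟩

private theorem restr32 {κ κi : V n → V n} (h : Bih Ω' Ω κ κi) {W : Set (V n)} (hWo : IsOpen W)
    (hW : W ⊆ Ω') : Bih W (κ '' W) κ κi := by
  have hi := image32 h hW
  have hsub : κ '' W ⊆ Ω := by rw [hi]; exact inter_subset_left
  refine ⟨hWo, ?_, h.hol.mono hW, h.hol'.mono hsub, fun x hx => ⟨x, hx, rfl⟩, ?_,
    fun x hx => h.left x (hW hx), fun y hy => h.right y (hsub hy)⟩
  · rw [hi]
    exact h.hol'.continuousOn.isOpen_inter_preimage h.open2 hWo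
  · rintro _ ⟨x, hx, rfl⟩
    rw [h.left x (hW hx)]
    exact hx

theorem integral_comp_Bih {κ κi : V n → V n} (h : Bih Ω' Ω κ κi) (f : V n → ℝ) :
    ∫ z in Ω', ‖(fderiv ℂ κ z).det‖ ^ 2 * f (κ z) = ∫ z in Ω, f z := by
  have hi : κ '' Ω' = Ω := by
    rw [image32 h Subset.rfl]
    exact inter_eq_left.2 h.maps'
  have hinj : InjOn κ Ω' := by
    intro x hx y hy hxy
    rw [← h.left x hx, ← h.left y hy, hxy]
  have h1 := integral_image_eq_integral_abs_det_fderiv_smul (volume : Measure (V n))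
    h.open1.measurableSet (f := κ) (f' := fun z => (fderiv ℂ κ z).restrictScalars ℝ)
    (fun z hz => (((h.hol.differentiableAt (h.open1.mem_nhds hz)).hasFDerivAt).restrictScalars
      ℝ).hasFDerivWithinAt) hinj f
  rw [hi] at h1
  rw [h1]
  refine setIntegral_congr_fun h.open1.measurableSet fun z hz => ?_
  have h2 : ((fderiv ℂ κ z).restrictScalars ℝ).det = ‖(fderiv ℂ κ z).det‖ ^ 2 := by
    have h3 := LinearMap.det_restrictScalars (R := ℝ) (f := (fderiv ℂ κ z : V n →ₗ[ℂ] V n))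
    rw [Algebra.norm_complex_apply, Complex.normSq_eq_norm_sq] at h3
    exact h3
  simp only [smul_eq_mul]
  rw [h2, abs_of_nonneg (by positivity)]

private theorem meas32 {κ : V n → V n} {Ω' S : Set (V n)} (hΩ : IsOpen Ω')
    (hκ : ContinuousOn κ Ω') (hS : MeasurableSet S) : MeasurableSet (Ω' ∩ κ ⁻¹' S) := by
  have h1 : Measurable fun x : Ω' => κ x := (continuousOn_iff_continuous_domRestrict.1 hκ).measurable
  have h2 : Ω' ∩ κ ⁻¹' S = Subtype.val '' ((fun x : Ω' => κ x) ⁻¹' S) := by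
    ext x
    constructor
    · rintro ⟨hx, hx2⟩
      exact ⟨⟨x, hx⟩, hx2, rfl⟩
    · rintro ⟨⟨y, hy⟩, hy2, rfl⟩
      exact ⟨hy, hy2⟩
  rw [h2]
  exact hΩ.measurableSet.subtype_image (h1 hS)

private theorem restr_self32 {m : Measure (V n)} {Ω : Set (V n)} (hm : m Ωᶜ = 0) :
    m.restrict Ω = m :=
  Measure.restrict_eq_self_of_ae_mem (mem_ae_iff.2 hm)

private theorem aem32 {κ κi : V n → V n} (h : Bih Ω' Ω κ κi) (hm : m Ωᶜ = 0) :
    AEMeasurable κi m := by
  have h1 : AEMeasurable κi (m.restrict Ω) :=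
    h.hol'.continuousOn.aemeasurable h.open2.measurableSet
  rwa [restr_self32 hm] at h1

private theorem map_le32 {κ κi : V n → V n} (h : Bih Ω' Ω κ κi) (hm : m Ωᶜ = 0) {s : Set (V n)}
    (hs : s ⊆ Ω') (hsm : MeasurableSet s) : m.map κi s = m (κ '' s) := by
  rw [Measure.map_apply_of_aemeasurable (aem32 h hm) hsm, image32 h hs]
  refine le_antisymm ?_ (measure_mono inter_subset_right)
  calc m (κi ⁻¹' s) ≤ m ((Ω ∩ κi ⁻¹' s) ∪ Ωᶜ) := measure_mono fun z hz => by
        by_cases hz' : z ∈ Ω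
        · exact Or.inl ⟨hz', hz⟩
        · exact Or.inr hz'
    _ ≤ m (Ω ∩ κi ⁻¹' s) + m Ωᶜ := measure_union_le _ _
    _ = m (Ω ∩ κi ⁻¹' s) := by rw [hm, add_zero]

/-- the image measure on arbitrary sets -/
private theorem map32 {κ κi : V n → V n} (h : Bih Ω' Ω κ κi) (hm : m Ωᶜ = 0) {s : Set (V n)}
    (hs : s ⊆ Ω') : m.map κi s = m (κ '' s) := by
  refine le_antisymm ?_ ?_
  · obtain ⟨t, ht⟩ : ∃ t : Set (V n), t = Ω' ∩ κ ⁻¹' (toMeasurable m (κ '' s) ∩ Ω) := ⟨_, rfl⟩
    have htm : MeasurableSet t := by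
      rw [ht]
      exact meas32 h.open1 h.hol.continuousOn
        ((measurableSet_toMeasurable _ _).inter h.open2.measurableSet)
    have htΩ : t ⊆ Ω' := by rw [ht]; exact inter_subset_left
    have hst : s ⊆ t := by
      intro x hx
      rw [ht]
      exact ⟨hs hx, subset_toMeasurable _ _ ⟨x, hx, rfl⟩, h.maps (hs hx)⟩
    calc m.map κi s ≤ m.map κi t := measure_mono hst
      _ = m (κ '' t) := map_le32 h hm htΩ htm
      _ ≤ m (toMeasurable m (κ '' s)) := by
          refine measure_mono ?_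
          rintro _ ⟨x, hx, rfl⟩
          rw [ht] at hx
          exact hx.2.1
      _ = m (κ '' s) := measure_toMeasurable _
  · calc m (κ '' s) ≤ m (κi ⁻¹' (toMeasurable (m.map κi) s)) := by
          refine measure_mono ?_
          rintro _ ⟨x, hx, rfl⟩
          rw [mem_preimage, h.left x (hs hx)]
          exact subset_toMeasurable _ _ hx
      _ = m.map κi (toMeasurable (m.map κi) s) :=
          (Measure.map_apply_of_aemeasurable (aem32 h hm) (measurableSet_toMeasurable _ _)).symm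
      _ = m.map κi s := measure_toMeasurable _

private theorem out32 {κ κi : V n → V n} (h : Bih Ω' Ω κ κi) (hm : m Ωᶜ = 0) :
    m.map κi Ω'ᶜ = 0 := by
  rw [Measure.map_apply_of_aemeasurable (aem32 h hm) h.open1.measurableSet.compl]
  refine measure_mono_null (fun z hz hz' => hz (h.maps' hz')) hm

theorem IsMA.comp {κ κi : V n → V n} (h : Bih Ω' Ω κ κi) (hm : IsMA Ω u m) :
    IsMA Ω' (fun z => u (κ z)) (m.map κi) := by
  refine ⟨out32 h hm.out, fun K hK hKc => ?_, fun W hW hWΩ v hv χ hχ => ?_⟩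
  · rw [map32 h hm.out hK]
    refine hm.fin _ ?_ (hKc.image_of_continuousOn (h.hol.continuousOn.mono hK))
    rintro _ ⟨x, hx, rfl⟩
    exact h.maps (hK hx)
  · have hb := restr32 h hW hWΩ
    obtain ⟨W', hW'⟩ : ∃ W' : Set (V n), W' = κ '' W := ⟨_, rfl⟩
    rw [← hW'] at hb
    have hW'Ω : W' ⊆ Ω := by
      rw [hW']
      rintro _ ⟨x, hx, rfl⟩
      exact h.maps (hWΩ hx)
    have hW'o : IsOpen W' := hb.open2
    have hd : Dec W' (fun k z => v k (κi z)) u := by
      have h1 := Dec.comp (symm32 hb) hv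
      refine ⟨h1.psh, h1.anti, fun z hz => ?_⟩
      have h2 := h1.lim z hz
      simp only [h.right z (hW'Ω hz)] at h2
      exact h2
    obtain ⟨χ', hχ'⟩ : ∃ χ' : V n → ℝ, χ' = W'.indicator fun z => χ (κi z) := ⟨_, rfl⟩
    have hKc : IsCompact (κ '' tsupport χ) :=
      (show IsCompact (tsupport χ) from hχ.cpt).image_of_continuousOn
        (h.hol.continuousOn.mono (hχ.sub.trans hWΩ))
    have hKW : κ '' tsupport χ ⊆ W' := by
      rw [hW']
      exact image_mono hχ.sub
    have hsupp : ∀ z, z ∉ κ '' tsupport χ → χ' z = 0 := by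
      intro z hz
      rw [hχ']
      by_cases hz' : z ∈ W'
      · rw [indicator_of_mem hz']
        by_contra hne
        exact hz ⟨κi z, subset_tsupport _ hne, h.right z (hW'Ω hz')⟩
      · exact indicator_of_notMem hz' _
    have hts : tsupport χ' ⊆ κ '' tsupport χ :=
      closure_minimal (fun z hz => by
        by_contra hc
        exact hz (hsupp z hc)) hKc.isClosed
    have hχ'c : Continuous χ' := by
      rw [continuous_iff_continuousAt]
      intro z
      by_cases hz : z ∈ W'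
      · have h1 : ContinuousAt (fun z => χ (κi z)) z :=
          ContinuousAt.comp (f := κi) hχ.cont.continuousAt
            (h.hol'.continuousOn.continuousAt (h.open2.mem_nhds (hW'Ω hz)))
        refine h1.congr ?_
        filter_upwards [hW'o.mem_nhds hz] with y hy
        rw [hχ', indicator_of_mem hy]
      · have h1 : z ∈ (κ '' tsupport χ)ᶜ := fun hc => hz (hKW hc)
        refine (continuousAt_const (y := (0 : ℝ))).congr ?_
        filter_upwards [hKc.isClosed.isOpen_compl.mem_nhds h1] with y hy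
        exact (hsupp y hy).symm
    have hCC : CC W' χ' := by
      refine ⟨hχ'c, ?_, hts.trans hKW⟩
      exact hKc.of_isClosed_subset (isClosed_tsupport _) hts
    have hlim := hm.lim W' hW'o hW'Ω _ hd χ' hCC
    have hint : ∫ z, χ z ∂(m.map κi) = ∫ z, χ' z ∂m := by
      rw [integral_map (aem32 h hm.out) hχ.cont.aestronglyMeasurable]
      refine integral_congr_ae ?_
      have h1 : ∀ᵐ z ∂m, z ∈ Ω := mem_ae_iff.2 hm.out
      filter_upwards [h1] with z hz
      rw [hχ']
      by_cases hz' : z ∈ W'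
      · rw [indicator_of_mem hz']
      · rw [indicator_of_notMem hz']
        by_contra hne
        refine hz' ?_
        rw [hW']
        exact ⟨κi z, hχ.sub (subset_tsupport _ hne), h.right z hz⟩
    rw [hint]
    refine hlim.congr fun k => ?_
    have e1 : ∫ z, χ' z * DD (fun z => v k (κi z)) z = ∫ z in W', χ' z * DD (fun z => v k (κi z)) z := by
      refine (setIntegral_eq_integral_of_forall_compl_eq_zero fun z hz => ?_).symm
      rw [hsupp z fun hc => hz (hKW hc), zero_mul]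
    have e2 : ∫ z, χ z * DD (v k) z = ∫ z in W, χ z * DD (v k) z := by
      refine (setIntegral_eq_integral_of_forall_compl_eq_zero fun z hz => ?_).symm
      have : χ z = 0 := by
        by_contra hne
        exact hz (hχ.sub (subset_tsupport _ hne))
      rw [this, zero_mul]
    rw [e1, e2, ← integral_comp_Bih hb]
    refine setIntegral_congr_fun hW.measurableSet fun z hz => ?_
    have hκz : κ z ∈ W' := hb.maps hz
    have e3 : χ' (κ z) = χ z := by
      rw [hχ', indicator_of_mem hκz, h.left z (hWΩ hz)]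
    have e4 := DD_comp hb (hd.psh k).smooth hz
    have e5 : DD (fun x => v k (κi (κ x))) z = DD (v k) z :=
      DD_congr hW (fun x hx => by rw [h.left x (hWΩ hx)]) z hz
    rw [e5] at e4
    rw [e3, e4]
    ring

private theorem ph_neg32 {q : V n → ℝ} (hΩ : IsOpen Ω) (hq : ContDiffOn ℝ (⊤ : ℕ∞) q Ω)
    (hq0 : ∀ z ∈ Ω, ∀ w, lev q z w = 0) : ∀ z ∈ Ω, ∀ w, lev (fun y => -1 * q y) z w = 0 := by
  intro z hz w
  have c : ContDiffAt ℝ 2 q z := (hq.contDiffAt (hΩ.mem_nhds hz)).of_le two32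
  rw [lev_const_mul (-1) c, hq0 z hz w, mul_zero]

private theorem ph_hess32 {q : V n → ℝ} (hΩ : IsOpen Ω) (hq : ContDiffOn ℝ (⊤ : ℕ∞) q Ω)
    (hq0 : ∀ z ∈ Ω, ∀ w, lev q z w = 0) {z : V n} (hz : z ∈ Ω) : hess q z = 0 := by
  have c : ContDiffAt ℝ 2 q z := (hq.contDiffAt (hΩ.mem_nhds hz)).of_le two32
  refine eq_of_lf (hess_isHermitian c) ?_ fun w => ?_
  · unfold Matrix.IsHermitian
    rw [Matrix.conjTranspose_zero]
  · rw [← lev_eq_lf c, hq0 z hz w]
    simp [lf]

theorem IsMA.add_ph (hΩ : IsOpen Ω) (hm : IsMA Ω u m) {q : V n → ℝ}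
    (hq : ContDiffOn ℝ (⊤ : ℕ∞) q Ω) (hq0 : ∀ z ∈ Ω, ∀ w, lev q z w = 0) :
    IsMA Ω (fun z => u z + (q z : EReal)) m := by
  refine ⟨hm.out, hm.fin, fun W hW hWΩ v hv χ hχ => ?_⟩
  have cq : ∀ z ∈ W, ContDiffAt ℝ 2 q z := fun z hz =>
    (hq.contDiffAt (hΩ.mem_nhds (hWΩ hz))).of_le two32
  have cv : ∀ k, ∀ z ∈ W, ContDiffAt ℝ 2 (v k) z := fun k z hz =>
    ((hv.psh k).smooth.contDiffAt (hW.mem_nhds hz)).of_le two32
  have hd : Dec W (fun k z => v k z + -1 * q z) u := by
    refine ⟨fun k => ⟨(hv.psh k).smooth.add (contDiffOn_const.mul (hq.mono hWΩ)), ?_⟩, ?_, ?_⟩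
    · intro z hz w
      rw [lev_add (cv k z hz) (contDiffAt_const.mul (cq z hz)),
        ph_neg32 hΩ hq hq0 z (hWΩ hz) w, add_zero]
      exact (hv.psh k).psh z hz w
    · intro k z hz
      have := hv.anti k z hz
      linarith
    · intro z hz
      have h1 := hv.lim z hz
      have hc : Continuous fun x : EReal => x + ((-q z : ℝ) : EReal) := by
        rw [continuous_iff_continuousAt]
        intro x
        have h2 : ContinuousAt (fun p : EReal × EReal => p.1 + p.2) (x, ((-q z : ℝ) : EReal)) :=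
          EReal.continuousAt_add (Or.inr (EReal.coe_ne_bot _)) (Or.inr (EReal.coe_ne_top _))
        exact ContinuousAt.comp (f := fun x : EReal => (x, ((-q z : ℝ) : EReal))) h2
          (continuousAt_id.prodMk continuousAt_const)
      have h3 := (hc.tendsto _).comp h1
      have h4 : u z + (q z : EReal) + ((-q z : ℝ) : EReal) = u z := by
        rw [add_assoc, ← EReal.coe_add, add_neg_cancel, EReal.coe_zero, add_zero]
      rw [h4] at h3
      refine h3.congr fun k => ?_
      simp only [Function.comp]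
      rw [← EReal.coe_add]
      congr 1
      ring
  refine (hm.lim W hW hWΩ _ hd χ hχ).congr fun k => ?_
  refine integral_congr_ae (Eventually.of_forall fun z => ?_)
  by_cases hz : z ∈ W
  · have h1 : DD (fun z => v k z + -1 * q z) z = DD (v k) z := by
      unfold DD
      rw [hess_add (cv k z hz) (contDiffAt_const.mul (cq z hz)), hess_const_mul (-1) (cq z hz),
        ph_hess32 hΩ hq hq0 (hWΩ hz), smul_zero, add_zero]
    simp only
    rw [h1]
  · have : χ z = 0 := by
      by_contra hne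
      exact hz (hχ.sub (subset_tsupport _ hne))
    simp only
    rw [this, zero_mul, zero_mul]

theorem IsNP.comp {κ κi : V n → V n} (h : Bih Ω' Ω κ κi) (hm : IsNP Ω u ν) :
    IsNP Ω' (fun z => u (κ z)) (ν.map κi) := by
  obtain ⟨mj, hmj, hl⟩ := hm.lim
  refine ⟨out32 h hm.out, fun j => (mj j).map κi, fun j => IsMA.comp h (hmj j), fun E hE hEΩ => ?_⟩
  have hκE : MeasurableSet (κ '' E) := by
    rw [image32 h hEΩ]
    exact meas32 h.open2 h.hol'.continuousOn hE
  have hκΩ : κ '' E ⊆ Ω := by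
    rintro _ ⟨x, hx, rfl⟩
    exact h.maps (hEΩ hx)
  rw [map32 h hm.out hEΩ]
  refine (hl _ hκE hκΩ).congr fun j => ?_
  rw [map32 h (hmj j).out (inter_subset_left.trans hEΩ)]
  congr 1
  ext y
  constructor
  · rintro ⟨⟨x, hx, rfl⟩, h2⟩
    exact ⟨x, ⟨hx, h2⟩, rfl⟩
  · rintro ⟨x, ⟨hx, h2⟩, rfl⟩
    exact ⟨⟨x, hx, rfl⟩, h2⟩

theorem IsNP.add_ph (hΩ : IsOpen Ω) (hu : PSH Ω u) (hm : IsNP Ω u ν) {q : V n → ℝ}
    (hq : ContDiffOn ℝ (⊤ : ℕ∞) q Ω) (hq0 : ∀ z ∈ Ω, ∀ w, lev q z w = 0) :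
    IsNP Ω (fun z => u z + (q z : EReal)) ν := by
  have hqS : SPsh Ω q := ⟨hq, fun z hz w => (hq0 z hz w).ge⟩
  have hq' : ContDiffOn ℝ (⊤ : ℕ∞) (fun z => -1 * q z) Ω := contDiffOn_const.mul hq
  have hq0' := ph_neg32 hΩ hq hq0
  have hPSH : PSH Ω (fun z => u z + (q z : EReal)) := PSH.add hΩ hu (SPsh.psh' hΩ hqS)
  refine isNP_of_gt hΩ hPSH hm.out ?_ fun j m hMA E hE hEm => ?_
  · refine measure_mono_null ?_ (IsNP.bot hΩ hu hm)
    rintro z ⟨hz, hz2⟩
    refine ⟨hz, ?_⟩
    rcases EReal.add_eq_bot_iff.1 hz2 with h1 | h1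
    · exact h1
    · exact absurd h1 (EReal.coe_ne_bot _)
  · have hp : SPsh Ω (fun z => -(j : ℝ) + -1 * q z) :=
      SPsh.add hΩ (SPsh.const Ω (-(j : ℝ))) ⟨hq', fun z hz w => (hq0' z hz w).ge⟩
    have key : ∀ z : V n, Max.max (u z + (q z : EReal)) ((-(j : ℝ) : ℝ) : EReal) +
        ((-1 * q z : ℝ) : EReal) = Max.max (u z) ((-(j : ℝ) + -1 * q z : ℝ) : EReal) := by
      intro z
      have hmono : Monotone fun x : EReal => x + ((-1 * q z : ℝ) : EReal) := fun x y hxy => by
        show x + _ ≤ y + _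
        gcongr
      have h1 := hmono.map_max (a := u z + (q z : EReal)) (b := ((-(j : ℝ) : ℝ) : EReal))
      refine h1.trans ?_
      rw [← EReal.coe_add]
      congr 1
      rw [add_assoc, ← EReal.coe_add]
      have : q z + -1 * q z = 0 := by ring
      rw [this, EReal.coe_zero, add_zero]
    have h1 : IsMA Ω (fun z => Max.max (u z) ((-(j : ℝ) + -1 * q z : ℝ) : EReal)) m :=
      IsMA.congr (IsMA.add_ph hΩ hMA hq' hq0') fun z _ => key z
    refine IsNP.gt hΩ hu hm hp h1 E (fun z hz => ?_) hEm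
    obtain ⟨h2, h3⟩ := hE hz
    refine ⟨h2, ?_⟩
    induction hux : u z with
    | bot =>
      rw [hux, EReal.bot_add] at h3
      exact absurd h3 not_lt_bot
    | top => exact EReal.coe_lt_top _
    | coe r =>
      rw [hux, ← EReal.coe_add, EReal.coe_lt_coe_iff] at h3
      rw [EReal.coe_lt_coe_iff]
      linarith

end Pool.Agent.Helper13.AM
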