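import Pool.Agent.Helper13.AM.B4

/-!
AM-B6. Monge-Ampère measures as limits of mollifications; the interface `HasMA` of Helper29/AM/Glob.lean.

`Dec_Phi_seq`: as `PSH.Dec_Phi` with any decreasing sequence of radii.
`IsMA.tendsto_Phi`: for a sequence `ε_k → 0+` choose a subsequence that is decreasing
(`Filter.tendsto_of_subseq_tendsto`); on a relatively compact open `W ⊆ Ω` with `tsupport χ ⊆ W` the functions
`Phi u.toReal · ε_k` (k large) are `Dec W _ u`.
`MA_of_smooth`: `u` is PSH (`SPsh.psh'`) and LB; for its MA measure `m` (`exists_MA`) the constant sequence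
`v k = u` is `Dec Ω _ u`, so `∫ χ dm = ∫ χ DD u`; uniqueness (`measure_eq_of_CC`).
`IsNP.tendsto_Phi`: `u ≥ -C` everywhere on `G` (`PSH.le_of_ae_le` with a constant), so `u` is LB on `G`
(`PSH.LB_of_le`); `IsNP.mono`, `IsNP.isMA`, `IsMA.tendsto_Phi` on `G`.
-/

set_option autoImplicit false

namespace Pool.Agent.Helper13.AM

open MeasureTheory Set Filter Topology Metric
open Pool.Agent.Helper29.AM
open scoped ComplexOrder

variable {n : ℕ} {Ω G : Set (V n)} {m ν : Measure (V n)}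

theorem PSH.Dec_Phi_seq (hΩ : IsOpen Ω) {u : V n → EReal} (hu : PSH Ω u) {W : Set (V n)}
    {r : ℕ → ℝ} (hr : ∀ k, 0 < r k) (hanti : Antitone r) (hlim : Tendsto r atTop (𝓝 0))
    (hW : W ⊆ shr Ω (r 0)) :
    Dec W (fun k z => Phi (fun z => (u z).toReal) z (r k)) u := by
  have hd := PSH.pshd hΩ hu
  have hsub : ∀ k, W ⊆ shr Ω (r k) := fun k z hz =>
    Subset.trans (Metric.closedBall_subset_closedBall (hanti (Nat.zero_le k))) (hW hz)
  have hr0 : Tendsto r atTop (𝓝[>] 0) :=
    tendsto_nhdsWithin_iff.2 ⟨hlim, Eventually.of_forall hr⟩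
  refine ⟨fun k => SPsh.mono (PSHd.mollify hΩ hd (hr k)) (hsub k), fun k z hz => ?_, fun z hz => ?_⟩
  · exact Phi_mono_radius hΩ hd (hr (k + 1)) (hanti (Nat.le_succ k)) (hsub k hz)
  · have hzΩ : z ∈ Ω := hW hz (Metric.mem_closedBall_self (hr 0).le)
    exact (PSH.tendsto_Phi hΩ hu hzΩ).comp hr0

theorem IsMA.tendsto_Phi (hΩ : IsOpen Ω) {u : V n → EReal} (hu : PSH Ω u) (hm : IsMA Ω u m)
    {χ : V n → ℝ} (hχ : CC Ω χ) :
    Tendsto (fun ε : ℝ => ∫ z, χ z * DD (fun y => Phi (fun z => (u z).toReal) y ε) z) (𝓝[>] 0)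
      (𝓝 (∫ z, χ z ∂m)) := by
  obtain ⟨t, ht, hsub⟩ := exists_subset_shr hΩ hχ.cpt.isCompact hχ.sub
  have hWo : IsOpen (shr Ω t) := isOpen_shr hΩ t
  have hWΩ : shr Ω t ⊆ Ω := fun z hz => hz (Metric.mem_closedBall_self ht.le)
  refine tendsto_of_subseq_tendsto fun ns hns => ?_
  obtain ⟨h1, h2⟩ := tendsto_nhdsWithin_iff.1 hns
  have h3 : ∀ᶠ k in atTop, 0 < ns k ∧ ns k ≤ t := by
    filter_upwards [h2, h1.eventually (Iio_mem_nhds ht)] with k hk hk'
    exact ⟨hk, le_of_lt hk'⟩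
  obtain ⟨N, hN⟩ := eventually_atTop.1 h3
  obtain ⟨g, hg⟩ := exists_increasing_or_nonincreasing_subseq (fun a b : ℝ => b ≤ a)
    (fun k => ns (k + N))
  have hgt : Tendsto g atTop atTop := g.strictMono.tendsto_atTop
  have hgN : Tendsto (fun k => g k + N) atTop atTop :=
    tendsto_atTop_mono (fun k => Nat.le_add_right (g k) N) hgt
  have hlim : Tendsto (fun k => ns (g k + N)) atTop (𝓝 0) := h1.comp hgN
  have hpos : ∀ k, 0 < ns (g k + N) ∧ ns (g k + N) ≤ t := fun k => hN _ (Nat.le_add_left _ _)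
  have hanti : Antitone fun k => ns (g k + N) := by
    rcases hg with hg | hg
    · intro a b hab
      rcases Nat.lt_or_ge a b with h | h
      · exact hg a b h
      · have : a = b := le_antisymm hab h
        rw [this]
    · exfalso
      have h4 : ∀ k, 1 ≤ k → ns (g 0 + N) ≤ ns (g k + N) := fun k hk =>
        (not_le.1 (hg 0 k hk)).le
      have h5 : ns (g 0 + N) ≤ 0 := ge_of_tendsto hlim (by
        filter_upwards [eventually_ge_atTop 1] with k hk
        exact h4 k hk)
      exact absurd (hpos 0).1 (not_lt.2 h5)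
  refine ⟨fun k => g k + N, ?_⟩
  have hD := PSH.Dec_Phi_seq hΩ hu (fun k => (hpos k).1) hanti hlim (W := shr Ω t)
    (fun z hz => Subset.trans (Metric.closedBall_subset_closedBall (hpos 0).2) hz)
  exact hm.lim _ hWo hWΩ _ hD χ ⟨hχ.cont, hχ.cpt, hsub⟩

theorem MA_of_smooth (hΩ : IsOpen Ω) {u : V n → ℝ} (h : SPsh Ω u) :
    IsMA Ω (fun z => (u z : EReal))
      ((volume.restrict Ω).withDensity fun z => ENNReal.ofReal (DD u z)) := by
  have hu : PSH Ω (fun z => (u z : EReal)) := SPsh.psh' hΩ h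
  have hb : LB Ω (fun z => (u z : EReal)) :=
    hu.LB_of_le h.smooth.continuousOn fun z _ => le_refl _
  obtain ⟨m, hm⟩ := exists_MA hΩ hu hb
  have hDc : ContinuousOn (DD u) Ω := (contDiffOn_DD hΩ h.smooth).continuousOn
  have hD : Dec Ω (fun _ => u) (fun z => (u z : EReal)) :=
    ⟨fun _ => h, fun _ _ _ => le_refl _, fun _ _ => tendsto_const_nhds⟩
  set m' := (volume.restrict Ω).withDensity fun z => ENNReal.ofReal (DD u z) with hm'
  have hout : m' Ωᶜ = 0 := by
    refine withDensity_absolutelyContinuous _ _ ?_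
    rw [Measure.restrict_apply hΩ.measurableSet.compl]
    simp
  have hfin : ∀ K ⊆ Ω, IsCompact K → m' K < ⊤ := by
    intro K hK hKc
    have hKm : MeasurableSet K := hKc.isClosed.measurableSet
    rw [hm', withDensity_apply _ hKm, Measure.restrict_restrict hKm, inter_eq_left.2 hK]
    exact Integrable.lintegral_lt_top ((hDc.mono hK).integrableOn_compact hKc)
  have hint : ∀ χ : V n → ℝ, CC Ω χ → ∫ z, χ z ∂m' = ∫ z, χ z * DD u z := by
    intro χ hχ
    have hae : AEMeasurable (fun z => ENNReal.ofReal (DD u z)) (volume.restrict Ω) :=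
      (hDc.aemeasurable hΩ.measurableSet).ennreal_ofReal
    rw [hm', integral_withDensity_eq_integral_toReal_smul₀ hae
      (Eventually.of_forall fun z => ENNReal.ofReal_lt_top)]
    have e1 : ∫ z in Ω, (ENNReal.ofReal (DD u z)).toReal • χ z = ∫ z in Ω, χ z * DD u z := by
      refine setIntegral_congr_fun hΩ.measurableSet fun z hz => ?_
      show (ENNReal.ofReal (DD u z)).toReal • χ z = χ z * DD u z
      rw [ENNReal.toReal_ofReal (SPsh.posSemidef hΩ h hz).2.1, smul_eq_mul, mul_comm]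
    rw [e1]
    refine setIntegral_eq_integral_of_forall_compl_eq_zero fun z hz => ?_
    rw [image_eq_zero_of_notMem_tsupport fun h' => hz (hχ.sub h'), zero_mul]
  have heq : ∀ E ⊆ Ω, MeasurableSet E → m E = m' E := by
    refine measure_eq_of_CC hΩ hm.fin hfin fun χ hχ => ?_
    rw [hint χ hχ]
    have h1 := hm.lim Ω hΩ (Subset.refl _) _ hD χ hχ
    exact tendsto_nhds_unique h1 tendsto_const_nhds
  have hmm : m = m' := by
    ext E hE
    have h1 : m (E ∩ Ω) = m' (E ∩ Ω) := heq _ inter_subset_right (hE.inter hΩ.measurableSet)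
    have h2 : m (E \ Ω) = 0 := measure_mono_null (fun z hz => hz.2) hm.out
    have h3 : m' (E \ Ω) = 0 := measure_mono_null (fun z hz => hz.2) hout
    rw [← measure_inter_add_sdiff E hΩ.measurableSet, ← measure_inter_add_sdiff (μ := m') E hΩ.measurableSet,
      h1, h2, h3]
  rw [← hmm]
  exact hm

/-- on open sets where `u` is bounded below, the non-pluripolar product is the weak limit of the
densities `det hess` of the mollifications -/
theorem IsNP.tendsto_Phi (hΩ : IsOpen Ω) {u : V n → EReal} (hu : PSH Ω u) (hν : IsNP Ω u ν)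
    (hG : IsOpen G) (hs : G ⊆ Ω) {C : ℝ} (hC : ∀ᵐ z, z ∈ G → ((-C : ℝ) : EReal) ≤ u z)
    {χ : V n → ℝ} (hχ : CC G χ) :
    Tendsto (fun ε : ℝ => ∫ z, χ z * DD (fun y => Phi (fun z => (u z).toReal) y ε) z) (𝓝[>] 0)
      (𝓝 (∫ z, χ z ∂ν)) := by
  have huG : PSH G u := hu.mono hs
  have hle : ∀ z ∈ G, ((-C : ℝ) : EReal) ≤ u z :=
    PSH.le_of_ae_le hG (PSH.const G (-C)) huG hC
  have hb : LB G u := huG.LB_of_le (p := fun _ => -C) continuousOn_const hle
  have h1 : IsMA G u (ν.restrict G) := IsNP.isMA hG huG hb (IsNP.mono hΩ hν hG hs)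
  have h2 := IsMA.tendsto_Phi hG huG h1 hχ
  have h3 : ∫ z in G, χ z ∂ν = ∫ z, χ z ∂ν :=
    setIntegral_eq_integral_of_forall_compl_eq_zero fun z hz =>
      image_eq_zero_of_notMem_tsupport fun h' => hz (hχ.sub h')
  rw [h3] at h2
  exact h2

end Pool.Agent.Helper13.AM
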