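import Pool.Agent.Helper13.AM.B2
import Pool.Agent.Helper13.AM.B3
import Pool.Agent.Helper5.AM.Energy

/-!
AM-B7. (11.9) Comparison with a smooth function.

Proof. `u` is PSH and LB on `Ω`, `q` smooth psh on `Ω`, `closedBall z0 R ⊆ Ω`, `u < q` on the shell
`r ≤ ‖z - z0‖ ≤ R`. Let `W` be open, relatively compact in `Ω`, `closedBall z0 R ⊆ W`, and
`Dec W w u` (`PSH.exists_Dec`). By `Dec.dini` on the shell: `w k ≤ q - δ` there for `k ≥ N`. Let
`s k = 1/(k+1)` with `s k < δ` (shift), `f k = RM (s k) (w k) q` (`Dec.RM`: decreases to `max u q`),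
`h k = f k - q = s k mm((w k - q)/s k) ≥ 0`, zero on the shell (`RM_eq_right`), so
extended by zero outside the ball it is smooth with compact support in `ball z0 R`.
Sign: for `t ∈ [0,1]` put `u_t = (1-t) q + t w k` (smooth psh on `W`):
`d/dt ∫ h k DD(u_t) = ∫ h k Lop(u_t)(w k - q) ≤ 0` (Helper5/AM: `fderiv_det`/`hasDerivAt` of the determinant,
`ibp_sign` with `m(x) = s mm(x/s)`, `h' = w k - q`). The functions of Helper5 are smooth on all of `V n`: multiply
`w k`, `q` by a cut-off function equal to `1` near `closedBall z0 R` (only their values near the support of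
`h k` matter; `ibp_sign` needs `lev ≥ 0` only on the support). Hence `∫ h k DD(w k) ≤ ∫ h k DD q`.
Limits: let `χ ∈ CC W` be `1` on `closedBall z0 R'`, `r < R' < R`, with support in `ball z0 R`, `0 ≤ χ ≤ 1`;
`h k = χ h k`. `∫ χ (f k - q) DD(w k) → ∫ χ (max u q - q) dm` (`IsMA.weights` with `f`, and `IsMA.lim` with `χ q`)
and `∫ h k DD q → ∫ χ (max u q - q) DD q` (dominated convergence, `h k` is bounded on the ball).
`χ (max u q - q) = (u - q)⁺` on `ball z0 R` because `u < q` where `χ ≠ 1`.
-/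

set_option autoImplicit false

namespace Pool.Agent.Helper13.AM

open MeasureTheory Set Filter Topology Metric
open Pool.Agent.Helper29.AM
open scoped ComplexOrder

variable {n : ℕ} {Ω : Set (V n)} {u : V n → EReal} {m : Measure (V n)}

/-- product of a cut-off function and a function smooth on an open set -/
private theorem smooth_mul33 {W : Set (V n)} (hW : IsOpen W) {ψ f : V n → ℝ} (hψ : CS W ψ)
    (hf : ContDiffOn ℝ (⊤ : ℕ∞) f W) : ContDiff ℝ (⊤ : ℕ∞) fun z => ψ z * f z := by
  rw [contDiff_iff_contDiffAt]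
  intro z
  by_cases hz : z ∈ tsupport ψ
  · exact hψ.smooth.contDiffAt.mul (hf.contDiffAt (hW.mem_nhds (hψ.sub hz)))
  · have h2 := notMem_tsupport_iff_eventuallyEq.1 hz
    refine (contDiffAt_const (c := (0 : ℝ))).congr_of_eventuallyEq ?_
    filter_upwards [h2] with y hy
    rw [hy]
    simp

private theorem CS_mul33 {W : Set (V n)} (hW : IsOpen W) {ψ f : V n → ℝ} (hψ : CS W ψ)
    (hf : ContDiffOn ℝ (⊤ : ℕ∞) f W) : CS W fun z => ψ z * f z :=
  ⟨smooth_mul33 hW hψ hf, hψ.cpt.mul_right, (tsupport_mul_subset_left (f := ψ) (g := f)).trans hψ.sub⟩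

private theorem setInt33 {z0 : V n} {R : ℝ} {μ : Measure (V n)} {χ p D : V n → ℝ}
    (hχ : CS (ball z0 R) χ) (h : ∀ z ∈ ball z0 R, χ z * p z = p z) :
    ∫ z in ball z0 R, p z * D z ∂μ = ∫ z, χ z * p z * D z ∂μ := by
  rw [← integral_indicator measurableSet_ball]
  refine integral_congr_ae (Eventually.of_forall fun z => ?_)
  show (ball z0 R).indicator (fun z => p z * D z) z = χ z * p z * D z
  by_cases hz : z ∈ ball z0 R
  · rw [indicator_of_mem hz, h z hz]
  · rw [indicator_of_notMem hz, image_eq_zero_of_notMem_tsupport (fun h => hz (hχ.sub h))]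
    ring

private theorem c2_33 {W : Set (V n)} (hW : IsOpen W) {u : V n → ℝ} (hu : ContDiffOn ℝ (⊤ : ℕ∞) u W)
    {z : V n} (hz : z ∈ W) : ContDiffAt ℝ 2 u z :=
  (hu.contDiffAt (hW.mem_nhds hz)).of_le (WithTop.coe_le_coe.2 (le_top : (2 : ℕ∞) ≤ ⊤))

/-- the smooth inequality -/
theorem smooth_comparison {W : Set (V n)} (hW : IsOpen W) {z0 : V n} {r R : ℝ} (hr : 0 < r)
    (hrR : r < R) (hB : closedBall z0 R ⊆ W) {w q : V n → ℝ} (hw : SPsh W w) (hq : SPsh W q)
    {s : ℝ} (hs : 0 < s) (hlt : ∀ z, r ≤ ‖z - z0‖ → ‖z - z0‖ ≤ R → w z + s ≤ q z) :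
    ∫ z in ball z0 R, (RM s (w z) (q z) - q z) * DD w z ≤
      ∫ z in ball z0 R, (RM s (w z) (q z) - q z) * DD q z := by
  have hrW : closedBall z0 r ⊆ W := (closedBall_subset_closedBall hrR.le).trans hB
  obtain ⟨ψ, hψ, hψ01, U, hU, hKU, hU1⟩ := exists_cutoff (Ω := ball z0 R) isOpen_ball
    (isCompact_closedBall z0 r) (closedBall_subset_ball hrR)
  have hψW : CS W ψ := ⟨hψ.smooth, hψ.cpt, hψ.sub.trans (ball_subset_closedBall.trans hB)⟩
  obtain ⟨q', hq'⟩ : ∃ f : V n → ℝ, f = fun z => ψ z * q z := ⟨_, rfl⟩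
  obtain ⟨h, hh⟩ : ∃ f : V n → ℝ, f = fun z => ψ z * (w z - q z) - s * (1 - ψ z) := ⟨_, rfl⟩
  have hq's : ContDiff ℝ (⊤ : ℕ∞) q' := by
    rw [hq']
    exact smooth_mul33 hW hψW hq.smooth
  have hhs : ContDiff ℝ (⊤ : ℕ∞) h := by
    rw [hh]
    exact (smooth_mul33 hW hψW (hw.smooth.sub hq.smooth)).sub
      (contDiff_const.mul (contDiff_const.sub hψ.smooth))
  obtain ⟨m, hm⟩ : ∃ f : ℝ → ℝ, f = fun x => s * mm (x / s) := ⟨_, rfl⟩
  have hms : ContDiff ℝ (⊤ : ℕ∞) m := by
    rw [hm]
    exact contDiff_const.mul (mm_contDiff.comp (contDiff_id.div_const s))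
  have hmono : Monotone m := by
    intro x y hxy
    rw [hm]
    exact mul_le_mul_of_nonneg_left (mm_mono (div_le_div_of_nonneg_right hxy hs.le)) hs.le
  have hm0 : ∀ x, x ≤ -s → m x = 0 := by
    intro x hx
    rw [hm]
    show s * mm (x / s) = 0
    rw [mm_of_le (by rw [div_le_iff₀ hs]; linarith), mul_zero]
  have hout : ∀ z, z ∉ ball z0 r → m (h z) = 0 := by
    intro z hz
    have hz1 : r ≤ ‖z - z0‖ := by
      rw [mem_ball, dist_eq_norm, not_lt] at hz
      exact hz
    refine hm0 _ ?_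
    rw [hh]
    show ψ z * (w z - q z) - s * (1 - ψ z) ≤ -s
    by_cases hzR : ‖z - z0‖ ≤ R
    · have h1 := hlt z hz1 hzR
      have h2 : ψ z * (w z - q z) ≤ ψ z * (-s) :=
        mul_le_mul_of_nonneg_left (by linarith) (hψ01 z).1
      linarith
    · have h1 : ψ z = 0 := by
        refine image_eq_zero_of_notMem_tsupport fun hcon => hzR ?_
        have h3 := hψ.sub hcon
        rw [mem_ball, dist_eq_norm] at h3
        exact h3.le
      rw [h1]
      linarith
  have hin : ∀ z ∈ U, h z = w z - q z ∧ q' z = q z := by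
    intro z hz
    rw [hh, hq']
    show ψ z * (w z - q z) - s * (1 - ψ z) = w z - q z ∧ ψ z * q z = q z
    rw [hU1 z hz]
    constructor <;> ring
  have hts : tsupport (fun z => m (h z)) ⊆ closedBall z0 r := by
    refine closure_minimal ?_ isClosed_closedBall
    intro z hz
    by_contra hcon
    exact hz (hout z fun h1 => hcon (ball_subset_closedBall h1))
  have hcpt : HasCompactSupport fun z => m (h z) :=
    (isCompact_closedBall z0 r).of_isClosed_subset (isClosed_tsupport _) hts
  have hcont : Continuous fun z => m (h z) := hms.continuous.comp hhs.continuous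
  have hval : ∀ z ∈ ball z0 R, m (h z) = RM s (w z) (q z) - q z := by
    intro z hz
    by_cases hz1 : z ∈ ball z0 r
    · rw [(hin z (hKU (ball_subset_closedBall hz1))).1, hm]
      unfold RM
      ring
    · rw [hout z hz1]
      rw [mem_ball, dist_eq_norm] at hz hz1
      rw [RM_eq_right hs (hlt z (not_lt.1 hz1) hz.le), sub_self]
  -- the Hessians near the support
  have eq1 : ∀ z ∈ closedBall z0 r, h =ᶠ[𝓝 z] fun y => w y - q y := by
    intro z hz
    filter_upwards [hU.mem_nhds (hKU hz)] with y hy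
    exact (hin y hy).1
  have eq2 : ∀ z ∈ closedBall z0 r, q' =ᶠ[𝓝 z] q := by
    intro z hz
    filter_upwards [hU.mem_nhds (hKU hz)] with y hy
    exact (hin y hy).2
  have hd : ∀ t : ℝ, HasDerivAt (fun t => ∫ z, m (h z) * Helper5.AM.dre (hess q' z + t • hess h z))
      (∫ z, m (h z) * Helper5.AM.Lm (hess q' z + t • hess h z) (hess h z)) t := fun t =>
    Helper5.AM.hasDerivAt_int hcont hcpt (Helper5.AM.continuous_hess hq's)
      (Helper5.AM.continuous_hess hhs) t
  have hneg : ∀ t : ℝ, t ∈ Icc (0 : ℝ) 1 →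
      ∫ z, m (h z) * Helper5.AM.Lm (hess q' z + t • hess h z) (hess h z) ≤ 0 := by
    intro t ht
    have h1 : ∀ z, m (h z) * Helper5.AM.Lm (hess q' z + t • hess h z) (hess h z) =
        m (h z) * Helper5.AM.Lop (fun y => q' y + t * h y) h z := by
      intro z
      rw [Helper5.AM.Lop_eq_Lm, Helper5.AM.hess_add_smul (hq's.of_le Helper5.AM.two_le_infty)
        (hhs.of_le Helper5.AM.two_le_infty)]
    simp only [h1]
    refine Helper5.AM.ibp_sign (hq's.add (contDiff_const.mul hhs)) hhs hms hmono hcpt ?_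
    intro z hz v
    have hz1 := hts hz
    have e1 : (fun y => q' y + t * h y) =ᶠ[𝓝 z] fun y => (1 - t) * q y + t * w y := by
      filter_upwards [eq1 z hz1, eq2 z hz1] with y h1 h2
      rw [h1, h2]
      ring
    rw [lev_congr e1]
    have cq := c2_33 hW hq.smooth (hrW hz1)
    have cw := c2_33 hW hw.smooth (hrW hz1)
    rw [lev_add (contDiffAt_const.mul cq) (contDiffAt_const.mul cw), lev_const_mul _ cq,
      lev_const_mul _ cw]
    have h3 := hq.psh z (hrW hz1) v
    have h4 := hw.psh z (hrW hz1) v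
    have h5 := mul_nonneg (sub_nonneg.2 ht.2) h3
    have h6 := mul_nonneg ht.1 h4
    linarith
  have hanti : AntitoneOn (fun t : ℝ => ∫ z, m (h z) * Helper5.AM.dre (hess q' z + t • hess h z))
      (Icc (0 : ℝ) 1) := by
    refine antitoneOn_of_deriv_nonpos (convex_Icc 0 1)
      (fun t _ => (hd t).continuousAt.continuousWithinAt)
      (fun t _ => (hd t).differentiableAt.differentiableWithinAt) ?_
    intro t ht
    rw [(hd t).deriv]
    exact hneg t (interior_subset ht)
  have hfin := hanti (left_mem_Icc.2 zero_le_one) (right_mem_Icc.2 zero_le_one) zero_le_one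
  have key : ∀ (c : ℝ) (f : V n → ℝ),
      (∀ z ∈ closedBall z0 r, hess q' z + c • hess h z = hess f z) →
      ∫ z, m (h z) * Helper5.AM.dre (hess q' z + c • hess h z) =
        ∫ z in ball z0 R, (RM s (w z) (q z) - q z) * DD f z := by
    intro c f hf
    rw [← integral_indicator measurableSet_ball]
    refine integral_congr_ae (Eventually.of_forall fun z => ?_)
    show m (h z) * Helper5.AM.dre (hess q' z + c • hess h z) =
      (ball z0 R).indicator (fun z => (RM s (w z) (q z) - q z) * DD f z) z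
    by_cases hz : z ∈ ball z0 R
    · rw [indicator_of_mem hz, ← hval z hz]
      by_cases hz1 : z ∈ ball z0 r
      · rw [hf z (ball_subset_closedBall hz1)]
        rfl
      · rw [hout z hz1, zero_mul, zero_mul]
    · rw [indicator_of_notMem hz, hout z fun h1 => hz (ball_subset_ball hrR.le h1), zero_mul]
  have k0 := key 0 q (by
    intro z hz
    rw [zero_smul, add_zero, hess_congr (eq2 z hz)])
  have k1 := key 1 w (by
    intro z hz
    rw [← Helper5.AM.hess_add_smul (hq's.of_le Helper5.AM.two_le_infty)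
      (hhs.of_le Helper5.AM.two_le_infty)]
    refine hess_congr ?_
    filter_upwards [eq1 z hz, eq2 z hz] with y h1 h2
    rw [h1, h2]
    ring)
  calc ∫ z in ball z0 R, (RM s (w z) (q z) - q z) * DD w z
      = ∫ z, m (h z) * Helper5.AM.dre (hess q' z + (1 : ℝ) • hess h z) := k1.symm
    _ ≤ ∫ z, m (h z) * Helper5.AM.dre (hess q' z + (0 : ℝ) • hess h z) := hfin
    _ = _ := k0

private theorem integrable_of_bdd33 {χ g : V n → ℝ} (hfin : ∀ K ⊆ Ω, IsCompact K → m K < ⊤)
    (hχ : CC Ω χ) (hg : AEStronglyMeasurable (fun z => χ z * g z) m) {C : ℝ}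
    (hb : ∀ z ∈ tsupport χ, |χ z * g z| ≤ C) : Integrable (fun z => χ z * g z) m := by
  have h1 : IntegrableOn (fun z => χ z * g z) (tsupport χ) m := by
    refine Measure.integrableOn_of_bounded (hfin _ hχ.sub hχ.cpt).ne hg (M := C) ?_
    filter_upwards [ae_restrict_mem (isClosed_tsupport χ).measurableSet] with z hz
    exact hb z hz
  rwa [integrableOn_iff_integrable_of_support_subset] at h1
  intro z hz
  by_contra hcon
  exact hz (by simp [image_eq_zero_of_notMem_tsupport hcon])

theorem comparison (hΩ : IsOpen Ω) (hu : PSH Ω u) (hb : LB Ω u) (hm : IsMA Ω u m) {z0 : V n}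
    {r R : ℝ} (hr : 0 < r) (hrR : r < R) (hB : closedBall z0 R ⊆ Ω) {q : V n → ℝ} (hq : SPsh Ω q)
    (hlt : ∀ z, r ≤ ‖z - z0‖ → ‖z - z0‖ ≤ R → u z < (q z : EReal)) :
    ∫ z in ball z0 R, max ((u z).toReal - q z) 0 ∂m ≤
      ∫ z in ball z0 R, max ((u z).toReal - q z) 0 * DD q z := by
  obtain ⟨W, hW, hBW, hcW, hcc⟩ :=
    exists_open_between_and_isCompact_closure (isCompact_closedBall z0 R) hΩ hB
  have hWΩ : W ⊆ Ω := subset_closure.trans hcW
  obtain ⟨w, hw⟩ := hu.exists_Dec hΩ hcc hcW
  have hqW : SPsh W q := SPsh.mono hq hWΩ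
  have hbW : ball z0 R ⊆ W := ball_subset_closedBall.trans hBW
  have hK : IsCompact (closedBall z0 R \ ball z0 r) := (isCompact_closedBall z0 R).diff isOpen_ball
  have hKW : closedBall z0 R \ ball z0 r ⊆ W := diff_subset.trans hBW
  obtain ⟨N, δ, hδ, hN⟩ := hw.dini hK hKW (hqW.smooth.continuousOn.mono hKW) (by
    intro z hz
    have h1 := hz.1
    have h2 := hz.2
    rw [mem_closedBall, dist_eq_norm] at h1
    rw [mem_ball, dist_eq_norm, not_lt] at h2
    exact hlt z h2 h1)
  obtain ⟨χ, hχ, hχ01, U, hU, hKU, hU1⟩ := exists_cutoff (Ω := ball z0 R) isOpen_ball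
    (isCompact_closedBall z0 r) (closedBall_subset_ball hrR)
  have hχW : CS W χ := ⟨hχ.smooth, hχ.cpt, hχ.sub.trans hbW⟩
  have hχΩ : CS Ω χ := ⟨hχ.smooth, hχ.cpt, hχW.sub.trans hWΩ⟩
  have hf := Dec.RM hW hw hqW
  obtain ⟨F, hF⟩ : ∃ F : V n → EReal, F = fun z => max (u z) (q z : EReal) := ⟨_, rfl⟩
  rw [← hF] at hf
  have hFpsh : PSH Ω F := by
    rw [hF]
    exact PSH.max hΩ hu (SPsh.psh' hΩ hq)
  have hFLB : LB Ω F := by
    refine hFpsh.LB_of_le hq.smooth.continuousOn fun z _ => ?_
    rw [hF]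
    exact le_max_right _ _
  have huR : ∀ z ∈ Ω, u z = (((u z).toReal : ℝ) : EReal) := by
    intro z hz
    obtain ⟨C, hC⟩ := hb {z} (singleton_subset_iff.2 hz) isCompact_singleton
    obtain ⟨h1, h2⟩ := hC z rfl
    refine (EReal.coe_toReal ?_ ?_).symm
    · intro hcon
      rw [hcon] at h2
      exact absurd (top_le_iff.1 h2) (EReal.coe_ne_top C)
    · intro hcon
      rw [hcon] at h1
      exact absurd (le_bot_iff.1 h1) (EReal.coe_ne_bot (-C))
  have hFR : ∀ z ∈ Ω, F z = ((max (u z).toReal (q z) : ℝ) : EReal) := by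
    intro z hz
    rw [hF]
    show max (u z) (q z : EReal) = _
    rw [EReal.coe_strictMono.monotone.map_max, ← huR z hz]
  have hFt : ∀ z ∈ Ω, (F z).toReal = max (u z).toReal (q z) := by
    intro z hz
    rw [hFR z hz, EReal.toReal_coe]
  obtain ⟨f, hfd⟩ : ∃ f : ℕ → V n → ℝ, f = fun (k : ℕ) z => RM (1 / ((k : ℝ) + 1)) (w k z) (q z) := ⟨_, rfl⟩
  rw [← hfd] at hf
  have hs : ∀ k : ℕ, 0 < 1 / ((k : ℝ) + 1) := fun k => by positivity
  have hfq : ∀ k z, q z ≤ f k z := by
    intro k z
    rw [hfd]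
    exact (le_max_right _ _).trans (max_le_RM (hs k) (w k z) (q z))
  -- eventually the shell inequality
  have hev : ∀ᶠ k : ℕ in atTop, N ≤ k ∧ 1 / ((k : ℝ) + 1) ≤ δ := by
    have h1 : Tendsto (fun k : ℕ => 1 / ((k : ℝ) + 1)) atTop (𝓝 0) := tendsto_one_div_add_atTop_nhds_zero_nat
    filter_upwards [eventually_ge_atTop N, h1.eventually (gt_mem_nhds hδ)] with k h2 h3
    exact ⟨h2, le_of_lt h3⟩
  have hshell : ∀ k : ℕ, N ≤ k ∧ 1 / ((k : ℝ) + 1) ≤ δ → ∀ z, r ≤ ‖z - z0‖ → ‖z - z0‖ ≤ R →
      w k z + 1 / ((k : ℝ) + 1) ≤ q z := by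
    intro k hk z h1 h2
    have h3 := hN k hk.1 z ⟨by rw [mem_closedBall, dist_eq_norm]; exact h2, by
      rw [mem_ball, dist_eq_norm, not_lt]; exact h1⟩
    linarith [hk.2]
  have hχf : ∀ k : ℕ, N ≤ k ∧ 1 / ((k : ℝ) + 1) ≤ δ → ∀ z ∈ ball z0 R,
      χ z * (f k z - q z) = f k z - q z := by
    intro k hk z hz
    by_cases hz1 : z ∈ closedBall z0 r
    · rw [hU1 z (hKU hz1), one_mul]
    · rw [mem_closedBall, dist_eq_norm, not_le] at hz1
      rw [mem_ball, dist_eq_norm] at hz
      rw [hfd]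
      show χ z * (RM (1 / ((k : ℝ) + 1)) (w k z) (q z) - q z) = RM (1 / ((k : ℝ) + 1)) (w k z) (q z) - q z
      rw [RM_eq_right (hs k) (hshell k hk z hz1.le hz.le), sub_self, mul_zero]
  -- the left side
  have hA := hm.weights hΩ hu hb hFLB hW hWΩ hw hf hχW.cc
  have hχq : CS W (fun z => χ z * q z) := CS_mul33 hW hχW hqW.smooth
  have hB' := hm.lim W hW hWΩ w hw _ hχq.cc
  have hL : ∀ᶠ k : ℕ in atTop, ∫ z in ball z0 R, (f k z - q z) * DD (w k) z =
      (∫ z, χ z * f k z * DD (w k) z) - ∫ z, χ z * q z * DD (w k) z := by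
    filter_upwards [hev] with k hk
    rw [setInt33 (D := DD (w k)) hχ (hχf k hk), ← integral_sub
      (integrable_mul_DD hW (hw.psh k).smooth (CS_mul33 hW hχW (hf.psh k).smooth).cc)
      (integrable_mul_DD hW (hw.psh k).smooth hχq.cc)]
    refine integral_congr_ae (Eventually.of_forall fun z => ?_)
    show χ z * (f k z - q z) * DD (w k) z = χ z * f k z * DD (w k) z - χ z * q z * DD (w k) z
    ring
  have hLlim : Tendsto (fun k => ∫ z in ball z0 R, (f k z - q z) * DD (w k) z) atTop
      (𝓝 ((∫ z, χ z * (F z).toReal ∂m) - ∫ z, χ z * q z ∂m)) := by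
    refine (hA.sub hB').congr' ?_
    filter_upwards [hL] with k hk
    exact hk.symm
  -- the right side
  have hRlim : Tendsto (fun k => ∫ z in ball z0 R, (f k z - q z) * DD q z) atTop
      (𝓝 (∫ z, χ z * (max (u z).toReal (q z) - q z) * DD q z)) := by
    have h1 : Tendsto (fun k => ∫ z, χ z * (f k z - q z) * DD q z) atTop
        (𝓝 (∫ z, χ z * (max (u z).toReal (q z) - q z) * DD q z)) := by
      refine tendsto_integral_of_dominated_convergence
        (fun z => χ z * (f 0 z - q z) * DD q z) ?_ ?_ ?_ ?_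
      · intro k
        exact (integrable_mul_DD hW hqW.smooth (CS_mul33 hW hχW
          ((hf.psh k).smooth.sub hqW.smooth)).cc).aestronglyMeasurable
      · exact integrable_mul_DD hW hqW.smooth (CS_mul33 hW hχW
          ((hf.psh 0).smooth.sub hqW.smooth)).cc
      · intro k
        refine Eventually.of_forall fun z => ?_
        by_cases hz : z ∈ tsupport χ
        · have hzW := hχW.sub hz
          have h2 := (SPsh.posSemidef hW hqW hzW).2.1
          have h3 : Antitone fun k => f k z := antitone_nat_of_succ_le fun k => hf.anti k z hzW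
          have h4 := h3 (Nat.zero_le k)
          have h5 := hfq k z
          have h6 := (hχ01 z).1
          have h7 : 0 ≤ χ z * (f k z - q z) := mul_nonneg h6 (by linarith)
          rw [Real.norm_eq_abs, abs_of_nonneg (mul_nonneg h7 h2)]
          refine mul_le_mul_of_nonneg_right (mul_le_mul_of_nonneg_left ?_ h6) h2
          simp only at h4
          linarith
        · rw [image_eq_zero_of_notMem_tsupport hz]
          simp
      · refine Eventually.of_forall fun z => ?_
        by_cases hz : z ∈ tsupport χ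
        · have hzW := hχW.sub hz
          have h2 := hf.lim z hzW
          rw [hFR z (hWΩ hzW)] at h2
          have h3 : Tendsto (fun k => f k z) atTop (𝓝 (max (u z).toReal (q z))) :=
            EReal.tendsto_coe.1 h2
          exact ((h3.sub_const _).const_mul _).mul_const _
        · rw [image_eq_zero_of_notMem_tsupport hz]
          simp
    refine h1.congr' ?_
    filter_upwards [hev] with k hk
    exact (setInt33 (D := DD q) hχ (hχf k hk)).symm
  have hineq : (∫ z, χ z * (F z).toReal ∂m) - ∫ z, χ z * q z ∂m ≤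
      ∫ z, χ z * (max (u z).toReal (q z) - q z) * DD q z := by
    refine le_of_tendsto_of_tendsto hLlim hRlim ?_
    filter_upwards [hev] with k hk
    have h1 := smooth_comparison hW hr hrR hBW (hw.psh k) hqW (hs k) (hshell k hk)
    rw [hfd]
    exact h1
  -- identification of the limits
  have hmax : ∀ z, max ((u z).toReal - q z) 0 = max (u z).toReal (q z) - q z := by
    intro z
    rw [← max_sub_sub_right, sub_self]
  have hχm : ∀ z ∈ ball z0 R, χ z * (max (u z).toReal (q z) - q z) = max (u z).toReal (q z) - q z := by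
    intro z hz
    by_cases hz1 : z ∈ closedBall z0 r
    · rw [hU1 z (hKU hz1), one_mul]
    · rw [mem_closedBall, dist_eq_norm, not_le] at hz1
      rw [mem_ball, dist_eq_norm] at hz
      have h2 := hlt z hz1.le hz.le
      have h3 : z ∈ Ω := hB (by rw [mem_closedBall, dist_eq_norm]; exact hz.le)
      rw [huR z h3, EReal.coe_lt_coe_iff] at h2
      rw [max_eq_right h2.le, sub_self, mul_zero]
  simp only [hmax]
  rw [setInt33 (D := DD q) hχ hχm]
  refine le_trans (le_of_eq ?_) hineq
  have e1 : ∫ z in ball z0 R, (max (u z).toReal (q z) - q z) ∂m =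
      ∫ z, χ z * (max (u z).toReal (q z) - q z) ∂m := by
    have h1 := setInt33 (μ := m) (D := fun _ => (1 : ℝ)) hχ hχm
    simpa using h1
  rw [e1]
  obtain ⟨C, hC⟩ := hFLB (tsupport χ) hχΩ.sub hχ.cpt
  have hi1 : Integrable (fun z => χ z * (F z).toReal) m := by
    refine integrable_of_bdd33 hm.fin hχΩ.cc ?_ (C := |C|) ?_
    · have h1 : (fun z => χ z * (F z).toReal) = fun z => χ z * (Ω.indicator F z).toReal := by
        funext z
        by_cases hz : z ∈ Ω
        · rw [indicator_of_mem hz]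
        · rw [image_eq_zero_of_notMem_tsupport (fun h => hz (hχΩ.sub h)), zero_mul, zero_mul]
      rw [h1]
      exact (hχ.smooth.continuous.measurable.mul
        (hFpsh.measurable hΩ).ereal_toReal).aestronglyMeasurable
    · intro z hz
      obtain ⟨h1, h2⟩ := hC z hz
      have hzΩ := hχΩ.sub hz
      rw [hFR z hzΩ, EReal.coe_le_coe_iff] at h1 h2
      rw [hFt z hzΩ, abs_mul, abs_of_nonneg (hχ01 z).1]
      have h3 : |max (u z).toReal (q z)| ≤ |C| :=
        abs_le.2 ⟨by linarith [le_abs_self C], h2.trans (le_abs_self C)⟩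
      calc χ z * |max (u z).toReal (q z)| ≤ 1 * |C| :=
            mul_le_mul (hχ01 z).2 h3 (abs_nonneg _) zero_le_one
        _ = |C| := one_mul _
  have hi2 : Integrable (fun z => χ z * q z) m := by
    obtain ⟨C2, hC2⟩ := hχq.cpt.exists_bound_of_continuous hχq.smooth.continuous
    refine integrable_of_bdd33 hm.fin hχΩ.cc hχq.smooth.continuous.measurable.aestronglyMeasurable
      (C := C2) fun z _ => hC2 z
  rw [← integral_sub hi1 hi2]
  refine integral_congr_ae (Eventually.of_forall fun z => ?_)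
  show χ z * (max (u z).toReal (q z) - q z) = χ z * (F z).toReal - χ z * q z
  by_cases hz : z ∈ Ω
  · rw [hFt z hz]
    ring
  · rw [image_eq_zero_of_notMem_tsupport (fun h => hz (hχΩ.sub h))]
    ring

end Pool.Agent.Helper13.AM
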