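import Pool.Agent.Helper29.AM.Defs

/-!
# Project AM (MP_5d2bda_an): plurisubharmonic functions, Monge-Ampère measures (local definitions)

`u_{j k̄}` is `hess u`, `DD u = det (u_{j k̄})`; the constant `c_n` in `(dd^c u)^n = c_n det(u_{j k̄}) λ`
is dropped.
-/

set_option autoImplicit false

namespace Pool.Agent.Helper13.AM

open MeasureTheory Set Filter Topology
open Pool.Agent.Helper29.AM

variable {n : ℕ}

/-- smooth functions with compact support in `Ω` -/
structure CS (Ω : Set (V n)) (χ : V n → ℝ) : Prop where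
  smooth : ContDiff ℝ (⊤ : ℕ∞) χ
  cpt : HasCompactSupport χ
  sub : tsupport χ ⊆ Ω

/-- locally bounded -/
def LB (Ω : Set (V n)) (u : V n → EReal) : Prop :=
  ∀ K ⊆ Ω, IsCompact K → ∃ C : ℝ, ∀ z ∈ K, ((-C : ℝ) : EReal) ≤ u z ∧ u z ≤ (C : EReal)

end Pool.Agent.Helper13.AM
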