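import Pool.Agent.Helper13.AM.Defs
import Pool.Agent.Helper5.AM.Final
import Pool.Agent.Helper29.AM.Lev

/-!
AM-E0 (owner helper5): (11.3)-(11.5), the output of the energy part. `PP z0 R A k v`: `v` is a smooth psh
function on `V n` that is equal to `ρ₀ = A(‖z - z0‖² - R²) + k` outside a ball of radius `r < R`.
-/

set_option autoImplicit false

namespace Pool.Agent.Helper13.AM

open MeasureTheory Set Filter Topology Metric
open Pool.Agent.Helper29.AM
open scoped ComplexOrder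

variable {n : ℕ}

structure PP (z0 : V n) (R A k : ℝ) (v : V n → ℝ) : Prop where
  psh : SPsh univ v
  eq : ∃ r : ℝ, r < R ∧ ∀ z : V n, r ≤ ‖z - z0‖ → v z = A * (‖z - z0‖ ^ 2 - R ^ 2) + k

private noncomputable def rho0_h5 (z0 : V n) (R A κ : ℝ) : V n → ℝ :=
  fun z => A * (‖z - z0‖ ^ 2 - R ^ 2) + κ

private theorem contDiff_rho0_h5 (z0 : V n) (R A κ : ℝ) : ContDiff ℝ (⊤ : ℕ∞) (rho0_h5 z0 R A κ) := by
  have h1 : ContDiff ℝ (⊤ : ℕ∞) fun z : V n => ‖z - z0‖ ^ 2 :=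
    (contDiff_norm_sq ℝ).comp (contDiff_id.sub contDiff_const)
  exact (contDiff_const.mul (h1.sub contDiff_const)).add contDiff_const

private theorem D2_const_h5 (c : ℝ) (z v w : V n) : D2 (fun _ : V n => c) z v w = 0 := by
  unfold D2
  have h1 : fderiv ℝ (fun _ : V n => c) = fun _ => 0 := by
    funext y; simp
  rw [h1]; simp

private theorem lev_rho0_h5 (z0 : V n) (R A κ : ℝ) (z w : V n) :
    lev (rho0_h5 z0 R A κ) z w = A * ‖w‖ ^ 2 := by
  have e1 : rho0_h5 z0 R A κ = fun y => (κ - A * R ^ 2) + A * ‖y - z0‖ ^ 2 := by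
    funext y; unfold rho0_h5; ring
  have h1 : ContDiff ℝ 2 fun z : V n => ‖z - z0‖ ^ 2 :=
    (contDiff_norm_sq ℝ).comp (contDiff_id.sub contDiff_const)
  rw [e1, Helper5.AM.lev_add_smul contDiff_const h1, lev_normSq]
  have h2 : lev (fun _ : V n => κ - A * R ^ 2) z w = 0 := by
    unfold lev; rw [D2_const_h5, D2_const_h5]; simp
  rw [h2, zero_add]

private theorem ref_h5 (z0 : V n) {R A : ℝ} (hA : 0 < A) (κ : ℝ) :
    Helper5.AM.Ref (rho0_h5 z0 R A κ) :=
  ⟨contDiff_rho0_h5 z0 R A κ, ⟨A, hA, fun z w => (lev_rho0_h5 z0 R A κ z w).ge⟩⟩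

private theorem pp_h5 {z0 : V n} {R A κ : ℝ} {v : V n → ℝ} (hv : PP z0 R A κ v) :
    Helper5.AM.PP (ball z0 R) (rho0_h5 z0 R A κ) v := by
  obtain ⟨r, hr, he⟩ := hv.eq
  have hsub : tsupport (fun z => v z - rho0_h5 z0 R A κ z) ⊆ closedBall z0 r := by
    refine closure_minimal (fun z hz => ?_) isClosed_closedBall
    by_contra hzc
    rw [mem_closedBall, dist_eq_norm, not_le] at hzc
    exact hz (by show v z - rho0_h5 z0 R A κ z = 0; rw [he z hzc.le]; unfold rho0_h5; ring)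
  refine ⟨contDiffOn_univ.1 hv.psh.smooth, fun z w => hv.psh.psh z (mem_univ z) w, ?_, ?_⟩
  · exact (isCompact_closedBall z0 r).of_isClosed_subset (isClosed_tsupport _) hsub
  · exact hsub.trans (closedBall_subset_ball hr)

private theorem anti_h5 {vk : ℕ → V n → ℝ} (h : ∀ k z, vk (k + 1) z ≤ vk k z) : Antitone vk :=
  antitone_nat_of_succ_le fun k z => h k z

theorem energy_limit {z0 : V n} {R A κ : ℝ} (hR : 0 < R) (hA : 0 < A) (v : V n → ℝ) :
    ∃ m : Measure (V n), IsFiniteMeasure m ∧ m (ball z0 R)ᶜ = 0 ∧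
      ∀ vk : ℕ → V n → ℝ, (∀ k, PP z0 R A κ (vk k)) → (∀ k z, vk (k + 1) z ≤ vk k z) →
        (∀ z, Tendsto (fun k => vk k z) atTop (𝓝 (v z))) → (∃ C : ℝ, ∀ z ∈ ball z0 R, -C ≤ v z) →
        (∀ χ : V n → ℝ, CC (ball z0 R) χ →
          Tendsto (fun k => ∫ z, χ z * DD (vk k) z) atTop (𝓝 (∫ z, χ z ∂m))) ∧
        ∀ (f : V n → ℝ) (fk : ℕ → V n → ℝ), (∀ k, PP z0 R A κ (fk k)) →
          (∀ k z, fk (k + 1) z ≤ fk k z) →
          (∀ z, Tendsto (fun k => fk k z) atTop (𝓝 (f z))) → (∃ C : ℝ, ∀ z ∈ ball z0 R, -C ≤ f z) →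
          ∀ χ : V n → ℝ, CC (ball z0 R) χ →
            Tendsto (fun k => ∫ z, χ z * fk k z * DD (vk k) z) atTop (𝓝 (∫ z, χ z * f z ∂m)) := by
  set r := rho0_h5 z0 R A κ with hrdef
  have hr : Helper5.AM.Ref r := ref_h5 z0 hA κ
  obtain ⟨m, hreg, hm⟩ := Helper5.AM.exists_measure (B := ball z0 R) isBounded_ball hr v
  have hfinm : m (ball z0 R) < ⊤ :=
    lt_of_le_of_lt (measure_mono ball_subset_closedBall) (isCompact_closedBall z0 R).measure_lt_top
  -- lower bounds relative to `r`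
  have hlow : ∀ f : V n → ℝ, (∃ C : ℝ, ∀ z ∈ ball z0 R, -C ≤ f z) →
      ∃ C : ℝ, ∀ z ∈ ball z0 R, r z - C ≤ f z := by
    rintro f ⟨C, hC⟩
    refine ⟨κ + C, fun z hz => ?_⟩
    have h1 := hC z hz
    have h2 : ‖z - z0‖ < R := by rwa [mem_ball, dist_eq_norm] at hz
    have h3 : ‖z - z0‖ ^ 2 ≤ R ^ 2 := pow_le_pow_left₀ (norm_nonneg _) h2.le 2
    have h4 : A * (‖z - z0‖ ^ 2 - R ^ 2) ≤ 0 := by nlinarith
    have h5 : r z = A * (‖z - z0‖ ^ 2 - R ^ 2) + κ := rfl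
    linarith
  -- functions with support in the ball
  have hrestr : ∀ h : V n → ℝ, (∀ z, z ∉ ball z0 R → h z = 0) →
      ∫ z, h z ∂(m.restrict (ball z0 R)) = ∫ z, h z ∂m := fun h h0 =>
    setIntegral_eq_integral_of_forall_compl_eq_zero h0
  refine ⟨m.restrict (ball z0 R), ⟨by rwa [Measure.restrict_apply_univ]⟩, ?_, ?_⟩
  · rw [Measure.restrict_apply isOpen_ball.measurableSet.compl, compl_inter_self, measure_empty]
  intro vk hvk hva hvl hvlow
  have hdec : Helper5.AM.Dec (ball z0 R) r vk v :=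
    ⟨fun k => pp_h5 (hvk k), anti_h5 hva, fun z _ => hvl z, hlow v hvlow⟩
  have hmv := hm vk hdec
  have hout : ∀ {χ : V n → ℝ}, CC (ball z0 R) χ → ∀ z, z ∉ ball z0 R → χ z = 0 := fun hχ z hz =>
    image_eq_zero_of_notMem_tsupport fun h => hz (hχ.sub h)
  constructor
  · intro χ hχ
    rw [hrestr χ (hout hχ)]
    exact hmv χ hχ.cont hχ.cpt
  · intro f fk hfk hfa hfl hflow χ hχ
    have hdecf : Helper5.AM.Dec (ball z0 R) r fk f :=
      ⟨fun k => pp_h5 (hfk k), anti_h5 hfa, fun z _ => hfl z, hlow f hflow⟩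
    have h1 := Helper5.AM.tendsto_weights (m := m) isOpen_ball.measurableSet isBounded_ball hr hdec
      hdecf hmv hχ.cont hχ.cpt
    have h2 : ∫ z, χ z * f z ∂(m.restrict (ball z0 R)) =
        ∫ z, χ z * Helper5.AM.ext (ball z0 R) r f z ∂m := by
      rw [hrestr (fun z => χ z * f z) (fun z hz => by simp [hout hχ z hz])]
      refine integral_congr_ae (Eventually.of_forall fun z => ?_)
      show χ z * f z = χ z * Helper5.AM.ext (ball z0 R) r f z
      by_cases hz : z ∈ ball z0 R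
      · unfold Helper5.AM.ext; simp only [if_pos hz]
      · rw [hout hχ z hz]; simp
    rw [h2]
    exact h1

end Pool.Agent.Helper13.AM
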