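import Pool.Agent.Helper13.AM.Defs

/-!
AM-K1. The regularised maximum.

`mm x = ∫_{-1}^x S((s+1)/2) ds`, `S = Real.smoothTransition` (smooth, nondecreasing, `0` on
`(-∞,0]`, `1` on `[1,∞)`, `S(x) + S(1-x) = 1`). So `mm` is smooth, `mm' = S((x+1)/2) ∈ [0,1]` is
nondecreasing, `mm = 0` on `(-∞,-1]`, `mm 1 = ∫_{-1}^1 S((s+1)/2) ds = 1` (symmetry), hence
`mm x = x` for `x ≥ 1`. `mm ≥ 0`, and `mm x ≥ x` (for `x ≤ 1`: `x - mm x` is nondecreasing, `0` at
`1`). `mm x ≤ max x 0 + 1`. Perspective: `s ↦ s mm(x/s)` has derivative `mm y - y mm' y`,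
`y = x/s`, and `y ↦ mm y - y mm' y` has derivative `-y mm''(y)`: it is `≥ 0` because it vanishes
for `|y| ≥ 1` (or: by convexity `mm 0 ≥ mm y - y mm' y`... use: `mm` convex and `mm y = y⁺` for
`|y| ≥ 1`; any proof is fine, e.g. convexity: for `t ≥ s > 0`, `y = x/t` is between `x/s` and `0`,
`x/t = (s/t)(x/s) + (1 - s/t) (c)` with ... ). An easy way: for `y ≥ 0`: `mm y - y mm' y =
(mm y - y) + y (1 - mm' y) ≥ 0`; for `y ≤ 0` both terms are `≥ 0`.

`RM s x y = y + s mm((x-y)/s)`; `RM s x y = x + s mm((y-x)/s)` too, by `mm(-y) = mm y - y`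
(symmetry of `S`), this gives monotonicity in `y`.
-/

set_option autoImplicit false

namespace Pool.Agent.Helper13.AM

open MeasureTheory Set Filter Topology Metric
open Pool.Agent.Helper29.AM

/-- smooth convex function, `0` on `(-∞,-1]`, `x` on `[1,∞)` -/
noncomputable def mm (x : ℝ) : ℝ := ∫ s in (-1 : ℝ)..x, Real.smoothTransition ((s + 1) / 2)

/-- regularised maximum -/
noncomputable def RM (s x y : ℝ) : ℝ := y + s * mm ((x - y) / s)

private noncomputable def gg53 (x : ℝ) : ℝ := Real.smoothTransition ((x + 1) / 2)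

private theorem gg53_mono : Monotone gg53 := by
  intro a b h
  exact Real.smoothTransition.monotone (by linarith)

private theorem gg53_cont : Continuous gg53 :=
  Real.smoothTransition.continuous.comp ((continuous_id.add continuous_const).div_const 2)

private theorem mm_hasDerivAt53 (x : ℝ) : HasDerivAt mm (gg53 x) x :=
  (gg53_cont.integral_hasStrictDerivAt (-1) x).hasDerivAt

private theorem gg53_neg (x : ℝ) : gg53 (-x) = 1 - gg53 x := by
  have h1 : (-x + 1) / 2 = 1 - (x + 1) / 2 := by ring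
  unfold gg53
  rw [h1]
  generalize (x + 1) / 2 = y
  have h2 := Real.smoothTransition.pos_denom y
  have h3 := Real.smoothTransition.pos_denom (1 - y)
  unfold Real.smoothTransition
  rw [sub_sub_cancel] at h3 ⊢
  rw [eq_sub_iff_add_eq, add_comm (expNegInvGlue (1 - y)) (expNegInvGlue y), ← add_div,
    add_comm (expNegInvGlue (1 - y)) (expNegInvGlue y), div_self h2.ne']

private theorem mm_neg53 (x : ℝ) : mm (-x) = mm x - x := by
  have h : ∀ y, HasDerivAt (fun y => mm (-y) - mm y + y) 0 y := by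
    intro y
    have h1 : HasDerivAt (fun y => mm (-y)) (gg53 (-y) * (-1)) y :=
      (mm_hasDerivAt53 (-y)).comp y (hasDerivAt_neg y)
    have h2 := (h1.sub (mm_hasDerivAt53 y)).add (hasDerivAt_id y)
    have e : gg53 (-y) * (-1) - gg53 y + 1 = 0 := by rw [gg53_neg]; ring
    rw [e] at h2
    exact h2
  have h3 := is_const_of_deriv_eq_zero (fun y => (h y).differentiableAt) (fun y => (h y).deriv) x 0
  simp only [neg_zero] at h3
  linarith

theorem mm_contDiff : ContDiff ℝ (⊤ : ℕ∞) mm := by
  rw [contDiff_infty_iff_deriv]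
  refine ⟨fun x => (mm_hasDerivAt53 x).differentiableAt, ?_⟩
  have h : deriv mm = gg53 := by
    funext x
    exact (mm_hasDerivAt53 x).deriv
  rw [h]
  exact Real.smoothTransition.contDiff.comp ((contDiff_id.add contDiff_const).div_const 2)

theorem mm_hasDerivAt (x : ℝ) : HasDerivAt mm (Real.smoothTransition ((x + 1) / 2)) x := by
  exact mm_hasDerivAt53 x

theorem mm_deriv_mem (x : ℝ) : 0 ≤ deriv mm x ∧ deriv mm x ≤ 1 := by
  rw [(mm_hasDerivAt53 x).deriv]
  exact ⟨Real.smoothTransition.nonneg _, Real.smoothTransition.le_one _⟩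

theorem mm_deriv2_nonneg (x : ℝ) : 0 ≤ deriv (deriv mm) x := by
  have h : deriv mm = gg53 := by
    funext x
    exact (mm_hasDerivAt53 x).deriv
  rw [h]
  exact gg53_mono.deriv_nonneg

theorem mm_of_le {x : ℝ} (h : x ≤ -1) : mm x = 0 := by
  rw [mm, intervalIntegral.integral_symm]
  have h1 : ∫ s in x..(-1 : ℝ), Real.smoothTransition ((s + 1) / 2) = ∫ s in x..(-1 : ℝ), (0 : ℝ) := by
    refine intervalIntegral.integral_congr (fun s hs => ?_)
    rw [uIcc_of_le h] at hs
    exact Real.smoothTransition.zero_of_nonpos (by linarith [hs.2])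
  rw [h1]
  simp

theorem mm_of_ge {x : ℝ} (h : 1 ≤ x) : mm x = x := by
  have h1 := mm_neg53 x
  rw [mm_of_le (by linarith)] at h1
  linarith

theorem mm_neg (x : ℝ) : mm (-x) = mm x - x := by
  exact mm_neg53 x

theorem mm_mono : Monotone mm := by
  exact monotone_of_deriv_nonneg (fun x => (mm_hasDerivAt53 x).differentiableAt)
    (fun x => (mm_deriv_mem x).1)

theorem max_le_mm (x : ℝ) : max x 0 ≤ mm x := by
  have h0 : ∀ y, 0 ≤ mm y := by
    intro y
    rw [← mm_of_le (min_le_right y (-1))]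
    exact mm_mono (min_le_left y (-1))
  have h1 := h0 (-x)
  rw [mm_neg] at h1
  exact max_le (by linarith) (h0 x)

theorem mm_le (x : ℝ) : mm x ≤ max x 0 + 1 := by
  rcases le_total x 1 with h | h
  · have h1 := mm_mono h
    rw [mm_of_ge le_rfl] at h1
    have := le_max_right x 0
    linarith
  · rw [mm_of_ge h]
    have := le_max_left x 0
    linarith

theorem mm_persp {s t x : ℝ} (hs : 0 < s) (hst : s ≤ t) : s * mm (x / s) ≤ t * mm (x / t) := by
  have ht : 0 < t := hs.trans_le hst
  have hl : s / t ≤ 1 := (div_le_one ht).2 hst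
  have hl0 : 0 < s / t := div_pos hs ht
  have hm0 : 0 ≤ mm (x / s) := (le_max_right _ _).trans (max_le_mm _)
  have hm1 : x / s ≤ mm (x / s) := (le_max_left _ _).trans (max_le_mm _)
  have hb : x / t = s / t * (x / s) := by
    field_simp
  have key : s / t * mm (x / s) ≤ mm (x / t) := by
    rw [hb]
    rcases le_total 0 (x / s) with h | h
    · have hle : s / t * (x / s) ≤ x / s := by nlinarith
      have h1 : mm (-(x / s)) ≤ mm (-(s / t * (x / s))) := mm_mono (neg_le_neg hle)
      rw [mm_neg, mm_neg] at h1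
      nlinarith
    · have hle : x / s ≤ s / t * (x / s) := by nlinarith
      have h1 := mm_mono hle
      nlinarith
  have h2 := mul_le_mul_of_nonneg_left key ht.le
  rwa [← mul_assoc, mul_div_cancel₀ s ht.ne'] at h2

theorem RM_contDiff (s : ℝ) : ContDiff ℝ (⊤ : ℕ∞) (fun p : ℝ × ℝ => RM s p.1 p.2) := by
  exact contDiff_snd.add (contDiff_const.mul
    (mm_contDiff.comp ((contDiff_fst.sub contDiff_snd).div_const s)))

theorem max_le_RM {s : ℝ} (hs : 0 < s) (x y : ℝ) : max x y ≤ RM s x y := by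
  have h := max_le_mm ((x - y) / s)
  have h1 : (x - y) / s ≤ mm ((x - y) / s) := (le_max_left _ _).trans h
  have h2 : 0 ≤ mm ((x - y) / s) := (le_max_right _ _).trans h
  rw [div_le_iff₀ hs] at h1
  have h3 := mul_nonneg hs.le h2
  unfold RM
  exact max_le (by linarith) (by linarith)

theorem RM_le {s : ℝ} (hs : 0 < s) (x y : ℝ) : RM s x y ≤ max x y + s := by
  have h := mm_le ((x - y) / s)
  have h1 := mul_le_mul_of_nonneg_left h hs.le
  rw [mul_add, mul_one, mul_max_of_nonneg _ _ hs.le, mul_div_cancel₀ _ hs.ne', mul_zero] at h1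
  have h2 : max (x - y) 0 = max x y - y := by
    rw [← max_sub_sub_right, sub_self]
  unfold RM
  linarith

theorem RM_mono {s s' x x' y y' : ℝ} (hs : 0 < s) (hss : s ≤ s') (hx : x ≤ x') (hy : y ≤ y') :
    RM s x y ≤ RM s' x' y' := by
  have hs' : 0 < s' := hs.trans_le hss
  have e : ∀ x y : ℝ, RM s' x y = x + s' * mm ((y - x) / s') := by
    intro x y
    have h1 : (x - y) / s' = -((y - x) / s') := by ring
    rw [RM, h1, mm_neg, mul_sub, mul_div_cancel₀ _ hs'.ne']
    ring
  have h1 : RM s x y ≤ RM s' x y := by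
    have := mm_persp (x := x - y) hs hss
    unfold RM
    linarith
  have h2 : RM s' x y ≤ RM s' x' y := by
    have h3 : (x - y) / s' ≤ (x' - y) / s' := div_le_div_of_nonneg_right (by linarith) hs'.le
    have := mul_le_mul_of_nonneg_left (mm_mono h3) hs'.le
    unfold RM
    linarith
  have h3 : RM s' x' y ≤ RM s' x' y' := by
    rw [e, e]
    have h4 : (y - x') / s' ≤ (y' - x') / s' := div_le_div_of_nonneg_right (by linarith) hs'.le
    have := mul_le_mul_of_nonneg_left (mm_mono h4) hs'.le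
    linarith
  exact h1.trans (h2.trans h3)

theorem RM_eq_left {s x y : ℝ} (hs : 0 < s) (h : y + s ≤ x) : RM s x y = x := by
  have h1 : 1 ≤ (x - y) / s := by rw [le_div_iff₀ hs]; linarith
  rw [RM, mm_of_ge h1, mul_div_cancel₀ _ hs.ne']
  ring

theorem RM_eq_right {s x y : ℝ} (hs : 0 < s) (h : x + s ≤ y) : RM s x y = y := by
  have h1 : (x - y) / s ≤ -1 := by rw [div_le_iff₀ hs]; linarith
  rw [RM, mm_of_le h1]
  ring

end Pool.Agent.Helper13.AM
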