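import Pool.Agent.Helper13.AM.Defs

/-!
AM-M0. Two measures that are finite on compact subsets of an open set `Ω` and give the same integral
to all continuous functions with compact support in `Ω` agree on the Borel subsets of `Ω`.

Proof. For compact `K ⊆ Ω` let `χ_j = max 0 (1 - j * infDist z K)`: for large `j` it is in `CC Ω`
(the closed `1/j`-neighbourhood of `K` is compact and contained in `Ω`), `χ_j` decreases to the
indicator of `K`; dominated convergence: `m K = m' K`. Then, for a compact exhaustion `K_j` of `Ω`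
the finite measures `m.restrict K_j`, `m'.restrict K_j` agree on closed sets (a pi-system
generating the Borel sets), so they are equal; `E = ⋃ (E ∩ K_j)` (increasing).
-/

set_option autoImplicit false

namespace Pool.Agent.Helper13.AM

open MeasureTheory Set Filter Topology Metric
open Pool.Agent.Helper29.AM

variable {n : ℕ}

private theorem compact_eq74 {Ω : Set (V n)} (hΩ : IsOpen Ω) {m m' : Measure (V n)}
    (hm : ∀ K ⊆ Ω, IsCompact K → m K < ⊤) (hm' : ∀ K ⊆ Ω, IsCompact K → m' K < ⊤)
    (h : ∀ χ : V n → ℝ, CC Ω χ → ∫ z, χ z ∂m = ∫ z, χ z ∂m') {K : Set (V n)} (hK : K ⊆ Ω)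
    (hKc : IsCompact K) : m K = m' K := by
  obtain ⟨δ, hδ, hδΩ⟩ := hKc.exists_cthickening_subset_open hΩ hK
  set K' := cthickening δ K with hK'
  have hK'c : IsCompact K' := hKc.cthickening
  have hKK' : K ⊆ K' := self_subset_cthickening K
  have hK'm : MeasurableSet K' := hK'c.isClosed.measurableSet
  have : IsFiniteMeasure (m.restrict K') := ⟨by
    rw [Measure.restrict_apply_univ]
    exact hm K' hδΩ hK'c⟩
  have : IsFiniteMeasure (m'.restrict K') := ⟨by
    rw [Measure.restrict_apply_univ]
    exact hm' K' hδΩ hK'c⟩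
  set d : ℕ → ℝ := fun j => δ / ((j : ℝ) + 1) with hd
  have hdpos : ∀ j, 0 < d j := fun j => div_pos hδ (by positivity)
  have hdle : ∀ j, d j ≤ δ := fun j => div_le_self hδ.le (by
    have : (0 : ℝ) ≤ j := Nat.cast_nonneg j
    linarith)
  have hdlim : Tendsto d atTop (𝓝 0) := by
    have h1 := (tendsto_const_div_atTop_nhds_zero_nat δ).comp (tendsto_add_atTop_nat 1)
    refine h1.congr fun j => ?_
    simp [hd]
  have h1 := tendsto_lintegral_thickenedIndicator_of_isClosed (m.restrict K') hKc.isClosed hdpos
    hdlim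
  have h2 := tendsto_lintegral_thickenedIndicator_of_isClosed (m'.restrict K') hKc.isClosed hdpos
    hdlim
  have hzero : ∀ j, ∀ z, z ∉ K' → ((thickenedIndicator (hdpos j) K z : NNReal) : ℝ) = 0 := by
    intro j z hz
    rw [thickenedIndicator_zero (hdpos j) K]
    · rfl
    · intro hz'
      exact hz (thickening_subset_cthickening_of_le (hdle j) K hz')
  have heq : ∀ j, ∫⁻ z, (thickenedIndicator (hdpos j) K z : ENNReal) ∂(m.restrict K')
      = ∫⁻ z, (thickenedIndicator (hdpos j) K z : ENNReal) ∂(m'.restrict K') := by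
    intro j
    have e1 := (thickenedIndicator (hdpos j) K).toReal_lintegral_coe_eq_integral (m.restrict K')
    have e2 := (thickenedIndicator (hdpos j) K).toReal_lintegral_coe_eq_integral (m'.restrict K')
    have hsub : tsupport (fun z => ((thickenedIndicator (hdpos j) K z : NNReal) : ℝ)) ⊆ K' := by
      refine closure_minimal ?_ hK'c.isClosed
      intro z hz
      by_contra hz'
      exact hz (hzero j z hz')
    have hCC : CC Ω fun z => ((thickenedIndicator (hdpos j) K z : NNReal) : ℝ) := by
      refine ⟨NNReal.continuous_coe.comp (thickenedIndicator (hdpos j) K).continuous, ?_,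
        hsub.trans hδΩ⟩
      exact hK'c.of_isClosed_subset (isClosed_tsupport _) hsub
    have e3 := h _ hCC
    have e4 : ∫ z in K', ((thickenedIndicator (hdpos j) K z : NNReal) : ℝ) ∂m
        = ∫ z, ((thickenedIndicator (hdpos j) K z : NNReal) : ℝ) ∂m :=
      setIntegral_eq_integral_of_forall_compl_eq_zero fun z hz => hzero j z hz
    have e5 : ∫ z in K', ((thickenedIndicator (hdpos j) K z : NNReal) : ℝ) ∂m'
        = ∫ z, ((thickenedIndicator (hdpos j) K z : NNReal) : ℝ) ∂m' :=
      setIntegral_eq_integral_of_forall_compl_eq_zero fun z hz => hzero j z hz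
    have e6 : (∫⁻ z, (thickenedIndicator (hdpos j) K z : ENNReal) ∂(m.restrict K')).toReal
        = (∫⁻ z, (thickenedIndicator (hdpos j) K z : ENNReal) ∂(m'.restrict K')).toReal := by
      rw [e1, e2, e4, e5, e3]
    exact (ENNReal.toReal_eq_toReal_iff'
      ((thickenedIndicator (hdpos j) K).lintegral_lt_top_of_nnreal (m.restrict K')).ne
      ((thickenedIndicator (hdpos j) K).lintegral_lt_top_of_nnreal (m'.restrict K')).ne).1 e6
  have h3 : (m.restrict K') K = (m'.restrict K') K :=
    tendsto_nhds_unique (h1.congr heq) h2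
  rwa [Measure.restrict_apply hKc.measurableSet, Measure.restrict_apply hKc.measurableSet,
    inter_eq_left.2 hKK'] at h3

theorem measure_eq_of_CC {Ω : Set (V n)} (hΩ : IsOpen Ω) {m m' : Measure (V n)}
    (hm : ∀ K ⊆ Ω, IsCompact K → m K < ⊤) (hm' : ∀ K ⊆ Ω, IsCompact K → m' K < ⊤)
    (h : ∀ χ : V n → ℝ, CC Ω χ → ∫ z, χ z ∂m = ∫ z, χ z ∂m') :
    ∀ E ⊆ Ω, MeasurableSet E → m E = m' E := by
  intro E hE hEm
  obtain ⟨F, hFc, hFΩ, hFU, hFm⟩ := hΩ.exists_iUnion_isClosed
  set K : ℕ → Set (V n) := fun j => F j ∩ closedBall 0 j with hK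
  have hKc : ∀ j, IsCompact (K j) := fun j =>
    (isCompact_closedBall (0 : V n) (j : ℝ)).inter_left (hFc j)
  have hKΩ : ∀ j, K j ⊆ Ω := fun j => inter_subset_left.trans (hFΩ j)
  have hKm : Monotone K := fun i j hij =>
    inter_subset_inter (hFm hij) (closedBall_subset_closedBall (by exact_mod_cast hij))
  have hKU : ⋃ j, K j = Ω := by
    apply subset_antisymm (iUnion_subset hKΩ)
    intro z hz
    rw [← hFU] at hz
    obtain ⟨i, hi⟩ := mem_iUnion.1 hz
    obtain ⟨j, hj⟩ := exists_nat_ge ‖z‖
    refine mem_iUnion.2 ⟨max i j, hFm (le_max_left i j) hi, ?_⟩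
    rw [mem_closedBall_zero_iff]
    exact hj.trans (by exact_mod_cast le_max_right i j)
  have hres : ∀ j, m.restrict (K j) = m'.restrict (K j) := by
    intro j
    have : IsFiniteMeasure (m.restrict (K j)) := ⟨by
      rw [Measure.restrict_apply_univ]
      exact hm _ (hKΩ j) (hKc j)⟩
    refine ext_of_generate_finite {s | IsClosed s}
      (by rw [← borel_eq_generateFrom_isClosed]; exact BorelSpace.measurable_eq)
      isPiSystem_isClosed ?_ ?_
    · intro s hs
      have hs' : IsClosed s := hs
      rw [Measure.restrict_apply hs'.measurableSet, Measure.restrict_apply hs'.measurableSet]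
      exact compact_eq74 hΩ hm hm' h (inter_subset_right.trans (hKΩ j)) ((hKc j).inter_left hs')
    · rw [Measure.restrict_apply_univ, Measure.restrict_apply_univ]
      exact compact_eq74 hΩ hm hm' h (hKΩ j) (hKc j)
  have hEU : E = ⋃ j, E ∩ K j := by
    rw [← inter_iUnion, hKU, inter_eq_left.2 hE]
  have hmono : Monotone fun j => E ∩ K j := fun i j hij => inter_subset_inter_right E (hKm hij)
  rw [hEU, hmono.measure_iUnion, hmono.measure_iUnion]
  congr 1
  funext j
  rw [← Measure.restrict_apply hEm, ← Measure.restrict_apply hEm, hres j]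

end Pool.Agent.Helper13.AM
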