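import Pool.Agent.Helper13.AM.Defs
import Pool.Agent.Helper29.AM.MeanA

/-!
AM-M4. Densities of measures and functions, seen by the kernel `rho`, uniformly on `B(x₁, L s)`.

`rho` is continuous, `0 ≤ rho ≤ C_ρ`, `rho η = 0` for `‖η‖ ≥ 1`, `rho (-η) = rho η`, `∫ rho = 1`
(prove what you need directly from the definition in Helper29/AM/Defs.lean, or import
Helper29's files if they are already on main).

`ae_kernel_measure`. Extend `ν` by zero; work on a countable cover of `Ω` by balls `G` with compact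
closure in `Ω` (`ν.restrict G` is finite). Lebesgue decomposition `ν = ν^s + d λ`
(`Measure.haveLebesgueDecomposition`, `d = rnDeriv` a.e. finite and locally integrable). For a.e.
`x₁`: `ν^s(closedBall x₁ r) / r^{2n} → 0` (`Besicovitch.ae_tendsto_rnDeriv` for `ν^s`, whose
`rnDeriv` is zero a.e., or `VitaliFamily.ae_eventually_measure_zero_of_singular`) and
`r^{-2n} ∫_{closedBall x₁ r} |d - d(x₁)| → 0` (`IsUnifLocDoublingMeasure.ae_tendsto_average_norm_sub`).
For `x ∈ closedBall x₁ (L s)` the kernel `y ↦ rho((y-x)/s)/s^{2n}` is supported in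
`closedBall x₁ ((L+1)s)`, bounded by `C_ρ s^{-2n}` and has Lebesgue integral `1`, so
`|∫ rho((y-x)/s)/s^{2n} dν - d(x₁)| ≤ C_ρ s^{-2n} (ν^s(B) + ∫_B |d - d(x₁)|)`,
`B = closedBall x₁ ((L+1)s)`. The last claim: `ν(closedBall x₁ r)/λ(closedBall x₁ r)` converges.
`volume (closedBall x r) = r^{2n} volume (ball 0 1)` (`Measure.addHaar_closedBall`, `finrank = 2n`).

`ae_kernel_fun` is the same for a locally integrable function: for a.e. `x₁`,
`|Phi u x s - u x₁| ≤ C_ρ s^{-2n} ∫_{closedBall x₁ ((L+1)s)} |u - u x₁|` (the substitution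
`y = x + s η` in the definition of `Phi`).
-/

set_option autoImplicit false

namespace Pool.Agent.Helper13.AM

open MeasureTheory Set Filter Topology Metric
open Pool.Agent.Helper29.AM

variable {n : ℕ}

private theorem rho_bound21 : ∃ C : ℝ, 0 < C ∧ ∀ η : V n, |rho η| ≤ C := by
  obtain ⟨C, hC⟩ := rho_hasCompactSupport.exists_bound_of_continuous
    (rho_contDiff (n := n)).continuous
  refine ⟨C + 1, ?_, fun η => ?_⟩
  · have := (norm_nonneg _).trans (hC 0)
    linarith
  · have := hC η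
    rw [Real.norm_eq_abs] at this
    linarith

private theorem finrank21 : Module.finrank ℝ (V n) = 2 * n := by
  rw [← Module.finrank_mul_finrank ℝ ℂ (V n), Complex.finrank_real_complex,
    finrank_euclideanSpace_fin]

/-- the kernel at the point `x` and scale `s` -/
private noncomputable def ker21 (x : V n) (s : ℝ) (y : V n) : ℝ :=
  rho (s⁻¹ • (y - x)) / s ^ (2 * n)

private theorem ker_cont21 (x : V n) (s : ℝ) : Continuous (ker21 x s) := by
  unfold ker21
  have h1 : Continuous (rho : V n → ℝ) := rho_contDiff.continuous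
  exact (h1.comp (by fun_prop)).div_const _

private theorem ker_le21 {C : ℝ} (hC : ∀ η : V n, |rho η| ≤ C) (x : V n) {s : ℝ} (hs : 0 < s)
    (y : V n) : |ker21 x s y| ≤ C / s ^ (2 * n) := by
  unfold ker21
  have hp : 0 < s ^ (2 * n) := pow_pos hs _
  rw [abs_div, abs_of_pos hp]
  exact div_le_div_of_nonneg_right (hC _) hp.le

private theorem ker_zero21 {x y x₁ : V n} {s L : ℝ} (hs : 0 < s)
    (hx : x ∈ closedBall x₁ (L * s)) (hy : y ∉ closedBall x₁ ((L + 1) * s)) :
    ker21 x s y = 0 := by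
  unfold ker21
  rw [rho_eq_zero, zero_div]
  rw [mem_closedBall] at hx hy
  have h1 := dist_triangle y x x₁
  have h2 : s ≤ dist y x := by
    by_contra h
    apply hy
    nlinarith
  rw [norm_smul, norm_inv, Real.norm_of_nonneg hs.le, ← dist_eq_norm]
  rw [← div_eq_inv_mul, le_div_iff₀ hs, one_mul]
  exact h2

private theorem Phi_ker21 (u : V n → ℝ) (x : V n) {s : ℝ} (hs : 0 < s) :
    Phi u x s = ∫ y, ker21 x s y * u y := by
  have h1 := Measure.integral_comp_smul (volume : Measure (V n))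
    (fun y => ker21 x s (x + y) * u (x + y)) s
  rw [integral_add_left_eq_self (fun y => ker21 x s y * u y) x, finrank21, smul_eq_mul] at h1
  have hp : 0 < s ^ (2 * n) := pow_pos hs _
  have h2 : ∫ y, ker21 x s y * u y = s ^ (2 * n) *
      ∫ η : V n, ker21 x s (x + s • η) * u (x + s • η) := by
    rw [h1, abs_of_pos (inv_pos.2 hp), ← mul_assoc, mul_inv_cancel₀ hp.ne', one_mul]
  rw [h2, ← integral_const_mul]
  unfold Phi M
  refine integral_congr_ae (Eventually.of_forall fun η => ?_)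
  simp only
  have h3 : (sc s : Lin n) η = s • η := by rw [sc_apply]; exact Complex.coe_smul s η
  have h4 : ker21 x s (x + s • η) = rho η / s ^ (2 * n) := by
    unfold ker21
    rw [add_sub_cancel_left, smul_smul, inv_mul_cancel₀ hs.ne', one_smul]
  rw [h3, h4]
  field_simp

private theorem ker_int21 (x : V n) {s : ℝ} (hs : 0 < s) (c : ℝ) :
    ∫ y, ker21 x s y * c = c := by
  rw [← Phi_ker21 (fun _ => c) x hs]
  unfold Phi M
  rw [integral_mul_const, integral_rho, one_mul]

private theorem ker_integrable21 {x₁ x : V n} {s L : ℝ} (hs : 0 < s)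
    (hx : x ∈ closedBall x₁ (L * s)) : Integrable (ker21 x s) := by
  refine (ker_cont21 x s).integrable_of_hasCompactSupport ?_
  refine HasCompactSupport.intro (isCompact_closedBall x₁ ((L + 1) * s)) fun y hy => ?_
  exact ker_zero21 hs hx hy

/-- the basic estimate for functions -/
private theorem Phi_sub_le21 {C : ℝ} (hC0 : 0 < C) (hC : ∀ η : V n, |rho η| ≤ C) {u : V n → ℝ}
    {x₁ x : V n} {s L : ℝ} (hs : 0 < s) (hx : x ∈ closedBall x₁ (L * s)) (c : ℝ)
    (hu : IntegrableOn u (closedBall x₁ ((L + 1) * s))) :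
    |Phi u x s - c| ≤ C / s ^ (2 * n) * ∫ y in closedBall x₁ ((L + 1) * s), |u y - c| := by
  set B := closedBall x₁ ((L + 1) * s) with hB
  have hBm : MeasurableSet B := measurableSet_closedBall
  have hBf : volume B ≠ ⊤ := measure_closedBall_lt_top.ne
  have hi1 : Integrable (B.indicator u) := hu.integrable_indicator hBm
  have hi2 : Integrable (fun y => ker21 x s y * B.indicator u y) :=
    hi1.bdd_mul (ker_cont21 x s).aestronglyMeasurable
      (Eventually.of_forall fun y => by rw [Real.norm_eq_abs]; exact ker_le21 hC x hs y)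
  have h1 : Phi u x s = ∫ y, ker21 x s y * B.indicator u y := by
    rw [Phi_ker21 u x hs]
    refine integral_congr_ae (Eventually.of_forall fun y => ?_)
    simp only
    by_cases hy : y ∈ B
    · rw [indicator_of_mem hy]
    · rw [ker_zero21 hs hx hy, zero_mul, zero_mul]
  have h2 : Phi u x s - c = ∫ y, ker21 x s y * (B.indicator u y - c) := by
    rw [h1]
    conv_lhs => rw [← ker_int21 x hs c]
    rw [← integral_sub hi2 ((ker_integrable21 hs hx).mul_const c)]
    simp only [mul_sub]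
  have hi3 : IntegrableOn (fun y => |u y - c|) B := by
    exact (hu.sub (integrableOn_const hBf)).abs
  rw [h2, ← integral_const_mul, ← integral_indicator hBm, ← Real.norm_eq_abs]
  refine (norm_integral_le_integral_norm _).trans ?_
  have hi4 : IntegrableOn (fun y => C / s ^ (2 * n) * |u y - c|) B := hi3.const_mul _
  refine integral_mono_of_nonneg (Eventually.of_forall fun η => norm_nonneg _)
    (hi4.integrable_indicator hBm) (Eventually.of_forall fun y => ?_)
  simp only
  by_cases hy : y ∈ B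
  · rw [indicator_of_mem hy, indicator_of_mem hy, norm_mul, Real.norm_eq_abs, Real.norm_eq_abs]
    exact mul_le_mul_of_nonneg_right (ker_le21 hC x hs y) (abs_nonneg _)
  · rw [ker_zero21 hs hx hy, zero_mul, norm_zero, indicator_of_notMem hy]

/-- Lebesgue points -/
private theorem leb21 {Ω : Set (V n)} (hΩ : IsOpen Ω) {u : V n → ℝ}
    (hu : LocallyIntegrableOn u Ω volume) :
    ∀ᵐ x₁ : V n, x₁ ∈ Ω → ∀ ε : ℝ, 0 < ε → ∃ r₀ : ℝ, 0 < r₀ ∧ ∀ r : ℝ, 0 < r → r < r₀ →
      IntegrableOn u (closedBall x₁ r) ∧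
      ∫ y in closedBall x₁ r, |u y - u x₁| ≤ ε * r ^ (2 * n) := by
  rw [ae_iff]
  refine measure_null_of_locally_null _ (fun z₀ hz₀ => ?_)
  have hz₀' : z₀ ∈ Ω := by
    by_contra hne
    exact hz₀ (fun h => absurd h hne)
  obtain ⟨ε, hε, hεΩ⟩ := Metric.nhds_basis_closedBall.mem_iff.1 (hΩ.mem_nhds hz₀')
  have hKc : IsCompact (Metric.closedBall z₀ ε) := isCompact_closedBall z₀ ε
  have huK : IntegrableOn u (closedBall z₀ ε) := hu.integrableOn_compact_subset hεΩ hKc
  have hf : Integrable ((Metric.closedBall z₀ ε).indicator u) :=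
    huK.integrable_indicator hKc.measurableSet
  set f : V n → ℝ := (Metric.closedBall z₀ ε).indicator u with hfdef
  refine ⟨_, inter_mem self_mem_nhdsWithin
    (mem_nhdsWithin_of_mem_nhds (Metric.ball_mem_nhds z₀ (half_pos hε))), ?_⟩
  have hL := IsUnifLocDoublingMeasure.ae_tendsto_average_norm_sub
    (volume : Measure (V n)) hf.locallyIntegrable 1
  rw [ae_iff] at hL
  refine measure_mono_null ?_ hL
  rintro x ⟨hx1, hx2⟩ hP
  refine hx1 (fun _ δ hδ => ?_)
  have hP' := hP (ι := ℝ) (l := 𝓝[>] (0 : ℝ)) (fun _ => x) (fun t => t) tendsto_id (by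
    filter_upwards [self_mem_nhdsWithin] with t ht
    exact Metric.mem_closedBall_self (by rw [one_mul]; exact le_of_lt ht))
  have hxb : dist x z₀ < ε / 2 := hx2
  have hux : u x = f x := by
    rw [hfdef, Set.indicator_of_mem]
    rw [Metric.mem_closedBall]
    linarith
  have hb : 0 < volume.real (Metric.ball (0 : V n) 1) := by
    rw [measureReal_def]
    exact ENNReal.toReal_pos (Metric.measure_ball_pos volume _ one_pos).ne' measure_ball_lt_top.ne
  have hlt := (tendsto_order.1 hP').2 (δ / volume.real (Metric.ball (0 : V n) 1)) (div_pos hδ hb)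
  obtain ⟨r₁, hr₁, hr₁'⟩ := mem_nhdsGT_iff_exists_Ioo_subset.1 hlt
  have hr₁0 : (0 : ℝ) < r₁ := hr₁
  refine ⟨min r₁ (ε / 2), lt_min hr₁0 (half_pos hε), fun r hr hr2 => ?_⟩
  have hsub : closedBall x r ⊆ closedBall z₀ ε := by
    refine closedBall_subset_closedBall' ?_
    have := lt_of_lt_of_le hr2 (min_le_right _ _)
    linarith
  refine ⟨huK.mono_set hsub, ?_⟩
  have hav : ⨍ y in closedBall x r, ‖f y - f x‖ < δ / volume.real (Metric.ball (0 : V n) 1) :=
    hr₁' ⟨hr, lt_of_lt_of_le hr2 (min_le_left _ _)⟩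
  have hp : 0 < r ^ (2 * n) := pow_pos hr _
  have h5 : ⨍ y in Metric.closedBall x r, ‖f y - f x‖ =
      (r ^ (2 * n) * volume.real (Metric.ball (0 : V n) 1))⁻¹ *
        ∫ y in Metric.closedBall x r, ‖f y - f x‖ := by
    rw [setAverage_eq, smul_eq_mul, Measure.addHaar_real_closedBall _ _ hr.le, finrank21]
  have h6 : ∫ y in closedBall x r, |u y - u x| = ∫ y in closedBall x r, ‖f y - f x‖ := by
    refine setIntegral_congr_fun measurableSet_closedBall (fun y hy => ?_)
    rw [hux, Real.norm_eq_abs, hfdef, indicator_of_mem (hsub hy)]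
  rw [h5, lt_div_iff₀ hb, mul_inv, mul_comm, ← mul_assoc, ← mul_assoc, mul_comm _ (r ^ (2 * n))⁻¹,
    mul_assoc (r ^ (2 * n))⁻¹, mul_inv_cancel₀ hb.ne', mul_one, ← div_eq_inv_mul, div_lt_iff₀ hp]
    at hav
  rw [h6]
  exact hav.le

theorem ae_kernel_fun {Ω : Set (V n)} (hΩ : IsOpen Ω) {u : V n → ℝ}
    (hu : LocallyIntegrableOn u Ω volume) :
    ∀ᵐ x₁ : V n, x₁ ∈ Ω → ∀ L : ℝ, 0 < L → ∀ ε : ℝ, 0 < ε → ∃ s₀ : ℝ, 0 < s₀ ∧
      ∀ s : ℝ, 0 < s → s < s₀ → ∀ x ∈ closedBall x₁ (L * s), |Phi u x s - u x₁| ≤ ε := by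
  obtain ⟨C, hC0, hC⟩ := rho_bound21 (n := n)
  filter_upwards [leb21 hΩ hu] with x₁ h1 hx₁ L hL ε hε
  have hLp : 0 < (L + 1) ^ (2 * n) := pow_pos (by linarith) _
  obtain ⟨r₀, hr₀, hr⟩ := h1 hx₁ (ε / (C * (L + 1) ^ (2 * n))) (by positivity)
  have hL1 : 0 < L + 1 := by linarith
  refine ⟨r₀ / (L + 1), div_pos hr₀ hL1, fun s hs hs' x hx => ?_⟩
  have h2 : (L + 1) * s < r₀ := by
    rw [lt_div_iff₀ hL1] at hs'
    linarith
  obtain ⟨hi, hle⟩ := hr ((L + 1) * s) (mul_pos hL1 hs) h2
  have h3 := Phi_sub_le21 hC0 hC hs hx (u x₁) hi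
  have hp : 0 < s ^ (2 * n) := pow_pos hs _
  refine h3.trans ((mul_le_mul_of_nonneg_left hle (div_pos hC0 hp).le).trans (le_of_eq ?_))
  rw [mul_pow]
  field_simp

theorem ae_kernel_measure {Ω : Set (V n)} (hΩ : IsOpen Ω) (ν : Measure (V n))
    (hfin : ∀ K ⊆ Ω, IsCompact K → ν K < ⊤) :
    ∀ᵐ x₁ : V n, x₁ ∈ Ω → ∃ d : ℝ, 0 ≤ d ∧
      (∀ L : ℝ, 0 < L → ∀ ε : ℝ, 0 < ε → ∃ s₀ : ℝ, 0 < s₀ ∧ ∀ s : ℝ, 0 < s → s < s₀ →
        ∀ x ∈ closedBall x₁ (L * s), |(∫ y, rho (s⁻¹ • (y - x)) / s ^ (2 * n) ∂ν) - d| ≤ ε) ∧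
      (∃ C r₀ : ℝ, 0 < r₀ ∧ ∀ r : ℝ, 0 < r → r < r₀ →
        ν (closedBall x₁ r) ≤ ENNReal.ofReal (C * r ^ (2 * n))) := by
  obtain ⟨C, hC0, hC⟩ := rho_bound21 (n := n)
  rw [ae_iff]
  refine measure_null_of_locally_null _ (fun z₀ hz₀ => ?_)
  have hz₀' : z₀ ∈ Ω := by
    by_contra hne
    exact hz₀ (fun h => absurd h hne)
  obtain ⟨ε₀, hε₀, hεΩ⟩ := Metric.nhds_basis_closedBall.mem_iff.1 (hΩ.mem_nhds hz₀')
  have hKc : IsCompact (Metric.closedBall z₀ ε₀) := isCompact_closedBall z₀ ε₀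
  set G := closedBall z₀ ε₀ with hG
  have hGm : MeasurableSet G := measurableSet_closedBall
  set νG : Measure (V n) := ν.restrict G with hνG
  have : IsFiniteMeasure νG := ⟨by rw [hνG, Measure.restrict_apply_univ]; exact hfin G hεΩ hKc⟩
  set σ := νG.singularPart volume with hσ
  set dd : V n → ℝ := fun y => (νG.rnDeriv volume y).toReal with hdd
  have hddi : Integrable dd := Measure.integrable_toReal_rnDeriv
  refine ⟨_, inter_mem self_mem_nhdsWithin
    (mem_nhdsWithin_of_mem_nhds (Metric.ball_mem_nhds z₀ (half_pos hε₀))), ?_⟩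
  have hA := ae_kernel_fun isOpen_univ (hddi.locallyIntegrable.locallyIntegrableOn univ)
  have hS := (IsUnifLocDoublingMeasure.vitaliFamily (volume : Measure (V n))
    1).ae_eventually_measure_zero_of_singular (Measure.mutuallySingular_singularPart νG volume)
  have hR := (IsUnifLocDoublingMeasure.vitaliFamily (volume : Measure (V n))
    1).ae_tendsto_rnDeriv νG
  have hF := Measure.rnDeriv_lt_top νG (volume : Measure (V n))
  have hall := hA.and (hS.and (hR.and hF))
  rw [ae_iff] at hall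
  refine measure_mono_null ?_ hall
  rintro x₁ ⟨hx1, hx2⟩ hP
  refine hx1 (fun _ => ?_)
  obtain ⟨hA1, hS1, hR1, hF1⟩ := hP
  have hxb : dist x₁ z₀ < ε₀ / 2 := hx2
  have htd : Tendsto (fun r : ℝ => closedBall x₁ r) (𝓝[>] 0)
      ((IsUnifLocDoublingMeasure.vitaliFamily (volume : Measure (V n)) 1).filterAt x₁) :=
    IsUnifLocDoublingMeasure.tendsto_closedBall_filterAt volume (fun _ => x₁) (fun t => t)
      tendsto_id (by
        filter_upwards [self_mem_nhdsWithin] with t ht
        exact Metric.mem_closedBall_self (by rw [one_mul]; exact le_of_lt ht))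
  have hS2 := hS1.comp htd
  have hR2 := hR1.comp htd
  have hb : 0 < volume.real (Metric.ball (0 : V n) 1) := by
    rw [measureReal_def]
    exact ENNReal.toReal_pos (Metric.measure_ball_pos volume _ one_pos).ne' measure_ball_lt_top.ne
  set b := volume.real (Metric.ball (0 : V n) 1) with hbdef
  have hvol : ∀ r : ℝ, 0 < r → volume (closedBall x₁ r) = ENNReal.ofReal (r ^ (2 * n) * b) := by
    intro r hr
    rw [Measure.addHaar_closedBall _ _ hr.le, finrank21, ENNReal.ofReal_mul (pow_pos hr _).le,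
      hbdef, measureReal_def, ENNReal.ofReal_toReal measure_ball_lt_top.ne]
  -- comparison of a measure with Lebesgue measure from the quotient
  have hquot : ∀ (τ : Measure (V n)) (c r : ℝ), 0 < r →
      τ (closedBall x₁ r) / volume (closedBall x₁ r) < ENNReal.ofReal c →
      τ (closedBall x₁ r) ≤ ENNReal.ofReal (c * (r ^ (2 * n) * b)) := by
    intro τ c r hr hlt
    have hv0 : volume (closedBall x₁ r) ≠ 0 := by
      rw [hvol r hr]
      exact (ENNReal.ofReal_pos.2 (mul_pos (pow_pos hr _) hb)).ne'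
    have hvt : volume (closedBall x₁ r) ≠ ⊤ := measure_closedBall_lt_top.ne
    have hc : 0 < c := by
      by_contra h
      rw [ENNReal.ofReal_of_nonpos (not_lt.1 h)] at hlt
      exact not_lt_zero hlt
    have h1 := (ENNReal.div_le_iff hv0 hvt).1 hlt.le
    refine h1.trans (le_of_eq ?_)
    rw [hvol r hr, ENNReal.ofReal_mul hc.le]
  have hsubG : ∀ r, r < ε₀ / 2 → closedBall x₁ r ⊆ G := by
    intro r hr
    refine closedBall_subset_closedBall' ?_
    linarith
  refine ⟨dd x₁, ENNReal.toReal_nonneg, ?_, ?_⟩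
  · intro L hL ε hε
    have hL1 : 0 < L + 1 := by linarith
    have hLp : 0 < (L + 1) ^ (2 * n) := pow_pos hL1 _
    obtain ⟨s₁, hs₁, hs₁'⟩ := hA1 (mem_univ _) L hL (ε / 2) (half_pos hε)
    set δ := ε / (2 * C * (L + 1) ^ (2 * n) * b) with hδ
    have hδ0 : 0 < δ := by positivity
    have hev := (tendsto_order.1 hS2).2 (ENNReal.ofReal δ) (ENNReal.ofReal_pos.2 hδ0)
    obtain ⟨r₁, hr₁, hr₁'⟩ := mem_nhdsGT_iff_exists_Ioo_subset.1 hev
    have hr₁0 : (0 : ℝ) < r₁ := hr₁
    refine ⟨min s₁ (min r₁ (ε₀ / 2) / (L + 1)),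
      lt_min hs₁ (div_pos (lt_min hr₁0 (half_pos hε₀)) hL1), fun s hs hs' x hx => ?_⟩
    have hss1 : s < s₁ := lt_of_lt_of_le hs' (min_le_left _ _)
    have hss2 : (L + 1) * s < min r₁ (ε₀ / 2) := by
      have := lt_of_lt_of_le hs' (min_le_right _ _)
      rw [lt_div_iff₀ hL1] at this
      linarith
    have hBG : closedBall x₁ ((L + 1) * s) ⊆ G :=
      hsubG _ (lt_of_lt_of_le hss2 (min_le_right _ _))
    have hp : 0 < s ^ (2 * n) := pow_pos hs _
    have hk1 : ∫ y, rho (s⁻¹ • (y - x)) / s ^ (2 * n) ∂ν = ∫ y, ker21 x s y ∂νG := by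
      rw [hνG]
      refine (setIntegral_eq_integral_of_forall_compl_eq_zero fun y hy => ?_).symm
      exact ker_zero21 hs hx (fun h => hy (hBG h))
    have hki : ∀ (τ : Measure (V n)) [IsFiniteMeasure τ], Integrable (ker21 x s) τ := by
      intro τ _
      exact Integrable.of_bound (ker_cont21 x s).aestronglyMeasurable (C / s ^ (2 * n))
        (Eventually.of_forall fun y => by rw [Real.norm_eq_abs]; exact ker_le21 hC x hs y)
    have := Measure.haveLebesgueDecomposition_of_sigmaFinite νG (volume : Measure (V n))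
    have hdec := Measure.haveLebesgueDecomposition_add νG (volume : Measure (V n))
    have : IsFiniteMeasure ((volume : Measure (V n)).withDensity (νG.rnDeriv volume)) := by
      refine ⟨lt_of_le_of_lt ?_ (measure_lt_top νG univ)⟩
      conv_rhs => rw [hdec]
      rw [Measure.add_apply]
      exact le_add_self
    have hk2 : ∫ y, ker21 x s y ∂νG = ∫ y, ker21 x s y ∂σ + Phi dd x s := by
      conv_lhs => rw [hdec]
      rw [integral_add_measure (hki _) (hki _), Phi_ker21 dd x hs]
      congr 1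
      rw [integral_withDensity_eq_integral_toReal_smul (Measure.measurable_rnDeriv _ _)
        (Measure.rnDeriv_lt_top _ _)]
      refine integral_congr_ae (Eventually.of_forall fun y => ?_)
      simp only [smul_eq_mul, hdd]
      ring
    have hσB : σ (closedBall x₁ ((L + 1) * s)) ≤
        ENNReal.ofReal (δ * (((L + 1) * s) ^ (2 * n) * b)) := by
      refine hquot σ δ _ (mul_pos hL1 hs) ?_
      exact hr₁' ⟨mul_pos hL1 hs, lt_of_lt_of_le hss2 (min_le_left _ _)⟩
    have hσB' : σ.real (closedBall x₁ ((L + 1) * s)) ≤ δ * (((L + 1) * s) ^ (2 * n) * b) := by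
      rw [measureReal_def]
      exact ENNReal.toReal_le_of_le_ofReal (by positivity) hσB
    have hk3 : |∫ y, ker21 x s y ∂σ| ≤ ε / 2 := by
      have h1 : ∫ y, ker21 x s y ∂σ = ∫ y in closedBall x₁ ((L + 1) * s), ker21 x s y ∂σ := by
        refine (setIntegral_eq_integral_of_forall_compl_eq_zero fun y hy => ?_).symm
        exact ker_zero21 hs hx hy
      have h2 : ‖∫ y in closedBall x₁ ((L + 1) * s), ker21 x s y ∂σ‖ ≤
          C / s ^ (2 * n) * σ.real (closedBall x₁ ((L + 1) * s)) := by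
        refine norm_setIntegral_le_of_norm_le_const (measure_lt_top _ _) fun y _ => ?_
        rw [Real.norm_eq_abs]
        exact ker_le21 hC x hs y
      rw [h1, ← Real.norm_eq_abs]
      refine h2.trans ((mul_le_mul_of_nonneg_left hσB' (div_pos hC0 hp).le).trans (le_of_eq ?_))
      rw [hδ, mul_pow]
      field_simp
    have hk4 := hs₁' s hs hss1 x hx
    rw [hk1, hk2]
    have : (∫ y, ker21 x s y ∂σ) + Phi dd x s - dd x₁ =
      (∫ y, ker21 x s y ∂σ) + (Phi dd x s - dd x₁) := by ring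
    rw [this]
    refine (abs_add_le _ _).trans ?_
    linarith
  · have hlt : νG.rnDeriv volume x₁ < ENNReal.ofReal (dd x₁ + 1) := by
      rw [hdd]
      simp only
      conv_lhs => rw [← ENNReal.ofReal_toReal hF1.ne]
      rw [ENNReal.ofReal_lt_ofReal_iff (by positivity)]
      linarith
    have hev := (tendsto_order.1 hR2).2 _ hlt
    obtain ⟨r₁, hr₁, hr₁'⟩ := mem_nhdsGT_iff_exists_Ioo_subset.1 hev
    have hr₁0 : (0 : ℝ) < r₁ := hr₁
    refine ⟨(dd x₁ + 1) * b, min r₁ (ε₀ / 2), lt_min hr₁0 (half_pos hε₀), fun r hr hr' => ?_⟩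
    have h1 : ν (closedBall x₁ r) = νG (closedBall x₁ r) := by
      rw [hνG, Measure.restrict_apply measurableSet_closedBall,
        inter_eq_self_of_subset_left (hsubG r (lt_of_lt_of_le hr' (min_le_right _ _)))]
    rw [h1]
    have h2 := hquot νG (dd x₁ + 1) r hr (hr₁' ⟨hr, lt_of_lt_of_le hr' (min_le_left _ _)⟩)
    refine h2.trans (le_of_eq ?_)
    congr 1
    ring

end Pool.Agent.Helper13.AM
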