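import Pool.Agent.Helper13.AM.S3
import Pool.Agent.Helper29.AM.GS2

/-!
AM-S4. (12) A psh function with non-pluripolar product `f λ` is a subsolution in the sense of Gaveau.

Proof. `w = u.toReal`, `PSH.pshd`, `f^{1/n}` continuous. For a frame `A` and a test function `η`:
`∫ w DA A η = lim_k ∫ (Phi w · s_k) DA A η = lim_k ∫ DA A (Phi w · s_k) η` (`tendsto_Phi_L1`,
`integral_mul_DA`), `s_k → 0+`. For a.e. `x` (`ae_good`, `PSH.ae_bot`): `DA A (Phi w · s_k) x = sA A (hess ...)` converges to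
`sA A (H x) ≥ n |det A|^{2/n} (f x)^{1/n}` (`GP_of_det` and `det_ge_of_good`), and
`DA A (Phi w · s_k) η ≥ 0`. Fatou's lemma.
-/

set_option autoImplicit false

namespace Pool.Agent.Helper13.AM

open MeasureTheory Set Filter Topology Metric
open Pool.Agent.Helper29.AM
open scoped ComplexOrder

variable {n : ℕ} {Ω : Set (V n)} {u : V n → EReal}

private theorem shr_mono75 {s t : ℝ} (h : s ≤ t) : shr Ω t ⊆ shr Ω s := fun _ hz =>
  Subset.trans (Metric.closedBall_subset_closedBall h) hz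

private theorem c2_75 {W : Set (V n)} {v : V n → ℝ} (hv : ContDiffOn ℝ (⊤ : ℕ∞) v W) :
    ContDiffOn ℝ 2 v W := by
  exact_mod_cast contDiffOn_infty.1 hv 2

/-- smooth psh functions are subsolutions of their own Monge-Ampère equation -/
private theorem smooth75 (hn : 0 < n) {W : Set (V n)} (hW : IsOpen W) {v : V n → ℝ} (hv : SPsh W v) :
    GS W (fun z => DD v z ^ ((1 : ℝ) / n)) v := by
  have hinv : (0 : ℝ) ≤ (1 : ℝ) / n := by positivity
  have hc : ContinuousOn (fun z => DD v z ^ ((1 : ℝ) / n)) W :=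
    (contDiffOn_DD hW hv.smooth).continuousOn.rpow_const fun z hz => Or.inr hinv
  refine GS.of_smooth hW (c2_75 hv.smooth) (hc.locallyIntegrableOn hW.measurableSet)
    (fun z hz => Real.rpow_nonneg (SPsh.posSemidef hW hv hz).2.1 _) ?_
  refine Eventually.of_forall fun z hz => ?_
  have h1 := SPsh.posSemidef hW hv hz
  have h2 : GP (lf (hess v z)) (DD v z ^ ((1 : ℝ) / n)) := by
    refine GP_of_det hn h1.1 (Real.rpow_nonneg h1.2.1 _) ?_
    rw [one_div, Real.rpow_inv_natCast_pow h1.2.1 hn.ne']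
    exact le_rfl
  have h3 : lev v z = lf (hess v z) := by
    funext w
    exact lev_eq_lf ((c2_75 hv.smooth).contDiffAt (hW.mem_nhds hz)) w
  rw [h3]
  exact h2

private theorem det_tendsto75 {H : ℕ → Mat n} {H0 : Mat n}
    (h : ∀ j k, Tendsto (fun i => H i j k) atTop (𝓝 (H0 j k))) :
    Tendsto (fun i => (H i).det.re) atTop (𝓝 H0.det.re) := by
  have h1 : Tendsto H atTop (𝓝 H0) :=
    tendsto_pi_nhds.2 fun j => tendsto_pi_nhds.2 fun k => h j k
  have h2 : Continuous fun M : Mat n => M.det.re :=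
    Complex.continuous_re.comp (Continuous.matrix_det continuous_id)
  exact (h2.tendsto H0).comp h1

theorem subsolution (hn : 0 < n) (hΩ : IsOpen Ω) (hu : PSH Ω u) {f : V n → ℝ}
    (hf : ContinuousOn f Ω) (hf0 : ∀ z ∈ Ω, 0 < f z)
    (hν : IsNP Ω u ((volume.restrict Ω).withDensity fun z => ENNReal.ofReal (f z))) :
    GS Ω (fun z => f z ^ ((1 : ℝ) / n)) (fun z => (u z).toReal) := by
  have hw : PSHd Ω (fun z => (u z).toReal) := hu.pshd hΩ
  have hinv : (0 : ℝ) ≤ (1 : ℝ) / n := by positivity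
  have hFc : ContinuousOn (fun z => f z ^ ((1 : ℝ) / n)) Ω :=
    hf.rpow_const fun z hz => Or.inr hinv
  have hgood := ae_good hΩ hw
  apply GS.of_local hΩ
  intro z0 hz0
  obtain ⟨r, hr, hrΩ⟩ := Metric.nhds_basis_closedBall.mem_iff.1 (hΩ.mem_nhds hz0)
  obtain ⟨t, ht, htK⟩ := exists_subset_shr hΩ (isCompact_closedBall z0 r) hrΩ
  have hWΩ : ball z0 r ⊆ Ω := ball_subset_closedBall.trans hrΩ
  have hWo : IsOpen (ball z0 r) := isOpen_ball
  set s : ℕ → ℝ := fun k => t / ((k : ℝ) + 1) with hs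
  have hs0 : ∀ k, 0 < s k := fun k => div_pos ht (by positivity)
  have hst : ∀ k, s k ≤ t := fun k => div_le_self ht.le (by
    have : (0 : ℝ) ≤ k := Nat.cast_nonneg k
    linarith)
  have hslim0 : Tendsto s atTop (𝓝 0) := by
    have h1 := (tendsto_const_div_atTop_nhds_zero_nat t).comp (tendsto_add_atTop_nat 1)
    refine h1.congr fun j => ?_
    simp [hs]
  have hslim : Tendsto s atTop (𝓝[>] 0) :=
    tendsto_nhdsWithin_iff.2 ⟨hslim0, Eventually.of_forall fun k => hs0 k⟩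
  have hWs : ∀ k, ball z0 r ⊆ shr Ω (s k) := fun k =>
    (ball_subset_closedBall.trans htK).trans (shr_mono75 (hst k))
  have hsm : ∀ k, SPsh (ball z0 r) (fun y => Phi (fun z => (u z).toReal) y (s k)) := fun k =>
    SPsh.mono (PSHd.mollify hΩ hw (hs0 k)) (hWs k)
  refine ⟨ball z0 r, hWo, mem_ball_self hr, hWΩ, ?_⟩
  refine GS.limit hWo (uk := fun k y => Phi (fun z => (u z).toReal) y (s k))
    (Fk := fun k y => DD (fun y => Phi (fun z => (u z).toReal) y (s k)) y ^ ((1 : ℝ) / n))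
    (fun k => smooth75 hn hWo (hsm k)) (hw.int.mono_set hWΩ)
    ((hFc.mono hWΩ).locallyIntegrableOn hWo.measurableSet)
    (fun z hz => Real.rpow_nonneg (hf0 z (hWΩ hz)).le _) ?_ ?_
  · intro K hK hKc
    exact (tendsto_Phi_L1 hΩ hw.int hKc (hK.trans hWΩ)).comp hslim
  · filter_upwards [hgood, hu.ae_bot] with z hz hz2 hzW
    obtain ⟨H, hH⟩ := hz (hWΩ hzW)
    have h1 := det_ge_of_good hn hΩ hu hf hf0 hν (hWΩ hzW) (hz2 (hWΩ hzW)) hH
    refine ⟨H.det.re ^ ((1 : ℝ) / n), Real.rpow_le_rpow (hf0 z (hWΩ hzW)).le h1 hinv, ?_⟩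
    refine Tendsto.rpow_const ?_ (Or.inr hinv)
    unfold DD
    apply det_tendsto75
    intro j k
    rw [Metric.tendsto_atTop]
    intro ε hε
    obtain ⟨s₀, hs₀, hH2⟩ := hH.hess 1 one_pos (ε / 2) (half_pos hε)
    have h2 := (tendsto_order.1 hslim0).2 s₀ hs₀
    obtain ⟨N, hN⟩ := eventually_atTop.1 h2
    refine ⟨N, fun i hi => ?_⟩
    rw [dist_eq_norm]
    refine lt_of_le_of_lt (hH2 (s i) (hs0 i) (hN i hi) z ?_ j k) (by linarith)
    exact mem_closedBall_self (by rw [one_mul]; exact (hs0 i).le)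

end Pool.Agent.Helper13.AM
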