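import Pool.Agent.Helper13.AM.B5
import Pool.Agent.Helper13.AM.B6
import Pool.Agent.Helper13.AM.S4

/-!
AM-N. Wrappers for the conversion blocks (helper29): (N5), (N6), (N9).
-/

set_option autoImplicit false

namespace Pool.Agent.Helper13.AM

open MeasureTheory Set Filter Topology Metric
open Pool.Agent.Helper29.AM

variable {n : ℕ} {Ω G : Set (V n)} {u : V n → EReal} {ν : Measure (V n)}

/-- (N5) -/
theorem IsNP.add_ph' (hΩ : IsOpen Ω) (hu : PSH Ω u) (hm : IsNP Ω u ν) {q : V n → ℝ}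
    (hq : ContDiffOn ℝ (⊤ : ℕ∞) q Ω) (hq0 : ∀ z ∈ Ω, ∀ w, lev q z w = 0) :
    IsNP Ω (fun z => (q z : EReal) + u z) ν :=
  (hm.add_ph hΩ hu hq hq0).congr fun z _ => add_comm _ _

/-- (N6) -/
theorem IsNP.isMA_of_le (hΩ : IsOpen Ω) (hu : PSH Ω u) (hν : IsNP Ω u ν) (hG : IsOpen G)
    (hs : G ⊆ Ω) {C : ℝ} (hC : ∀ z ∈ G, ((-C : ℝ) : EReal) ≤ u z) : IsMA G u (ν.restrict G) :=
  (hν.mono hΩ hG hs).isMA hG (hu.mono hs)
    ((hu.mono hs).LB_of_le (p := fun _ => -C) continuousOn_const hC)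

/-- (N9) a psh function which is a.e. equal to a continuous function is equal to it -/
theorem PSH.eq_of_ae_continuousOn (hΩ : IsOpen Ω) (hu : PSH Ω u) {w : V n → ℝ}
    (hw : ContinuousOn w Ω) (h : ∀ᵐ z, z ∈ Ω → (u z).toReal = w z) :
    ∀ z ∈ Ω, u z = (w z : EReal) := by
  intro a ha
  have hlim := hu.tendsto_Phi hΩ ha
  have hwa : ContinuousAt w a := hw.continuousAt (hΩ.mem_nhds ha)
  apply le_antisymm
  · refine EReal.le_of_forall_lt_iff_le.1 fun c hc => ?_
    rw [EReal.coe_lt_coe_iff] at hc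
    obtain ⟨r, hr, h1⟩ := Metric.eventually_nhds_iff_ball.1
      ((hwa.eventually (gt_mem_nhds hc)).and (hΩ.eventually_mem ha))
    have hsub : ball a r ⊆ Ω := fun z hz => (h1 z hz).2
    refine le_of_tendsto hlim ?_
    filter_upwards [Ioo_mem_nhdsGT hr] with t ht
    rw [EReal.coe_le_coe_iff]
    have h2 : Phi (fun z => (u z).toReal) a t ≤ Phi (fun _ => c) a t := by
      refine Phi_mono (Ω := ball a r) isOpen_ball ((hu.locInt hΩ).mono_set hsub)
        (locallyIntegrableOn_const c) ?_ ht.1 (closedBall_subset_ball ht.2)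
      filter_upwards [h] with z hz hzr
      rw [hz (hsub hzr)]
      exact (h1 z hzr).1.le
    rwa [Phi_const] at h2
  · refine EReal.ge_of_forall_gt_iff_ge.1 fun c hc => ?_
    rw [EReal.coe_lt_coe_iff] at hc
    obtain ⟨r, hr, h1⟩ := Metric.eventually_nhds_iff_ball.1
      ((hwa.eventually (lt_mem_nhds hc)).and (hΩ.eventually_mem ha))
    have hsub : ball a r ⊆ Ω := fun z hz => (h1 z hz).2
    refine ge_of_tendsto hlim ?_
    filter_upwards [Ioo_mem_nhdsGT hr] with t ht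
    rw [EReal.coe_le_coe_iff]
    have h2 : Phi (fun _ => c) a t ≤ Phi (fun z => (u z).toReal) a t := by
      refine Phi_mono (Ω := ball a r) isOpen_ball (locallyIntegrableOn_const c)
        ((hu.locInt hΩ).mono_set hsub) ?_ ht.1 (closedBall_subset_ball ht.2)
      filter_upwards [h] with z hz hzr
      rw [hz (hsub hzr)]
      exact (h1 z hzr).1.le
    rwa [Phi_const] at h2

/-- (N10) the non-pluripolar product is local -/
theorem IsNP.of_local (hΩ : IsOpen Ω) (hu : PSH Ω u) (h0 : ν Ωᶜ = 0)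
    (h : ∀ z ∈ Ω, ∃ G : Set (V n), IsOpen G ∧ z ∈ G ∧ G ⊆ Ω ∧ IsNP G u (ν.restrict G)) :
    IsNP Ω u ν := by
  obtain ⟨ν', hν'⟩ := exists_NP hΩ hu
  choose! G hG hzG hGΩ hN using h
  obtain ⟨T, hT, hTc, hTU⟩ := TopologicalSpace.isOpen_biUnion_countable Ω G hG
  have hU : ⋃ z ∈ T, G z = Ω := by
    rw [hTU]
    apply Subset.antisymm
    · exact iUnion₂_subset hGΩ
    · exact fun z hz => mem_iUnion₂.2 ⟨z, hz, hzG z hz⟩
  have h1 : ν.restrict Ω = ν'.restrict Ω := by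
    rw [← hU, Measure.restrict_biUnion_congr hTc]
    intro z hz
    exact (hN z (hT hz)).unique (hG z (hT hz)) (hu.mono (hGΩ z (hT hz)))
      (hν'.mono hΩ (hG z (hT hz)) (hGΩ z (hT hz)))
  have h2 : ν = ν' := by
    have h3 : ∀ ρ : Measure (V n), ρ Ωᶜ = 0 → ρ.restrict Ω = ρ := fun ρ hρ => by
      have h4 := Measure.restrict_add_restrict_compl (μ := ρ) hΩ.measurableSet
      rwa [Measure.restrict_eq_zero.2 hρ, add_zero] at h4
    rw [← h3 ν h0, ← h3 ν' hν'.out, h1]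
  rw [h2]
  exact hν'

end Pool.Agent.Helper13.AM
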