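import Pool.Agent.Helper13.AM.Defs

/-!
AM-P1. First properties of plurisubharmonic functions with values in `EReal`.

`exists_le`: an upper semicontinuous function on a compact set attains its maximum
(`UpperSemicontinuousOn.exists_isMaxOn`), which is `< ⊤`.
`measurable`: `{z ∈ Ω | u z < c}` is open.
`locInt`: let `closedBall x (3R) ⊆ Ω` and choose `a ∈ ball x R` with `u a ≠ ⊥` (almost every point).
Let `C` be an upper bound of `u` on `closedBall a (2R) ⊆ closedBall x (3R)`. For `b` with `‖b‖ ≤ 2R` the mean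
inequality for the disc `a + ζ b` gives
`∫⁻_θ (C - u(a + e^{iθ} b)) ≤ 2π (C - u a)`; integrate over `b ∈ closedBall 0 (2R)` (Tonelli; the
rotations `b ↦ e^{iθ} b` preserve the measure and the ball):
`∫⁻_{closedBall a (2R)} (C - u) ≤ vol(B) (C - u a) < ∞`. So `C - u` is integrable there (a.e. equal
to the real function `C - u.toReal`), and `ball x R ⊆ closedBall a (2R)`.
-/

set_option autoImplicit false

namespace Pool.Agent.Helper13.AM

open MeasureTheory Set Filter Topology Metric
open Pool.Agent.Helper29.AM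
open scoped ComplexOrder

variable {n : ℕ} {Ω Ω' : Set (V n)} {u v : V n → EReal}

theorem PSH.exists_le (hu : PSH Ω u) {K : Set (V n)} (hK : IsCompact K) (hKΩ : K ⊆ Ω) :
    ∃ C : ℝ, ∀ z ∈ K, u z ≤ (C : EReal) := by
  rcases K.eq_empty_or_nonempty with rfl | hne
  · exact ⟨0, fun z hz => absurd hz (notMem_empty z)⟩
  · obtain ⟨a, ha, hmax⟩ := UpperSemicontinuousOn.exists_isMaxOn hne hK (hu.usc.mono hKΩ)
    exact ⟨(u a).toReal, fun z hz => (hmax hz).trans (EReal.le_coe_toReal (hu.lt_top a (hKΩ ha)).ne)⟩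

theorem PSH.mono (hu : PSH Ω u) (h : Ω' ⊆ Ω) : PSH Ω' u where
  usc := hu.usc.mono h
  lt_top z hz := hu.lt_top z (h hz)
  ae_bot := hu.ae_bot.mono fun _ hz h' => hz (h h')
  mean a b C hC := hu.mean a b C fun ζ hζ => ⟨h (hC ζ hζ).1, (hC ζ hζ).2⟩

theorem PSH.congr (hu : PSH Ω u) (h : ∀ z ∈ Ω, u z = v z) : PSH Ω v where
  usc := by
    intro x hx y hy
    have h1 := hu.usc x hx y (by
      change u x < y
      rw [h x hx]
      exact hy)
    filter_upwards [h1, self_mem_nhdsWithin] with z h2 h3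
    rw [← h z h3]
    exact h2
  lt_top z hz := by
    rw [← h z hz]
    exact hu.lt_top z hz
  ae_bot := hu.ae_bot.mono fun z hz h' => by
    rw [← h z h']
    exact hz h'
  mean a b C hC := by
    have h1 := hu.mean a b C fun ζ hζ => ⟨(hC ζ hζ).1, by
      rw [h _ (hC ζ hζ).1]
      exact (hC ζ hζ).2⟩
    have ha : a ∈ Ω := by
      have h2 := (hC 0 (by simp)).1
      rwa [zero_smul, add_zero] at h2
    rw [← h a ha]
    refine le_trans (le_of_eq ?_) h1
    refine lintegral_congr fun θ => ?_
    rw [h _ (hC (Complex.exp (θ * Complex.I)) (Complex.norm_exp_ofReal_mul_I θ).le).1]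

theorem PSH.measurable (hΩ : IsOpen Ω) (hu : PSH Ω u) : Measurable (Ω.indicator u) := by
  classical
  refine measurable_of_Iio fun c => ?_
  obtain ⟨U, hU, hU1⟩ := upperSemicontinuousOn_iff_preimage_Iio.1 hu.usc c
  have h1 : MeasurableSet (Ω ∩ u ⁻¹' Iio c) := by
    rw [hU1]
    exact (hΩ.inter hU).measurableSet
  have h2 : Ω.indicator u ⁻¹' Iio c = (Ω ∩ u ⁻¹' Iio c) ∪ (Ωᶜ ∩ {_z | (0 : EReal) < c}) := by
    ext z
    by_cases hz : z ∈ Ω
    · simp [hz]
    · simp [hz]
  rw [h2]
  exact h1.union (hΩ.measurableSet.compl.inter (MeasurableSet.const _))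

theorem PSH.measurableSet_gt (hΩ : IsOpen Ω) (hu : PSH Ω u) {p : V n → ℝ}
    (hp : ContinuousOn p Ω) : MeasurableSet {z | z ∈ Ω ∧ (p z : EReal) < u z} ∧
      MeasurableSet {z | z ∈ Ω ∧ u z = ⊥} := by
  classical
  have hm := hu.measurable hΩ
  have hpm : Measurable (Ω.indicator p) := by
    refine measurable_of_restrict_of_restrict_compl hΩ.measurableSet ?_ ?_
    · have h1 : Ω.domRestrict (Ω.indicator p) = Ω.domRestrict p := by
        ext z
        simp [Set.domRestrict_apply]
      rw [h1]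
      exact (continuousOn_iff_continuous_domRestrict.1 hp).measurable
    · have h1 : Ωᶜ.domRestrict (Ω.indicator p) = fun _ => 0 := by
        ext z
        have hz : (z : V n) ∉ Ω := z.2
        simp [Set.domRestrict_apply, hz]
      rw [h1]
      exact measurable_const
  refine ⟨?_, ?_⟩
  · have h1 : {z | z ∈ Ω ∧ (p z : EReal) < u z} = Ω ∩ {z | ((Ω.indicator p z : ℝ) : EReal) < Ω.indicator u z} := by
      ext z
      constructor
      · rintro ⟨hz, h⟩
        refine ⟨hz, ?_⟩
        change ((Ω.indicator p z : ℝ) : EReal) < Ω.indicator u z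
        rw [indicator_of_mem hz, indicator_of_mem hz]
        exact h
      · rintro ⟨hz, h⟩
        refine ⟨hz, ?_⟩
        have h' : ((Ω.indicator p z : ℝ) : EReal) < Ω.indicator u z := h
        rwa [indicator_of_mem hz, indicator_of_mem hz] at h'
    rw [h1]
    exact hΩ.measurableSet.inter (measurableSet_lt hpm.coe_real_ereal hm)
  · have h1 : {z | z ∈ Ω ∧ u z = ⊥} = Ω ∩ (Ω.indicator u) ⁻¹' {⊥} := by
      ext z
      constructor
      · rintro ⟨hz, h⟩
        refine ⟨hz, ?_⟩
        rw [mem_preimage, indicator_of_mem hz, h]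
        exact mem_singleton _
      · rintro ⟨hz, h⟩
        refine ⟨hz, ?_⟩
        rw [mem_preimage, indicator_of_mem hz] at h
        exact h
    rw [h1]
    exact hΩ.measurableSet.inter (hm (measurableSet_singleton _))

private noncomputable def rot56 (c : ℂ) (hc : ‖c‖ = 1) : V n ≃ₗᵢ[ℝ] V n :=
  LinearIsometry.toLinearIsometryEquiv
    { toLinearMap := (c • LinearMap.id : V n →ₗ[ℂ] V n).restrictScalars ℝ
      norm_map' := fun x => by
        change ‖c • x‖ = ‖x‖
        rw [norm_smul, hc, one_mul] } rfl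

private theorem rot56_apply (c : ℂ) (hc : ‖c‖ = 1) (x : V n) : rot56 c hc x = c • x := rfl

theorem PSH.locInt (hΩ : IsOpen Ω) (hu : PSH Ω u) :
    LocallyIntegrableOn (fun z => (u z).toReal) Ω volume := by
  intro x hx
  obtain ⟨r, hr, hrΩ⟩ := Metric.isOpen_iff.1 hΩ x hx
  set R : ℝ := r / 4 with hRdef
  have hR : 0 < R := by positivity
  obtain ⟨a, haR, hab⟩ : ∃ a ∈ ball x R, u a ≠ ⊥ := by
    by_contra hcon
    push Not at hcon
    have h0 : volume {z | ¬ (z ∈ Ω → u z ≠ ⊥)} = 0 := hu.ae_bot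
    have h1 : ball x R ⊆ {z | ¬ (z ∈ Ω → u z ≠ ⊥)} := fun z hz h =>
      h (hrΩ (ball_subset_ball (by rw [hRdef]; linarith) hz)) (hcon z hz)
    exact (measure_ball_pos volume x hR).ne' (measure_mono_null h1 h0)
  have haR' : dist a x < R := haR
  have hBΩ : closedBall a (2 * R) ⊆ Ω := by
    intro z hz
    refine hrΩ ?_
    have h1 : dist z a ≤ 2 * R := hz
    rw [mem_ball]
    calc dist z x ≤ dist z a + dist a x := dist_triangle _ _ _
      _ < 2 * R + R := by linarith
      _ ≤ r := by rw [hRdef]; linarith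
  have haΩ : a ∈ Ω := hBΩ (mem_closedBall_self (by positivity))
  obtain ⟨C, hC⟩ := hu.exists_le (isCompact_closedBall a (2 * R)) hBΩ
  set φ : EReal → ENNReal := fun y => ((C : EReal) - y).toENNReal with hφdef
  have hφ : Antitone φ := fun y y' h => EReal.toENNReal_le_toENNReal (EReal.sub_le_sub le_rfl h)
  have hφm : Measurable φ := hφ.measurable
  have hφr : ∀ y : EReal, y ≠ ⊥ → y ≤ (C : EReal) → φ y = ENNReal.ofReal (C - y.toReal) := by
    intro y h1 h2
    have h3 : y ≠ ⊤ := fun h => by
      rw [h] at h2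
      exact EReal.coe_ne_top C (top_le_iff.1 h2)
    lift y to ℝ using ⟨h3, h1⟩
    change ((C : EReal) - (y : EReal)).toENNReal = _
    rw [← EReal.coe_sub, EReal.toENNReal_of_ne_top (EReal.coe_ne_top _), EReal.toReal_coe, EReal.toReal_coe]
  set g : V n → ENNReal := fun z => φ (Ω.indicator u z) with hgdef
  have hg : Measurable g := hφm.comp (hu.measurable hΩ)
  have hgu : ∀ z ∈ Ω, g z = φ (u z) := fun z hz => by
    change φ (Ω.indicator u z) = _
    rw [indicator_of_mem hz]
  have hga : g a ≠ ⊤ := by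
    rw [hgu a haΩ, hφr _ hab (hC a (mem_closedBall_self (by positivity)))]
    exact ENNReal.ofReal_ne_top
  have hin : ∀ b ∈ closedBall (0 : V n) (2 * R), ∀ ζ : ℂ, ‖ζ‖ ≤ 1 → a + ζ • b ∈ closedBall a (2 * R) := by
    intro b hb ζ hζ
    rw [mem_closedBall, dist_eq_norm, add_sub_cancel_left, norm_smul]
    have h1 : ‖b‖ ≤ 2 * R := by rwa [mem_closedBall_zero_iff] at hb
    calc ‖ζ‖ * ‖b‖ ≤ 1 * (2 * R) := mul_le_mul hζ h1 (norm_nonneg _) zero_le_one
      _ = 2 * R := one_mul _
  have h1 : ∀ b ∈ closedBall (0 : V n) (2 * R),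
      ∫⁻ θ in Ioc (0 : ℝ) (2 * Real.pi), g (a + Complex.exp (θ * Complex.I) • b) ≤
        ENNReal.ofReal (2 * Real.pi) * g a := by
    intro b hb
    have h2 := hu.mean a b C fun ζ hζ => ⟨hBΩ (hin b hb ζ hζ), hC _ (hin b hb ζ hζ)⟩
    rw [hgu a haΩ]
    refine le_trans (le_of_eq ?_) h2
    refine lintegral_congr fun θ => ?_
    exact hgu _ (hBΩ (hin b hb _ (Complex.norm_exp_ofReal_mul_I θ).le))
  have h2 : ∫⁻ b in closedBall (0 : V n) (2 * R),
      ∫⁻ θ in Ioc (0 : ℝ) (2 * Real.pi), g (a + Complex.exp (θ * Complex.I) • b) < ⊤ := by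
    refine lt_of_le_of_lt (setLIntegral_mono' measurableSet_closedBall h1) ?_
    rw [setLIntegral_const]
    exact ENNReal.mul_lt_top (ENNReal.mul_lt_top ENNReal.ofReal_lt_top hga.lt_top) measure_closedBall_lt_top
  rw [lintegral_lintegral_swap (by
    refine Measurable.aemeasurable ?_
    refine hg.comp ?_
    refine Continuous.measurable ?_
    fun_prop)] at h2
  have h3 : ∀ θ : ℝ, ∫⁻ b in closedBall (0 : V n) (2 * R), g (a + Complex.exp (θ * Complex.I) • b) =
      ∫⁻ z in closedBall a (2 * R), g z := by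
    intro θ
    have hn : ‖Complex.exp (θ * Complex.I)‖ = 1 := Complex.norm_exp_ofReal_mul_I θ
    have hp : (rot56 (n := n) _ hn) ⁻¹' closedBall (0 : V n) (2 * R) = closedBall (0 : V n) (2 * R) := by
      ext b
      rw [mem_preimage, mem_closedBall_zero_iff, mem_closedBall_zero_iff, LinearIsometryEquiv.norm_map]
    have h4 := (rot56 (n := n) _ hn).measurePreserving.setLIntegral_comp_preimage
      (measurableSet_closedBall (x := (0 : V n)) (ε := 2 * R)) (f := fun b => g (a + b)) (hg.comp (measurable_const_add a))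
    rw [hp] at h4
    have hq : (fun b : V n => a + b) ⁻¹' closedBall a (2 * R) = closedBall (0 : V n) (2 * R) := by
      ext b
      rw [mem_preimage, mem_closedBall, mem_closedBall_zero_iff, dist_eq_norm, add_sub_cancel_left]
    have h5 := (measurePreserving_add_left (volume : Measure (V n)) a).setLIntegral_comp_preimage
      (measurableSet_closedBall (x := a) (ε := 2 * R)) hg
    rw [hq] at h5
    exact h4.trans h5
  simp only [h3] at h2
  rw [setLIntegral_const] at h2
  have h4 : ∫⁻ z in closedBall a (2 * R), g z < ⊤ := by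
    rcases ENNReal.mul_lt_top_iff.1 h2 with h | h | h
    · exact h.1
    · rw [h]
      exact ENNReal.zero_lt_top
    · exfalso
      rw [Real.volume_Ioc, sub_zero] at h
      exact (ENNReal.ofReal_pos.2 Real.two_pi_pos).ne' h
  -- integrability
  set f : V n → ℝ := fun z => (Ω.indicator u z).toReal with hfdef
  have hfm : Measurable f := (hu.measurable hΩ).ereal_toReal
  have h5 : IntegrableOn (fun z => C - f z) (closedBall a (2 * R)) volume := by
    refine ⟨(measurable_const.sub hfm).aestronglyMeasurable, ?_⟩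
    change ∫⁻ z in closedBall a (2 * R), ‖C - f z‖ₑ < ⊤
    refine lt_of_le_of_lt (le_of_eq ?_) h4
    refine lintegral_congr_ae ?_
    rw [EventuallyEq, ae_restrict_iff' measurableSet_closedBall]
    filter_upwards [hu.ae_bot] with z hz hzB
    have hzΩ := hBΩ hzB
    have h6 : f z = (u z).toReal := by
      change (Ω.indicator u z).toReal = _
      rw [indicator_of_mem hzΩ]
    have h7 : (u z).toReal ≤ C := by
      have h8 := EReal.toReal_le_toReal (hC z hzB) (hz hzΩ) (EReal.coe_ne_top C)
      rwa [EReal.toReal_coe] at h8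
    rw [h6, hgu z hzΩ, hφr _ (hz hzΩ) (hC z hzB), Real.enorm_eq_ofReal (sub_nonneg.2 h7)]
  have h6 : IntegrableOn f (closedBall a (2 * R)) volume := by
    have h7 : IntegrableOn (fun _ : V n => C) (closedBall a (2 * R)) volume :=
      integrableOn_const (measure_closedBall_lt_top.ne)
    have h8 := h7.sub h5
    refine h8.congr (Filter.Eventually.of_forall fun z => ?_)
    change C - (C - f z) = f z
    ring
  refine ⟨ball x R, mem_nhdsWithin_of_mem_nhds (ball_mem_nhds x hR), ?_⟩
  have h7 : ball x R ⊆ closedBall a (2 * R) := by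
    intro z hz
    rw [mem_closedBall]
    have h8 : dist z x < R := hz
    calc dist z a ≤ dist z x + dist x a := dist_triangle _ _ _
      _ ≤ 2 * R := by
        rw [dist_comm x a]
        linarith
  refine (h6.mono_set h7).congr_fun (fun z hz => ?_) measurableSet_ball
  change (Ω.indicator u z).toReal = _
  rw [indicator_of_mem (hBΩ (h7 hz))]

theorem LB.mono (h : LB Ω u) (hs : Ω' ⊆ Ω) : LB Ω' u := fun K hK hKc => h K (hK.trans hs) hKc

/-- a psh function that is locally bounded below is locally bounded -/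
theorem PSH.LB_of_le (hu : PSH Ω u) {p : V n → ℝ} (hp : ContinuousOn p Ω)
    (h : ∀ z ∈ Ω, (p z : EReal) ≤ u z) : LB Ω u := by
  intro K hK hKc
  obtain ⟨C1, hC1⟩ := hKc.exists_bound_of_continuousOn (hp.mono hK)
  obtain ⟨C2, hC2⟩ := hu.exists_le hKc hK
  refine ⟨max C1 C2, fun z hz => ⟨?_, ?_⟩⟩
  · refine le_trans ?_ (h z (hK hz))
    rw [EReal.coe_le_coe_iff]
    have h1 := hC1 z hz
    rw [Real.norm_eq_abs] at h1
    have h2 := (abs_le.1 h1).1
    have h3 := le_max_left C1 C2
    linarith
  · exact (hC2 z hz).trans (EReal.coe_le_coe_iff.2 (le_max_right _ _))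

end Pool.Agent.Helper13.AM
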