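import Pool.Agent.Helper13.AM.P1
import Pool.Agent.Helper29.AM.Ker
import Pool.Agent.Helper29.AM.MeanA

/-!
AM-P2. A psh function is at most its mean over a ball with the radial kernel `rho`.

Proof. Let `C` bound `u` on `closedBall a t`. For `‖η‖ ≤ 1` the disc `a + ζ (t η)` lies in the ball:
`∫⁻_θ (C - u(a + e^{iθ} t η)) ≤ 2π (C - u a)`. Multiply by `rho η`, integrate over `η`
(Tonelli; `η ↦ e^{iθ} η` preserves Lebesgue measure and `rho` by `rho_congr`):
`∫⁻_η rho(η) (C - u(a + tη)) ≤ C - u a` (`integral_rho`). For a.e. `η`, `u(a + tη)` is real, so the left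
side is `C - Phi u.toReal a t` (`integrable_rho_mul`). If `u a = ⊥` there is nothing to prove.
-/

set_option autoImplicit false

namespace Pool.Agent.Helper13.AM

open MeasureTheory Set Filter Topology Metric
open Pool.Agent.Helper29.AM
open scoped ComplexOrder

variable {n : ℕ} {Ω : Set (V n)} {u : V n → EReal}

private theorem measurable_sub65 (hΩ : IsOpen Ω) (hu : PSH Ω u) (C : ℝ) :
    Measurable fun z => ((C : EReal) - Ω.indicator u z).toENNReal := by
  have h1 : Antitone fun x : EReal => ((C : EReal) - x).toENNReal := fun x y hxy =>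
    EReal.toENNReal_le_toENNReal (EReal.sub_le_sub le_rfl hxy)
  exact h1.measurable.comp (hu.measurable hΩ)

/-- the affine homeomorphism `η ↦ z + T η` changes the volume by a constant -/
private theorem aff_map65 {T : Lin n} (hT : T.det ≠ 0) (z : V n) :
    ∃ (f : V n ≃ₜ V n) (c : ENNReal), (∀ η, f η = z + T η) ∧
      Measure.map f volume = c • (volume : Measure (V n)) := by
  let g : V n ≃L[ℂ] V n := ContinuousLinearMap.toContinuousLinearEquivOfDetNeZero T hT
  let gR : V n ≃L[ℝ] V n := g.restrictScalars ℝ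
  refine ⟨gR.toHomeomorph.trans (Homeomorph.addLeft z),
    ENNReal.ofReal |LinearMap.det (gR.symm : V n →ₗ[ℝ] V n)|, fun η => rfl, ?_⟩
  ext s hs
  rw [Measure.map_apply (Homeomorph.continuous _).measurable hs, Measure.smul_apply, smul_eq_mul]
  have h1 : (gR.toHomeomorph.trans (Homeomorph.addLeft z)) ⁻¹' s =
      gR ⁻¹' ((fun y => z + y) ⁻¹' s) := rfl
  rw [h1, Measure.addHaar_preimage_continuousLinearEquiv, measure_preimage_add]

/-- rotations preserve the volume -/
private theorem lintegral_rot65 (c : ℂ) (hcn : ‖c‖ = 1) (f : V n → ENNReal) :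
    ∫⁻ η : V n, f (c • η) = ∫⁻ η : V n, f η := by
  have hc0 : c ≠ 0 := norm_ne_zero_iff.1 (by rw [hcn]; exact one_ne_zero)
  let e : V n ≃ₗᵢ[ℝ] V n :=
    { toLinearEquiv := (LinearEquiv.smulOfNeZero ℂ (V n) c hc0).restrictScalars ℝ
      norm_map' := fun x => by
        change ‖c • x‖ = ‖x‖
        rw [norm_smul, hcn, one_mul] }
  exact (e.measurePreserving).lintegral_comp_emb e.toHomeomorph.measurableEmbedding f

theorem PSH.le_Phi (hΩ : IsOpen Ω) (hu : PSH Ω u) {a : V n} {t : ℝ} (ht : 0 < t)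
    (h : a ∈ shr Ω t) : u a ≤ ((Phi (fun z => (u z).toReal) a t : ℝ) : EReal) := by
  obtain ⟨C, hC⟩ := hu.exists_le (isCompact_closedBall a t) h
  have hFm := measurable_sub65 hΩ hu C
  obtain ⟨F, hF⟩ : ∃ F : V n → ENNReal, F = fun z => ((C : EReal) - Ω.indicator u z).toENNReal :=
    ⟨_, rfl⟩
  rw [← hF] at hFm
  have hFΩ : ∀ z ∈ Ω, F z = ((C : EReal) - u z).toENNReal := fun z hz => by
    rw [hF]; simp only [indicator_of_mem hz]
  have haΩ : a ∈ Ω := h (mem_closedBall_self ht.le)
  have hball : ∀ η : V n, ‖η‖ ≤ 1 → a + (t : ℂ) • η ∈ closedBall a t := by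
    intro η hη
    rw [mem_closedBall, dist_eq_norm, add_sub_cancel_left, norm_smul, Complex.norm_real,
      Real.norm_of_nonneg ht.le]
    exact mul_le_of_le_one_right ht.le hη
  have hρm : Measurable fun η : V n => ENNReal.ofReal (rho η) :=
    ENNReal.measurable_ofReal.comp rho_contDiff.continuous.measurable
  have hρ1 : ∫⁻ η : V n, ENNReal.ofReal (rho η) = 1 := by
    rw [← ofReal_integral_eq_lintegral_ofReal rho_integrable
      (Eventually.of_forall fun η => rho_nonneg η), integral_rho, ENNReal.ofReal_one]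
  -- the mean inequality on each disc
  have hmean : ∀ η : V n, ENNReal.ofReal (rho η) * ∫⁻ θ in Ioc (0 : ℝ) (2 * Real.pi),
      F (a + Complex.exp (θ * Complex.I) • ((t : ℂ) • η)) ≤
      ENNReal.ofReal (rho η) * (ENNReal.ofReal (2 * Real.pi) * F a) := by
    intro η
    by_cases hη : ‖η‖ ≤ 1
    · refine mul_le_mul_right ?_ _
      have hmem : ∀ ζ : ℂ, ‖ζ‖ ≤ 1 → a + ζ • ((t : ℂ) • η) ∈ closedBall a t := by
        intro ζ hζ
        rw [smul_comm]
        refine hball _ ?_
        rw [norm_smul]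
        exact mul_le_one₀ hζ (norm_nonneg _) hη
      have h1 := hu.mean a ((t : ℂ) • η) C fun ζ hζ => ⟨h (hmem ζ hζ), hC _ (hmem ζ hζ)⟩
      rw [← hFΩ a haΩ] at h1
      refine le_trans (le_of_eq ?_) h1
      refine lintegral_congr fun θ => ?_
      exact hFΩ _ (h (hmem _ (by rw [Complex.norm_exp_ofReal_mul_I])))
    · rw [rho_eq_zero (not_le.1 hη).le]
      simp
  -- Tonelli and rotations
  obtain ⟨I, hI⟩ : ∃ I : ENNReal, I = ∫⁻ η : V n, ENNReal.ofReal (rho η) * F (a + (t : ℂ) • η) :=
    ⟨_, rfl⟩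
  have hrot : ∀ θ : ℝ, ∫⁻ η : V n, ENNReal.ofReal (rho η) *
      F (a + Complex.exp (θ * Complex.I) • ((t : ℂ) • η)) = I := by
    intro θ
    have h1 := lintegral_rot65 (Complex.exp (θ * Complex.I)) (Complex.norm_exp_ofReal_mul_I θ)
      (fun η : V n => ENNReal.ofReal (rho η) * F (a + (t : ℂ) • η))
    rw [hI, ← h1]
    refine lintegral_congr fun η => ?_
    rw [rho_congr (show ‖Complex.exp (θ * Complex.I) • η‖ = ‖η‖ by
      rw [norm_smul, Complex.norm_exp_ofReal_mul_I, one_mul]), smul_comm]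
  have hTon : ∫⁻ η : V n, ENNReal.ofReal (rho η) * ∫⁻ θ in Ioc (0 : ℝ) (2 * Real.pi),
      F (a + Complex.exp (θ * Complex.I) • ((t : ℂ) • η)) = ENNReal.ofReal (2 * Real.pi) * I := by
    have hcm : Measurable fun p : V n × ℝ =>
        a + Complex.exp (p.2 * Complex.I) • ((t : ℂ) • p.1) := by
      apply Continuous.measurable
      fun_prop
    have hjm : Measurable (Function.uncurry fun (η : V n) (θ : ℝ) => ENNReal.ofReal (rho η) *
        F (a + Complex.exp (θ * Complex.I) • ((t : ℂ) • η))) :=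
      (hρm.comp measurable_fst).mul (hFm.comp hcm)
    calc ∫⁻ η : V n, ENNReal.ofReal (rho η) * ∫⁻ θ in Ioc (0 : ℝ) (2 * Real.pi),
          F (a + Complex.exp (θ * Complex.I) • ((t : ℂ) • η))
        = ∫⁻ η : V n, ∫⁻ θ in Ioc (0 : ℝ) (2 * Real.pi), ENNReal.ofReal (rho η) *
          F (a + Complex.exp (θ * Complex.I) • ((t : ℂ) • η)) := by
          refine lintegral_congr fun η => ?_
          rw [lintegral_const_mul]
          have hc2 : Measurable fun θ : ℝ =>
              a + Complex.exp (θ * Complex.I) • ((t : ℂ) • η) := by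
            apply Continuous.measurable
            fun_prop
          exact hFm.comp hc2
      _ = ∫⁻ θ in Ioc (0 : ℝ) (2 * Real.pi), ∫⁻ η : V n, ENNReal.ofReal (rho η) *
          F (a + Complex.exp (θ * Complex.I) • ((t : ℂ) • η)) :=
          lintegral_lintegral_swap hjm.aemeasurable
      _ = ∫⁻ θ in Ioc (0 : ℝ) (2 * Real.pi), I := lintegral_congr fun θ => hrot θ
      _ = ENNReal.ofReal (2 * Real.pi) * I := by
          rw [setLIntegral_const, Real.volume_Ioc, sub_zero, mul_comm]
  have hIle : I ≤ F a := by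
    have h1 : ENNReal.ofReal (2 * Real.pi) * I ≤ ENNReal.ofReal (2 * Real.pi) * F a := by
      rw [← hTon]
      refine (lintegral_mono hmean).trans (le_of_eq ?_)
      rw [lintegral_mul_const _ hρm, hρ1, one_mul]
    have h2 : ENNReal.ofReal (2 * Real.pi) ≠ 0 := by
      rw [Ne, ENNReal.ofReal_eq_zero, not_le]; positivity
    exact (ENNReal.mul_le_mul_iff_right h2 ENNReal.ofReal_ne_top).1 h1
  -- comparison with `Phi`
  have hdet : (sc t : Lin n).det ≠ 0 := by
    rw [det_sc]; exact pow_ne_zero _ (by exact_mod_cast ht.ne')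
  have hint : Integrable fun η : V n => rho η * (u (a + (t : ℂ) • η)).toReal := by
    have h1 := (integrable_rho_mul hdet hΩ (hu.locInt hΩ) ((mem_shr_iff ht.le).1 h)).1
    simpa only [sc_apply] using h1
  have hbot : ∀ᵐ η : V n, ‖η‖ ≤ 1 → u (a + (t : ℂ) • η) ≠ ⊥ := by
    obtain ⟨f, c, hf, hmap⟩ := aff_map65 hdet a
    have h1 : ∀ᵐ y ∂(Measure.map f volume), y ∈ Ω → u y ≠ ⊥ := by
      rw [hmap]
      exact Measure.ae_smul_measure hu.ae_bot c
    have h2 : ∀ᵐ η : V n, f η ∈ Ω → u (f η) ≠ ⊥ := ae_of_ae_map f.continuous.aemeasurable h1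
    filter_upwards [h2] with η hη h3
    rw [hf, sc_apply] at hη
    exact hη (h (hball η h3))
  have hPhi : Phi (fun z => (u z).toReal) a t = ∫ η : V n, rho η * (u (a + (t : ℂ) • η)).toReal := by
    rw [Phi, M]
    simp only [sc_apply]
  have hCint : ∫ η : V n, (rho η * C - rho η * (u (a + (t : ℂ) • η)).toReal) =
      C - Phi (fun z => (u z).toReal) a t := by
    rw [integral_sub (rho_integrable.mul_const C) hint, integral_mul_const, integral_rho, one_mul,
      hPhi]
  have hae : ∀ᵐ η : V n, ENNReal.ofReal (rho η * C - rho η * (u (a + (t : ℂ) • η)).toReal) =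
      ENNReal.ofReal (rho η) * F (a + (t : ℂ) • η) ∧
      0 ≤ rho η * C - rho η * (u (a + (t : ℂ) • η)).toReal := by
    filter_upwards [hbot] with η hη
    by_cases h3 : ‖η‖ ≤ 1
    · have hz := hball η h3
      obtain ⟨r, hr⟩ : ∃ r : ℝ, u (a + (t : ℂ) • η) = (r : EReal) :=
        ⟨_, (EReal.coe_toReal (hu.lt_top _ (h hz)).ne (hη h3)).symm⟩
      have hrC : r ≤ C := by
        have := hC _ hz
        rw [hr] at this
        exact_mod_cast this
      rw [hFΩ _ (h hz), hr, EReal.toReal_coe, ← EReal.coe_sub, EReal.real_coe_toENNReal,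
        ← ENNReal.ofReal_mul (rho_nonneg η), mul_sub]
      refine ⟨rfl, ?_⟩
      rw [← mul_sub]
      exact mul_nonneg (rho_nonneg η) (by linarith)
    · rw [rho_eq_zero (not_le.1 h3).le]
      simp
  have hIeq : ENNReal.ofReal (C - Phi (fun z => (u z).toReal) a t) = I := by
    have h5 := ofReal_integral_eq_lintegral_ofReal
      (f := fun η : V n => rho η * C - rho η * (u (a + (t : ℂ) • η)).toReal)
      ((rho_integrable.mul_const C).sub hint) (hae.mono fun η hη => hη.2)
    rw [← hCint, h5, hI]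
    exact lintegral_congr_ae (hae.mono fun η hη => hη.1)
  rw [← hIeq, hFΩ a haΩ] at hIle
  by_cases hub : u a = ⊥
  · rw [hub]; exact bot_le
  · obtain ⟨r, hr⟩ : ∃ r : ℝ, u a = (r : EReal) :=
      ⟨_, (EReal.coe_toReal (hu.lt_top _ haΩ).ne hub).symm⟩
    have hrC : r ≤ C := by
      have := hC a (mem_closedBall_self ht.le)
      rw [hr] at this
      exact_mod_cast this
    rw [hr, ← EReal.coe_sub, EReal.real_coe_toENNReal,
      ENNReal.ofReal_le_ofReal_iff (by linarith)] at hIle
    rw [hr, EReal.coe_le_coe_iff]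
    linarith

end Pool.Agent.Helper13.AM
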