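import Pool.Agent.Helper13.AM.M2
import Pool.Agent.Helper13.AM.M3
import Pool.Agent.Helper29.AM.GS2

/-!
AM-S1. The positive measures `∂∂̄u(v, v̄)` of a function that is psh in the sense of distributions.

Proof. For a test function `η ≥ 0`: `0 ≤ ∫ u lev η v` (take in `PSHd` the frame `A` with `A e_0 = v`,
`A e_l = 0` for `l ≠ 0`; for `n = 0` everything is zero). Let `g k = lev (Phi u · (1/(k+1))) v`: on a compact `K ⊆ Ω`,
for large `k`, it is smooth near `K` and `≥ 0` (`PSHd.mollify`). For `η ∈ CS Ω`: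
`∫ η g_k = ∫ Phi u · (1/(k+1)) lev η v → ∫ u lev η v` (integration by parts as in `integral_mul_DA`,
`tendsto_Phi_L1`). `tendsto_CC_of_CS`, `exists_measure_of_tendsto` give `ν`, and `∫ η dν = ∫ u lev η v` for `η ∈ CS Ω`.
Kernel formula: `η(y) = rho(s⁻¹(y - x))/s^{2n}` is in `CS Ω` for `x ∈ shr Ω s`;
`Phi u x s = ∫ u(y) η_x(y) dy` and second derivatives in `x` fall on the kernel (`D²_x = D²_y` for a function of
`y - x`), so `lev (Phi u · s) x v = ∫ u lev η v`. (Alternative: for smooth `u` it is `lev_M`; then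
`lev (Phi u · s) x v = lim_ε lev (Phi (Phi u · ε) · s) x v = lim_ε ∫ lev (Phi u · ε) (y) v η(y) dy = ∫ η dν`.)
-/

set_option autoImplicit false

namespace Pool.Agent.Helper13.AM

open MeasureTheory Set Filter Topology Metric
open Pool.Agent.Helper29.AM
open scoped ComplexOrder

variable {n : ℕ} {Ω : Set (V n)} {u : V n → ℝ}

private theorem frame_s1 (v : V n) :
    ∃ A : Lin n, ∀ (f : V n → ℝ) (z : V n), DA A f z = lev f z v := by
  rcases Nat.eq_zero_or_pos n with hn | hn
  · subst hn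
    refine ⟨0, fun f z => ?_⟩
    have hv : v = 0 := Subsingleton.elim _ _
    unfold DA lev D2
    rw [hv]
    simp
  · refine ⟨(EuclideanSpace.proj (⟨0, hn⟩ : Fin n) : V n →L[ℂ] ℂ).smulRight v, fun f z => ?_⟩
    unfold DA
    rw [Finset.sum_eq_single (⟨0, hn⟩ : Fin n)]
    · congr 1
      simp [e]
    · intro l _ hl
      have h0 : ((EuclideanSpace.proj (⟨0, hn⟩ : Fin n) : V n →L[ℂ] ℂ).smulRight v) (e l) = 0 := by
        simp [e, Ne.symm hl]
      rw [h0]
      unfold lev D2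
      simp
    · intro h
      exact absurd (Finset.mem_univ _) h

private theorem two_le_s1 : (2 : WithTop ℕ∞) ≤ ((⊤ : ℕ∞) : WithTop ℕ∞) := by
  show ((2 : ℕ∞) : WithTop ℕ∞) ≤ _
  exact WithTop.coe_le_coe.2 le_top

private theorem shr_shr_s1 {s t : ℝ} {z : V n} (hz : z ∈ shr Ω (s + t)) :
    z ∈ shr (shr Ω s) t := by
  intro y hy
  refine Subset.trans (Metric.closedBall_subset_closedBall' ?_) hz
  have := Metric.mem_closedBall.1 hy
  linarith

private theorem shr_mono_s1 {s t : ℝ} (h : s ≤ t) : shr Ω t ⊆ shr Ω s := fun _ hz =>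
  Subset.trans (Metric.closedBall_subset_closedBall h) hz

/-- a compact subset of `Ω` is in `shr Ω δ` for some `δ > 0` -/
private theorem cpt_shr_s1 (hΩ : IsOpen Ω) {K : Set (V n)} (hK : IsCompact K) (hKΩ : K ⊆ Ω) :
    ∃ δ : ℝ, 0 < δ ∧ K ⊆ shr Ω δ := by
  obtain ⟨δ, hδ, h⟩ := hK.exists_cthickening_subset_open hΩ hKΩ
  refine ⟨δ, hδ, fun z hz y hy => h ?_⟩
  exact Metric.mem_cthickening_of_dist_le y z δ K hz (Metric.mem_closedBall.1 hy)

private theorem lev_supp_s1 (η : V n → ℝ) (v : V n) : tsupport (fun z => lev η z v) ⊆ tsupport η := by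
  refine closure_minimal ?_ (isClosed_tsupport η)
  intro z hz
  by_contra hno
  apply hz
  have h0 : η =ᶠ[𝓝 z] fun _ => (0 : ℝ) := notMem_tsupport_iff_eventuallyEq.1 hno
  show lev η z v = 0
  rw [lev_congr h0, lev_const]

private theorem lev_cont_s1 {η : V n → ℝ} (hη : ContDiff ℝ (⊤ : ℕ∞) η) (v : V n) :
    Continuous fun z => lev η z v := by
  have := continuousOn_lev isOpen_univ (hη.of_le two_le_s1).contDiffOn v
  exact continuousOn_univ.1 this

private theorem finrank_s1 : Module.finrank ℝ (V n) = 2 * n := by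
  have h := Module.finrank_mul_finrank ℝ ℂ (V n)
  rw [Complex.finrank_real_complex] at h
  rw [← h]
  simp

private theorem Phi_ker_s1 (u : V n → ℝ) (x : V n) {s : ℝ} (hs : 0 < s) :
    Phi u x s = ∫ y, u y * (rho (s⁻¹ • (y - x)) / s ^ (2 * n)) := by
  have h1 := Measure.integral_comp_smul (volume : Measure (V n))
    (fun y => u (x + y) * (rho (s⁻¹ • ((x + y) - x)) / s ^ (2 * n))) s
  rw [integral_add_left_eq_self (fun y => u y * (rho (s⁻¹ • (y - x)) / s ^ (2 * n))) x,
    finrank_s1, smul_eq_mul] at h1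
  have hp : 0 < s ^ (2 * n) := pow_pos hs _
  have h2 : ∫ y, u y * (rho (s⁻¹ • (y - x)) / s ^ (2 * n)) = s ^ (2 * n) *
      ∫ η : V n, u (x + s • η) * (rho (s⁻¹ • ((x + s • η) - x)) / s ^ (2 * n)) := by
    rw [h1, abs_of_pos (inv_pos.2 hp), ← mul_assoc, mul_inv_cancel₀ hp.ne', one_mul]
  rw [h2, ← integral_const_mul]
  unfold Phi M
  refine integral_congr_ae (Eventually.of_forall fun η => ?_)
  simp only
  have h3 : (sc s : Lin n) η = s • η := by rw [sc_apply]; exact Complex.coe_smul s η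
  rw [h3, add_sub_cancel_left, smul_smul, inv_mul_cancel₀ hs.ne', one_smul]
  field_simp

theorem integral_mul_lev_nonneg (hΩ : IsOpen Ω) (hu : PSHd Ω u) (v : V n) {η : V n → ℝ}
    (hη : Tst Ω η) : 0 ≤ ∫ z, u z * lev η z v := by
  obtain ⟨A, hA⟩ := frame_s1 v
  have h := hu.ineq A η hη
  simp only [hA, zero_mul, integral_zero, mul_zero] at h
  exact h

theorem kernel_CS (hΩ : IsOpen Ω) {s : ℝ} (hs : 0 < s) {x : V n} (hx : x ∈ shr Ω s) :
    CS Ω (fun y => rho (s⁻¹ • (y - x)) / s ^ (2 * n)) ∧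
      Phi u x s = ∫ y, u y * (rho (s⁻¹ • (y - x)) / s ^ (2 * n)) := by
  have hsub : tsupport (fun y => rho (s⁻¹ • (y - x)) / s ^ (2 * n)) ⊆ closedBall x s := by
    refine closure_minimal ?_ isClosed_closedBall
    intro y hy
    by_contra hno
    apply hy
    show rho (s⁻¹ • (y - x)) / s ^ (2 * n) = 0
    rw [rho_eq_zero, zero_div]
    rw [norm_smul, norm_inv, Real.norm_eq_abs, abs_of_pos hs]
    rw [mem_closedBall, not_le, dist_eq_norm] at hno
    rw [← div_eq_inv_mul, le_div_iff₀ hs, one_mul]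
    exact hno.le
  refine ⟨⟨?_, ?_, hsub.trans hx⟩, Phi_ker_s1 u x hs⟩
  · have h1 : ContDiff ℝ (⊤ : ℕ∞) fun y : V n => s⁻¹ • (y - x) :=
      (contDiff_id.sub contDiff_const).const_smul s⁻¹
    exact (rho_contDiff.comp h1).div_const _
  · exact (isCompact_closedBall x s).of_isClosed_subset (isClosed_tsupport _) hsub

theorem exists_lev_measure (hΩ : IsOpen Ω) (hu : PSHd Ω u) (v : V n) :
    ∃ ν : Measure (V n), ν Ωᶜ = 0 ∧ (∀ K ⊆ Ω, IsCompact K → ν K < ⊤) ∧
      (∀ η : V n → ℝ, CS Ω η → ∫ z, η z ∂ν = ∫ z, u z * lev η z v) ∧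
      ∀ s : ℝ, 0 < s → ∀ x ∈ shr Ω s,
        lev (fun y => Phi u y s) x v = ∫ y, rho (s⁻¹ • (y - x)) / s ^ (2 * n) ∂ν := by
  obtain ⟨A, hA⟩ := frame_s1 v
  set d : ℕ → ℝ := fun k => 1 / ((k : ℝ) + 1) with hd
  have hdpos : ∀ k, 0 < d k := fun k => by rw [hd]; positivity
  have hdlim : Tendsto d atTop (𝓝 0) := tendsto_one_div_add_atTop_nhds_zero_nat
  have hdlim' : Tendsto d atTop (𝓝[>] 0) :=
    tendsto_nhdsWithin_iff.2 ⟨hdlim, Eventually.of_forall hdpos⟩
  set g : ℕ → V n → ℝ := fun k z => lev (fun y => Phi u y (d k)) z v with hg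
  have hcont : ∀ k, ContinuousOn (g k) (shr Ω (d k)) := fun k =>
    continuousOn_lev (isOpen_shr hΩ _)
      ((contDiffOn_Phi_left hΩ hu.int (hdpos k)).of_le two_le_s1) v
  have hev : ∀ K ⊆ Ω, IsCompact K → ∀ᶠ k in atTop, K ⊆ shr Ω (d k) := by
    intro K hK hKc
    obtain ⟨δ, hδ, h⟩ := cpt_shr_s1 hΩ hKc hK
    filter_upwards [hdlim.eventually (gt_mem_nhds hδ)] with k hk
    exact h.trans (shr_mono_s1 hk.le)
  have hgK : ∀ K ⊆ Ω, IsCompact K →
      ∀ᶠ k in atTop, (∀ z ∈ K, 0 ≤ g k z) ∧ IntegrableOn (g k) K volume := by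
    intro K hK hKc
    filter_upwards [hev K hK hKc] with k hk
    exact ⟨fun z hz => (hu.mollify hΩ (hdpos k)).psh z (hk hz) v,
      ((hcont k).mono hk).integrableOn_compact hKc⟩
  have hCS : ∀ η : V n → ℝ, CS Ω η →
      Tendsto (fun k => ∫ z, η z * g k z) atTop (𝓝 (∫ z, u z * lev η z v)) := by
    intro η hη
    have hηc : IsCompact (tsupport η) := hη.cpt
    have hL1 := (tendsto_Phi_L1 hΩ hu.int hηc hη.sub).comp hdlim'
    have hlc : HasCompactSupport fun z => lev η z v :=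
      hηc.of_isClosed_subset (isClosed_tsupport _) (lev_supp_s1 η v)
    obtain ⟨C, hC⟩ := hlc.exists_bound_of_continuous (lev_cont_s1 hη.smooth v)
    have h0 : ∀ z, z ∉ tsupport η → lev η z v = 0 := fun z hz =>
      image_eq_zero_of_notMem_tsupport (f := fun z => lev η z v) fun h => hz (lev_supp_s1 η v h)
    have hm : MeasurableSet (tsupport η) := (isClosed_tsupport η).measurableSet
    have hbd : ∀ w : V n → ℝ, IntegrableOn w (tsupport η) volume →
        Integrable (fun z => w z * lev η z v) := by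
      intro w hw
      have h1 : IntegrableOn (fun z => w z * lev η z v) (tsupport η) volume :=
        hw.mul_bdd (c := C) (lev_cont_s1 hη.smooth v).aestronglyMeasurable
          (Eventually.of_forall hC)
      refine (integrableOn_iff_integrable_of_support_subset ?_).1 h1
      intro z hz
      by_contra hno
      exact hz (by simp [h0 z hno])
    have hiu : IntegrableOn u (tsupport η) volume := hu.int.integrableOn_compact_subset hη.sub hηc
    rw [tendsto_iff_dist_tendsto_zero]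
    refine squeeze_zero' (Eventually.of_forall fun k => dist_nonneg) ?_
      (by simpa using hL1.const_mul C)
    filter_upwards [hev _ hη.sub hηc] with k hk
    have h1 : ∫ z, η z * g k z = ∫ z, Phi u z (d k) * lev η z v := by
      have h2 := integral_mul_DA (isOpen_shr hΩ (d k)) A
        ((contDiffOn_Phi_left hΩ hu.int (hdpos k)).of_le two_le_s1)
        (hη.smooth.of_le two_le_s1) hη.cpt hk
      simp only [hA] at h2
      rw [h2]
      refine integral_congr_ae (Eventually.of_forall fun z => ?_)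
      show η z * g k z = _ * η z
      rw [mul_comm]
    have hik : IntegrableOn (fun z => Phi u z (d k)) (tsupport η) volume :=
      ((contDiffOn_Phi_left hΩ hu.int (hdpos k)).continuousOn.mono hk).integrableOn_compact hηc
    rw [h1, Real.dist_eq, ← integral_sub (hbd _ hik) (hbd _ hiu)]
    have hi3 : IntegrableOn (fun z => C * |Phi u z (d k) - u z|) (tsupport η) volume :=
      (hik.sub hiu).abs.const_mul C
    rw [← integral_const_mul, ← integral_indicator hm, ← Real.norm_eq_abs]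
    refine (norm_integral_le_integral_norm _).trans ?_
    refine integral_mono_of_nonneg (Eventually.of_forall fun _ => norm_nonneg _)
      (hi3.integrable_indicator hm)
      (Eventually.of_forall fun z => ?_)
    simp only
    by_cases hz : z ∈ tsupport η
    · rw [indicator_of_mem hz, ← sub_mul, norm_mul, Real.norm_eq_abs, mul_comm]
      exact mul_le_mul_of_nonneg_right (hC z) (abs_nonneg _)
    · rw [indicator_of_notMem hz, h0 z hz, mul_zero, mul_zero, sub_zero, norm_zero]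
  have hCC := tendsto_CC_of_CS hΩ g hgK fun η hη => ⟨_, hCS η hη⟩
  obtain ⟨ν, hν1, hν2, hν3⟩ := exists_measure_of_tendsto hΩ g hgK hCC
  have hνCS : ∀ η : V n → ℝ, CS Ω η → ∫ z, η z ∂ν = ∫ z, u z * lev η z v := fun η hη =>
    tendsto_nhds_unique (hν3 η ⟨hη.smooth.continuous, hη.cpt, hη.sub⟩) (hCS η hη)
  refine ⟨ν, hν1, hν2, hνCS, fun s hs x hx => ?_⟩
  have hker := (kernel_CS (u := u) hΩ hs hx).1
  have hOs : IsOpen (shr Ω s) := isOpen_shr hΩ s
  have hsm : ContDiffOn ℝ (⊤ : ℕ∞) (fun y => Phi u y s) (shr Ω s) :=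
    contDiffOn_Phi_left hΩ hu.int hs
  have hlsm : ContDiffOn ℝ (⊤ : ℕ∞) (fun y => lev (fun y => Phi u y s) y v) (shr Ω s) :=
    contDiffOn_lev hOs hsm v
  obtain ⟨r, hr, hxr⟩ := cpt_shr_s1 hOs (isCompact_singleton (x := x)) (singleton_subset_iff.2 hx)
  obtain ⟨C, hC0, hC⟩ := abs_Phi_sub_le hOs (hlsm.of_le two_le_s1)
    (isCompact_singleton (x := x)) hr.le hxr
  have hlim1 : Tendsto (fun k => Phi (fun y => lev (fun y => Phi u y s) y v) x (d k)) atTop
      (𝓝 (lev (fun y => Phi u y s) x v)) := by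
    rw [tendsto_iff_dist_tendsto_zero]
    refine squeeze_zero' (Eventually.of_forall fun k => dist_nonneg) ?_
      (by simpa using (hdlim.pow 2).const_mul C)
    filter_upwards [hdlim.eventually (gt_mem_nhds hr)] with k hk
    rw [Real.dist_eq]
    exact hC x (mem_singleton x) (d k) (hdpos k).le hk.le
  have hlim2 : Tendsto (fun k => ∫ y, (rho (s⁻¹ • (y - x)) / s ^ (2 * n)) * g k y) atTop
      (𝓝 (∫ y, rho (s⁻¹ • (y - x)) / s ^ (2 * n) ∂ν)) :=
    hν3 _ ⟨hker.smooth.continuous, hker.cpt, hker.sub⟩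
  refine tendsto_nhds_unique (hlim1.congr' ?_) hlim2
  -- a radius `δ` with `x ∈ shr Ω (s + δ)`
  obtain ⟨δ, hδ, hxδ⟩ : ∃ δ : ℝ, 0 < δ ∧ x ∈ shr Ω (s + δ) := by
    obtain ⟨δ, hδ, h⟩ := (isCompact_closedBall x s).exists_cthickening_subset_open hΩ hx
    rw [cthickening_closedBall hδ.le hs.le] at h
    exact ⟨δ, hδ, by rwa [add_comm]⟩
  filter_upwards [hdlim.eventually (gt_mem_nhds hδ)] with k hk
  have hxk : x ∈ shr Ω (s + d k) := shr_mono_s1 (by linarith) hxδ
  have hxk' : x ∈ shr Ω (d k + s) := by rwa [add_comm]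
  -- both sides are `lev (Phi (Phi u s) (d k)) x v`
  have e1 : lev (fun y => Phi (fun y => Phi u y s) y (d k)) x v =
      Phi (fun y => lev (fun y => Phi u y s) y v) x (d k) :=
    lev_M (sc (d k)) hOs (hsm.of_le two_le_s1)
      ((mem_shr_iff (hdpos k).le).1 (shr_shr_s1 hxk)) v
  have e2 : lev (fun y => Phi (fun y => Phi u y (d k)) y s) x v =
      Phi (fun y => lev (fun y => Phi u y (d k)) y v) x s :=
    lev_M (sc s) (isOpen_shr hΩ (d k))
      ((contDiffOn_Phi_left hΩ hu.int (hdpos k)).of_le two_le_s1)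
      ((mem_shr_iff hs.le).1 (shr_shr_s1 hxk')) v
  have e3 : (fun y => Phi (fun y => Phi u y s) y (d k)) =ᶠ[𝓝 x]
      fun y => Phi (fun y => Phi u y (d k)) y s := by
    filter_upwards [(isOpen_shr hΩ (s + d k)).mem_nhds hxk] with y hy
    exact Phi_Phi_comm hΩ hu.int hs (hdpos k) hy
  rw [← e1, lev_congr e3, e2, Phi_ker_s1 _ x hs]
  refine integral_congr_ae (Eventually.of_forall fun y => ?_)
  show _ * _ = _ * _
  rw [mul_comm]

end Pool.Agent.Helper13.AM
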