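import Pool.Agent.Helper13.AM.S1
import Pool.Agent.Helper13.AM.M4
import Pool.Agent.Helper29.AM.LA1
import Pool.Agent.Helper29.AM.GS2

/-!
AM-S2. (12.a) Almost every point is a point of approximate second differentiability.

Proof. Let `ν_v` be the measures of `exists_lev_measure` for the finitely many vectors `v = e j`,
`e j + e k`, `e j + i • e k` (`j ≠ k`). For a.e. `x₁` all conclusions of `ae_kernel_measure` hold for these
measures: `lev (Phi u · s) x v → d_v` uniformly for `x ∈ closedBall x₁ (L s)` (for small `s` these `x` are in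
`shr Ω s`). The entries of the hermitian matrix `hess (Phi u · s) x` are linear combinations of these `lev`
(polarisation: `lev = lf hess` by `lev_eq_lf`, `lf H (e j) = re H_jj`, `lf H (e j + e k) = ... + 2 re H_jk`,
`lf H (e j + i e k) = ... + 2 im H_jk` up to sign), so they converge uniformly to the entries of a matrix `H`,
positive semidefinite as a limit. `ae_kernel_fun`: `Phi u x s → u x₁` uniformly.
Mass bound: let `ν = ∑_l ν_{e l}`, `ν (closedBall x₁ r) ≤ C r^{2n}` for `r < r₀`. For `0 < ε < s`,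
`u_ε = Phi u · ε` smooth near `closedBall x₁ (2s)`: `Phi u_ε z s - u_ε z = ∫_0^s 2r M1 (sc r) (DA 1 u_ε) z dr`
(`hasDerivAt_Phi`), so by Fubini (`∫ rho1 = aa n ≤ 1`, `DA 1 u_ε ≥ 0`):
`∫_{ball x₁ s} (Phi u_ε z s - u_ε z) dz ≤ s² ∫_{closedBall x₁ (2s)} DA 1 u_ε ≤ s² ν(closedBall x₁ (3s))`
(`DA 1 u_ε (y) = ∫ kernel_ε(y' - y) dν(y')` and Fubini). Let `ε → 0` (`tendsto_Phi_L1`,
`tendsto_Phi_mollify`/`L¹` convergence of `Phi u_ε · s` on `ball x₁ s`).
-/

set_option autoImplicit false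

namespace Pool.Agent.Helper13.AM

open MeasureTheory Set Filter Topology Metric
open Pool.Agent.Helper29.AM
open scoped ComplexOrder

variable {n : ℕ} {Ω : Set (V n)} {u : V n → ℝ}

/-- the conclusions at a good point -/
structure Good (u : V n → ℝ) (x₁ : V n) (H : Mat n) : Prop where
  psd : H.PosSemidef
  hess : ∀ L : ℝ, 0 < L → ∀ ε : ℝ, 0 < ε → ∃ s₀ : ℝ, 0 < s₀ ∧ ∀ s : ℝ, 0 < s → s < s₀ →
    ∀ x ∈ closedBall x₁ (L * s), ∀ j k, ‖hess (fun y => Phi u y s) x j k - H j k‖ ≤ ε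
  val : ∀ L : ℝ, 0 < L → ∀ ε : ℝ, 0 < ε → ∃ s₀ : ℝ, 0 < s₀ ∧ ∀ s : ℝ, 0 < s → s < s₀ →
    ∀ x ∈ closedBall x₁ (L * s), |Phi u x s - u x₁| ≤ ε
  mass : ∃ C s₀ : ℝ, 0 < s₀ ∧ ∀ s : ℝ, 0 < s → s < s₀ →
    ∫ z in ball x₁ s, (Phi u z s - u z) ≤ C * s ^ (2 * n + 2)

private theorem s2_ofReal_int {α : Type*} [MeasurableSpace α] {μ : Measure α} {f : α → ℝ}
    (hf : ∀ x, 0 ≤ f x) : ENNReal.ofReal (∫ x, f x ∂μ) ≤ ∫⁻ x, ENNReal.ofReal (f x) ∂μ := by
  by_cases h : Integrable f μ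
  · exact (ofReal_integral_eq_lintegral_ofReal h (ae_of_all _ hf)).le
  · rw [integral_undef h]
    simp

private theorem s2_le_of_lintegral {α : Type*} [MeasurableSpace α] {μ : Measure α} {f : α → ℝ}
    (hf : Integrable f μ) {c : ℝ} (hc : 0 ≤ c)
    (h : ∫⁻ x, ENNReal.ofReal (f x) ∂μ ≤ ENNReal.ofReal c) : ∫ x, f x ∂μ ≤ c := by
  rw [integral_eq_lintegral_pos_part_sub_lintegral_neg_part hf]
  have h1 : (∫⁻ x, ENNReal.ofReal (f x) ∂μ).toReal ≤ c := ENNReal.toReal_le_of_le_ofReal hc h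
  have h2 : 0 ≤ (∫⁻ x, ENNReal.ofReal (-f x) ∂μ).toReal := ENNReal.toReal_nonneg
  linarith

private theorem s2_ev {P : ℝ → Prop} : (∀ᶠ s in 𝓝[>] (0 : ℝ), P s) ↔
    ∃ s₀ : ℝ, 0 < s₀ ∧ ∀ s : ℝ, 0 < s → s < s₀ → P s := by
  rw [(nhdsGT_basis (0 : ℝ)).eventually_iff]
  constructor
  · rintro ⟨i, hi, h⟩
    exact ⟨i, hi, fun s h1 h2 => h ⟨h1, h2⟩⟩
  · rintro ⟨i, hi, h⟩
    exact ⟨i, hi, fun s hs => h s hs.1 hs.2⟩

/-- the smooth case of the mass bound -/
private theorem s2_A (hΩ : IsOpen Ω) {q : V n → ℝ} (hq : ContDiffOn ℝ 2 q Ω)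
    (h0 : ∀ y ∈ Ω, 0 ≤ DA 1 q y) {x₁ : V n} {s : ℝ} (hs : 0 < s)
    (hb : closedBall x₁ (2 * s) ⊆ Ω) {E : V n → ENNReal} (hE : Measurable E)
    (hEq : ∀ y ∈ closedBall x₁ (2 * s), ENNReal.ofReal (DA 1 q y) ≤ E y) :
    ∫⁻ z in ball x₁ s, ENNReal.ofReal (Phi q z s - q z) ≤
      ENNReal.ofReal (2 * s) * ENNReal.ofReal s * ∫⁻ y, E y := by
  have hpt : ∀ z ∈ ball x₁ s, ∀ r ∈ Icc (0 : ℝ) s, ∀ η : V n, ‖η‖ ≤ 1 →
      z + (sc r : Lin n) η ∈ closedBall x₁ (2 * s) := by
    intro z hz r hr η hη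
    rw [mem_closedBall, dist_eq_norm, sc_apply]
    have h1 : ‖z - x₁‖ < s := by rw [← dist_eq_norm]; exact hz
    have h2 : ‖(r : ℂ) • η‖ ≤ s := by
      rw [norm_smul, Complex.norm_real, Real.norm_eq_abs, abs_of_nonneg hr.1]
      nlinarith [hr.1, hr.2, norm_nonneg η]
    calc ‖z + (r : ℂ) • η - x₁‖ = ‖(z - x₁) + (r : ℂ) • η‖ := by congr 1; abel
      _ ≤ ‖z - x₁‖ + ‖(r : ℂ) • η‖ := norm_add_le _ _
      _ ≤ 2 * s := by linarith
  have hFm : Measurable fun p : V n × ℝ × V n =>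
      ENNReal.ofReal (2 * p.2.1) * (ENNReal.ofReal (rho1 p.2.2) * E (p.1 + (p.2.1 : ℂ) • p.2.2)) := by
    have c1 : Measurable fun p : V n × ℝ × V n => ENNReal.ofReal (2 * p.2.1) :=
      ENNReal.measurable_ofReal.comp (by fun_prop)
    have c2 : Measurable fun p : V n × ℝ × V n => ENNReal.ofReal (rho1 p.2.2) :=
      ENNReal.measurable_ofReal.comp
        (rho1_contDiff.continuous.measurable.comp (measurable_snd.comp measurable_snd))
    have c3 : Continuous fun p : V n × ℝ × V n => p.1 + (p.2.1 : ℂ) • p.2.2 := by fun_prop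
    exact c1.mul (c2.mul (hE.comp c3.measurable))
  have hmain : ∀ z ∈ ball x₁ s, ENNReal.ofReal (Phi q z s - q z) ≤
      ∫⁻ r in Ioc (0 : ℝ) s, ∫⁻ η : V n,
        ENNReal.ofReal (2 * r) * (ENNReal.ofReal (rho1 η) * E (z + (r : ℂ) • η)) := by
    intro z hz
    have hzs : ∀ r ∈ Icc (0 : ℝ) s, z ∈ shr Ω r := fun r hr =>
      (mem_shr_iff hr.1).2 fun η hη => hb (hpt z hz r hr η hη)
    have hd : ∀ r ∈ Icc (0 : ℝ) s,
        HasDerivAt (fun r : ℝ => Phi q z r) (2 * r * M1 (sc r) (DA 1 q) z) r :=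
      fun r hr => hasDerivAt_Phi hΩ hq hr.1 (hzs r hr)
    have hnn : ∀ r ∈ Icc (0 : ℝ) s, ∀ η : V n, 0 ≤ rho1 η * DA 1 q (z + (sc r : Lin n) η) := by
      intro r hr η
      rcases le_or_gt 1 ‖η‖ with h | h
      · rw [rho1_eq_zero h, zero_mul]
      · exact mul_nonneg (rho1_nonneg η) (h0 _ (hb (hpt z hz r hr η h.le)))
    have hM : ∀ r ∈ Icc (0 : ℝ) s, 0 ≤ M1 (sc r) (DA 1 q) z := fun r hr => integral_nonneg (hnn r hr)
    have hint : IntegrableOn (fun r => 2 * r * M1 (sc r) (DA 1 q) z) (Ioc 0 s) volume :=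
      intervalIntegral.integrableOn_deriv_of_nonneg (g := fun r : ℝ => Phi q z r) (a := 0) (b := s)
        (fun r hr => (hd r hr).continuousAt.continuousWithinAt)
        (fun r hr => hd r ⟨hr.1.le, hr.2.le⟩)
        (fun r hr => mul_nonneg (by linarith [hr.1]) (hM r ⟨hr.1.le, hr.2.le⟩))
    have hFTC : ∫ r in (0 : ℝ)..s, 2 * r * M1 (sc r) (DA 1 q) z = Phi q z s - Phi q z 0 := by
      refine intervalIntegral.integral_eq_sub_of_hasDerivAt (fun r hr => ?_) ?_
      · rw [uIcc_of_le hs.le] at hr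
        exact hd r hr
      · rw [intervalIntegrable_iff_integrableOn_Ioc_of_le hs.le]
        exact hint
    rw [Phi_zero] at hFTC
    rw [← hFTC, intervalIntegral.integral_of_le hs.le, ofReal_integral_eq_lintegral_ofReal hint
      (ae_restrict_of_forall_mem measurableSet_Ioc fun r hr =>
        mul_nonneg (by linarith [hr.1]) (hM r ⟨hr.1.le, hr.2⟩))]
    refine setLIntegral_mono' measurableSet_Ioc fun r hr => ?_
    have hr' : r ∈ Icc (0 : ℝ) s := ⟨hr.1.le, hr.2⟩
    have c2 : Measurable fun η : V n => ENNReal.ofReal (rho1 η) * E (z + (r : ℂ) • η) := by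
      have c3 : Continuous fun η : V n => z + (r : ℂ) • η := by fun_prop
      exact (ENNReal.measurable_ofReal.comp rho1_contDiff.continuous.measurable).mul
        (hE.comp c3.measurable)
    rw [lintegral_const_mul _ c2, ENNReal.ofReal_mul (by linarith [hr.1])]
    refine mul_le_mul_right ?_ _
    refine (s2_ofReal_int (hnn r hr')).trans (lintegral_mono fun η => ?_)
    rcases le_or_gt 1 ‖η‖ with h | h
    · simp only [rho1_eq_zero h, zero_mul, ENNReal.ofReal_zero, le_refl]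
    · simp only
      rw [ENNReal.ofReal_mul (rho1_nonneg η), ← sc_apply]
      exact mul_le_mul_right (hEq _ (hpt z hz r hr' η h.le)) _
  calc ∫⁻ z in ball x₁ s, ENNReal.ofReal (Phi q z s - q z)
      ≤ ∫⁻ z in ball x₁ s, ∫⁻ r in Ioc (0 : ℝ) s, ∫⁻ η : V n,
        ENNReal.ofReal (2 * r) * (ENNReal.ofReal (rho1 η) * E (z + (r : ℂ) • η)) :=
        setLIntegral_mono' measurableSet_ball hmain
    _ ≤ ∫⁻ z, ∫⁻ r in Ioc (0 : ℝ) s, ∫⁻ η : V n,
        ENNReal.ofReal (2 * r) * (ENNReal.ofReal (rho1 η) * E (z + (r : ℂ) • η)) :=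
        setLIntegral_le_lintegral _ _
    _ = ∫⁻ r in Ioc (0 : ℝ) s, ∫⁻ z, ∫⁻ η : V n,
        ENNReal.ofReal (2 * r) * (ENNReal.ofReal (rho1 η) * E (z + (r : ℂ) • η)) := by
        refine lintegral_lintegral_swap (Measurable.aemeasurable ?_)
        have h1 : Measurable fun p : (V n × ℝ) × V n =>
            ENNReal.ofReal (2 * p.1.2) * (ENNReal.ofReal (rho1 p.2) * E (p.1.1 + (p.1.2 : ℂ) • p.2)) :=
          hFm.comp (f := fun p : (V n × ℝ) × V n => (p.1.1, p.1.2, p.2)) (by fun_prop)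
        exact h1.lintegral_prod_right'
    _ ≤ ∫⁻ r in Ioc (0 : ℝ) s, ENNReal.ofReal (2 * s) * ∫⁻ y, E y := by
        refine setLIntegral_mono' measurableSet_Ioc fun r hr => ?_
        have h1 : Measurable fun p : V n × V n =>
            ENNReal.ofReal (2 * r) * (ENNReal.ofReal (rho1 p.2) * E (p.1 + (r : ℂ) • p.2)) :=
          hFm.comp (f := fun p : V n × V n => (p.1, r, p.2)) (by fun_prop)
        rw [lintegral_lintegral_swap h1.aemeasurable]
        have h2 : ∀ η : V n, ∫⁻ z : V n,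
            ENNReal.ofReal (2 * r) * (ENNReal.ofReal (rho1 η) * E (z + (r : ℂ) • η)) =
            ENNReal.ofReal (2 * r) * (ENNReal.ofReal (rho1 η) * ∫⁻ y, E y) := by
          intro η
          have c3 : Measurable fun z : V n => E (z + (r : ℂ) • η) :=
            hE.comp (measurable_id.add_const _)
          rw [lintegral_const_mul _ (c3.const_mul _), lintegral_const_mul _ c3,
            lintegral_add_right_eq_self]
        simp only [h2]
        have c4 : Measurable fun η : V n => ENNReal.ofReal (rho1 η) :=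
          ENNReal.measurable_ofReal.comp rho1_contDiff.continuous.measurable
        rw [lintegral_const_mul _ (c4.mul_const _), lintegral_mul_const _ c4,
          ← ofReal_integral_eq_lintegral_ofReal rho1_integrable (ae_of_all _ rho1_nonneg)]
        have h3 : ENNReal.ofReal (∫ η : V n, rho1 η) ≤ 1 := by
          rw [← ENNReal.ofReal_one]
          exact ENNReal.ofReal_le_ofReal aa_le_one
        calc ENNReal.ofReal (2 * r) * (ENNReal.ofReal (∫ η : V n, rho1 η) * ∫⁻ y, E y)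
            ≤ ENNReal.ofReal (2 * s) * (1 * ∫⁻ y, E y) := by
              refine mul_le_mul' (ENNReal.ofReal_le_ofReal (by linarith [hr.2])) ?_
              exact mul_le_mul' h3 le_rfl
          _ = _ := by rw [one_mul]
    _ = ENNReal.ofReal (2 * s) * ENNReal.ofReal s * ∫⁻ y, E y := by
        rw [setLIntegral_const, Real.volume_Ioc, sub_zero]
        ring

private theorem s2_ker_one {ε : ℝ} (hε : 0 < ε) (y' : V n) :
    ∫⁻ y : V n, ENNReal.ofReal (rho (ε⁻¹ • (y' - y)) / ε ^ (2 * n)) = 1 := by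
  obtain ⟨h1, h2⟩ := kernel_CS (u := fun _ => (1 : ℝ)) (isOpen_univ (X := V n)) hε (x := y')
    (fun _ _ => mem_univ _)
  rw [Phi_const] at h2
  have h3 : ∀ y : V n, rho (ε⁻¹ • (y' - y)) / ε ^ (2 * n) = rho (ε⁻¹ • (y - y')) / ε ^ (2 * n) := by
    intro y
    rw [rho_congr (η := ε⁻¹ • (y' - y)) (η' := ε⁻¹ • (y - y'))]
    rw [norm_smul, norm_smul, norm_sub_rev]
  simp only [h3]
  rw [← ofReal_integral_eq_lintegral_ofReal
    (h1.smooth.continuous.integrable_of_hasCompactSupport h1.cpt)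
    (ae_of_all _ fun y => div_nonneg (rho_nonneg _) (pow_nonneg hε.le _))]
  simp only [one_mul] at h2
  rw [← h2, ENNReal.ofReal_one]

private theorem s2_B {ν : Fin n → Measure (V n)} {ε s : ℝ} (hε : 0 < ε) (hεs : ε ≤ s) {x₁ : V n}
    (hfin : ∀ l, ν l (closedBall x₁ (3 * s)) < ⊤) {q : V n → ℝ}
    (hlev : ∀ l, ∀ x ∈ closedBall x₁ (2 * s), lev q x (e l) =
      ∫ y, rho (ε⁻¹ • (y - x)) / ε ^ (2 * n) ∂(ν l)) :
    ∃ E : V n → ENNReal, Measurable E ∧
      (∀ y ∈ closedBall x₁ (2 * s), ENNReal.ofReal (DA 1 q y) ≤ E y) ∧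
      ∫⁻ y, E y ≤ ∑ l, ν l (closedBall x₁ (3 * s)) := by
  have hI : ∀ l, IsFiniteMeasure ((ν l).restrict (closedBall x₁ (3 * s))) := fun l =>
    ⟨by rw [Measure.restrict_apply_univ]; exact hfin l⟩
  have hk : Continuous fun p : V n × V n => rho (ε⁻¹ • (p.2 - p.1)) / ε ^ (2 * n) := by
    have h1 : Continuous fun p : V n × V n => ε⁻¹ • (p.2 - p.1) := by fun_prop
    exact (rho_contDiff.continuous.comp h1).div_const _
  have hkm : Measurable fun p : V n × V n =>
      ENNReal.ofReal (rho (ε⁻¹ • (p.2 - p.1)) / ε ^ (2 * n)) :=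
    ENNReal.measurable_ofReal.comp hk.measurable
  have hknn : ∀ y y' : V n, 0 ≤ rho (ε⁻¹ • (y' - y)) / ε ^ (2 * n) := fun y y' =>
    div_nonneg (rho_nonneg _) (pow_nonneg hε.le _)
  refine ⟨fun y => ∑ l, ∫⁻ y' in closedBall x₁ (3 * s),
    ENNReal.ofReal (rho (ε⁻¹ • (y' - y)) / ε ^ (2 * n)) ∂(ν l), ?_, ?_, ?_⟩
  · refine Finset.measurable_fun_sum _ fun l _ => ?_
    exact hkm.lintegral_prod_right'
  · intro y hy
    have h1 : DA 1 q y = ∑ l, ∫ y', rho (ε⁻¹ • (y' - y)) / ε ^ (2 * n) ∂(ν l) := by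
      unfold DA
      refine Finset.sum_congr rfl fun l _ => ?_
      rw [← hlev l y hy]
      rfl
    rw [h1, ENNReal.ofReal_sum_of_nonneg fun l _ => integral_nonneg fun y' => hknn y y']
    refine Finset.sum_le_sum fun l _ => ?_
    refine (s2_ofReal_int fun y' => hknn y y').trans ?_
    rw [← lintegral_indicator measurableSet_closedBall]
    refine lintegral_mono fun y' => ?_
    by_cases h : y' ∈ closedBall x₁ (3 * s)
    · rw [indicator_of_mem h]
    · have h2 : 1 ≤ ‖ε⁻¹ • (y' - y)‖ := by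
        rw [norm_smul, norm_inv, Real.norm_eq_abs, abs_of_pos hε, ← div_eq_inv_mul, le_div_iff₀ hε,
          one_mul]
        rw [mem_closedBall, dist_eq_norm, not_le] at h
        rw [mem_closedBall, dist_eq_norm] at hy
        have h3 : ‖y' - x₁‖ ≤ ‖y' - y‖ + ‖y - x₁‖ := by
          calc ‖y' - x₁‖ = ‖(y' - y) + (y - x₁)‖ := by congr 1; abel
            _ ≤ _ := norm_add_le _ _
        linarith
      simp only [rho_eq_zero h2, zero_div, ENNReal.ofReal_zero, zero_le]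
  · rw [lintegral_finsetSum _ fun l _ => hkm.lintegral_prod_right']
    refine Finset.sum_le_sum fun l _ => ?_
    rw [lintegral_lintegral_swap hkm.aemeasurable]
    simp only [s2_ker_one hε]
    rw [setLIntegral_const, one_mul]

private theorem s2_mass (hΩ : IsOpen Ω) (hu : PSHd Ω u) {ν : Fin n → Measure (V n)}
    (hfin : ∀ l, ∀ K ⊆ Ω, IsCompact K → ν l K < ⊤)
    (hlev : ∀ l, ∀ s : ℝ, 0 < s → ∀ x ∈ shr Ω s, lev (fun y => Phi u y s) x (e l) =
      ∫ y, rho (s⁻¹ • (y - x)) / s ^ (2 * n) ∂(ν l)) {x₁ : V n} {s : ℝ} (hs : 0 < s)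
    (hb : closedBall x₁ (3 * s) ⊆ Ω) {c : ℝ} (hc : 0 ≤ c)
    (hν : ∑ l, ν l (closedBall x₁ (3 * s)) ≤ ENNReal.ofReal c) :
    ∫ z in ball x₁ s, (Phi u z s - u z) ≤ 2 * s * s * c := by
  have hsub : ∀ {z : V n} {a b : ℝ}, z ∈ closedBall x₁ a → a + b ≤ 3 * s → z ∈ shr Ω b := by
    intro z a b hz hab
    refine Subset.trans (closedBall_subset_closedBall' ?_) hb
    rw [mem_closedBall] at hz
    linarith
  have hw : ContinuousOn (fun y => Phi u y s) (shr Ω s) :=
    (contDiffOn_Phi_left hΩ hu.int hs).continuousOn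
  have hwl : LocallyIntegrableOn (fun y => Phi u y s) (shr Ω s) volume :=
    hw.locallyIntegrableOn (isOpen_shr hΩ s).measurableSet
  have hK : IsCompact (closedBall x₁ s) := isCompact_closedBall _ _
  have hKΩ : closedBall x₁ s ⊆ Ω := (closedBall_subset_closedBall (by linarith)).trans hb
  have hKs : closedBall x₁ s ⊆ shr Ω s := fun z hz => hsub hz (by linarith)
  have t1 := tendsto_Phi_L1 (isOpen_shr hΩ s) hwl hK hKs
  have t2 := tendsto_Phi_L1 hΩ hu.int hK hKΩ
  have t3 : Tendsto (fun ε : ℝ => 2 * s * s * c + (∫ z in closedBall x₁ s,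
      |Phi (fun y => Phi u y s) z ε - Phi u z s|) + ∫ z in closedBall x₁ s, |Phi u z ε - u z|)
      (𝓝[>] 0) (𝓝 (2 * s * s * c + 0 + 0)) := (t1.const_add _).add t2
  rw [add_zero, add_zero] at t3
  refine ge_of_tendsto t3 ?_
  filter_upwards [Ioo_mem_nhdsGT hs] with ε hε
  have hε0 : 0 < ε := hε.1
  have iu : IntegrableOn u (closedBall x₁ s) volume := hu.int.integrableOn_compact_subset hKΩ hK
  have iw : IntegrableOn (fun y => Phi u y s) (closedBall x₁ s) volume :=
    hwl.integrableOn_compact_subset hKs hK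
  have iue : IntegrableOn (fun y => Phi u y ε) (closedBall x₁ s) volume := by
    refine ContinuousOn.integrableOn_compact hK ?_
    refine (contDiffOn_Phi_left hΩ hu.int hε0).continuousOn.mono fun z hz => hsub hz ?_
    linarith [hε.2]
  have iwe : IntegrableOn (fun y => Phi (fun y => Phi u y s) y ε) (closedBall x₁ s) volume := by
    refine ContinuousOn.integrableOn_compact hK ?_
    refine (contDiffOn_Phi_left (isOpen_shr hΩ s) hwl hε0).continuousOn.mono fun z hz => ?_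
    intro y hy
    refine hsub (a := s + ε) ?_ (by linarith [hε.2])
    rw [mem_closedBall] at hz hy ⊢
    linarith [dist_triangle y z x₁]
  have hbK : ball x₁ s ⊆ closedBall x₁ s := ball_subset_closedBall
  -- the smooth case
  have hsm : ∫ z in ball x₁ s, (Phi (fun y => Phi u y s) z ε - Phi u z ε) ≤ 2 * s * s * c := by
    have hcg : ∀ z ∈ ball x₁ s, Phi (fun y => Phi u y s) z ε - Phi u z ε =
        Phi (fun y => Phi u y ε) z s - Phi u z ε := by
      intro z hz
      rw [Phi_Phi_comm hΩ hu.int hε0 hs (hsub (hbK hz) (by linarith [hε.2]))]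
    refine s2_le_of_lintegral (f := fun z => Phi (fun y => Phi u y s) z ε - Phi u z ε)
      ((iwe.mono_set hbK).sub (iue.mono_set hbK)) (by positivity) ?_
    have hcg2 : ∫⁻ z in ball x₁ s, ENNReal.ofReal (Phi (fun y => Phi u y s) z ε - Phi u z ε) =
        ∫⁻ z in ball x₁ s, ENNReal.ofReal (Phi (fun y => Phi u y ε) z s - Phi u z ε) :=
      setLIntegral_congr_fun measurableSet_ball fun z hz => by rw [hcg z hz]
    rw [hcg2]
    obtain ⟨E, hE, hEq, hEi⟩ := s2_B (q := fun y => Phi u y ε) hε0 hε.2.le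
      (fun l => hfin l _ hb (isCompact_closedBall _ _))
      (fun l x hx => hlev l ε hε0 x (hsub hx (by linarith [hε.2])))
    have hsp := PSHd.mollify hΩ hu hε0
    have h2 : (2 : WithTop ℕ∞) ≤ ((⊤ : ℕ∞) : WithTop ℕ∞) := by
      show ((2 : ℕ∞) : WithTop ℕ∞) ≤ _
      exact WithTop.coe_le_coe.2 le_top
    refine (s2_A (isOpen_shr hΩ ε) (hsp.smooth.of_le h2) ?_ hs ?_ hE hEq).trans ?_
    · intro y hy
      exact Finset.sum_nonneg fun l _ => hsp.psh y hy _
    · intro z hz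
      exact hsub hz (by linarith [hε.2])
    · rw [← ENNReal.ofReal_mul (by positivity), ENNReal.ofReal_mul (p := 2 * s * s) (by positivity)]
      exact mul_le_mul' le_rfl (hEi.trans hν)
  have j1 : IntegrableOn (fun z => |Phi (fun y => Phi u y s) z ε - Phi u z s|) (closedBall x₁ s)
      volume := (iwe.sub iw).abs
  have j2 : IntegrableOn (fun z => |Phi u z ε - u z|) (closedBall x₁ s) volume := (iue.sub iu).abs
  have b1 : ∫ z in ball x₁ s, |Phi (fun y => Phi u y s) z ε - Phi u z s| ≤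
      ∫ z in closedBall x₁ s, |Phi (fun y => Phi u y s) z ε - Phi u z s| :=
    setIntegral_mono_set j1 (ae_of_all _ fun z => abs_nonneg _) (ae_of_all _ hbK)
  have b2 : ∫ z in ball x₁ s, |Phi u z ε - u z| ≤ ∫ z in closedBall x₁ s, |Phi u z ε - u z| :=
    setIntegral_mono_set j2 (ae_of_all _ fun z => abs_nonneg _) (ae_of_all _ hbK)
  have b3 : ∫ z in ball x₁ s, (Phi u z s - u z) ≤
      ∫ z in ball x₁ s, ((Phi (fun y => Phi u y s) z ε - Phi u z ε) +
        |Phi (fun y => Phi u y s) z ε - Phi u z s| + |Phi u z ε - u z|) := by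
    refine integral_mono ((iw.mono_set hbK).sub (iu.mono_set hbK)) ?_ fun z => ?_
    · exact ((((iwe.mono_set hbK).sub (iue.mono_set hbK))).add (j1.mono_set hbK)).add (j2.mono_set hbK)
    · have h1 := neg_abs_le (Phi (fun y => Phi u y s) z ε - Phi u z s)
      have h1' := le_abs_self (Phi (fun y => Phi u y s) z ε - Phi u z s)
      have h2 := neg_abs_le (Phi u z ε - u z)
      have h2' := le_abs_self (Phi u z ε - u z)
      show Phi u z s - u z ≤ (Phi (fun y => Phi u y s) z ε - Phi u z ε) +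
        |Phi (fun y => Phi u y s) z ε - Phi u z s| + |Phi u z ε - u z|
      linarith
  have b4 : ∫ z in ball x₁ s, ((Phi (fun y => Phi u y s) z ε - Phi u z ε) +
        |Phi (fun y => Phi u y s) z ε - Phi u z s| + |Phi u z ε - u z|) =
      (∫ z in ball x₁ s, (Phi (fun y => Phi u y s) z ε - Phi u z ε)) +
        (∫ z in ball x₁ s, |Phi (fun y => Phi u y s) z ε - Phi u z s|) +
        ∫ z in ball x₁ s, |Phi u z ε - u z| := by
    have i1 : IntegrableOn (fun z => Phi (fun y => Phi u y s) z ε - Phi u z ε) (ball x₁ s) volume :=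
      (iwe.mono_set hbK).sub (iue.mono_set hbK)
    have i2 : IntegrableOn (fun z => |Phi (fun y => Phi u y s) z ε - Phi u z s|) (ball x₁ s) volume :=
      j1.mono_set hbK
    have i3 : IntegrableOn (fun z => |Phi u z ε - u z|) (ball x₁ s) volume := j2.mono_set hbK
    have i12 : IntegrableOn (fun z => (Phi (fun y => Phi u y s) z ε - Phi u z ε) +
        |Phi (fun y => Phi u y s) z ε - Phi u z s|) (ball x₁ s) volume := i1.add i2
    rw [integral_add i12 i3, integral_add i1 i2]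
  linarith

private theorem s2_e_apply (j a : Fin n) : (e j : V n) a = if a = j then 1 else 0 := by
  unfold e
  rw [PiLp.single_apply]

private theorem s2_lf (M : Mat n) (c : ℂ) (j k : Fin n) :
    lf M (e j + c • e k) =
      (M j j + (starRingEnd ℂ) c * M j k + c * M k j + c * (starRingEnd ℂ) c * M k k).re := by
  unfold lf
  congr 1
  have h : ∀ a : Fin n, (e j + c • e k : V n) a = (if a = j then 1 else 0) + c * (if a = k then 1 else 0) := by
    intro a
    rw [PiLp.add_apply, PiLp.smul_apply, s2_e_apply, s2_e_apply, smul_eq_mul]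
  simp only [h, map_add, map_mul, apply_ite (starRingEnd ℂ), map_one, map_zero]
  simp only [mul_add, add_mul, Finset.sum_add_distrib, mul_ite, ite_mul, mul_one, mul_zero, zero_mul,
    Finset.sum_ite_eq', Finset.mem_univ, if_true]
  ring

private theorem s2_lf_e (M : Mat n) (j : Fin n) : lf M (e j) = (M j j).re := by
  have := s2_lf M 0 j j
  simpa using this

private theorem s2_pol {M : Mat n} (hM : M.IsHermitian) (j k : Fin n) :
    (M j k).re = (lf M (e j + (1 : ℂ) • e k) - lf M (e j) - lf M (e k)) / 2 ∧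
    (M j k).im = (lf M (e j + Complex.I • e k) - lf M (e j) - lf M (e k)) / 2 := by
  have h := hM.apply k j
  have hr : (M k j).re = (M j k).re := by
    rw [← h]; simp
  have hi : (M k j).im = -(M j k).im := by
    rw [← h]; simp
  constructor
  · rw [s2_lf, s2_lf_e, s2_lf_e]
    simp [Complex.add_re, Complex.mul_re, hr, hi]
    ring
  · rw [s2_lf, s2_lf_e, s2_lf_e]
    simp [Complex.add_re, Complex.mul_re, hr, hi]
    ring

theorem ae_good (hΩ : IsOpen Ω) (hu : PSHd Ω u) :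
    ∀ᵐ x₁ : V n, x₁ ∈ Ω → ∃ H : Mat n, Good u x₁ H := by
  choose ν h1 h2 h3 h4 using fun v : V n => exists_lev_measure hΩ hu v
  have hA := fun v : V n => ae_kernel_measure hΩ (ν v) (h2 v)
  filter_upwards [ae_all_iff.2 (fun j : Fin n => hA (e j)),
    ae_all_iff.2 (fun p : Fin n × Fin n => hA (e p.1 + (1 : ℂ) • e p.2)),
    ae_all_iff.2 (fun p : Fin n × Fin n => hA (e p.1 + Complex.I • e p.2)),
    ae_kernel_fun hΩ hu.int] with x₁ g1 g2 g3 g4 hx₁
  have h2T : (2 : WithTop ℕ∞) ≤ ((⊤ : ℕ∞) : WithTop ℕ∞) := by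
    show ((2 : ℕ∞) : WithTop ℕ∞) ≤ _
    exact WithTop.coe_le_coe.2 le_top
  obtain ⟨δ, hδ, hδΩ⟩ := Metric.nhds_basis_closedBall.mem_iff.1 (hΩ.mem_nhds hx₁)
  -- small balls are in the domain
  have hsh : ∀ L : ℝ, 0 < L → ∀ᶠ s in 𝓝[>] (0 : ℝ), ∀ x ∈ closedBall x₁ (L * s), x ∈ shr Ω s := by
    intro L hL
    rw [s2_ev]
    refine ⟨δ / (L + 1), by positivity, fun s hs hs1 x hx => ?_⟩
    refine Subset.trans (closedBall_subset_closedBall' ?_) hδΩ
    rw [mem_closedBall] at hx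
    rw [lt_div_iff₀ (by positivity)] at hs1
    nlinarith
  have hherm : ∀ s : ℝ, 0 < s → ∀ x ∈ shr Ω s, (hess (fun y => Phi u y s) x).IsHermitian ∧
      ∀ w, lev (fun y => Phi u y s) x w = lf (hess (fun y => Phi u y s) x) w := by
    intro s hs x hx
    have hc : ContDiffAt ℝ 2 (fun y => Phi u y s) x :=
      ((contDiffOn_Phi_left hΩ hu.int hs).of_le h2T).contDiffAt ((isOpen_shr hΩ s).mem_nhds hx)
    exact ⟨hess_isHermitian hc, fun w => lev_eq_lf hc w⟩
  choose d1 d1n d1c d1m using fun j => g1 j hx₁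
  choose d2 d2n d2c d2m using fun p => g2 p hx₁
  choose d3 d3n d3c d3m using fun p => g3 p hx₁
  -- convergence of lev
  have hlev : ∀ (v : V n) (d : ℝ), (∀ L : ℝ, 0 < L → ∀ ε : ℝ, 0 < ε → ∃ s₀ : ℝ, 0 < s₀ ∧
      ∀ s : ℝ, 0 < s → s < s₀ → ∀ x ∈ closedBall x₁ (L * s),
        |(∫ y, rho (s⁻¹ • (y - x)) / s ^ (2 * n) ∂(ν v)) - d| ≤ ε) →
      ∀ L : ℝ, 0 < L → ∀ ε : ℝ, 0 < ε → ∀ᶠ s in 𝓝[>] (0 : ℝ), ∀ x ∈ closedBall x₁ (L * s),
        |lf (hess (fun y => Phi u y s) x) v - d| ≤ ε := by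
    intro v d hd L hL ε hε
    filter_upwards [s2_ev.2 (hd L hL ε hε), hsh L hL, self_mem_nhdsWithin] with s hs1 hs2 hs3 x hx
    rw [← (hherm s hs3 x (hs2 x hx)).2, h4 v s hs3 x (hs2 x hx)]
    exact hs1 x hx
  let H : Mat n := fun j k => (((d2 (j, k) - d1 j - d1 k) / 2 : ℝ) : ℂ) +
    (((d3 (j, k) - d1 j - d1 k) / 2 : ℝ) : ℂ) * Complex.I
  have hHre : ∀ j k, (H j k).re = (d2 (j, k) - d1 j - d1 k) / 2 := by
    intro j k
    show ((((d2 (j, k) - d1 j - d1 k) / 2 : ℝ) : ℂ) +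
      (((d3 (j, k) - d1 j - d1 k) / 2 : ℝ) : ℂ) * Complex.I).re = _
    rw [Complex.add_re, Complex.ofReal_re, Complex.re_ofReal_mul, Complex.I_re]
    ring
  have hHim : ∀ j k, (H j k).im = (d3 (j, k) - d1 j - d1 k) / 2 := by
    intro j k
    show ((((d2 (j, k) - d1 j - d1 k) / 2 : ℝ) : ℂ) +
      (((d3 (j, k) - d1 j - d1 k) / 2 : ℝ) : ℂ) * Complex.I).im = _
    rw [Complex.add_im, Complex.ofReal_im, Complex.im_ofReal_mul, Complex.I_im]
    ring
  have hconv : ∀ L : ℝ, 0 < L → ∀ ε : ℝ, 0 < ε → ∀ᶠ s in 𝓝[>] (0 : ℝ),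
      ∀ x ∈ closedBall x₁ (L * s), ∀ j k, ‖hess (fun y => Phi u y s) x j k - H j k‖ ≤ ε := by
    intro L hL ε hε
    have e1 : ∀ᶠ s in 𝓝[>] (0 : ℝ), ∀ j : Fin n, ∀ x ∈ closedBall x₁ (L * s),
        |lf (hess (fun y => Phi u y s) x) (e j) - d1 j| ≤ ε / 3 :=
      eventually_all.2 fun j => hlev _ _ (d1c j) L hL _ (by positivity)
    have e2 : ∀ᶠ s in 𝓝[>] (0 : ℝ), ∀ p : Fin n × Fin n, ∀ x ∈ closedBall x₁ (L * s),
        |lf (hess (fun y => Phi u y s) x) (e p.1 + (1 : ℂ) • e p.2) - d2 p| ≤ ε / 3 :=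
      eventually_all.2 fun j => hlev _ _ (d2c j) L hL _ (by positivity)
    have e3 : ∀ᶠ s in 𝓝[>] (0 : ℝ), ∀ p : Fin n × Fin n, ∀ x ∈ closedBall x₁ (L * s),
        |lf (hess (fun y => Phi u y s) x) (e p.1 + Complex.I • e p.2) - d3 p| ≤ ε / 3 :=
      eventually_all.2 fun j => hlev _ _ (d3c j) L hL _ (by positivity)
    filter_upwards [e1, e2, e3, hsh L hL, self_mem_nhdsWithin] with s a1 a2 a3 a4 a5 x hx j k
    obtain ⟨p1, p2⟩ := s2_pol (hherm s a5 x (a4 x hx)).1 j k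
    have b1 := abs_le.1 (a1 j x hx)
    have b1' := abs_le.1 (a1 k x hx)
    have b2 := abs_le.1 (a2 (j, k) x hx)
    have b3 := abs_le.1 (a3 (j, k) x hx)
    refine (Complex.norm_le_abs_re_add_abs_im _).trans ?_
    rw [Complex.sub_re, Complex.sub_im, hHre, hHim, p1, p2]
    have c1 : |(lf (hess (fun y => Phi u y s) x) (e j + (1 : ℂ) • e k) -
        lf (hess (fun y => Phi u y s) x) (e j) - lf (hess (fun y => Phi u y s) x) (e k)) / 2 -
        (d2 (j, k) - d1 j - d1 k) / 2| ≤ ε / 2 := by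
      rw [abs_le]
      simp only at b2
      constructor <;> linarith [b1.1, b1.2, b1'.1, b1'.2, b2.1, b2.2]
    have c2 : |(lf (hess (fun y => Phi u y s) x) (e j + Complex.I • e k) -
        lf (hess (fun y => Phi u y s) x) (e j) - lf (hess (fun y => Phi u y s) x) (e k)) / 2 -
        (d3 (j, k) - d1 j - d1 k) / 2| ≤ ε / 2 := by
      rw [abs_le]
      simp only at b3
      constructor <;> linarith [b1.1, b1.2, b1'.1, b1'.2, b3.1, b3.2]
    linarith
  have htend : ∀ j k, Tendsto (fun s => hess (fun y => Phi u y s) x₁ j k) (𝓝[>] 0) (𝓝 (H j k)) := by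
    intro j k
    rw [Metric.tendsto_nhds]
    intro ε hε
    filter_upwards [hconv 1 one_pos (ε / 2) (by positivity), self_mem_nhdsWithin] with s hs1 hs2
    rw [dist_eq_norm]
    have := hs1 x₁ (mem_closedBall_self (by rw [one_mul]; exact le_of_lt hs2)) j k
    linarith
  have hx₁s : ∀ᶠ s in 𝓝[>] (0 : ℝ), x₁ ∈ shr Ω s := by
    filter_upwards [hsh 1 one_pos, self_mem_nhdsWithin] with s hs1 hs2
    exact hs1 x₁ (mem_closedBall_self (by rw [one_mul]; exact le_of_lt hs2))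
  have hHh : H.IsHermitian := by
    ext j k
    rw [Matrix.conjTranspose_apply]
    have l1 := (continuous_star.tendsto _).comp (htend k j)
    refine tendsto_nhds_unique l1 ((htend j k).congr' ?_)
    filter_upwards [hx₁s, self_mem_nhdsWithin] with s hs1 hs2
    exact ((hherm s hs2 x₁ hs1).1.apply j k).symm
  refine ⟨H, ?_, ?_, g4 hx₁, ?_⟩
  · rw [posSemidef_iff_lf hHh]
    intro v
    have l1 : Tendsto (fun s => lf (hess (fun y => Phi u y s) x₁) v) (𝓝[>] 0) (𝓝 (lf H v)) := by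
      unfold lf
      refine (Complex.continuous_re.tendsto _).comp ?_
      refine tendsto_finsetSum _ fun j _ => tendsto_finsetSum _ fun k _ => ?_
      exact ((htend j k).mul_const _).mul_const _
    refine ge_of_tendsto l1 ?_
    filter_upwards [hx₁s, self_mem_nhdsWithin] with s hs1 hs2
    rw [← (hherm s hs2 x₁ hs1).2]
    exact (PSHd.mollify hΩ hu hs2).psh x₁ hs1 v
  · intro L hL ε hε
    exact s2_ev.1 (hconv L hL ε hε)
  · choose C r₀ hr₀ hC using d1m
    have hev : ∀ᶠ s in 𝓝[>] (0 : ℝ), (∀ l : Fin n, ν (e l) (closedBall x₁ (3 * s)) ≤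
        ENNReal.ofReal (C l * (3 * s) ^ (2 * n))) ∧ closedBall x₁ (3 * s) ⊆ Ω := by
      refine Filter.Eventually.and (eventually_all.2 fun l => ?_) ?_
      · rw [s2_ev]
        exact ⟨r₀ l / 3, by have := hr₀ l; positivity, fun s hs hs1 =>
          hC l (3 * s) (by positivity) (by linarith)⟩
      · rw [s2_ev]
        exact ⟨δ / 3, by positivity, fun s hs hs1 =>
          (closedBall_subset_closedBall (by linarith)).trans hδΩ⟩
    obtain ⟨s₀, hs₀, hs₀'⟩ := s2_ev.1 hev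
    refine ⟨2 * (∑ l, |C l|) * 3 ^ (2 * n), s₀, hs₀, fun s hs hss => ?_⟩
    obtain ⟨m1, m2⟩ := hs₀' s hs hss
    have hc : 0 ≤ (∑ l, |C l|) * (3 * s) ^ (2 * n) := by positivity
    have := s2_mass hΩ hu (ν := fun l => ν (e l)) (fun l => h2 (e l)) (fun l => h4 (e l)) hs m2 hc ?_
    · refine this.trans (le_of_eq ?_)
      rw [mul_pow]
      ring
    · rw [Finset.sum_mul, ENNReal.ofReal_sum_of_nonneg fun l _ => by positivity]
      refine Finset.sum_le_sum fun l _ => (m1 l).trans (ENNReal.ofReal_le_ofReal ?_)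
      exact mul_le_mul_of_nonneg_right (le_abs_self _) (by positivity)

end Pool.Agent.Helper13.AM
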