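import Pool.Agent.Helper13.AM.S2
import Pool.Agent.Helper13.AM.B4
import Pool.Agent.Helper13.AM.B7

/-!
AM-S3. (12.b) The determinant inequality at a good point.

Proof. Suppose `det H < f x₁`. Choose `x > 0` with `det (H + x) < f x₁` (continuity), then a large `L ≥ 2`
(depending on `x` and the constant `C` of `Good.mass`), then `s → 0`. Let `w = u.toReal`,
`q z = Phi w z s + x ‖z - x₁‖² - d`, `d = x L² s² / 2`. For small `s`, on a neighbourhood of
`closedBall x₁ (L s)`: `q` is smooth psh (`PSHd.mollify`, `SPsh.add`), `DD q z = det (hess (Phi w · s) z + x) <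
f z` (uniform convergence `Good.hess`, continuity of `det` and `f`), and `q ≥ w x₁ - 1` (`Good.val`). Fix
`j ∈ ℕ` with `-j < w x₁ - 1`, `uj = max u (-j)`, `m` its MA measure; on `{u > -j}` it is `f λ` (`IsNP.gt` with
`p = -j` and the hypothesis). `u ≤ Phi w · s` (`PSH.le_Phi`), so
`u - q ≤ d - x ‖z - x₁‖² < 0` for `‖z - x₁‖ ≥ r`, some `r < L s` (`x L² s² > d`), and
`uj < q` there (`-j < q`). `comparison` (on a small open neighbourhood of the closed ball, `IsMA.mono`):
`∫ (uj - q)⁺ dm ≤ ∫ (uj - q)⁺ DD q`; since `(uj - q)⁺ > 0` only where `u > q > -j`, the left side is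
`∫ (u - q)⁺ f` and `DD q < f`, so `(u - q)⁺ = 0` a.e. on the ball: `u ≤ q` a.e. So for a.e. `z` with
`‖z - x₁‖ < s ≤ L s / 2`: `Phi w z s - w z ≥ d - x ‖z - x₁‖² ≥ x L² s² / 4`, hence
`∫_{ball x₁ s} (Phi w · s - w) ≥ (x L²/4) vol(ball 0 1) s^{2n+2}`, contradicting `Good.mass` if
`x L² vol(ball 0 1) / 4 > C`.
-/

set_option autoImplicit false

namespace Pool.Agent.Helper13.AM

open MeasureTheory Set Filter Topology Metric
open Pool.Agent.Helper29.AM
open scoped ComplexOrder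

variable {n : ℕ} {Ω : Set (V n)} {u : V n → EReal}

private theorem detc24 (K₀ : Mat n) {c : ℝ} (h : K₀.det.re < c) :
    ∃ ε : ℝ, 0 < ε ∧ ∀ K : Mat n, (∀ j k, ‖K j k - K₀ j k‖ ≤ ε) → K.det.re < c := by
  let F : (Fin n → Fin n → ℂ) → ℝ := fun K => (Matrix.of K).det.re
  have hF : Continuous F := by
    have h1 : Continuous fun K : Fin n → Fin n → ℂ => (Matrix.of K : Mat n) := continuous_id
    exact Complex.continuous_re.comp h1.matrix_det
  let K₁ : Fin n → Fin n → ℂ := fun j k => K₀ j k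
  have h1 : ∀ᶠ K in 𝓝 K₁, F K < c :=
    hF.continuousAt.eventually_lt continuousAt_const h
  obtain ⟨δ, hδ, h2⟩ := Metric.eventually_nhds_iff.1 h1
  refine ⟨δ / 2, half_pos hδ, fun K hK => ?_⟩
  let K₂ : Fin n → Fin n → ℂ := fun j k => K j k
  have h3 : dist K₂ K₁ < δ := by
    rw [dist_pi_lt_iff hδ]
    intro j
    rw [dist_pi_lt_iff hδ]
    intro k
    rw [dist_eq_norm]
    exact lt_of_le_of_lt (hK j k) (half_lt_self hδ)
  exact h2 h3

private theorem detx24 (H : Mat n) {c : ℝ} (h : H.det.re < c) :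
    ∃ x : ℝ, 0 < x ∧ (H + (x : ℂ) • (1 : Mat n)).det.re < c := by
  obtain ⟨ε, hε, h1⟩ := detc24 H h
  refine ⟨ε, hε, h1 _ fun j k => ?_⟩
  rw [Matrix.add_apply, add_sub_cancel_left, Matrix.smul_apply, smul_eq_mul, norm_mul,
    Complex.norm_real, Real.norm_eq_abs, abs_of_pos hε]
  have h2 : ‖(1 : Mat n) j k‖ ≤ 1 := by
    rw [Matrix.one_apply]
    split_ifs <;> simp
  nlinarith

private theorem finrank24 : Module.finrank ℝ (V n) = 2 * n := by
  rw [← Module.finrank_mul_finrank ℝ ℂ (V n), Complex.finrank_real_complex,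
    finrank_euclideanSpace_fin]

private theorem normSq24 (W : Set (V n)) (z₀ : V n) : SPsh W (fun z => ‖z - z₀‖ ^ 2) := by
  refine ⟨?_, fun z _ w => ?_⟩
  · exact ((contDiff_id.sub contDiff_const).norm_sq ℝ).contDiffOn
  · rw [lev_normSq]
    positivity

private theorem hessc24 (c : ℝ) (z : V n) : hess (fun _ : V n => c) z = 0 := by
  ext j k
  unfold hess D2
  simp

private theorem cd24 {W : Set (V n)} (hW : IsOpen W) {u : V n → ℝ}
    (hu : ContDiffOn ℝ (⊤ : ℕ∞) u W) {z : V n} (hz : z ∈ W) : ContDiffAt ℝ 2 u z :=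
  (hu.contDiffAt (hW.mem_nhds hz)).of_le (WithTop.coe_le_coe.2 (le_top : (2 : ℕ∞) ≤ ⊤))

/-- the comparison step -/
private theorem comp24 (hΩ : IsOpen Ω) (hu : PSH Ω u) {f : V n → ℝ}
    (hf : ContinuousOn f Ω) (hf0 : ∀ z ∈ Ω, 0 < f z)
    (hν : IsNP Ω u ((volume.restrict Ω).withDensity fun z => ENNReal.ofReal (f z))) {x₁ : V n}
    {W : Set (V n)} (hW : IsOpen W) (hWΩ : W ⊆ Ω) {r R : ℝ} (hr : 0 < r) (hrR : r < R)
    (hB : closedBall x₁ R ⊆ W) {q : V n → ℝ} (hq : SPsh W q) (j : ℕ)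
    (hj : ∀ z ∈ W, -(j : ℝ) < q z) (hd : ∀ z ∈ W, DD q z < f z)
    (hlt : ∀ z, r ≤ ‖z - x₁‖ → ‖z - x₁‖ ≤ R → u z < (q z : EReal)) :
    ∀ᵐ z, z ∈ ball x₁ R → u z ≤ (q z : EReal) := by
  obtain ⟨m, hm, -⟩ := hν.lim
  set uj : V n → EReal := fun z => max (u z) ((-(j : ℝ) : ℝ) : EReal) with huj
  have hmj : IsMA Ω uj (m j) := hm j
  have hujP : PSH Ω uj := PSH.max hΩ hu (PSH.const Ω (-(j : ℝ)))
  have hujB : LB Ω uj :=
    hujP.LB_of_le (p := fun _ => -(j : ℝ)) continuousOn_const fun z _ => le_max_right _ _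
  have hmW : IsMA W uj ((m j).restrict W) := hmj.mono hΩ hW hWΩ
  have hR : 0 < R := hr.trans hrR
  have hBW : ball x₁ R ⊆ W := ball_subset_closedBall.trans hB
  have hBΩ : ball x₁ R ⊆ Ω := hBW.trans hWΩ
  have hcB : closedBall x₁ R ⊆ Ω := hB.trans hWΩ
  have hcomp := comparison hW (hujP.mono hWΩ) (hujB.mono hWΩ) hmW hr hrR hB hq
    (fun z h1 h2 => max_lt (hlt z h1 h2) (EReal.coe_lt_coe_iff.2 (hj z (hB (by
      rw [mem_closedBall, dist_eq_norm]; exact h2)))))
  set g : V n → ℝ := fun z => max ((uj z).toReal - q z) 0 with hg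
  have hujtop : ∀ z ∈ Ω, uj z ≠ ⊤ := fun z hz => (hujP.lt_top z hz).ne
  have hujbot : ∀ z, uj z ≠ ⊥ := fun z h => by
    have h1 : ((-(j : ℝ) : ℝ) : EReal) ≤ uj z := le_max_right _ _
    rw [h] at h1
    exact absurd (le_bot_iff.1 h1) (EReal.coe_ne_bot _)
  set S : Set (V n) := {z | z ∈ Ω ∧ ((-(j : ℝ) : ℝ) : EReal) < u z} with hS
  have hSm : MeasurableSet S :=
    (hu.measurableSet_gt hΩ (p := fun _ => -(j : ℝ)) continuousOn_const).1
  have hBm : MeasurableSet (ball x₁ R) := measurableSet_ball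
  have hBSm : MeasurableSet (ball x₁ R ∩ S) := hBm.inter hSm
  have hg0 : ∀ z ∈ ball x₁ R \ (ball x₁ R ∩ S), g z = 0 := by
    intro z hz
    have h1 : z ∉ S := fun h => hz.2 ⟨hz.1, h⟩
    have h2 : u z ≤ ((-(j : ℝ) : ℝ) : EReal) := by
      by_contra h
      exact h1 ⟨hBΩ hz.1, not_le.1 h⟩
    have h3 : uj z = ((-(j : ℝ) : ℝ) : EReal) := max_eq_right h2
    have h4 := hj z (hBW hz.1)
    simp only [hg]
    rw [h3, EReal.toReal_coe]
    exact max_eq_right (by linarith)
  set ν : Measure (V n) := (volume.restrict Ω).withDensity fun z => ENNReal.ofReal (f z) with hνdef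
  have hres : (m j).restrict (ball x₁ R ∩ S) = ν.restrict (ball x₁ R ∩ S) := by
    refine Measure.ext fun E hE => ?_
    rw [Measure.restrict_apply hE, Measure.restrict_apply hE]
    refine (IsNP.gt hΩ hu hν (SPsh.const Ω (-(j : ℝ))) hmj _ ?_ (hE.inter hBSm)).symm
    exact fun z hz => hz.2.2
  have hL : ∫ z in ball x₁ R, g z ∂((m j).restrict W) = ∫ z in ball x₁ R, f z * g z := by
    rw [Measure.restrict_restrict_of_subset hBW,
      setIntegral_eq_of_subset_of_forall_sdiff_eq_zero hBm inter_subset_left hg0, hres,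
      ← setIntegral_eq_of_subset_of_forall_sdiff_eq_zero hBm inter_subset_left hg0, hνdef,
      restrict_withDensity hBm, Measure.restrict_restrict_of_subset hBΩ]
    have hfm : AEMeasurable f (volume.restrict (ball x₁ R)) :=
      (hf.mono hBΩ).aemeasurable hBm
    rw [integral_withDensity_eq_integral_toReal_smul₀ hfm.ennreal_ofReal
      (Eventually.of_forall fun z => ENNReal.ofReal_lt_top)]
    refine setIntegral_congr_fun hBm fun z hz => ?_
    simp only [smul_eq_mul]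
    rw [ENNReal.toReal_ofReal (hf0 z (hBΩ hz)).le]
  have hcK : IsCompact (closedBall x₁ R) := isCompact_closedBall _ _
  have hint : IntegrableOn g (closedBall x₁ R) volume := by
    have h1 : IntegrableOn (fun z => (uj z).toReal) (closedBall x₁ R) volume :=
      (hujP.locInt hΩ).integrableOn_compact_subset hcB hcK
    have h2 : IntegrableOn q (closedBall x₁ R) volume :=
      (hq.smooth.continuousOn.mono hB).integrableOn_compact hcK
    exact (h1.sub h2).pos_part
  have hDD : ContinuousOn (DD q) (closedBall x₁ R) :=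
    (contDiffOn_DD hW hq.smooth).continuousOn.mono hB
  have i1 : IntegrableOn (fun z => g z * f z) (ball x₁ R) volume :=
    (hint.mul_continuousOn (hf.mono hcB) hcK).mono_set ball_subset_closedBall
  have i2 : IntegrableOn (fun z => g z * DD q z) (ball x₁ R) volume :=
    (hint.mul_continuousOn hDD hcK).mono_set ball_subset_closedBall
  have hle : ∫ z in ball x₁ R, g z * (f z - DD q z) ≤ 0 := by
    have h1 : ∫ z in ball x₁ R, g z * (f z - DD q z) =
        (∫ z in ball x₁ R, g z * f z) - ∫ z in ball x₁ R, g z * DD q z := by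
      rw [← integral_sub i1 i2]
      refine integral_congr_ae (Eventually.of_forall fun z => ?_)
      simp only
      ring
    have h2 : ∫ z in ball x₁ R, g z * f z = ∫ z in ball x₁ R, f z * g z := by
      refine integral_congr_ae (Eventually.of_forall fun z => ?_)
      simp only
      ring
    rw [h1, h2, ← hL]
    linarith [hcomp]
  have hnn : 0 ≤ᵐ[volume.restrict (ball x₁ R)] fun z => g z * (f z - DD q z) := by
    refine (ae_restrict_iff' hBm).2 (Eventually.of_forall fun z hz => ?_)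
    exact mul_nonneg (le_max_right _ _) (by linarith [hd z (hBW hz)])
  have i3 : Integrable (fun z => g z * (f z - DD q z)) (volume.restrict (ball x₁ R)) := by
    refine (i1.sub i2).congr (Eventually.of_forall fun z => ?_)
    simp only [Pi.sub_apply]
    ring
  have hz := (integral_eq_zero_iff_of_nonneg_ae hnn i3).1
    (le_antisymm hle (integral_nonneg_of_ae hnn))
  have hz' := (ae_restrict_iff' hBm).1 hz
  filter_upwards [hz'] with z h1 h2
  have h3 : g z * (f z - DD q z) = 0 := h1 h2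
  have h4 : f z - DD q z ≠ 0 := by
    have := hd z (hBW h2)
    linarith
  have h5 : g z = 0 := (mul_eq_zero.1 h3).resolve_right h4
  have h6 : (uj z).toReal - q z ≤ 0 := by
    rw [← h5]
    exact le_max_left _ _
  have h7 : ((uj z).toReal : EReal) = uj z := EReal.coe_toReal (hujtop z (hBΩ h2)) (hujbot z)
  calc u z ≤ uj z := le_max_left _ _
    _ = ((uj z).toReal : EReal) := h7.symm
    _ ≤ (q z : EReal) := EReal.coe_le_coe_iff.2 (by linarith)

theorem det_ge_of_good (hn : 0 < n) (hΩ : IsOpen Ω) (hu : PSH Ω u) {f : V n → ℝ}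
    (hf : ContinuousOn f Ω) (hf0 : ∀ z ∈ Ω, 0 < f z)
    (hν : IsNP Ω u ((volume.restrict Ω).withDensity fun z => ENNReal.ofReal (f z))) {x₁ : V n}
    (hx : x₁ ∈ Ω) (hux : u x₁ ≠ ⊥) {H : Mat n} (hH : Good (fun z => (u z).toReal) x₁ H) :
    f x₁ ≤ H.det.re := by
  set w : V n → ℝ := fun z => (u z).toReal with hw
  by_contra hcon
  push Not at hcon
  obtain ⟨x, hx0, hxdet⟩ := detx24 H hcon
  obtain ⟨c, hc1, hc2⟩ := exists_between hxdet
  obtain ⟨ε, hε, hK⟩ := detc24 (H + (x : ℂ) • (1 : Mat n)) hc1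
  obtain ⟨C, s₁, hs₁, hmass⟩ := hH.mass
  set b : ℝ := volume.real (ball (0 : V n) 1) with hb
  have hb0 : 0 < b := by
    rw [hb, measureReal_def]
    exact ENNReal.toReal_pos (measure_ball_pos _ _ one_pos).ne' measure_ball_lt_top.ne
  obtain ⟨L, hL2, hLC⟩ : ∃ L : ℝ, 2 ≤ L ∧ C < x * L ^ 2 * b / 4 := by
    refine ⟨2 + 4 * |C| / (x * b), ?_, ?_⟩
    · have : 0 ≤ 4 * |C| / (x * b) := by positivity
      linarith
    · set T := 4 * |C| / (x * b) with hT
      have hT0 : 0 ≤ T := by positivity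
      have h1 : x * b * T = 4 * |C| := by
        rw [hT]
        field_simp
      have h2 : x * (2 + T) ^ 2 * b / 4 = (x * b) + x * b * T + x * b * T ^ 2 / 4 := by ring
      rw [h2, h1]
      have h3 : 0 < x * b := by positivity
      have h4 : 0 ≤ x * b * T ^ 2 / 4 := by positivity
      have h5 := le_abs_self C
      have h6 := abs_nonneg C
      linarith
  have hL0 : 0 < L := by linarith
  obtain ⟨s₂, hs₂, hhess⟩ := hH.hess (L + 1) (by linarith) ε hε
  obtain ⟨s₃, hs₃, hval⟩ := hH.val (L + 1) (by linarith) (1 / 2) (by norm_num)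
  obtain ⟨ρ, hρ, hρΩ, hρf⟩ : ∃ ρ : ℝ, 0 < ρ ∧ ball x₁ ρ ⊆ Ω ∧ ∀ z ∈ ball x₁ ρ, c < f z := by
    have h1 : ∀ᶠ z in 𝓝 x₁, c < f z :=
      continuousAt_const.eventually_lt (hf.continuousAt (hΩ.mem_nhds hx)) hc2
    obtain ⟨ρ, hρ, h2⟩ := Metric.eventually_nhds_iff.1 (h1.and (hΩ.mem_nhds hx))
    exact ⟨ρ, hρ, fun z hz => (h2 hz).2, fun z hz => (h2 hz).1⟩
  obtain ⟨s, hs0, hss₁, hss₂, hss₃, hsρ, hsL⟩ : ∃ s : ℝ, 0 < s ∧ s < s₁ ∧ s < s₂ ∧ s < s₃ ∧
      (L + 3) * s < ρ ∧ x * L ^ 2 * s ^ 2 < 1 := by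
    have e1 : ∀ᶠ s in 𝓝[>] (0 : ℝ), s ∈ Ioo 0 s₁ := Ioo_mem_nhdsGT hs₁
    have e2 : ∀ᶠ s in 𝓝[>] (0 : ℝ), s ∈ Ioo 0 s₂ := Ioo_mem_nhdsGT hs₂
    have e3 : ∀ᶠ s in 𝓝[>] (0 : ℝ), s ∈ Ioo 0 s₃ := Ioo_mem_nhdsGT hs₃
    have e4 : ∀ᶠ s in 𝓝[>] (0 : ℝ), (L + 3) * s < ρ := by
      refine mem_nhdsWithin_of_mem_nhds ?_
      have h1 : ContinuousAt (fun s : ℝ => (L + 3) * s) 0 := by fun_prop
      exact h1.eventually_lt continuousAt_const (by simpa using hρ)
    have e5 : ∀ᶠ s in 𝓝[>] (0 : ℝ), x * L ^ 2 * s ^ 2 < 1 := by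
      refine mem_nhdsWithin_of_mem_nhds ?_
      have h1 : ContinuousAt (fun s : ℝ => x * L ^ 2 * s ^ 2) 0 := by fun_prop
      exact h1.eventually_lt continuousAt_const (by simp)
    obtain ⟨s, h1, h2, h3, h4, h5⟩ := (e1.and (e2.and (e3.and (e4.and e5)))).exists
    exact ⟨s, h1.1, h1.2, h2.2, h3.2, h4, h5⟩
  set W : Set (V n) := ball x₁ ((L + 1) * s) with hWdef
  have hW : IsOpen W := isOpen_ball
  have hWρ : W ⊆ ball x₁ ρ := ball_subset_ball (by nlinarith)
  have hWΩ : W ⊆ Ω := hWρ.trans hρΩ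
  have hWshr : W ⊆ shr Ω s := by
    intro z hz y hy
    apply hρΩ
    rw [mem_ball] at hz ⊢
    rw [mem_closedBall] at hy
    have h1 := dist_triangle y z x₁
    nlinarith
  have hLs : 0 < L * s := by positivity
  have hBW : closedBall x₁ (L * s) ⊆ W := closedBall_subset_ball (by nlinarith)
  have hPw : PSHd Ω w := hu.pshd hΩ
  have hP : SPsh W (fun z => Phi w z s) := SPsh.mono (PSHd.mollify hΩ hPw hs0) hWshr
  have hN : SPsh W (fun z : V n => ‖z - x₁‖ ^ 2) := normSq24 W x₁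
  set d : ℝ := x * L ^ 2 * s ^ 2 / 2 with hd
  set q : V n → ℝ := fun z => (Phi w z s + x * ‖z - x₁‖ ^ 2) + -d with hqdef
  have hq : SPsh W q := SPsh.add hW (SPsh.add hW hP (SPsh.smul hW hN hx0.le)) (SPsh.const W _)
  have hhq : ∀ z ∈ W, hess q z = hess (fun y => Phi w y s) z + (x : ℂ) • (1 : Mat n) := by
    intro z hz
    have c1 := cd24 hW hP.smooth hz
    have c2 := cd24 hW hN.smooth hz
    have c3 := cd24 hW (SPsh.smul hW hN hx0.le).smooth hz
    have c4 := cd24 hW (SPsh.add hW hP (SPsh.smul hW hN hx0.le)).smooth hz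
    rw [hqdef, hess_add c4 contDiffAt_const, hess_add c1 c3, hess_const_mul x c2, hess_normSq,
      hessc24, add_zero]
  have hDq : ∀ z ∈ W, DD q z < f z := by
    intro z hz
    have h1 : DD q z < c := by
      refine hK _ fun j k => ?_
      rw [hhq z hz, Matrix.add_apply, Matrix.add_apply, add_sub_add_right_eq_sub]
      exact hhess s hs0 hss₂ z (ball_subset_closedBall hz) j k
    exact h1.trans (hρf z (hWρ hz))
  obtain ⟨j, hj⟩ := exists_nat_gt (-(w x₁ - 1))
  have hjq : ∀ z ∈ W, -(j : ℝ) < q z := by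
    intro z hz
    have h1 := (abs_le.1 (hval s hs0 hss₃ z (ball_subset_closedBall hz))).1
    have h2 : 0 ≤ x * ‖z - x₁‖ ^ 2 := by positivity
    simp only [hqdef, hd]
    linarith
  have hae := comp24 hΩ hu hf hf0 hν hW hWΩ (r := 3 / 4 * (L * s)) (R := L * s) (by positivity)
    (by linarith) hBW hq j hjq hDq (fun z h1 h2 => by
      have hzW : z ∈ W := hBW (by rw [mem_closedBall, dist_eq_norm]; exact h2)
      refine lt_of_le_of_lt (hu.le_Phi hΩ hs0 (hWshr hzW)) ?_
      rw [EReal.coe_lt_coe_iff]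
      have h3 : (3 / 4 * (L * s)) ^ 2 ≤ ‖z - x₁‖ ^ 2 := pow_le_pow_left₀ (by positivity) h1 2
      have h4 : x * (3 / 4 * (L * s)) ^ 2 ≤ x * ‖z - x₁‖ ^ 2 :=
        mul_le_mul_of_nonneg_left h3 hx0.le
      have h5 : x * (3 / 4 * (L * s)) ^ 2 = 9 / 16 * (x * L ^ 2 * s ^ 2) := by ring
      have h6 : 0 < x * L ^ 2 * s ^ 2 := by positivity
      show Phi w z s < q z
      simp only [hqdef, hd]
      linarith)
  have hms := hmass s hs0 hss₁
  have hbs : closedBall x₁ s ⊆ W := closedBall_subset_ball (by nlinarith)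
  have hbs' : ball x₁ s ⊆ ball x₁ (L * s) := ball_subset_ball (by nlinarith)
  have hcK : IsCompact (closedBall x₁ s) := isCompact_closedBall _ _
  have j1 : IntegrableOn (fun z => Phi w z s - w z) (ball x₁ s) volume := by
    have h1 : IntegrableOn (fun z => Phi w z s) (closedBall x₁ s) volume :=
      (hP.smooth.continuousOn.mono hbs).integrableOn_compact hcK
    have h2 : IntegrableOn w (closedBall x₁ s) volume :=
      (hu.locInt hΩ).integrableOn_compact_subset (hbs.trans hWΩ) hcK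
    exact (h1.sub h2).mono_set ball_subset_closedBall
  have j2 : IntegrableOn (fun _ : V n => x * L ^ 2 * s ^ 2 / 4) (ball x₁ s) volume :=
    integrableOn_const measure_ball_lt_top.ne
  have hmono : ∫ z in ball x₁ s, x * L ^ 2 * s ^ 2 / 4 ≤ ∫ z in ball x₁ s, (Phi w z s - w z) := by
    refine integral_mono_ae j2 j1 ?_
    refine (ae_restrict_iff' measurableSet_ball).2 ?_
    filter_upwards [hae, hu.ae_bot] with z h1 h2 hz
    have hzW : z ∈ W := hbs (ball_subset_closedBall hz)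
    have h3 : ((w z : ℝ) : EReal) = u z :=
      EReal.coe_toReal (hu.lt_top z (hWΩ hzW)).ne (h2 (hWΩ hzW))
    have h4 : w z ≤ q z := by
      have h5 := h1 (hbs' hz)
      rw [← h3] at h5
      exact EReal.coe_le_coe_iff.1 h5
    have h6 : ‖z - x₁‖ ≤ s := by
      rw [← dist_eq_norm]
      exact (mem_ball.1 hz).le
    have h7 : ‖z - x₁‖ ^ 2 ≤ s ^ 2 := pow_le_pow_left₀ (norm_nonneg _) h6 2
    have h8 : x * ‖z - x₁‖ ^ 2 ≤ x * s ^ 2 := mul_le_mul_of_nonneg_left h7 hx0.le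
    have h9 : 0 < x * s ^ 2 := by positivity
    have h10 : 4 * (x * s ^ 2) ≤ x * L ^ 2 * s ^ 2 := by
      have : (4 : ℝ) ≤ L ^ 2 := by nlinarith
      nlinarith
    simp only [hqdef, hd] at h4
    show x * L ^ 2 * s ^ 2 / 4 ≤ Phi w z s - w z
    linarith
  have hvol : volume.real (ball x₁ s) = s ^ (2 * n) * b := by
    rw [measureReal_def, Measure.addHaar_ball_of_pos _ _ hs0, finrank24, ENNReal.toReal_mul,
      ENNReal.toReal_ofReal (by positivity), hb, measureReal_def]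
  rw [setIntegral_const, smul_eq_mul, hvol] at hmono
  have hfin : s ^ (2 * n) * b * (x * L ^ 2 * s ^ 2 / 4) ≤ C * s ^ (2 * n + 2) := hmono.trans hms
  have hp : 0 < s ^ (2 * n + 2) := by positivity
  have h1 : s ^ (2 * n) * b * (x * L ^ 2 * s ^ 2 / 4) = (x * L ^ 2 * b / 4) * s ^ (2 * n + 2) := by
    rw [pow_add]
    ring
  rw [h1] at hfin
  have h2 := le_of_mul_le_mul_right hfin hp
  linarith

end Pool.Agent.Helper13.AM
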